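import Pool.Agent.H595.Dens.Good

/-!
# Lower bounds for lower densities
-/

set_option autoImplicit false

namespace Pool.Agent.H595.Dens

open MeasureTheory Filter Topology Set

theorem vol_mono (S : Set ℝ) {s t : ℝ} (hst : s ≤ t) :
    (volume (S ∩ Icc 0 s)).toReal ≤ (volume (S ∩ Icc 0 t)).toReal :=
  ENNReal.toReal_mono (vol_ne_top S t) (measure_mono (inter_subset_inter_right _ (Icc_subset_Icc_right hst)))

theorem meas_lower {S : Set ℝ} {s t : ℝ} (hs : 0 ≤ s) (hst : s ≤ t) (h : Ico s t ⊆ S) :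
    (volume (S ∩ Icc 0 s)).toReal + (t - s) ≤ (volume (S ∩ Icc 0 t)).toReal := by
  have h1 : (S ∩ Icc 0 s) ∪ Ioo s t ⊆ S ∩ Icc 0 t := by
    rintro y (⟨hy, hy1, hy2⟩ | ⟨hy1, hy2⟩)
    · exact ⟨hy, hy1, hy2.trans hst⟩
    · exact ⟨h ⟨hy1.le, hy2⟩, hs.trans hy1.le, hy2.le⟩
  have hd : Disjoint (S ∩ Icc 0 s) (Ioo s t) := by
    rw [Set.disjoint_left]
    rintro y ⟨-, -, hy⟩ ⟨hy1, -⟩
    exact absurd hy1 (not_lt.2 hy)
  have h2 : volume (S ∩ Icc 0 s) + ENNReal.ofReal (t - s) ≤ volume (S ∩ Icc 0 t) := by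
    rw [← Real.volume_Ioo, ← measure_union hd measurableSet_Ioo]
    exact measure_mono h1
  have h3 := ENNReal.toReal_mono (vol_ne_top S t) h2
  rwa [ENNReal.toReal_add (vol_ne_top S s) ENNReal.ofReal_ne_top,
    ENNReal.toReal_ofReal (by linarith)] at h3

/-- **Lower bound.** -/
theorem lowdens {S : Set ℝ} {x K g : ℕ → ℝ} {D : ℝ} (hx0 : 0 ≤ x 0) (hxK : ∀ n, x n ≤ K n)
    (hKx : ∀ n, K n ≤ x (n + 1)) (hS : ∀ n, Ico (x n) (K n) ⊆ S) (hg0 : g 0 = 0)
    (hg : ∀ n, g (n + 1) = g n + K n - x n) (hD : D ≤ 1) (hlim : Tendsto x atTop atTop)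
    (h : ∀ η : ℝ, 0 < η → ∀ᶠ n in atTop, (D - η) * x n ≤ g n) : D ≤ lowerDensity S := by
  have hx : ∀ n, 0 ≤ x n := by
    intro n
    induction n with
    | zero => exact hx0
    | succ n ih => exact ih.trans ((hxK n).trans (hKx n))
  have hm : Monotone x := monotone_nat_of_le_succ fun n => (hxK n).trans (hKx n)
  have hgv : ∀ n, g n ≤ (volume (S ∩ Icc 0 (x n))).toReal := by
    intro n
    induction n with
    | zero => rw [hg0]; positivity
    | succ n ih =>
      rw [hg n]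
      have h1 := meas_lower (hx n) (hxK n) (hS n)
      have h2 := vol_mono S (hKx n)
      linarith
  apply le_lowerDensity
  intro η hη
  obtain ⟨n₀, hn₀⟩ := eventually_atTop.1 (h η hη)
  refine ⟨x n₀, fun T hT => ?_⟩
  -- the index
  obtain ⟨n, hn, hn1, hn2⟩ : ∃ n, n₀ ≤ n ∧ x n ≤ T ∧ T < x (n + 1) := by
    obtain ⟨M, hM⟩ := eventually_atTop.1 (hlim.eventually (eventually_gt_atTop T))
    have hex : ∃ k, T < x (n₀ + k) := ⟨M, hM _ (by omega)⟩
    classical
    have hk := Nat.find_spec hex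
    rcases Nat.eq_zero_or_pos (Nat.find hex) with h0 | h0
    · rw [h0] at hk
      exact absurd hT (not_le.2 hk)
    · have h1 := Nat.find_min hex (show Nat.find hex - 1 < Nat.find hex by omega)
      refine ⟨n₀ + (Nat.find hex - 1), by omega, not_lt.1 h1, ?_⟩
      rw [show n₀ + (Nat.find hex - 1) + 1 = n₀ + Nat.find hex by omega]
      exact hk
  have hT0 : 0 ≤ T := (hx n).trans hn1
  rcases le_total T (K n) with hTK | hTK
  · have h1 := meas_lower (S := S) (hx n) hn1 ((Ico_subset_Ico_right hTK).trans (hS n))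
    have h2 := hn₀ n hn
    have h3 := hgv n
    have h4 : 0 ≤ (1 - (D - η)) * (T - x n) := mul_nonneg (by linarith) (by linarith)
    linarith
  · have h1 := meas_lower (S := S) (hx n) (hxK n) (hS n)
    have h2 := vol_mono S hTK
    have h3 := hgv n
    have h4 := hn₀ (n + 1) (by omega)
    rw [hg n] at h4
    by_cases hDη : 0 ≤ D - η
    · have h5 := mul_le_mul_of_nonneg_left hn2.le hDη
      linarith
    · have h5 : (D - η) * T ≤ 0 := mul_nonpos_of_nonpos_of_nonneg (by linarith) hT0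
      have h6 : 0 ≤ (volume (S ∩ Icc 0 T)).toReal := ENNReal.toReal_nonneg
      linarith

end Pool.Agent.H595.Dens
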