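import Pool.Agent.H595.Dens.Gen
import Pool.Agent.H595.Dens.LowD

/-!
# Numbers `t` with many near relations
-/

set_option autoImplicit false

namespace Pool.Agent.H595.Dens

open MeasureTheory Filter Topology Set

variable {ι : Type*} [Fintype ι] [DecidableEq ι]

/-- the number `t` for which a relation holds exactly -/
noncomputable def tv (ξ : ι → ℝ) (i₀ : ι) (v : ι → ℤ) : ℝ := -(∑ i, (v i : ℝ) * ξ i) / v i₀

omit [DecidableEq ι] in
theorem form_ne {ξ : ι → ℝ} {i₀ : ι} {m : ℝ} (hξ : LinM ξ i₀ m) {v : ι → ℤ} (hv : v ≠ 0) (h0 : v i₀ = 0) :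
    0 < |∑ i, (v i : ℝ) * ξ i| := by
  obtain ⟨c, hc, h⟩ := hξ 1 one_pos
  have h1 := h v (ht v) hv h0 (one_le_ht hv) (abs_le_ht v)
  have h2 : 0 < (ht v : ℝ) ^ (m + 1) := by
    have := one_le_ht hv
    positivity
  by_contra hcon
  have h3 : |∑ i, (v i : ℝ) * ξ i| = 0 := le_antisymm (not_lt.1 hcon) (abs_nonneg _)
  rw [h3, mul_zero] at h1
  linarith

theorem valu_eq {ξ : ι → ℝ} {i₀ : ι} (h0 : ξ i₀ = 0) (t : ℝ) {v : ι → ℤ} (hv : 0 < v i₀) :
    valu (Function.update ξ i₀ t) v = v i₀ * |t - tv ξ i₀ v| := by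
  have hv' : (0 : ℝ) < v i₀ := by exact_mod_cast hv
  rw [valu, sum_update h0, ← abs_of_pos hv', ← abs_mul, abs_of_pos hv', tv]
  congr 1
  field_simp
  ring

omit [DecidableEq ι] in
theorem step {ξ : ι → ℝ} {i₀ : ι} {m : ℕ} (hξ : LinM ξ i₀ m) {C : ℝ} (hC : 0 < C)
    (hdir : ∀ Q : ℕ, 1 ≤ Q → ∃ P : ι → ℤ, P ≠ 0 ∧ P i₀ = 0 ∧ (∀ i, |(P i : ℝ)| ≤ Q) ∧
      |∑ i, (P i : ℝ) * ξ i| ≤ C / Q ^ m) (n : ℕ) (v : ι → ℤ) (hv : 0 < v i₀) (δ : ℝ) (hδ : 0 < δ) :
    ∃ (Q : ℕ) (v' : ι → ℤ), 1 ≤ Q ∧ ht v ^ n ≤ Q ∧ 2 ^ n ≤ Q ∧ 0 < v' i₀ ∧ Q ≤ ht v' ∧ ht v' ≤ 2 * Q * ht v ∧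
      0 < |tv ξ i₀ v' - tv ξ i₀ v| ∧ |tv ξ i₀ v' - tv ξ i₀ v| ≤ δ ∧
      v i₀ * |tv ξ i₀ v' - tv ξ i₀ v| ≤ C / Q ^ (m + 1) := by
  obtain ⟨N, hN⟩ := exists_nat_ge (C / δ)
  obtain ⟨Q, hQ1, hQ2, hQ3, hQN⟩ : ∃ Q : ℕ, 1 ≤ Q ∧ ht v ^ n ≤ Q ∧ 2 ^ n ≤ Q ∧ N ≤ Q := by
    generalize ht v ^ n = a
    generalize 2 ^ n = b
    exact ⟨1 + a + b + N, by omega, by omega, by omega, by omega⟩
  have hQr : (1 : ℝ) ≤ Q := by exact_mod_cast hQ1
  obtain ⟨P, hP, hP0, hPQ, hPξ⟩ := hdir Q hQ1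
  have hvr : (1 : ℝ) ≤ v i₀ := by exact_mod_cast hv
  have hv0 : v ≠ 0 := by
    intro h
    rw [h] at hv
    simp at hv
  refine ⟨Q, fun i => Q * v i + P i, hQ1, hQ2, hQ3, ?_, ?_, ?_, ?_, ?_, ?_⟩
  · simp only [hP0, add_zero]
    positivity
  · have h1 := abs_le_ht (fun i => (Q : ℤ) * v i + P i) i₀
    have h2 : (Q : ℝ) ≤ ht (fun i => (Q : ℤ) * v i + P i) := by
      refine le_trans ?_ h1
      simp only [hP0, add_zero]
      push_cast
      rw [abs_of_nonneg (by positivity)]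
      exact le_mul_of_one_le_right (by linarith) hvr
    exact_mod_cast h2
  · have h1 : (ht (fun i => (Q : ℤ) * v i + P i) : ℝ) ≤ 2 * Q * ht v := by
      apply (ht_le (by positivity)).2
      intro i
      push_cast
      refine (abs_add_le _ _).trans ?_
      rw [abs_mul, abs_of_nonneg (by linarith : (0 : ℝ) ≤ Q)]
      have h2 := mul_le_mul_of_nonneg_left (abs_le_ht v i) (by linarith : (0 : ℝ) ≤ Q)
      have h3 := hPQ i
      have h4 := le_mul_of_one_le_right (by linarith : (0 : ℝ) ≤ Q) (one_le_ht hv0)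
      linarith
    exact_mod_cast h1
  all_goals
    have hdiff : tv ξ i₀ (fun i => (Q : ℤ) * v i + P i) - tv ξ i₀ v = -(∑ i, (P i : ℝ) * ξ i) / (Q * v i₀) := by
      rw [tv, tv]
      simp only [hP0, add_zero]
      have : ∑ i, (((Q : ℤ) * v i + P i : ℤ) : ℝ) * ξ i = Q * (∑ i, (v i : ℝ) * ξ i) + ∑ i, (P i : ℝ) * ξ i := by
        rw [Finset.mul_sum, ← Finset.sum_add_distrib]
        apply Finset.sum_congr rfl
        intro i _
        push_cast
        ring
      rw [this]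
      push_cast
      field_simp
      ring
    have habs : |tv ξ i₀ (fun i => (Q : ℤ) * v i + P i) - tv ξ i₀ v| = |∑ i, (P i : ℝ) * ξ i| / (Q * v i₀) := by
      rw [hdiff, abs_div, abs_neg, abs_of_pos (by positivity : (0 : ℝ) < Q * v i₀)]
    have hpos := form_ne hξ hP hP0
  · rw [habs]
    positivity
  · rw [habs, div_le_iff₀ (by positivity)]
    have h1 : C / Q ^ m ≤ C := by
      apply div_le_self hC.le
      exact one_le_pow₀ hQr
    have h2 : C ≤ δ * Q := by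
      have h3 : (N : ℝ) ≤ Q := by exact_mod_cast hQN
      have h4 := hN.trans h3
      rwa [div_le_iff₀' hδ] at h4
    have h5 : δ * Q ≤ δ * (Q * v i₀) := by
      apply mul_le_mul_of_nonneg_left _ hδ.le
      exact le_mul_of_one_le_right (by linarith) hvr
    linarith
  · rw [habs]
    have h1 : (v i₀ : ℝ) * (|∑ i, (P i : ℝ) * ξ i| / (Q * v i₀)) = |∑ i, (P i : ℝ) * ξ i| / Q := by
      field_simp
    rw [h1, pow_succ, ← div_div]
    gcongr

/-- the sequence of relations -/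
theorem exists_rels {ξ : ι → ℝ} {i₀ : ι} {m : ℕ} (hξ : LinM ξ i₀ m) (hcard : Fintype.card ι = m + 2)
    (v₀ : ι → ℤ) (hv₀ : 0 < v₀ i₀) (δ : ℝ) (hδ : 0 < δ) :
    ∃ C : ℝ, 0 < C ∧ ∃ (v : ℕ → ι → ℤ) (Q : ℕ → ℕ), v 0 = v₀ ∧
      |tv ξ i₀ (v 1) - tv ξ i₀ (v 0)| ≤ δ ∧ ∀ n, 0 < v n i₀ ∧ 1 ≤ Q n ∧ ht (v n) ^ n ≤ Q n ∧ 2 ^ n ≤ Q n ∧
        Q n ≤ ht (v (n + 1)) ∧ ht (v (n + 1)) ≤ 2 * Q n * ht (v n) ∧
        0 < |tv ξ i₀ (v (n + 1)) - tv ξ i₀ (v n)| ∧
        |tv ξ i₀ (v (n + 2)) - tv ξ i₀ (v (n + 1))| ≤ |tv ξ i₀ (v (n + 1)) - tv ξ i₀ (v n)| / 4 ∧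
        v n i₀ * |tv ξ i₀ (v (n + 1)) - tv ξ i₀ (v n)| ≤ C / Q n ^ (m + 1) := by
  obtain ⟨C, hC, hdir⟩ := dirichlet ξ i₀ m hcard
  refine ⟨C, hC, ?_⟩
  choose! FQ Fv h1 h2 h3 h4 h5 h6 h7 h8 h9 using step hξ hC hdir
  -- the states
  let nxt : ℕ → (ι → ℤ) × ℝ → (ι → ℤ) × ℝ := fun n s =>
    (Fv n s.1 s.2, |tv ξ i₀ (Fv n s.1 s.2) - tv ξ i₀ s.1| / 4)
  let S : ℕ → (ι → ℤ) × ℝ := fun n => Nat.rec (v₀, δ) nxt n
  have hS : ∀ n, S (n + 1) = nxt n (S n) := fun n => rfl
  have hgood : ∀ n, 0 < (S n).1 i₀ ∧ 0 < (S n).2 := by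
    intro n
    induction n with
    | zero => exact ⟨hv₀, hδ⟩
    | succ n ih =>
      rw [hS]
      exact ⟨h4 n _ ih.1 _ ih.2, div_pos (h7 n _ ih.1 _ ih.2) (by norm_num)⟩
  refine ⟨fun n => (S n).1, fun n => FQ n (S n).1 (S n).2, rfl, ?_, fun n => ?_⟩
  · exact h8 0 _ (hgood 0).1 _ (hgood 0).2
  · obtain ⟨g1, g2⟩ := hgood n
    obtain ⟨g3, g4⟩ := hgood (n + 1)
    exact ⟨g1, h1 n _ g1 _ g2, h2 n _ g1 _ g2, h3 n _ g1 _ g2, h5 n _ g1 _ g2, h6 n _ g1 _ g2,
      h7 n _ g1 _ g2, h8 (n + 1) _ g3 _ g4, h9 n _ g1 _ g2⟩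

/-- **Construction of `t`.** -/
theorem exists_t {ξ : ι → ℝ} {i₀ : ι} {m : ℕ} (h0 : ξ i₀ = 0) (hξ : LinM ξ i₀ m)
    (hcard : Fintype.card ι = m + 2) (v₀ : ι → ℤ) (hv₀ : 0 < v₀ i₀) (δ : ℝ) (hδ : 0 < δ) :
    ∃ t : ℝ, |t - tv ξ i₀ v₀| ≤ δ ∧
      (∀ v : ι → ℤ, v ≠ 0 → ∑ i, (v i : ℝ) * Function.update ξ i₀ t i ≠ 0) ∧
      ∀ w : ℝ, (m : ℝ) + 1 ≤ w → (m + 1) / w ≤ lowerDensity (nearScales (Function.update ξ i₀ t) w) := by
  obtain ⟨C, hC, v, Q, hv0, hstart, hall⟩ := exists_rels hξ hcard v₀ hv₀ (δ / 2) (by linarith)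
  obtain ⟨T, hT⟩ : ∃ T : ℕ → ℝ, T = fun n => tv ξ i₀ (v n) := ⟨_, rfl⟩
  obtain ⟨d, hd⟩ : ∃ d : ℕ → ℝ, d = fun n => |T (n + 1) - T n| := ⟨_, rfl⟩
  have hdpos : ∀ n, 0 < d n := fun n => by
    obtain ⟨_, _, _, _, _, _, h, _⟩ := hall n
    rw [hd, hT]; exact h
  have hdq : ∀ n, d (n + 1) ≤ d n / 4 := fun n => by
    obtain ⟨_, _, _, _, _, _, _, h, _⟩ := hall n
    rw [hd, hT]; exact h
  have hdk : ∀ n k, d (n + k) ≤ d n * (1 / 4) ^ k := by
    intro n k
    induction k with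
    | zero => simp
    | succ k ih =>
      rw [← add_assoc, pow_succ]
      have := hdq (n + k)
      linarith
  have hdist : ∀ n, dist (T n) (T (n + 1)) = d n := fun n => by
    rw [dist_comm, Real.dist_eq, hd]
  have hcau : CauchySeq T := by
    apply cauchySeq_of_le_geometric (1 / 4) (d 0) (by norm_num)
    intro n
    rw [hdist]
    simpa using hdk 0 n
  obtain ⟨t, htt⟩ := cauchySeq_tendsto_of_complete hcau
  have htail : ∀ n, |T (n + 1) - t| ≤ d n / 3 := by
    intro n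
    have h1 : Tendsto (fun k => T (n + 1 + k)) atTop (𝓝 t) := by
      have := htt.comp (tendsto_add_atTop_nat (n + 1))
      refine this.congr (fun k => ?_)
      rw [Function.comp, add_comm]
    have h2 := dist_le_of_le_geometric_of_tendsto₀ (1 / 4) (d n / 4) (by norm_num) (fun k => by
      show dist (T (n + 1 + k)) (T (n + 1 + (k + 1))) ≤ _
      rw [← add_assoc, hdist, add_assoc n 1 k, add_comm 1 k, ← add_assoc]
      have h3 := hdk n (k + 1)
      rw [pow_succ] at h3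
      rw [← add_assoc] at h3
      linarith) h1
    rw [Real.dist_eq, add_zero] at h2
    have h3 : d n / 4 / (1 - 1 / 4) = d n / 3 := by ring
    linarith
  have hup : ∀ n, |t - T n| ≤ 4 / 3 * d n := by
    intro n
    have h1 := htail n
    have h2 : |t - T n| ≤ |T (n + 1) - t| + |T (n + 1) - T n| := by
      have := abs_sub_le t (T (n + 1)) (T n)
      rwa [abs_sub_comm t (T (n + 1))] at this
    have h3 : |T (n + 1) - T n| = d n := by rw [hd]
    linarith
  have hlo : ∀ n, 0 < |t - T n| := by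
    intro n
    have h1 := htail n
    have h2 : |T (n + 1) - T n| ≤ |T (n + 1) - t| + |t - T n| := abs_sub_le _ _ _
    have h3 : |T (n + 1) - T n| = d n := by rw [hd]
    have := hdpos n
    linarith
  -- values of the relations
  obtain ⟨θ, hθ⟩ : ∃ θ : ι → ℝ, θ = Function.update ξ i₀ t := ⟨_, rfl⟩
  have hv : ∀ n, 0 < v n i₀ := fun n => (hall n).1
  have hval : ∀ n, valu θ (v n) = v n i₀ * |t - T n| := fun n => by
    rw [hθ, hT, valu_eq h0 t (hv n)]
  have hvalpos : ∀ n, 0 < valu θ (v n) := fun n => by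
    rw [hval]
    have : (0 : ℝ) < v n i₀ := by exact_mod_cast hv n
    exact mul_pos this (hlo n)
  have hvalle : ∀ n, valu θ (v n) ≤ 4 / 3 * C / Q n ^ (m + 1) := fun n => by
    obtain ⟨_, _, _, _, _, _, _, _, h⟩ := hall n
    have h1 : (v n i₀ : ℝ) * d n ≤ C / Q n ^ (m + 1) := by rw [hd, hT]; exact h
    have h2 : (0 : ℝ) < v n i₀ := by exact_mod_cast hv n
    rw [hval]
    calc (v n i₀ : ℝ) * |t - T n| ≤ v n i₀ * (4 / 3 * d n) := mul_le_mul_of_nonneg_left (hup n) h2.le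
      _ = 4 / 3 * (v n i₀ * d n) := by ring
      _ ≤ 4 / 3 * (C / Q n ^ (m + 1)) := by gcongr
      _ = _ := by ring
  have hQ1 : ∀ n, (1 : ℝ) ≤ Q n := fun n => by
    obtain ⟨_, h, _⟩ := hall n
    exact_mod_cast h
  have hQ2 : ∀ n, (ht (v n) : ℝ) ^ n ≤ Q n := fun n => by
    obtain ⟨_, _, h, _⟩ := hall n
    exact_mod_cast h
  have hQ3 : ∀ n, (2 : ℝ) ^ n ≤ Q n := fun n => by
    obtain ⟨_, _, _, h, _⟩ := hall n
    exact_mod_cast h
  have hQ4 : ∀ n, (Q n : ℝ) ≤ ht (v (n + 1)) := fun n => by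
    obtain ⟨_, _, _, _, h, _⟩ := hall n
    exact_mod_cast h
  have hQ5 : ∀ n, (ht (v (n + 1)) : ℝ) ≤ 2 * Q n * ht (v n) := fun n => by
    obtain ⟨_, _, _, _, _, h, _⟩ := hall n
    exact_mod_cast h
  have hvne : ∀ n, v n ≠ 0 := fun n h => by
    have := hv n
    rw [h] at this
    simp at this
  have hht : ∀ n, (1 : ℝ) ≤ ht (v n) := fun n => one_le_ht (hvne n)
  refine ⟨t, ?_, ?_, ?_⟩
  · -- near the starting point
    have h1 := hup 0
    have h2 : d 0 ≤ δ / 2 := by rw [hd, hT]; exact hstart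
    have h3 : T 0 = tv ξ i₀ v₀ := by rw [hT, ← hv0]
    rw [← h3]
    linarith
  · -- independence
    intro r hr hr0
    rw [← hθ] at hr0
    obtain ⟨c, hc, hel⟩ := elim_bound h0 hξ t 1 one_pos
    obtain ⟨R, hR⟩ : ∃ R : ℝ, R = ht r := ⟨_, rfl⟩
    have hR1 : 1 ≤ R := by rw [hR]; exact one_le_ht hr
    obtain ⟨K, hK⟩ : ∃ K : ℝ, K = 2 * R * (R * (4 / 3 * C)) := ⟨_, rfl⟩
    have hK0 : 0 < K := by rw [hK]; positivity
    obtain ⟨n, hn⟩ : ∃ n : ℕ, max (4 * R ^ 2) (K ^ 2 / c ^ 2) < 2 ^ n := pow_unbounded_of_one_lt _ (by norm_num)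
    obtain ⟨N, hN⟩ : ∃ N : ℕ, N = n + 2 := ⟨_, rfl⟩
    have hNQ : max (4 * R ^ 2) (K ^ 2 / c ^ 2) < Q N := by
      refine hn.trans_le (le_trans ?_ (hQ3 N))
      exact pow_le_pow_right₀ (by norm_num) (by omega)
    have hN1 : 4 * R ^ 2 < Q N := (le_max_left _ _).trans_lt hNQ
    have hN2 : K ^ 2 / c ^ 2 < Q N := (le_max_right _ _).trans_lt hNQ
    have hsq : (ht (v N) : ℝ) ^ 2 ≤ Q N :=
      (pow_le_pow_right₀ (hht N) (by omega)).trans (hQ2 N)
    have hQpos : (0 : ℝ) < Q N := by linarith [hQ1 N]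
    have hhtN := hht N
    have hr0' : valu θ r = 0 := by rw [valu, hr0, abs_zero]
    rcases hel r (v N) hr (hvne N) with ⟨p, q, hpq, hpq'⟩ | h1
    · apply hpq
      have e2 : |(p : ℝ)| * valu θ (v N) = |(q : ℝ)| * valu θ r := by
        rw [valu, valu, ← abs_mul, ← abs_mul, Finset.mul_sum, Finset.mul_sum]
        congr 1
        apply Finset.sum_congr rfl
        intro i _
        have : (p : ℝ) * v N i = q * r i := by exact_mod_cast hpq' i
        rw [← mul_assoc, this, mul_assoc]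
      rw [hr0', mul_zero] at e2
      have hp : p = 0 := by
        rcases mul_eq_zero.1 e2 with h | h
        · rw [abs_eq_zero, Int.cast_eq_zero] at h
          exact h
        · exact absurd h (hvalpos N).ne'
      refine ⟨hp, ?_⟩
      by_contra hq
      apply hr
      funext i
      have := hpq' i
      rw [hp, zero_mul] at this
      exact (mul_eq_zero.1 this.symm).resolve_left hq
    · rw [← hθ, hr0', mul_zero, zero_add, ← hR] at h1
      have hcast : ((m : ℝ) + 1) = ((m + 1 : ℕ) : ℝ) := by push_cast; ring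
      rw [hcast, Real.rpow_natCast] at h1
      have h2 : c ≤ (2 * (R * ht (v N))) ^ (m + 1) * (R * (4 / 3 * C / Q N ^ (m + 1))) := by
        refine h1.trans ?_
        have := hvalle N
        gcongr
      have h3 : (2 * (R * ht (v N))) ^ (m + 1) * (R * (4 / 3 * C / Q N ^ (m + 1))) =
          (2 * R * ht (v N) / Q N) ^ (m + 1) * (R * (4 / 3 * C)) := by
        rw [div_pow]
        ring
      rw [h3] at h2
      have h4 : 2 * R * ht (v N) / Q N ≤ 1 := by
        rw [div_le_one hQpos]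
        have : (2 * R * (ht (v N) : ℝ)) ^ 2 ≤ (Q N : ℝ) ^ 2 := by
          calc (2 * R * (ht (v N) : ℝ)) ^ 2 = 4 * R ^ 2 * (ht (v N) : ℝ) ^ 2 := by ring
            _ ≤ (Q N : ℝ) * Q N := by gcongr
            _ = (Q N : ℝ) ^ 2 := by ring
        exact le_of_sq_le_sq this hQpos.le
      have h5 : (2 * R * ht (v N) / Q N) ^ (m + 1) ≤ 2 * R * ht (v N) / Q N :=
        pow_le_of_le_one (by positivity) h4 (by omega)
      have h6 : c ≤ 2 * R * ht (v N) / Q N * (R * (4 / 3 * C)) := by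
        refine h2.trans ?_
        gcongr
      have h7 : c * Q N ≤ K * ht (v N) := by
        have : 2 * R * ht (v N) / Q N * (R * (4 / 3 * C)) = K * ht (v N) / Q N := by rw [hK]; ring
        rw [this, le_div_iff₀ hQpos] at h6
        exact h6
      have h8 : (c * Q N) ^ 2 ≤ (K * ht (v N)) ^ 2 := by gcongr
      have h9 : c ^ 2 * (Q N : ℝ) ^ 2 ≤ K ^ 2 * Q N := by
        calc c ^ 2 * (Q N : ℝ) ^ 2 = (c * Q N) ^ 2 := by ring
          _ ≤ (K * ht (v N)) ^ 2 := h8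
          _ = K ^ 2 * (ht (v N) : ℝ) ^ 2 := by ring
          _ ≤ K ^ 2 * Q N := by gcongr
      have h10 : c ^ 2 * Q N ≤ K ^ 2 := by
        have : c ^ 2 * (Q N : ℝ) * Q N ≤ K ^ 2 * Q N := by linarith
        exact le_of_mul_le_mul_right this hQpos
      rw [div_lt_iff₀' (by positivity)] at hN2
      linarith
  · -- the density
    intro w hw
    have hm0 : (0 : ℝ) ≤ m := Nat.cast_nonneg m
    have hw0 : 0 < w := by linarith
    rw [← hθ]
    obtain ⟨D, hD⟩ : ∃ D : ℝ, D = (m + 1) / w := ⟨_, rfl⟩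
    have hD1 : D ≤ 1 := by rw [hD, div_le_one hw0]; exact hw
    have hD0 : 0 ≤ D := by rw [hD]; positivity
    rw [← hD]
    obtain ⟨x, hx⟩ : ∃ x : ℕ → ℝ, x = fun n => Real.log (ht (v (n + 1))) := ⟨_, rfl⟩
    obtain ⟨L, hL⟩ : ∃ L : ℕ → ℝ, L = fun n => -Real.log (valu θ (v (n + 1))) := ⟨_, rfl⟩
    have hx0 : ∀ n, 0 ≤ x n := fun n => by rw [hx]; exact Real.log_nonneg (hht _)
    -- growth
    have hlogQ : ∀ n, (n + 1) * x n ≤ Real.log (Q (n + 1)) := by
      intro n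
      have h1 := Real.log_le_log (by have := hht (n + 1); positivity) (hQ2 (n + 1))
      rw [Real.log_pow] at h1
      rw [hx]
      push_cast at h1
      exact h1
    have hlogQ' : ∀ n, Real.log (Q (n + 1)) ≤ x (n + 1) := by
      intro n
      rw [hx]
      exact Real.log_le_log (by linarith [hQ1 (n + 1)]) (hQ4 (n + 1))
    have hxs : ∀ n, x (n + 1) ≤ Real.log 2 + Real.log (Q (n + 1)) + x n := by
      intro n
      have h1 := Real.log_le_log (by linarith [hht (n + 1 + 1)]) (hQ5 (n + 1))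
      have g1 : (0 : ℝ) < Q (n + 1) := by linarith [hQ1 (n + 1)]
      have g2 : (0 : ℝ) < ht (v (n + 1)) := by linarith [hht (n + 1)]
      rw [Real.log_mul (by positivity) g2.ne', Real.log_mul (by norm_num) g1.ne'] at h1
      rw [hx]
      exact h1
    have hmono : ∀ n, x n ≤ x (n + 1) := by
      intro n
      have h1 := hlogQ n
      have h2 := hlogQ' n
      have h3 : 0 ≤ n * x n := mul_nonneg (Nat.cast_nonneg n) (hx0 n)
      linarith
    have hgr : ∀ n, (n + 1) * x n ≤ x (n + 1) := fun n => (hlogQ n).trans (hlogQ' n)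
    have hlim : Tendsto x atTop atTop := by
      rw [← tendsto_add_atTop_iff_nat 1]
      apply tendsto_atTop_mono (f := fun n : ℕ => (n : ℝ) * Real.log 2)
      · intro n
        refine le_trans ?_ (hlogQ' n)
        have h1 := Real.log_le_log (by positivity) (hQ3 (n + 1))
        rw [Real.log_pow] at h1
        push_cast at h1
        have := Real.log_nonneg (show (1 : ℝ) ≤ 2 by norm_num)
        linarith
      · exact tendsto_natCast_atTop_atTop.atTop_mul_const (Real.log_pos (by norm_num))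
    -- values
    have hLn : ∀ n, (m + 1) * Real.log (Q (n + 1)) - Real.log (4 / 3 * C) ≤ L n := by
      intro n
      have g1 : (0 : ℝ) < Q (n + 1) := by linarith [hQ1 (n + 1)]
      have h1 := Real.log_le_log (hvalpos (n + 1)) (hvalle (n + 1))
      rw [Real.log_div (by positivity) (by positivity), Real.log_pow] at h1
      rw [hL]
      push_cast at h1
      linarith
    obtain ⟨E, hE⟩ : ∃ E : ℝ, E = (Real.log 2 * (m + 1) + |Real.log (4 / 3 * C)|) / w := ⟨_, rfl⟩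
    have hE0 : 0 ≤ E := by
      rw [hE]
      have := Real.log_nonneg (show (1 : ℝ) ≤ 2 by norm_num)
      positivity
    have hLw : ∀ n, D * x (n + 1) - D * x n - E ≤ L n / w := by
      intro n
      rw [le_div_iff₀ hw0, hD, hE]
      have e1 : ((m + 1) / w * x (n + 1) - (m + 1) / w * x n -
          (Real.log 2 * (m + 1) + |Real.log (4 / 3 * C)|) / w) * w =
          (m + 1) * x (n + 1) - (m + 1) * x n - (Real.log 2 * (m + 1) + |Real.log (4 / 3 * C)|) := by
        field_simp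
      rw [e1]
      have h1 := hLn n
      have h2 := mul_le_mul_of_nonneg_left (hxs n) (by linarith : (0 : ℝ) ≤ m + 1)
      have h3 := le_abs_self (Real.log (4 / 3 * C))
      linarith
    -- application of the lemma
    obtain ⟨K, hK⟩ : ∃ K : ℕ → ℝ, K = fun n => max (x n) (min (x (n + 1)) (L n / w)) := ⟨_, rfl⟩
    obtain ⟨g, hg⟩ : ∃ g : ℕ → ℝ, g = fun n => ∑ k ∈ Finset.range n, (K k - x k) := ⟨_, rfl⟩
    have hxK : ∀ n, x n ≤ K n := fun n => by rw [hK]; exact le_max_left _ _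
    have hKx : ∀ n, K n ≤ x (n + 1) := fun n => by
      rw [hK]; exact max_le (hmono n) (min_le_left _ _)
    refine lowdens (x := x) (K := K) (g := g) (hx0 0) hxK hKx ?_ (by rw [hg]; simp) ?_ hD1 hlim ?_
    · -- the relations
      rintro n y ⟨hy1, hy2⟩
      have h1 : y < L n / w := by
        rw [hK] at hy2
        rcases lt_max_iff.1 hy2 with h | h
        · exact absurd hy1 (not_le.2 h)
        · exact h.trans_le (min_le_right _ _)
      refine ⟨v (n + 1), hvne _, ?_, ?_⟩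
      · apply (ht_le (Real.exp_pos y).le).1
        have h2 : Real.exp (x n) = ht (v (n + 1)) := by
          rw [hx]
          exact Real.exp_log (by linarith [hht (n + 1)])
        rw [← h2]
        exact Real.exp_le_exp.2 hy1
      · rw [lt_div_iff₀ hw0] at h1
        have h2 : Real.exp (-L n) = valu θ (v (n + 1)) := by
          rw [hL]
          simp only [neg_neg]
          exact Real.exp_log (hvalpos _)
        rw [← Real.exp_mul]
        show valu θ (v (n + 1)) ≤ _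
        rw [← h2]
        apply Real.exp_le_exp.2
        linarith
    · intro n
      rw [hg]
      simp only [Finset.sum_range_succ]
      ring
    · intro η hη
      have hgn : ∀ n, D * x (n + 1) - (D + 1) * x n - E ≤ g (n + 1) := by
        intro n
        have h1 : K n - x n ≤ g (n + 1) := by
          rw [hg]
          simp only [Finset.sum_range_succ]
          have : 0 ≤ ∑ k ∈ Finset.range n, (K k - x k) :=
            Finset.sum_nonneg fun k _ => sub_nonneg.2 (hxK k)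
          linarith
        have h2 : D * x (n + 1) - D * x n - E ≤ K n := by
          rw [hK]
          refine le_trans ?_ (le_max_right _ _)
          refine le_min ?_ (hLw n)
          have := mul_nonneg hD0 (hx0 n)
          have := mul_le_mul_of_nonneg_right hD1 (hx0 (n + 1))
          linarith
        linarith
      obtain ⟨N₁, hN₁⟩ := exists_nat_ge (2 * (D + 1) / η)
      obtain ⟨N₂, hN₂⟩ := eventually_atTop.1 (hlim.eventually (eventually_ge_atTop (2 * E / η)))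
      filter_upwards [eventually_ge_atTop (max (N₁ + 1) (N₂ + 1))] with n hn
      obtain ⟨k, rfl⟩ : ∃ k, n = k + 1 := ⟨n - 1, by omega⟩
      have h1 := hgn k
      have h2 := hN₂ (k + 1) (by omega)
      rw [div_le_iff₀' hη] at h2
      have h3 : 2 * (D + 1) * x k ≤ η * x (k + 1) := by
        have h4 : (N₁ : ℝ) ≤ k := by
          have : N₁ ≤ k := by omega
          exact_mod_cast this
        have h5 : 2 * (D + 1) ≤ η * (k + 1) := by
          rw [div_le_iff₀' hη] at hN₁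
          have := mul_le_mul_of_nonneg_left h4 hη.le
          linarith
        have h6 := mul_le_mul_of_nonneg_right h5 (hx0 k)
        have h7 := mul_le_mul_of_nonneg_left (hgr k) hη.le
        linarith
      linarith

end Pool.Agent.H595.Dens
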