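import Pool.Agent.H595.Dens.Fib3

/-!
# The density of the scales for the Fibonacci continued fraction
-/

set_option autoImplicit false

namespace Pool.Agent.H595.Dens.Fib

open MeasureTheory Filter Topology Set Matrix Real

/-- logarithms of the denominators -/
noncomputable def d (k : ℕ) : ℝ := Real.log (q k)

theorem d_nonneg (k : ℕ) : 0 ≤ d k := Real.log_nonneg (qr k)

theorem d_lower (k : ℕ) : Real.log 3 + d (k + 1) + d k ≤ d (k + 2) := by
  have h1 : (3 * (q (k + 1) * q k) : ℝ) ≤ q (k + 2) := by exact_mod_cast q_lower k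
  have h2 := qr k
  have h3 := qr (k + 1)
  have h4 := Real.log_le_log (by positivity) h1
  rw [Real.log_mul (by norm_num) (by positivity), Real.log_mul (by positivity) (by positivity)] at h4
  rw [d, d, d]
  linarith

theorem d_upper (k : ℕ) : d (k + 2) ≤ Real.log 10 + d (k + 1) + d k := by
  have h1 : (q (k + 2) : ℝ) ≤ (10 * (q (k + 1) * q k) : ℝ) := by exact_mod_cast q_upper k
  have h2 := qr k
  have h3 := qr (k + 1)
  have h5 := qr (k + 2)
  have h4 := Real.log_le_log (by positivity) h1
  rw [Real.log_mul (by norm_num) (by positivity), Real.log_mul (by positivity) (by positivity)] at h4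
  rw [d, d, d]
  linarith

theorem d_zero : d 0 = 0 ∧ d 1 = 0 := by
  constructor <;> simp [d, q, m, P, C, L]

theorem log3 : 1 ≤ Real.log 3 := by
  rw [Real.le_log_iff_exp_le (by norm_num)]
  have := Real.exp_one_lt_d9
  linarith

theorem d_quad (n : ℕ) : ((n : ℝ) ^ 2 - n) / 8 ≤ d n ∧ ((n + 1 : ℝ) ^ 2 - (n + 1)) / 8 ≤ d (n + 1) := by
  induction n with
  | zero =>
    obtain ⟨h0, h1⟩ := d_zero
    constructor
    · rw [h0]; simp
    · rw [zero_add, h1]; norm_num
  | succ n ih =>
    obtain ⟨h0, h1⟩ := ih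
    refine ⟨by push_cast; exact h1, ?_⟩
    have h2 := d_lower n
    have h3 := log3
    have h4 : (0 : ℝ) ≤ n := Nat.cast_nonneg n
    push_cast
    have h5 : ((n + 1 + 1 : ℝ) ^ 2 - (n + 1 + 1)) / 8 ≤
        1 + ((n + 1 : ℝ) ^ 2 - (n + 1)) / 8 + ((n : ℝ) ^ 2 - n) / 8 := by
      nlinarith [sq_nonneg ((n : ℝ) - 3 / 2)]
    linarith

/-- the constant -/
noncomputable def B : ℝ := goldenRatio ^ 2 * Real.log 10

theorem B_nonneg : 0 ≤ B := by
  rw [B]
  have := Real.log_nonneg (show (1 : ℝ) ≤ 10 by norm_num)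
  positivity

theorem d_ratio (k : ℕ) : |d (k + 1) - goldenRatio * d k| ≤ B := by
  induction k with
  | zero =>
    obtain ⟨h0, h1⟩ := d_zero
    rw [zero_add, h0, h1]
    simpa using B_nonneg
  | succ k ih =>
    have h1 := d_lower k
    have h2 := d_upper k
    have h3 := log3
    have hφ := Real.one_lt_goldenRatio
    have hφ2 := Real.goldenRatio_sq
    have hinv : (goldenRatio - 1) * goldenRatio = 1 := by nlinarith
    have e : d (k + 1 + 1) - goldenRatio * d (k + 1) =
        -((goldenRatio - 1) * (d (k + 1) - goldenRatio * d k)) + (d (k + 2) - d (k + 1) - d k) := by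
      show d (k + 2) - goldenRatio * d (k + 1) = _
      linear_combination (-d k) * hinv
    rw [e]
    refine (abs_add_le _ _).trans ?_
    rw [abs_neg, abs_mul, abs_of_pos (by linarith : 0 < goldenRatio - 1)]
    have h4 : |d (k + 2) - d (k + 1) - d k| ≤ Real.log 10 := by
      rw [abs_of_nonneg (by linarith)]
      linarith
    have h5 := mul_le_mul_of_nonneg_left ih (by linarith : 0 ≤ goldenRatio - 1)
    have h6 : (goldenRatio - 1) * B + Real.log 10 = B := by
      rw [B]
      have : (goldenRatio - 1) * (goldenRatio ^ 2 * Real.log 10) = goldenRatio * Real.log 10 := by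
        linear_combination (goldenRatio * Real.log 10) * hinv
      rw [this, hφ2]
      ring
    linarith

/-- **The density of the scales.** -/
theorem dens {w : ℝ} (hw : goldenRatio ^ 2 ≤ w) (hw3 : w ≤ 3) :
    goldenRatio ^ 4 / w - goldenRatio ≤ lowerDensity (nearScales (th ξ (ξ ^ 2)) w) := by
  have hφ := Real.one_lt_goldenRatio
  have hφ2 := Real.goldenRatio_sq
  have hw1 : 1 < w := by nlinarith
  have hw0 : 0 < w := by linarith
  have hinv : (goldenRatio - 1) * goldenRatio = 1 := by nlinarith
  have hφ3 : goldenRatio ^ 3 = 2 * goldenRatio + 1 := by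
    have : goldenRatio ^ 3 = goldenRatio * goldenRatio ^ 2 := by ring
    rw [this, hφ2]
    nlinarith
  have hφ4 : goldenRatio ^ 4 = goldenRatio * goldenRatio ^ 3 := by ring
  obtain ⟨F, hF⟩ : ∃ F : ℝ, F = goldenRatio ^ 3 / w := ⟨_, rfl⟩
  obtain ⟨D, hD⟩ : ∃ D : ℝ, D = goldenRatio ^ 4 / w - goldenRatio := ⟨_, rfl⟩
  have hDF : D = goldenRatio * (F - 1) := by rw [hD, hF, hφ4]; ring
  have hFφ : F ≤ goldenRatio := by
    rw [hF, div_le_iff₀ hw0]
    have : goldenRatio ^ 3 = goldenRatio * goldenRatio ^ 2 := by ring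
    rw [this]
    exact mul_le_mul_of_nonneg_left hw (by linarith)
  have hF1 : 1 ≤ F := by
    rw [hF, one_le_div hw0, hφ3]
    linarith
  have hD1 : D ≤ 1 := by
    rw [hDF]
    nlinarith
  have hD0 : 0 ≤ D := by
    rw [hDF]
    have : 0 ≤ F - 1 := by linarith
    positivity
  have hDφ : D + (F - 1) = D * goldenRatio := by
    rw [hDF]
    linear_combination (F - 1) * (-hinv)
  rw [← hD]
  obtain ⟨x', hx'⟩ : ∃ x' : ℕ → ℝ, x' = fun n => Real.log 5 + d n := ⟨_, rfl⟩
  have hlog5 : 0 < Real.log 5 := Real.log_pos (by norm_num)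
  have hlog6 : 0 < Real.log 6 := Real.log_pos (by norm_num)
  have hmono : ∀ n, x' n ≤ x' (n + 1) := by
    intro n
    rw [hx']
    rcases n with _ | n
    · have := d_zero.1
      have := d_zero.2
      simp only [zero_add]
      linarith
    · have h1 := d_lower n
      have h2 := d_nonneg n
      have h3 := log3
      show Real.log 5 + d (n + 1) ≤ Real.log 5 + d (n + 2)
      linarith
  have hlimd : Tendsto d atTop atTop := Real.tendsto_log_atTop.comp q_tendsto
  have hlim : Tendsto x' atTop atTop := by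
    rw [hx']
    exact tendsto_atTop_add_const_left _ _ hlimd
  obtain ⟨K, hK⟩ : ∃ K : ℕ → ℝ, K = fun n => max (x' n) (min (x' (n + 1))
    ((d (n + 1) + d (n + 2) - Real.log 6) / w)) := ⟨_, rfl⟩
  obtain ⟨g, hg⟩ : ∃ g : ℕ → ℝ, g = fun n => ∑ k ∈ Finset.range n, (K k - x' k) := ⟨_, rfl⟩
  have hxK : ∀ n, x' n ≤ K n := fun n => by rw [hK]; exact le_max_left _ _
  have hKx : ∀ n, K n ≤ x' (n + 1) := fun n => by
    rw [hK]; exact max_le (hmono n) (min_le_left _ _)
  have hgs : ∀ n, g (n + 1) = g n + K n - x' n := by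
    intro n
    rw [hg]
    simp only [Finset.sum_range_succ]
    ring
  have hKl : ∀ n, F * d n - (2 * B + Real.log 6) ≤ K n := by
    intro n
    have h1 := abs_le.1 (d_ratio n)
    have h2 := d_lower n
    have h3 := log3
    have h4 := d_nonneg n
    have hB := B_nonneg
    rw [hK]
    refine le_trans ?_ (le_max_right _ _)
    refine le_min ?_ ?_
    · rw [hx']
      have h5 := mul_le_mul_of_nonneg_right hFφ h4
      show _ ≤ Real.log 5 + d (n + 1)
      linarith
    · rw [le_div_iff₀ hw0]
      have e1 : (F * d n - (2 * B + Real.log 6)) * w = goldenRatio ^ 3 * d n - (2 * B + Real.log 6) * w := by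
        rw [hF]
        field_simp
      have e2 : (2 * B + Real.log 6) * 1 ≤ (2 * B + Real.log 6) * w :=
        mul_le_mul_of_nonneg_left hw1.le (by linarith)
      rw [e1, hφ3]
      linarith
  obtain ⟨E, hE⟩ : ∃ E : ℝ, E = 3 * B + Real.log 6 + Real.log 5 := ⟨_, rfl⟩
  have hE0 : 0 < E := by
    have := B_nonneg
    rw [hE]
    linarith
  have hgl : ∀ n : ℕ, D * d n - E * n ≤ g n := by
    intro n
    induction n with
    | zero =>
      rw [d_zero.1, hg]
      simp
    | succ n ih =>
      rw [hgs]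
      have h1 := hKl n
      have h2 := (abs_le.1 (d_ratio n)).2
      have h3 := mul_le_mul_of_nonneg_left h2 hD0
      have h4 : D * B ≤ B := by
        have := mul_le_mul_of_nonneg_right hD1 B_nonneg
        linarith
      have h5 : D * d n + (F - 1) * d n = D * goldenRatio * d n := by
        rw [← hDφ]
        ring
      have h6 : x' n = Real.log 5 + d n := by rw [hx']
      rw [h6]
      push_cast
      rw [hE] at ih ⊢
      linarith
  refine lowdens (x := x') (K := K) (g := g) ?_ hxK hKx ?_ (by rw [hg]; simp) hgs hD1 hlim ?_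
  · rw [hx']
    have := d_nonneg 0
    show 0 ≤ Real.log 5 + d 0
    linarith
  · rintro n y ⟨hy1, hy2⟩
    have h1 : y < (d (n + 1) + d (n + 2) - Real.log 6) / w := by
      rw [hK] at hy2
      rcases lt_max_iff.1 hy2 with h | h
      · exact absurd hy1 (not_le.2 h)
      · exact h.trans_le (min_le_right _ _)
    refine ⟨z n, z_ne n, fun i => ?_, ?_⟩
    · have h2 : Real.exp (x' n) = 5 * q n := by
        rw [hx']
        show Real.exp (Real.log 5 + d n) = _
        rw [Real.exp_add, Real.exp_log (by norm_num), d, Real.exp_log (by linarith [qr n])]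
      have h3 : |(z n i : ℝ)| ≤ 5 * q n := by exact_mod_cast z_bound n i
      rw [← h2] at h3
      exact h3.trans (Real.exp_le_exp.2 hy1)
    · rw [lt_div_iff₀ hw0] at h1
      have h2 := z_val n
      have hq1 := qr (n + 1)
      have hq2 := qr (n + 2)
      have h3 : (6 : ℝ) / (q (n + 1) * q (n + 2)) = Real.exp (-(d (n + 1) + d (n + 2) - Real.log 6)) := by
        rw [show -(d (n + 1) + d (n + 2) - Real.log 6) = Real.log 6 - (d (n + 1) + d (n + 2)) by ring,
          Real.exp_sub, Real.exp_log (by norm_num), Real.exp_add, d, d, Real.exp_log (by linarith),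
          Real.exp_log (by linarith)]
      rw [← Real.exp_mul]
      show valu (th ξ (ξ ^ 2)) (z n) ≤ _
      refine h2.trans ?_
      rw [h3]
      apply Real.exp_le_exp.2
      linarith
  · intro η hη
    obtain ⟨N, hN⟩ := exists_nat_ge (1 + 8 * (E + Real.log 5) / η)
    filter_upwards [eventually_ge_atTop (N + 1)] with n hn
    have h1 := hgl n
    have h2 := (d_quad n).1
    have hn' : (N : ℝ) + 1 ≤ n := by exact_mod_cast hn
    have h3 : x' n = Real.log 5 + d n := by rw [hx']
    rw [h3]
    have h4 : 8 * (E + Real.log 5) ≤ η * (n - 1) := by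
      have : 8 * (E + Real.log 5) / η ≤ (n : ℝ) - 1 := by linarith
      rwa [div_le_iff₀' hη] at this
    have hn1 : (1 : ℝ) ≤ n := by
      have : (0 : ℝ) ≤ N := Nat.cast_nonneg N
      linarith
    have h5 : 8 * (E + Real.log 5) * n ≤ η * (n - 1) * n := mul_le_mul_of_nonneg_right h4 (by linarith)
    have h6 : η * (((n : ℝ) ^ 2 - n) / 8) ≤ η * d n := mul_le_mul_of_nonneg_left h2 hη.le
    have h7 : Real.log 5 ≤ Real.log 5 * n := le_mul_of_one_le_right hlog5.le hn1
    have h8 : D * Real.log 5 ≤ Real.log 5 := by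
      have := mul_le_mul_of_nonneg_right hD1 hlog5.le
      linarith
    have h9 : 0 ≤ η * Real.log 5 := by positivity
    nlinarith

end Pool.Agent.H595.Dens.Fib
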