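import Pool.Agent.H595.Dens.Three2
import Pool.Agent.H595.Dens.Constr
import Pool.Agent.H595.Dens.Fib4
import Pool.Graph.R_pool_sql_team_seeded_63374d34.N538.MR.MeasE

/-!
# Preparations for the final statements
-/

set_option autoImplicit false

namespace Pool.Agent.H595.Dens

open MeasureTheory Filter Topology Set Real

theorem linB_e : LinB (Real.exp 1) := by
  intro ε hε
  obtain ⟨c, hc, h⟩ := Pool.Agent.N538.MR.lin_e ε hε
  refine ⟨c, hc, fun p q H hpq hH hp hq => ?_⟩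
  have h1 := h (-p) q H (by omega) hH (by rw [Int.cast_neg, abs_neg]; exact hp) hq
  have h2 : (((-p : ℤ)) : ℝ) + q * Real.exp 1 = q * Real.exp 1 - p := by push_cast; ring
  rwa [h2] at h1

/-- irrationality exponent at most two -/
def ExpTwo (ξ : ℝ) : Prop := ∀ ε : ℝ, 0 < ε → ∃ c : ℝ, 0 < c ∧ ∀ p q : ℤ, 1 ≤ q →
  c * (q : ℝ) ^ (-(1 + ε)) ≤ |q * ξ - p|

theorem linB_of_expTwo {ξ : ℝ} (h : ExpTwo ξ) : LinB ξ := by
  intro ε hε
  obtain ⟨c, hc, h1⟩ := h ε hε
  have key : ∀ (p q : ℤ) (H : ℝ), 1 ≤ q → |(q : ℝ)| ≤ H → c ≤ H ^ (1 + ε) * |q * ξ - p| := by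
    intro p q H hq hqH
    have hq0 : (0 : ℝ) < q := by exact_mod_cast hq
    have h2 := h1 p q hq
    rw [Real.rpow_neg hq0.le, ← div_eq_mul_inv, div_le_iff₀ (by positivity)] at h2
    rw [abs_of_pos hq0] at hqH
    calc c ≤ |q * ξ - p| * (q : ℝ) ^ (1 + ε) := h2
      _ ≤ |q * ξ - p| * H ^ (1 + ε) := by gcongr
      _ = _ := mul_comm _ _
  refine ⟨min c 1, lt_min hc one_pos, fun p q H hpq hH hp hq => ?_⟩
  rcases lt_trichotomy q 0 with h2 | h2 | h2
  · have := key (-p) (-q) H (by omega) (by rw [Int.cast_neg, abs_neg]; exact hq)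
    refine (min_le_left _ _).trans (this.trans (le_of_eq ?_))
    congr 1
    rw [← abs_neg]
    congr 1
    push_cast
    ring
  · have hp0 : p ≠ 0 := fun h => hpq ⟨h, h2⟩
    have h3 : (1 : ℝ) ≤ |(p : ℝ)| := by exact_mod_cast Int.one_le_abs hp0
    have h4 : 1 ≤ H ^ (1 + ε) := Real.one_le_rpow hH (by linarith)
    rw [h2, Int.cast_zero, zero_mul, zero_sub, abs_neg]
    refine (min_le_right _ _).trans ?_
    nlinarith
  · exact (min_le_left _ _).trans (key p q H (by omega) hq)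

theorem expTwo_of_linB {ξ : ℝ} (h : LinB ξ) : ExpTwo ξ := by
  intro ε hε
  obtain ⟨c, hc, h1⟩ := h ε hε
  obtain ⟨A, hA⟩ : ∃ A : ℝ, A = |ξ| + 2 := ⟨_, rfl⟩
  have hA0 : 0 < A := by rw [hA]; positivity
  refine ⟨min 1 (c * A ^ (-(1 + ε))), lt_min one_pos (by positivity), fun p q hq => ?_⟩
  have hq1 : (1 : ℝ) ≤ q := by exact_mod_cast hq
  have hq0 : (0 : ℝ) < q := by linarith
  have hqp : (q : ℝ) ^ (-(1 + ε)) ≤ 1 := Real.rpow_le_one_of_one_le_of_nonpos hq1 (by linarith)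
  by_cases hp : |(p : ℝ)| ≤ A * q
  · have hAq : 1 ≤ A * q := by
      have : 0 ≤ |ξ| := abs_nonneg _
      nlinarith
    have h2 := h1 p q (A * q) (by omega) hAq hp (by
      rw [abs_of_pos hq0, hA]
      nlinarith [abs_nonneg ξ])
    have h3 : c * (A * q) ^ (-(1 + ε)) ≤ |q * ξ - p| := by
      rw [Real.rpow_neg (by positivity), ← div_eq_mul_inv, div_le_iff₀ (by positivity)]
      linarith
    refine le_trans ?_ h3
    rw [Real.mul_rpow hA0.le hq0.le, ← mul_assoc]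
    gcongr
    exact min_le_right _ _
  · have h2 : 1 ≤ |q * ξ - p| := by
      have h3 : |(p : ℝ)| ≤ |q * ξ - p| + |q * ξ| := by
        have := abs_sub_abs_le_abs_sub (p : ℝ) (q * ξ)
        rw [abs_sub_comm] at this
        linarith
      rw [abs_mul, abs_of_pos hq0] at h3
      rw [not_le, hA] at hp
      nlinarith
    calc min 1 (c * A ^ (-(1 + ε))) * (q : ℝ) ^ (-(1 + ε)) ≤ 1 * 1 := by
          gcongr
          exact min_le_left _ _
      _ ≤ _ := by linarith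

/-- linear independence -/
theorem indep_iff (ξ t : ℝ) : LinearIndependent ℚ ![(1 : ℝ), ξ, t] ↔
    ∀ v : Fin 3 → ℤ, v ≠ 0 → ∑ i, (v i : ℝ) * th ξ t i ≠ 0 := by
  rw [← LinearIndependent.iff_fractionRing ℤ ℚ, Fintype.linearIndependent_iff]
  constructor
  · intro h v hv h0
    apply hv
    funext i
    refine h v ?_ i
    rw [← h0]
    apply Finset.sum_congr rfl
    intro j _
    rw [zsmul_eq_mul]
    rfl
  · intro h g hg i
    by_contra hi
    refine h g (fun h0 => hi (congrFun h0 i)) ?_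
    rw [← hg]
    apply Finset.sum_congr rfl
    intro j _
    rw [zsmul_eq_mul]
    rfl

/-- an exact relation -/
theorem density_one {ι : Type*} [Fintype ι] {θ : ι → ℝ} {v : ι → ℤ} (hv : v ≠ 0)
    (h : ∑ i, (v i : ℝ) * θ i = 0) (w : ℝ) : lowerDensity (nearScales θ w) = 1 := by
  obtain ⟨B, hB⟩ : ∃ B : ℝ, B = Real.log (ht v) := ⟨_, rfl⟩
  have hB0 : 0 ≤ B := by rw [hB]; exact Real.log_nonneg (one_le_ht hv)
  have hmem : ∀ x, B ≤ x → x ∈ nearScales θ w := by
    intro x hx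
    refine ⟨v, hv, ?_, ?_⟩
    · apply (ht_le (Real.exp_pos x).le).1
      rw [← Real.exp_log (lt_of_lt_of_le one_pos (one_le_ht hv)), ← hB]
      exact Real.exp_le_exp.2 hx
    · rw [h, abs_zero]
      positivity
  apply le_antisymm
  · refine lowerDensity_le (x := fun n : ℕ => (n : ℝ)) tendsto_natCast_atTop_atTop ?_
    intro η hη N
    refine ⟨N, le_rfl, ?_⟩
    refine (vol_le _ (Nat.cast_nonneg N)).trans ?_
    have : (0 : ℝ) ≤ N := Nat.cast_nonneg N
    nlinarith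
  · apply le_lowerDensity
    intro η hη
    refine ⟨max B (B / η), fun T hT => ?_⟩
    have h1 : B ≤ T := (le_max_left _ _).trans hT
    have h2 : B / η ≤ T := (le_max_right _ _).trans hT
    rw [div_le_iff₀' hη] at h2
    have h3 := meas_lower (S := nearScales θ w) hB0 h1 (fun y hy => hmem y hy.1)
    have h4 : 0 ≤ (volume (nearScales θ w ∩ Icc 0 B)).toReal := ENNReal.toReal_nonneg
    linarith

/-- `1` and `ξ` in three dimensions -/
theorem linM_of_linB {ξ : ℝ} (h : LinB ξ) : LinM (![1, ξ, 0] : Fin 3 → ℝ) 2 ((1 : ℕ) : ℝ) := by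
  intro ε hε
  obtain ⟨c, hc, h1⟩ := h ε hε
  refine ⟨c, hc, fun v H hv hv2 hH hvH => ?_⟩
  have h2 := h1 (-(v 0)) (v 1) H (by
    rintro ⟨h3, h4⟩
    apply hv
    funext i
    fin_cases i
    · show v 0 = 0
      omega
    · exact h4
    · exact hv2) hH (by rw [Int.cast_neg, abs_neg]; exact hvH 0) (hvH 1)
  rw [Nat.cast_one]
  have h3 : ∑ i, (v i : ℝ) * (![1, ξ, 0] : Fin 3 → ℝ) i = v 1 * ξ - ((-(v 0) : ℤ) : ℝ) := by
    rw [Fin.sum_univ_three]
    simp
    ring
  rw [h3]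
  exact h2

theorem update_th (ξ t : ℝ) : Function.update (![1, ξ, 0] : Fin 3 → ℝ) 2 t = th ξ t := by
  funext i
  fin_cases i <;> simp [th, Function.update]

/-- `t` with many near relations between `1`, `ξ`, `t` -/
theorem exists_t_three {ξ : ℝ} (h : LinB ξ) {a b : ℝ} (hab : a < b) :
    ∃ t : ℝ, a < t ∧ t < b ∧ (∀ v : Fin 3 → ℤ, v ≠ 0 → ∑ i, (v i : ℝ) * th ξ t i ≠ 0) ∧
      ∀ w : ℝ, 2 ≤ w → 2 / w ≤ lowerDensity (nearScales (th ξ t) w) := by
  obtain ⟨r, hr1, hr2⟩ := exists_rat_btwn hab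
  obtain ⟨δ, hδ⟩ : ∃ δ : ℝ, δ = min (r - a) (b - r) / 2 := ⟨_, rfl⟩
  have hm : 0 < min ((r : ℝ) - a) (b - r) := lt_min (by linarith) (by linarith)
  have hδ0 : 0 < δ := by rw [hδ]; linarith
  obtain ⟨t, ht1, ht2, ht3⟩ := exists_t (ξ := (![1, ξ, 0] : Fin 3 → ℝ)) (i₀ := 2) (m := 1) (by simp)
    (linM_of_linB h) (by simp) ![-r.num, 0, r.den] (by
      show (0 : ℤ) < (r.den : ℤ)
      exact_mod_cast r.pos) δ hδ0
  have htv : tv (![1, ξ, 0] : Fin 3 → ℝ) 2 ![-r.num, 0, r.den] = r := by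
    rw [tv, Fin.sum_univ_three]
    simp only [Matrix.cons_val_zero, Matrix.cons_val_one, Matrix.cons_val]
    push_cast
    have h1 : (r : ℝ) = (r.num : ℝ) / (r.den : ℝ) := by exact_mod_cast (Rat.num_div_den r).symm
    rw [h1]
    congr 1
    ring
  rw [htv] at ht1
  rw [update_th] at ht2
  have h1 := abs_le.1 ht1
  have h2 : δ < r - a := by
    have := min_le_left ((r : ℝ) - a) (b - r)
    rw [hδ]
    linarith
  have h3 : δ < b - r := by
    have := min_le_right ((r : ℝ) - a) (b - r)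
    rw [hδ]
    linarith
  refine ⟨t, by linarith, by linarith, ht2, fun w hw => ?_⟩
  have h4 := ht3 w (by push_cast; linarith)
  rw [update_th] at h4
  push_cast at h4
  have : (1 + 1 : ℝ) / w = 2 / w := by norm_num
  rwa [this] at h4

end Pool.Agent.H595.Dens
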