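import Pool.Agent.H595.Dens.Seq

/-!
# A third lemma on real sequences

The bounds `ℓ n ≤ A x (n + 1) + B x n` and `ℓ n ≤ x (n + m)` are used together.
-/

set_option autoImplicit false

namespace Pool.Agent.H595.Dens

open Filter Topology

/-- The sums of a sequence which tends to infinity dominate all linear functions. -/
theorem absorb {x : ℕ → ℝ} (hlim : Tendsto x atTop atTop) {ε : ℝ} (hε : 0 < ε) (C C' : ℝ) :
    ∀ᶠ n : ℕ in atTop, C * n + C' ≤ ε * ∑ j ∈ Finset.range n, x j := by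
  obtain ⟨n₀, hn₀⟩ := eventually_atTop.1 (hlim.eventually (eventually_ge_atTop ((|C| + 1) / ε)))
  obtain ⟨S₀, hS₀⟩ : ∃ S₀ : ℝ, S₀ = ∑ j ∈ Finset.range n₀, x j := ⟨_, rfl⟩
  have key : ∀ n, n₀ ≤ n → S₀ + (|C| + 1) / ε * (n - n₀) ≤ ∑ j ∈ Finset.range n, x j := by
    intro n hn
    induction n, hn using Nat.le_induction with
    | base => rw [hS₀]; simp
    | succ n hn ih =>
      rw [Finset.sum_range_succ]
      have := hn₀ n hn
      push_cast
      linarith
  obtain ⟨M, hM⟩ := exists_nat_ge (|C'| + |ε * S₀| + (|C| + 1) * n₀)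
  filter_upwards [eventually_ge_atTop (max n₀ M)] with n hn
  have h1 := key n ((le_max_left _ _).trans hn)
  have h2 : (M : ℝ) ≤ n := by exact_mod_cast (le_max_right _ _).trans hn
  have h3 := mul_le_mul_of_nonneg_left h1 hε.le
  have h4 : ε * (S₀ + (|C| + 1) / ε * (n - n₀)) = ε * S₀ + (|C| + 1) * (n - n₀) := by
    field_simp
  rw [h4] at h3
  have h5 := le_abs_self C
  have h6 := le_abs_self C'
  have h7 := neg_abs_le (ε * S₀)
  have h8 : (0 : ℝ) ≤ n := Nat.cast_nonneg n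
  have h9 := mul_le_mul_of_nonneg_right h5 h8
  linarith

theorem seq_multi {x ℓ f : ℕ → ℝ} {a A B u : ℝ} {m : ℕ} (ha : 0 < a) (ha1 : a < 1) (hA : 0 ≤ A)
    (hu : 1 < u) (hroot : u ^ m = A * u + B) (hlim : Tendsto x atTop atTop)
    (hf : ∀ n, f (n + 1) ≤ f n + a * ℓ n - x n)
    (hP : ∀ ε : ℝ, 0 < ε → ∃ C : ℝ, ∀ n, ℓ n ≤ (A + ε) * x (n + 1) + (B + ε) * x n + C)
    (hT : ∃ C : ℝ, ∀ n, ℓ n ≤ x (n + m) + C)
    (h2 : 1 ≤ a * (A + B)) (η : ℝ) (hη : 0 < η) (N : ℕ) :
    ∃ n, N ≤ n ∧ f n ≤ (a * A + (a * (A + B) - 1) / (u - 1) + η) * x n := by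
  by_contra hcon
  push Not at hcon
  obtain ⟨D, hD⟩ : ∃ D : ℝ, D = a * A + (a * (A + B) - 1) / (u - 1) := ⟨_, rfl⟩
  rw [← hD] at hcon
  have hu1 : 0 < u - 1 := by linarith
  have hD0 : 0 ≤ D := by
    rw [hD]
    have h3 : 0 ≤ a * (A + B) - 1 := by linarith
    positivity
  have hDη : 0 < D + η := by linarith
  obtain ⟨S, hS⟩ : ∃ S : ℕ → ℝ, S = fun n => ∑ j ∈ Finset.range n, x j := ⟨_, rfl⟩
  have hS0 : S 0 = 0 := by rw [hS]; simp
  have hSs : ∀ n, S (n + 1) = S n + x n := fun n => by rw [hS]; exact Finset.sum_range_succ _ _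
  have hab : ∀ {ε : ℝ}, 0 < ε → ∀ C C' : ℝ, ∀ᶠ n : ℕ in atTop, C * n + C' ≤ ε * S n := by
    intro ε hε C C'
    rw [hS]
    exact absorb hlim hε C C'
  have hx0 : ∀ᶠ n in atTop, 0 < x n := hlim.eventually (eventually_gt_atTop 0)
  have hS1 : ∀ᶠ n in atTop, 1 ≤ S n := by
    filter_upwards [hab one_pos 0 1] with n hn
    linarith
  -- positivity of the exponents
  have hpos : ∀ κ : ℝ, (∀ᶠ n in atTop, x n ≤ κ * S n) → 0 < κ := by
    intro κ hκ
    obtain ⟨n, h3, h4, h5⟩ := (hκ.and (hx0.and hS1)).exists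
    by_contra h6
    have h7 : κ * S n ≤ 0 := mul_nonpos_of_nonpos_of_nonneg (not_lt.1 h6) (by linarith)
    linarith
  -- the first bound for the growth
  have first : ∃ κ : ℝ, κ < u - 1 ∧ ∀ᶠ n in atTop, x n ≤ κ * S n := by
    obtain ⟨ε, hε, hε1, hε2⟩ : ∃ ε : ℝ, 0 < ε ∧ a * ε ≤ η / 4 ∧ 2 * (a * ε) ≤ η * (u - 1) / 4 := by
      refine ⟨min (η / (4 * a)) (η * (u - 1) / (8 * a)), lt_min (by positivity) (by positivity), ?_, ?_⟩
      · calc a * min (η / (4 * a)) (η * (u - 1) / (8 * a)) ≤ a * (η / (4 * a)) :=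
              mul_le_mul_of_nonneg_left (min_le_left _ _) ha.le
          _ = η / 4 := by field_simp
      · calc 2 * (a * min (η / (4 * a)) (η * (u - 1) / (8 * a))) ≤ 2 * (a * (η * (u - 1) / (8 * a))) := by
              gcongr
              exact min_le_right _ _
          _ = η * (u - 1) / 4 := by field_simp; ring
    obtain ⟨C, hC⟩ := hP ε hε
    have key : ∀ n, f n - a * (A + ε) * x n ≤ f 0 - a * (A + ε) * x 0 +
        (a * (A + B) - 1 + 2 * (a * ε)) * S n + a * C * n := by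
      intro n
      induction n with
      | zero => rw [hS0]; simp
      | succ n ih =>
        have h3 := hf n
        have h4 := mul_le_mul_of_nonneg_left (hC n) ha.le
        rw [hSs]
        push_cast
        linarith
    obtain ⟨δ, hδ⟩ : ∃ δ : ℝ, δ = (a * (A + B) - 1) / (u - 1) + η - a * ε := ⟨_, rfl⟩
    have hq : 0 ≤ (a * (A + B) - 1) / (u - 1) := div_nonneg (by linarith) hu1.le
    have hδ0 : 0 < δ := by rw [hδ]; linarith
    refine ⟨(a * (A + B) - 1 + 2 * (a * ε) + η * (u - 1) / 4) / δ, ?_, ?_⟩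
    · rw [div_lt_iff₀ hδ0, hδ]
      have h3 : (u - 1) * ((a * (A + B) - 1) / (u - 1) + η - a * ε) =
          (a * (A + B) - 1) + (u - 1) * (η - a * ε) := by
        field_simp
        ring
      rw [h3]
      have h4 : (u - 1) * (η - a * ε) ≥ (u - 1) * (3 / 4 * η) :=
        mul_le_mul_of_nonneg_left (by linarith) hu1.le
      have h5 : 0 < (u - 1) * η := mul_pos hu1 hη
      linarith
    · filter_upwards [hab (show 0 < η * (u - 1) / 4 by positivity) (a * C) (f 0 - a * (A + ε) * x 0),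
        eventually_ge_atTop N] with n hn hnN
      rw [div_mul_eq_mul_div, le_div_iff₀ hδ0]
      have h3 := key n
      have h4 := hcon n hnN
      have h5 : δ * x n = (D + η) * x n - a * (A + ε) * x n := by rw [hδ, hD]; ring
      linarith
  -- improvement of the bound
  obtain ⟨C, hC⟩ := hT
  have step : ∀ κ κ' : ℝ, 0 ≤ κ → (∀ᶠ n in atTop, x n ≤ κ * S n) →
      a * (1 + κ) ^ m - 1 < (D + η) * κ' → ∀ᶠ n in atTop, x n ≤ κ' * S n := by
    intro κ κ' hκ0 hκ hκ'
    obtain ⟨n₁, hn₁⟩ := eventually_atTop.1 hκ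
    have h3 : ∀ n k, n₁ ≤ n → S (n + k) ≤ (1 + κ) ^ k * S n := by
      intro n k hn
      induction k with
      | zero => simp
      | succ k ih =>
        rw [← add_assoc, hSs, pow_succ]
        have h4 := hn₁ (n + k) (by omega)
        have h5 := mul_le_mul_of_nonneg_left ih (show 0 ≤ 1 + κ by linarith)
        linarith
    have h4 : ∀ n, f n ≤ f 0 + a * (S (n + m) - S m) - S n + a * C * n := by
      intro n
      induction n with
      | zero => rw [hS0]; simp
      | succ n ih =>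
        have h5 := hf n
        have h6 := mul_le_mul_of_nonneg_left (hC n) ha.le
        rw [show n + 1 + m = (n + m) + 1 by ring, hSs, hSs]
        push_cast
        linarith
    filter_upwards [eventually_ge_atTop (max n₁ N),
      hab (sub_pos.2 hκ') (a * C) (f 0 - a * S m)] with n hn h5
    have h6 := h3 n m ((le_max_left _ _).trans hn)
    have h7 := h4 n
    have h8 := hcon n ((le_max_right _ _).trans hn)
    have h9 := mul_le_mul_of_nonneg_left h6 ha.le
    have h10 : (D + η) * x n ≤ (D + η) * (κ' * S n) := by linarith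
    exact le_of_mul_le_mul_left h10 hDη
  -- the infimum
  obtain ⟨κ₁, hκ₁, hκ₁'⟩ := first
  obtain ⟨K, hK⟩ : ∃ K : Set ℝ, K = {κ | ∀ᶠ n in atTop, x n ≤ κ * S n} := ⟨_, rfl⟩
  have hKne : K.Nonempty := ⟨κ₁, by rw [hK]; exact hκ₁'⟩
  have hKb : BddBelow K := ⟨0, fun κ hκ => by rw [hK] at hκ; exact (hpos κ hκ).le⟩
  obtain ⟨z, hz⟩ : ∃ z : ℝ, z = sInf K := ⟨_, rfl⟩
  have hz0 : 0 ≤ z := by
    rw [hz]
    exact le_csInf hKne (fun κ hκ => by rw [hK] at hκ; exact (hpos κ hκ).le)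
  have hz1 : z < u - 1 := by
    rw [hz]
    exact (csInf_le hKb (by rw [hK]; exact hκ₁')).trans_lt hκ₁
  have hDroot : a * u ^ m - 1 = D * (u - 1) := by
    rw [hroot, hD]
    field_simp
    ring
  have hconv : a * (1 + z) ^ m - 1 < (D + η) * z := by
    obtain ⟨lam, hlam⟩ : ∃ lam : ℝ, lam = z / (u - 1) := ⟨_, rfl⟩
    have hlam0 : 0 ≤ lam := by rw [hlam]; positivity
    have hlam1 : lam < 1 := by rw [hlam, div_lt_one hu1]; exact hz1
    have hlamz : lam * (u - 1) = z := by rw [hlam]; field_simp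
    have h3 := (convexOn_pow (𝕜 := ℝ) m).2 (show (1 : ℝ) ∈ Set.Ici 0 from zero_le_one (α := ℝ))
      (show u ∈ Set.Ici 0 from by show (0 : ℝ) ≤ u; linarith)
      (show 0 ≤ 1 - lam by linarith) hlam0 (by ring)
    simp only [smul_eq_mul, one_pow, mul_one] at h3
    have h4 : 1 - lam + lam * u = 1 + z := by rw [← hlamz]; ring
    rw [h4] at h3
    have h5 := mul_le_mul_of_nonneg_left h3 ha.le
    have h6 : a * (lam * u ^ m) = lam * (D * (u - 1)) + lam := by rw [← hDroot]; ring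
    have h7 : (D + η) * z = lam * (D * (u - 1)) + η * z := by rw [← hlamz]; ring
    rw [h7]
    have h8 : 0 ≤ η * z := by positivity
    have h9 : a * (1 - lam) < 1 - lam := by
      have : 0 < 1 - lam := by linarith
      nlinarith
    linarith
  have hcont : ContinuousAt (fun κ : ℝ => a * (1 + κ) ^ m - 1) z := by fun_prop
  obtain ⟨c, hc⟩ : ∃ c : ℝ, c = (a * (1 + z) ^ m - 1 + (D + η) * z) / 2 := ⟨_, rfl⟩
  have hc1 : a * (1 + z) ^ m - 1 < c := by rw [hc]; linarith
  have hc2 : c < (D + η) * z := by rw [hc]; linarith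
  have hev := hcont.eventually (gt_mem_nhds hc1)
  rw [Metric.eventually_nhds_iff] at hev
  obtain ⟨δ, hδ, hδ1⟩ := hev
  obtain ⟨κ, hκK, hκ⟩ := exists_lt_of_csInf_lt hKne (show sInf K < z + δ by rw [← hz]; linarith)
  have hκz : z ≤ κ := by rw [hz]; exact csInf_le hKb hκK
  have h3 : a * (1 + κ) ^ m - 1 < c := hδ1 (by
    rw [Real.dist_eq, abs_of_nonneg (by linarith)]
    linarith)
  have h4 : ∀ᶠ n in atTop, x n ≤ c / (D + η) * S n := by
    refine step κ _ (hz0.trans hκz) (by rw [hK] at hκK; exact hκK) ?_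
    rw [mul_div_cancel₀ _ hDη.ne']
    exact h3
  have h5 : z ≤ c / (D + η) := by
    rw [hz]
    exact csInf_le hKb (by rw [hK]; exact h4)
  rw [le_div_iff₀' hDη] at h5
  linarith

end Pool.Agent.H595.Dens
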