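import Pool.Agent.H595.Dens.Fam
import Pool.Agent.H595.Dens.Seq2
import Pool.Agent.H595.Dens.Fin

/-!
# The law for finitely many numbers
-/

set_option autoImplicit false

namespace Pool.Agent.H595.Dens

open MeasureTheory Filter Topology Set

/-- **Exponents up to three.** For `n` numbers. -/
theorem fam_low {J : Type*} [Fintype J] {θ : J → ℝ} (hθ : ∀ j, Irrational (θ j)) (hsep : Sep θ) {w u : ℝ}
    (hw : 1 < w) (hw3 : w ≤ 3) (hu : 1 < u) (hroot : u ^ Fintype.card J = 2 * u + 1) :
    lowerDensity (ratScales θ w) ≤ 2 / w + (3 / w - 1) / (u - 1) := by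
  have hw0 : 0 < w := by linarith
  rw [ratScales_eq hθ]
  by_cases hunb : ∀ B : ℝ, ∃ x ∈ goodScales rX (rL θ) w, B ≤ x
  · obtain ⟨s, hs⟩ := exists_goodSeq hw0 finite_rX hunb
    refine lowerDensity_le hs.lim (fun η hη N => ?_)
    have hT : ∀ n, rL θ (s n) ≤ rX (s (n + Fintype.card J)) + Real.log 2 := by
      intro n
      obtain ⟨a, b, hab, h⟩ := Fintype.exists_ne_map_eq_of_card_lt
        (fun k : Fin (Fintype.card J + 1) => (s (n + k)).1) (by rw [Fintype.card_fin]; omega)
      have main : ∀ a b : Fin (Fintype.card J + 1), a < b → (s (n + a)).1 = (s (n + b)).1 →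
          rL θ (s n) ≤ rX (s (n + Fintype.card J)) + Real.log 2 := by
        intro a b hab h
        have hab' : n + (a : ℕ) < n + (b : ℕ) := by have : (a : ℕ) < b := hab; omega
        have h1 := same_bound hθ h (hs.monoX hab') (hs.monoL hab')
        have h2 : rL θ (s n) ≤ rL θ (s (n + a)) := hs.monoL.monotone (by omega)
        have h3 : rX (s (n + (b : ℕ))) ≤ rX (s (n + Fintype.card J)) := hs.monoX.monotone (by
          have := b.2
          omega)
        linarith
      rcases lt_or_gt_of_ne hab with h1 | h1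
      · exact main a b h1 h
      · exact main b a h1 h.symm
    obtain ⟨n, hn1, hn2⟩ := seq_multi (x := fun n => rX (s n)) (ℓ := fun n => rL θ (s n))
      (f := fun n => (volume (goodScales rX (rL θ) w ∩ Icc 0 (rX (s n)))).toReal) (a := 1 / w) (A := 2) (B := 1)
      (u := u) (m := Fintype.card J)
      (by positivity) (by rw [div_lt_one hw0]; exact hw) (by norm_num) hu hroot hs.lim (fun n => hs.meas hw0 n)
      (fun ε hε => by
        obtain ⟨C, hC⟩ := fam_bound hθ hsep ε hε
        exact ⟨C, fun n => hC _ _ (hs.incX n) (hs.incL n)⟩)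
      ⟨_, hT⟩ (by rw [one_div, ← div_eq_inv_mul, one_le_div hw0]; linarith) η hη N
    refine ⟨n, hn1, hn2.trans (le_of_eq ?_)⟩
    congr 2
    rw [one_div]
    ring
  · push Not at hunb
    obtain ⟨B, hB⟩ := hunb
    rw [lowerDensity_of_bdd (fun x hx => (hB x hx).le)]
    have h1 : 0 ≤ 3 / w - 1 := by rw [sub_nonneg, one_le_div hw0]; exact hw3
    have h2 : 0 < u - 1 := by linarith
    positivity

/-- a rational number -/
theorem density_one_rat {J : Type*} {θ : J → ℝ} {j : J} (h : ¬ Irrational (θ j)) (w : ℝ) :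
    lowerDensity (ratScales θ w) = 1 := by
  rw [Irrational, not_not] at h
  obtain ⟨z, hz⟩ := h
  have hR1 : (1 : ℝ) ≤ z.den := by exact_mod_cast z.pos
  obtain ⟨B, hB⟩ : ∃ B : ℝ, B = Real.log z.den := ⟨_, rfl⟩
  have hB0 : 0 ≤ B := by rw [hB]; exact Real.log_nonneg hR1
  have hmem : ∀ x, B ≤ x → x ∈ ratScales θ w := by
    intro x hx
    refine ⟨j, z.num, z.den, by exact_mod_cast z.pos, ?_, ?_⟩
    · rw [Int.cast_natCast, ← Real.exp_log (by linarith : (0 : ℝ) < z.den), ← hB]
      exact Real.exp_le_exp.2 hx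
    · have h1 : ((z.den : ℤ) : ℝ) * θ j - z.num = 0 := by
        rw [← hz, Int.cast_natCast, sub_eq_zero]
        exact_mod_cast z.den_mul_eq_num
      rw [h1, abs_zero]
      positivity
  apply le_antisymm
  · refine lowerDensity_le (x := fun n : ℕ => (n : ℝ)) tendsto_natCast_atTop_atTop ?_
    intro η hη N
    refine ⟨N, le_rfl, ?_⟩
    refine (vol_le _ (Nat.cast_nonneg N)).trans ?_
    have : (0 : ℝ) ≤ N := Nat.cast_nonneg N
    nlinarith
  · apply le_lowerDensity
    intro η hη
    refine ⟨max B (B / η), fun T hT => ?_⟩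
    have h1 : B ≤ T := (le_max_left _ _).trans hT
    have h2 : B / η ≤ T := (le_max_right _ _).trans hT
    rw [div_le_iff₀' hη] at h2
    have h3 := meas_lower (S := ratScales θ w) hB0 h1 (fun y hy => hmem y hy.1)
    have h4 : 0 ≤ (volume (ratScales θ w ∩ Icc 0 B)).toReal := ENNReal.toReal_nonneg
    linarith

/-- the law for `n` numbers, with a root `u` of `u ^ n = 2 u + 1` -/
noncomputable def famLaw (u w : ℝ) : ℝ := max (2 / w) (2 / w + (3 / w - 1) / (u - 1))

theorem fam_law {J : Type*} [Fintype J] {θ : J → ℝ} (hθ : ∀ j, Irrational (θ j)) (hsep : Sep θ) {w u : ℝ}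
    (hw : 1 < w) (hu : 1 < u) (hroot : u ^ Fintype.card J = 2 * u + 1) :
    lowerDensity (ratScales θ w) ≤ famLaw u w := by
  rcases le_or_gt w 3 with h | h
  · exact (fam_low hθ hsep hw h hu hroot).trans (le_max_right _ _)
  · exact (fam_high hθ hsep h).trans (le_max_left _ _)

theorem famLaw_lt_one {u w : ℝ} (hu : 1 < u) (hw : 2 + 1 / u < w) : famLaw u w < 1 := by
  have hu0 : 0 < u := by linarith
  have h1 : 0 < 1 / u := by positivity
  have hw0 : 0 < w := by linarith
  have hu1 : 0 < u - 1 := by linarith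
  rw [famLaw, max_lt_iff]
  refine ⟨by rw [div_lt_one hw0]; linarith, ?_⟩
  have h2 : 2 / w + (3 / w - 1) / (u - 1) = (2 * u + 1 - w) / (w * (u - 1)) := by
    field_simp
    ring
  rw [h2, div_lt_one (by positivity)]
  have h3 : (2 + 1 / u) * u < w * u := by gcongr
  have h4 : (2 + 1 / u) * u = 2 * u + 1 := by field_simp
  linarith

end Pool.Agent.H595.Dens
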