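import Pool.Agent.H595.Dens.Constr2
import Pool.Agent.H595.Dens.Fam2

/-!
# The numbers `t + r ξ`, `r` rational, and the numbers `s ρ`
-/

set_option autoImplicit false

namespace Pool.Agent.H595.Dens

open MeasureTheory Filter Topology Set

/-- good approximations with large denominators -/
theorem exists_approx {ξ : ℝ} (hξ : Irrational ξ) (N : ℕ) :
    ∃ (P : ℤ) (Q : ℕ), N ≤ Q ∧ 1 ≤ Q ∧ |Q * ξ - P| < 1 / Q := by
  have hpos : ∀ k ∈ Finset.Icc 1 (N + 1), 0 < |(k : ℝ) * ξ - round ((k : ℝ) * ξ)| := by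
    intro k hk
    rw [Finset.mem_Icc] at hk
    rw [abs_pos, sub_ne_zero]
    have h1 : Irrational ((k : ℝ) * ξ) := hξ.natCast_mul (by omega)
    exact h1.ne_int _
  obtain ⟨k₀, hk₀, hmin⟩ := Finset.exists_min_image (Finset.Icc 1 (N + 1))
    (fun k => |(k : ℝ) * ξ - round ((k : ℝ) * ξ)|) ⟨1, by simp⟩
  obtain ⟨n, hn⟩ := exists_nat_gt (1 / |(k₀ : ℝ) * ξ - round ((k₀ : ℝ) * ξ)|)
  have h0 := hpos k₀ hk₀
  have hn0 : 0 < n := by
    have : (0 : ℝ) < n := lt_trans (by positivity) hn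
    exact_mod_cast this
  obtain ⟨j, k, hk1, hk2, hk3⟩ := Real.exists_int_int_abs_mul_sub_le ξ hn0
  obtain ⟨K, hK⟩ : ∃ K : ℕ, (K : ℤ) = k := ⟨k.toNat, by omega⟩
  have hKr : (K : ℝ) = k := by rw [← hK, Int.cast_natCast]
  have hK0 : 0 < K := by omega
  have hK0r : (0 : ℝ) < K := by exact_mod_cast hK0
  have hKn : (K : ℝ) ≤ n := by
    rw [hKr]; exact_mod_cast hk2
  refine ⟨j, K, ?_, hK0, ?_⟩
  · by_contra hcon
    have h1 := hmin K (by rw [Finset.mem_Icc]; omega)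
    have h2 := round_le ((K : ℝ) * ξ) j
    rw [hKr] at h1 h2
    have h3 : |(k₀ : ℝ) * ξ - round ((k₀ : ℝ) * ξ)| ≤ 1 / (n + 1) := h1.trans (h2.trans hk3)
    rw [one_div_lt h0 (by exact_mod_cast hn0)] at hn
    have h4 : 1 / ((n : ℝ) + 1) ≤ 1 / n := by gcongr; linarith
    linarith
  · rw [hKr]
    refine hk3.trans_lt ?_
    rw [← hKr]
    gcongr
    linarith

theorem irrational_of_expTwo {ξ : ℝ} (h : ExpTwo ξ) : Irrational ξ := by
  rintro ⟨z, rfl⟩
  obtain ⟨c, hc, h1⟩ := h 1 one_pos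
  have h2 := h1 z.num z.den (by exact_mod_cast z.pos)
  have h3 : ((z.den : ℤ) : ℝ) * z - z.num = 0 := by
    rw [Int.cast_natCast, sub_eq_zero]
    exact_mod_cast z.den_mul_eq_num
  rw [h3, abs_zero] at h2
  have : (0 : ℝ) < ((z.den : ℤ) : ℝ) := by exact_mod_cast z.pos
  have h4 : 0 < c * ((z.den : ℤ) : ℝ) ^ (-(1 + 1) : ℝ) := by positivity
  linarith

/-- **Separation of the numbers `t + r ξ`.** -/
theorem sep_add {J : Type*} {r : J → ℚ} (hr : Function.Injective r) {ξ : ℝ} (hξ : ExpTwo ξ) (t : ℝ) :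
    Sep (fun j => t + r j * ξ) := by
  intro j k hjk ε hε
  obtain ⟨c, hc, h1⟩ := hξ ε hε
  obtain ⟨z, hz⟩ : ∃ z : ℚ, z = r j - r k := ⟨_, rfl⟩
  have hz0 : z ≠ 0 := by rw [hz, sub_ne_zero]; exact fun h => hjk (hr h)
  obtain ⟨a, ha⟩ : ∃ a : ℤ, a = z.num := ⟨_, rfl⟩
  obtain ⟨b, hb⟩ : ∃ b : ℕ, b = z.den := ⟨_, rfl⟩
  have ha0 : a ≠ 0 := by rw [ha]; exact Rat.num_ne_zero.2 hz0
  have hb1 : 1 ≤ b := by rw [hb]; exact z.pos
  have hbr : (1 : ℝ) ≤ b := by exact_mod_cast hb1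
  have hzr : (b : ℝ) * ((r j : ℝ) - r k) = a := by
    have h2 : (b : ℚ) * (r j - r k) = a := by
      rw [← hz, ha, hb]
      exact z.den_mul_eq_num
    exact_mod_cast h2
  -- a form of the measure with positive and negative multipliers
  have h1' : ∀ p q : ℤ, q ≠ 0 → c * (|(q : ℝ)|) ^ (-(1 + ε)) ≤ |q * ξ - p| := by
    intro p q hq
    rcases lt_or_gt_of_ne hq with h2 | h2
    · have h3 := h1 (-p) (-q) (by omega)
      have h4 : |(q : ℝ)| = ((-q : ℤ) : ℝ) := by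
        rw [abs_of_neg (by exact_mod_cast h2)]; push_cast; ring
      rw [h4]
      refine h3.trans (le_of_eq ?_)
      rw [← abs_neg]
      congr 1
      push_cast
      ring
    · have h3 := h1 p q (by omega)
      rwa [abs_of_pos (by exact_mod_cast h2 : (0 : ℝ) < q)]
  have haa : (0 : ℝ) < |(a : ℝ)| := abs_pos.2 (by exact_mod_cast ha0)
  refine ⟨c * |(a : ℝ)| ^ (-(1 + ε)) / b, by positivity, fun q q' p p' hq hq' => ?_⟩
  have hqr : (1 : ℝ) ≤ q := by exact_mod_cast hq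
  have hqr' : (1 : ℝ) ≤ q' := by exact_mod_cast hq'
  have h2 := h1' (b * (p * q' - p' * q)) (q * q' * a) (mul_ne_zero (mul_ne_zero (by omega) (by omega)) ha0)
  have h3 : (((q : ℤ) * q' * a : ℤ) : ℝ) * ξ - ((b * (p * q' - p' * q) : ℤ) : ℝ) =
      b * (q' * (q * (t + r j * ξ) - p) - q * (q' * (t + r k * ξ) - p')) := by
    push_cast
    rw [← hzr]
    ring
  rw [h3] at h2
  have h4 : |(((q : ℤ) * q' * a : ℤ) : ℝ)| = q * q' * |(a : ℝ)| := by
    push_cast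
    rw [abs_mul, abs_of_pos (by positivity)]
  rw [h4, Real.mul_rpow (by positivity) haa.le] at h2
  have h5 : |(b : ℝ) * (q' * (q * (t + r j * ξ) - p) - q * (q' * (t + r k * ξ) - p'))| ≤
      b * (q' * |q * (t + r j * ξ) - p| + q * |q' * (t + r k * ξ) - p'|) := by
    rw [abs_mul, abs_of_pos (by linarith : (0 : ℝ) < b)]
    apply mul_le_mul_of_nonneg_left _ (by linarith)
    refine (abs_sub _ _).trans ?_
    rw [abs_mul, abs_mul, abs_of_pos (by linarith : (0 : ℝ) < q), abs_of_pos (by linarith : (0 : ℝ) < q')]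
  have h6 := h2.trans h5
  rw [div_le_iff₀ (by linarith)]
  obtain ⟨E, hE⟩ : ∃ E : ℝ, E = q' * |q * (t + r j * ξ) - p| + q * |q' * (t + r k * ξ) - p'| := ⟨_, rfl⟩
  rw [← hE] at h6 ⊢
  have h7 : (0 : ℝ) < ((q : ℝ) * q') ^ (1 + ε) := by positivity
  have h8 := mul_le_mul_of_nonneg_left h6 h7.le
  have h9 : ((q : ℝ) * q') ^ (1 + ε) * (c * (((q : ℝ) * q') ^ (-(1 + ε)) * |(a : ℝ)| ^ (-(1 + ε)))) =
      c * |(a : ℝ)| ^ (-(1 + ε)) := by
    have : ((q : ℝ) * q') ^ (1 + ε) * ((q : ℝ) * q') ^ (-(1 + ε)) = 1 := by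
      rw [← Real.rpow_add (by positivity), add_neg_cancel, Real.rpow_zero]
    linear_combination (c * |(a : ℝ)| ^ (-(1 + ε))) * this
  rw [h9] at h8
  linarith

/-- **Construction of `t`.** -/
theorem exists_add {J : Type*} [Finite J] [Nontrivial J] {r : J → ℚ} (hr : Function.Injective r) {ξ : ℝ}
    (hξ : ExpTwo ξ) {α β : ℝ} (hαβ : α < β) :
    ∃ t : ℝ, α < t ∧ t < β ∧ (∀ j, Irrational (t + r j * ξ)) ∧
      ∀ w : ℝ, 2 ≤ w → 2 / w ≤ lowerDensity (ratScales (fun j => t + r j * ξ) w) := by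
  have hirr := irrational_of_expTwo hξ
  have := Fintype.ofFinite J
  obtain ⟨b, hb, hbr⟩ : ∃ b : ℕ, 1 ≤ b ∧ ∀ j, ∃ z : ℤ, (b : ℝ) * r j = z := by
    refine ⟨∏ j : J, (r j).den, Nat.one_le_iff_ne_zero.2 (Finset.prod_ne_zero_iff.2 fun j _ => (r j).pos.ne'), fun j => ?_⟩
    obtain ⟨c, hc⟩ := Finset.dvd_prod_of_mem (fun j => (r j).den) (Finset.mem_univ j)
    refine ⟨(r j).num * c, ?_⟩
    rw [hc]
    have h1 : ((r j).den : ℝ) * r j = (r j).num := by exact_mod_cast (r j).den_mul_eq_num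
    push_cast
    rw [← h1]
    ring
  choose z hz using hbr
  have hbr : (1 : ℝ) ≤ b := by exact_mod_cast hb
  have hzinj : Function.Injective z := by
    intro j k hjk
    apply hr
    have h1 : (b : ℝ) * r j = b * r k := by rw [hz, hz, hjk]
    have h2 := mul_left_cancel₀ (by linarith : (b : ℝ) ≠ 0) h1
    exact_mod_cast h2
  obtain ⟨j₀⟩ : Nonempty J := inferInstance
  obtain ⟨y, hy1, hy2⟩ := exists_rat_btwn (show α + r j₀ * ξ < β + r j₀ * ξ by linarith)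
  refine exists_t_fam (Θ := fun j t => t + r j * ξ) (α := α) (β := β) (M := 1) (C := 1) (b := b) hb one_pos
    one_pos (fun j s t => by rw [one_mul]; exact le_of_eq (by congr 1; ring)) (fun j s t h => by
      have h' : s + r j * ξ = t + r j * ξ := h
      linarith) (fun t _ _ => sep_add hr hξ t) j₀ (y - r j₀ * ξ) (by linarith) (by linarith) y.den y.num y.pos (by
      have : (y.den : ℝ) * y = y.num := by exact_mod_cast y.den_mul_eq_num
      show (y.den : ℝ) * (y - r j₀ * ξ + r j₀ * ξ) = y.num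
      rw [← this]
      ring) ?_
  intro j τ q p _ _ hq hp N
  obtain ⟨k, hk⟩ := exists_ne j
  have ha0 : z k - z j ≠ 0 := sub_ne_zero.2 fun h => hk (hzinj h)
  obtain ⟨P, Q, hNQ, hQ1, hPQ⟩ := exists_approx (hirr.intCast_mul ha0) N
  have hqr : (1 : ℝ) ≤ q := by exact_mod_cast hq
  have hQr : (1 : ℝ) ≤ Q := by exact_mod_cast hQ1
  have hp' : (q : ℝ) * (τ + r j * ξ) = p := hp
  -- the new number
  obtain ⟨σ, hσ⟩ : ∃ σ : ℝ, σ = ((p * b * Q + q * P : ℤ) : ℝ) / (b * q * Q) - r k * ξ := ⟨_, rfl⟩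
  have hdiff : σ - τ = -((Q : ℝ) * (((z k - z j : ℤ) : ℝ) * ξ) - P) / (b * Q) := by
    rw [hσ]
    have e1 : ((z k - z j : ℤ) : ℝ) = b * r k - b * r j := by push_cast; rw [hz, hz]
    rw [e1]
    push_cast
    rw [← hp']
    field_simp
    ring
  refine ⟨k, σ, p * b * Q + q * P, Q, hNQ, hQ1, ?_, ?_, ?_⟩
  · show ((b * q * Q : ℕ) : ℝ) * (σ + r k * ξ) = _
    rw [hσ]
    push_cast
    field_simp
    ring
  · intro h
    rw [h, sub_self, eq_comm, div_eq_zero_iff, neg_eq_zero, sub_eq_zero] at hdiff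
    rcases hdiff with h1 | h1
    · exact ((hirr.intCast_mul ha0).natCast_mul (show Q ≠ 0 by omega)).ne_int P h1
    · have : (b : ℝ) * Q ≠ 0 := by positivity
      exact this h1
  · rw [hdiff, abs_div, abs_neg, abs_of_pos (by positivity : (0 : ℝ) < b * Q), div_le_div_iff₀ (by positivity)
      (by positivity)]
    have h1 : |(Q : ℝ) * (((z k - z j : ℤ) : ℝ) * ξ) - P| * Q ≤ 1 := by
      rw [lt_div_iff₀ (by linarith)] at hPQ
      exact hPQ.le
    calc |(Q : ℝ) * (((z k - z j : ℤ) : ℝ) * ξ) - P| * (Q : ℝ) ^ 2 =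
          (|(Q : ℝ) * (((z k - z j : ℤ) : ℝ) * ξ) - P| * Q) * Q := by ring
      _ ≤ 1 * Q := by gcongr
      _ ≤ 1 * (b * Q) := by nlinarith

end Pool.Agent.H595.Dens
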