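import Pool.Graph.R_pool_sql_team_seeded_843ab51a.V11210.EP.Elim
import Pool.Graph.R_seed8.W472.AC.Digits

/-!
# Elimination with the right exponents
-/

set_option autoImplicit false

namespace Pool.Agent.H595.Alg

open Polynomial Pool.Agent.V11210.EP

/-- leading coefficient times the product of the numbers `1 + |α|` for the roots -/
noncomputable def sz (A : ℤ[X]) : ℝ :=
  |(A.leadingCoeff : ℝ)| * ((A.map (Int.castRingHom ℂ)).roots.map (fun α => 1 + ‖α‖)).prod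

theorem one_le_prod_roots (s : Multiset ℂ) : 1 ≤ (s.map (fun α => 1 + ‖α‖)).prod := by
  induction s using Multiset.induction_on with
  | empty => simp
  | cons a s ih =>
    rw [Multiset.map_cons, Multiset.prod_cons]
    have := norm_nonneg a
    nlinarith

theorem one_le_lc {A : ℤ[X]} (hA : A ≠ 0) : 1 ≤ |(A.leadingCoeff : ℝ)| := by
  exact_mod_cast Int.one_le_abs (leadingCoeff_ne_zero.2 hA)

theorem one_le_sz {A : ℤ[X]} (hA : A ≠ 0) : 1 ≤ sz A := by
  have h1 := one_le_lc hA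
  have h2 := one_le_prod_roots (A.map (Int.castRingHom ℂ)).roots
  rw [sz]
  nlinarith

theorem prod_le_two_pow (s : Multiset ℂ) :
    (s.map (fun α => 1 + ‖α‖)).prod ≤ 2 ^ s.card * (s.map (fun α => max 1 ‖α‖)).prod := by
  induction s using Multiset.induction_on with
  | empty => simp
  | cons a s ih =>
    rw [Multiset.map_cons, Multiset.prod_cons, Multiset.map_cons, Multiset.prod_cons, Multiset.card_cons, pow_succ]
    have h1 : 1 + ‖a‖ ≤ 2 * max 1 ‖a‖ := by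
      have := le_max_left 1 ‖a‖
      have := le_max_right 1 ‖a‖
      linarith
    have h2 : 0 ≤ (s.map (fun α => 1 + ‖α‖)).prod := by
      have := one_le_prod_roots s
      linarith
    have h3 := mul_le_mul h1 ih h2 (by positivity)
    linarith

theorem sz_le (d : ℕ) {A : ℤ[X]} (hd : A.natDegree ≤ d) {H : ℝ}
    (hH : ∀ j, |(A.coeff j : ℝ)| ≤ H) : sz A ≤ 2 ^ d * (d + 1) * H := by
  have hinj : Function.Injective (Int.castRingHom ℂ) := RingHom.injective_int _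
  obtain ⟨s, hs⟩ : ∃ s, s = (A.map (Int.castRingHom ℂ)).roots := ⟨_, rfl⟩
  have hH0 : 0 ≤ H := (abs_nonneg _).trans (hH 0)
  have hcard : s.card ≤ d := by
    rw [hs]
    exact (card_roots' _).trans (natDegree_map_le.trans hd)
  have h1 := prod_le_two_pow s
  have h2 : (2 : ℝ) ^ s.card ≤ 2 ^ d := pow_le_pow_right₀ (by norm_num) hcard
  have h3 := mahlerMeasure_eq_leadingCoeff_mul_prod_roots (A.map (Int.castRingHom ℂ))
  have h4 := mahlerMeasure_le_sum_norm_coeff (A.map (Int.castRingHom ℂ))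
  have hlc : ‖(A.map (Int.castRingHom ℂ)).leadingCoeff‖ = |(A.leadingCoeff : ℝ)| := by
    rw [leadingCoeff_map_of_injective hinj, eq_intCast, Complex.norm_intCast]
  rw [hlc, ← hs] at h3
  have h5 : ((A.map (Int.castRingHom ℂ)).sum fun _ a => ‖a‖) ≤ (d + 1) * H := by
    rw [Polynomial.sum_def]
    have hsub : (A.map (Int.castRingHom ℂ)).support ⊆ Finset.range (d + 1) := by
      intro i hi
      rw [Finset.mem_range]
      have := le_natDegree_of_mem_supp i hi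
      have := (natDegree_map_le (f := Int.castRingHom ℂ) (p := A)).trans hd
      omega
    calc ∑ i ∈ (A.map (Int.castRingHom ℂ)).support, ‖(A.map (Int.castRingHom ℂ)).coeff i‖
        ≤ ∑ i ∈ Finset.range (d + 1), ‖(A.map (Int.castRingHom ℂ)).coeff i‖ :=
          Finset.sum_le_sum_of_subset_of_nonneg hsub (fun _ _ _ => norm_nonneg _)
      _ ≤ ∑ _i ∈ Finset.range (d + 1), H := by
          apply Finset.sum_le_sum
          intro i _
          rw [coeff_map, eq_intCast, Complex.norm_intCast]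
          exact hH i
      _ = (d + 1) * H := by
          rw [Finset.sum_const, Finset.card_range, nsmul_eq_mul]
          push_cast
          ring
  have h0 : 0 ≤ (s.map (fun α => max 1 ‖α‖)).prod := by
    apply Multiset.prod_nonneg
    intro x hx
    obtain ⟨a, -, rfl⟩ := Multiset.mem_map.1 hx
    exact zero_le_one.trans (le_max_left _ _)
  rw [sz, ← hs]
  calc |(A.leadingCoeff : ℝ)| * (s.map (fun α => 1 + ‖α‖)).prod
      ≤ |(A.leadingCoeff : ℝ)| * (2 ^ s.card * (s.map (fun α => max 1 ‖α‖)).prod) := by gcongr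
    _ ≤ |(A.leadingCoeff : ℝ)| * (2 ^ d * (s.map (fun α => max 1 ‖α‖)).prod) := by gcongr
    _ = 2 ^ d * (|(A.leadingCoeff : ℝ)| * (s.map (fun α => max 1 ‖α‖)).prod) := by ring
    _ = 2 ^ d * (A.map (Int.castRingHom ℂ)).mahlerMeasure := by rw [h3]
    _ ≤ 2 ^ d * ((d + 1) * H) := by
        gcongr
        exact h4.trans h5
    _ = _ := by ring

/-- the eliminating polynomial as a product -/
theorem elim_map (d : ℕ) (P Q A B : ℤ[X]) (hB : B.natDegree ≤ d) :
    (elim d P Q A B).map (Int.castRingHom ℂ) = C ((A.leadingCoeff : ℂ) ^ d) *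
      ((A.map (Int.castRingHom ℂ)).roots.map
        fun α => (B.map (Int.castRingHom ℂ)).comp
          (C α * P.map (Int.castRingHom ℂ) + Q.map (Int.castRingHom ℂ))).prod := by
  apply Polynomial.funext
  intro z
  rw [eval_mul, eval_C, eval_multiset_prod, Multiset.map_map, ← aeval_int, aeval_elim d P Q A B hB z]
  congr 2
  refine Multiset.map_congr rfl fun α _ => ?_
  simp only [Function.comp]
  rw [eval_comp, aeval_int (aeval z P * α + aeval z Q)]
  simp only [eval_add, eval_mul, eval_C, ← aeval_int]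
  rw [mul_comm α]

theorem natDegree_elim_le (d δ : ℕ) (P Q A B : ℤ[X]) (hP : P.natDegree ≤ δ) (hQ : Q.natDegree ≤ δ)
    (hA : A.natDegree ≤ d) (hB : B.natDegree ≤ d) : (elim d P Q A B).natDegree ≤ δ * d * d := by
  have hinj : Function.Injective (Int.castRingHom ℂ) := RingHom.injective_int _
  rw [← natDegree_map_eq_of_injective hinj (elim d P Q A B), elim_map d P Q A B hB]
  refine (natDegree_C_mul_le _ _).trans ((natDegree_multiset_prod_le _).trans ?_)
  rw [Multiset.map_map]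
  have h1 : ∀ x ∈ (A.map (Int.castRingHom ℂ)).roots.map (natDegree ∘ fun α => (B.map (Int.castRingHom ℂ)).comp
          (C α * P.map (Int.castRingHom ℂ) + Q.map (Int.castRingHom ℂ))), x ≤ d * δ := by
    intro x hx
    obtain ⟨α, -, rfl⟩ := Multiset.mem_map.1 hx
    simp only [Function.comp]
    refine natDegree_comp_le.trans ?_
    apply Nat.mul_le_mul (natDegree_map_le.trans hB)
    refine natDegree_add_le_of_degree_le ?_ (natDegree_map_le.trans hQ)
    exact (natDegree_C_mul_le _ _).trans (natDegree_map_le.trans hP)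
  have h2 := Multiset.sum_le_card_nsmul _ _ h1
  refine h2.trans ?_
  rw [Multiset.card_map, smul_eq_mul]
  have h3 : (A.map (Int.castRingHom ℂ)).roots.card ≤ d := (card_roots' _).trans (natDegree_map_le.trans hA)
  calc _ ≤ d * (d * δ) := Nat.mul_le_mul_right _ h3
    _ = _ := by ring

/-- the value of a polynomial at a point is a product over its roots -/
theorem norm_aeval_eq (B : ℤ[X]) (y : ℂ) : ‖aeval y B‖ = |(B.leadingCoeff : ℝ)| *
    ((B.map (Int.castRingHom ℂ)).roots.map (fun β => ‖y - β‖)).prod := by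
  have hinj : Function.Injective (Int.castRingHom ℂ) := RingHom.injective_int _
  have h1 := (IsAlgClosed.splits (B.map (Int.castRingHom ℂ))).eq_prod_roots
  rw [aeval_int]
  conv_lhs => rw [h1]
  rw [eval_mul, eval_C, eval_multiset_prod, norm_mul, leadingCoeff_map_of_injective hinj, eq_intCast,
    Complex.norm_intCast, Multiset.map_map]
  congr 1
  rw [show ∀ s : Multiset ℂ, ‖s.prod‖ = (s.map (fun x => ‖x‖)).prod from fun s =>
    (map_multiset_prod (normHom : ℂ →*₀ ℝ) s), Multiset.map_map]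
  congr 1
  refine Multiset.map_congr rfl fun β _ => ?_
  simp

theorem prod_le_pow {s : Multiset ℂ} {f g : ℂ → ℝ} {T : ℝ} (hf : ∀ β ∈ s, 0 ≤ f β) (hg : ∀ β ∈ s, 0 ≤ g β)
    (hT : 0 ≤ T) (h : ∀ β ∈ s, f β ≤ T * g β) : (s.map f).prod ≤ T ^ s.card * (s.map g).prod := by
  induction s using Multiset.induction_on with
  | empty => simp
  | cons a s ih =>
    rw [Multiset.map_cons, Multiset.prod_cons, Multiset.map_cons, Multiset.prod_cons, Multiset.card_cons, pow_succ]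
    have h1 := ih (fun β hβ => hf β (Multiset.mem_cons_of_mem hβ)) (fun β hβ => hg β (Multiset.mem_cons_of_mem hβ))
      (fun β hβ => h β (Multiset.mem_cons_of_mem hβ))
    have h2 := h a (Multiset.mem_cons_self a s)
    have h3 : 0 ≤ (s.map f).prod := by
      apply Multiset.prod_nonneg
      intro x hx
      obtain ⟨b, hb, rfl⟩ := Multiset.mem_map.1 hx
      exact hf b (Multiset.mem_cons_of_mem hb)
    have h4 := mul_le_mul h2 h1 h3 (mul_nonneg hT (hg a (Multiset.mem_cons_self a s)))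
    linarith

theorem term_le {p q α β : ℂ} {M : ℝ} (hM : 1 ≤ M) (h : ‖p‖ + ‖q‖ ≤ M) :
    ‖p * α + q - β‖ ≤ M * (1 + ‖α‖) * (1 + ‖β‖) := by
  have h1 : ‖p * α + q - β‖ ≤ ‖p‖ * ‖α‖ + ‖q‖ + ‖β‖ := by
    refine (norm_sub_le _ _).trans ?_
    have := norm_add_le (p * α) q
    rw [norm_mul] at this
    linarith
  have hα := norm_nonneg α
  have hβ := norm_nonneg β
  have hp := norm_nonneg p
  have hq := norm_nonneg q
  have h2 : ‖p‖ * ‖α‖ ≤ M * ‖α‖ := by
    gcongr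
    linarith
  have h3 : 1 * ‖β‖ ≤ M * ‖β‖ := by gcongr
  have h4 : 0 ≤ M * (‖α‖ * ‖β‖) := by positivity
  nlinarith

/-- all values -/
theorem factor_le (d : ℕ) {B : ℤ[X]} (hd : B.natDegree ≤ d) {p q α : ℂ} {M : ℝ} (hM : 1 ≤ M)
    (h : ‖p‖ + ‖q‖ ≤ M) : ‖aeval (p * α + q) B‖ ≤ sz B * (M * (1 + ‖α‖)) ^ d := by
  obtain ⟨s, hs⟩ : ∃ s, s = (B.map (Int.castRingHom ℂ)).roots := ⟨_, rfl⟩
  have hα := norm_nonneg α
  have hT : 1 ≤ M * (1 + ‖α‖) := by nlinarith
  have hcard : s.card ≤ d := by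
    rw [hs]
    exact (card_roots' _).trans (natDegree_map_le.trans hd)
  have h1 := prod_le_pow (s := s) (f := fun β => ‖p * α + q - β‖) (g := fun β => 1 + ‖β‖) (T := M * (1 + ‖α‖))
    (fun _ _ => norm_nonneg _) (fun β _ => by positivity) (by linarith) (fun β _ => term_le hM h)
  have h2 : (M * (1 + ‖α‖)) ^ s.card ≤ (M * (1 + ‖α‖)) ^ d := pow_le_pow_right₀ hT hcard
  have h3 := one_le_prod_roots s
  rw [norm_aeval_eq, sz, ← hs]
  calc |(B.leadingCoeff : ℝ)| * (s.map (fun β => ‖p * α + q - β‖)).prod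
      ≤ |(B.leadingCoeff : ℝ)| * ((M * (1 + ‖α‖)) ^ s.card * (s.map (fun β => 1 + ‖β‖)).prod) := by gcongr
    _ ≤ |(B.leadingCoeff : ℝ)| * ((M * (1 + ‖α‖)) ^ d * (s.map (fun β => 1 + ‖β‖)).prod) := by gcongr
    _ = _ := by ring

/-- the value near a root -/
theorem factor_le' (d : ℕ) {B : ℤ[X]} (hd : B.natDegree ≤ d) {p q α β : ℂ} {M : ℝ} (hM : 1 ≤ M)
    (h : ‖p‖ + ‖q‖ ≤ M) (hβ : β ∈ (B.map (Int.castRingHom ℂ)).roots) :
    ‖aeval (p * α + q) B‖ ≤ sz B * (M * (1 + ‖α‖)) ^ d * ‖p * α + q - β‖ := by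
  obtain ⟨s, hs⟩ : ∃ s, s = (B.map (Int.castRingHom ℂ)).roots.erase β := ⟨_, rfl⟩
  have hcons : (B.map (Int.castRingHom ℂ)).roots = β ::ₘ s := by rw [hs, Multiset.cons_erase hβ]
  have hα := norm_nonneg α
  have hT : 1 ≤ M * (1 + ‖α‖) := by nlinarith
  have hcard : s.card ≤ d := by
    rw [hs]
    exact (Multiset.card_le_card (Multiset.erase_le _ _)).trans ((card_roots' _).trans (natDegree_map_le.trans hd))
  have h1 := prod_le_pow (s := s) (f := fun β => ‖p * α + q - β‖) (g := fun β => 1 + ‖β‖) (T := M * (1 + ‖α‖))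
    (fun _ _ => norm_nonneg _) (fun β _ => by positivity) (by linarith) (fun β _ => term_le hM h)
  have h2 : (M * (1 + ‖α‖)) ^ s.card ≤ (M * (1 + ‖α‖)) ^ d := pow_le_pow_right₀ hT hcard
  have h3 := one_le_prod_roots s
  have h4 := norm_nonneg β
  rw [norm_aeval_eq, sz, hcons, Multiset.map_cons, Multiset.prod_cons, Multiset.map_cons, Multiset.prod_cons]
  calc |(B.leadingCoeff : ℝ)| * (‖p * α + q - β‖ * (s.map (fun β => ‖p * α + q - β‖)).prod)
      ≤ |(B.leadingCoeff : ℝ)| * (‖p * α + q - β‖ *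
          ((M * (1 + ‖α‖)) ^ s.card * (s.map (fun β => 1 + ‖β‖)).prod)) := by gcongr
    _ ≤ |(B.leadingCoeff : ℝ)| * (‖p * α + q - β‖ *
          ((M * (1 + ‖α‖)) ^ d * (s.map (fun β => 1 + ‖β‖)).prod)) := by gcongr
    _ = |(B.leadingCoeff : ℝ)| * (1 * (s.map (fun β => 1 + ‖β‖)).prod) * (M * (1 + ‖α‖)) ^ d *
          ‖p * α + q - β‖ := by ring
    _ ≤ |(B.leadingCoeff : ℝ)| * ((1 + ‖β‖) * (s.map (fun β => 1 + ‖β‖)).prod) * (M * (1 + ‖α‖)) ^ d *
          ‖p * α + q - β‖ := by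
        gcongr
        linarith

theorem prod_sz (s : Multiset ℂ) (S M : ℝ) (d : ℕ) :
    (s.map (fun α => S * (M * (1 + ‖α‖)) ^ d)).prod = S ^ s.card * (M ^ d) ^ s.card *
      ((s.map (fun α => 1 + ‖α‖)).prod) ^ d := by
  induction s using Multiset.induction_on with
  | empty => simp
  | cons a s ih =>
    rw [Multiset.map_cons, Multiset.prod_cons, Multiset.map_cons, Multiset.prod_cons, Multiset.card_cons, ih]
    rw [mul_pow (1 + ‖a‖), mul_pow M, pow_succ, pow_succ]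
    ring

theorem norm_prod (s : Multiset ℂ) (f : ℂ → ℂ) : ‖(s.map f).prod‖ = (s.map (fun x => ‖f x‖)).prod := by
  rw [show ∀ s : Multiset ℂ, ‖s.prod‖ = (s.map (fun x => ‖x‖)).prod from fun s =>
    (map_multiset_prod (normHom : ℂ →*₀ ℝ) s), Multiset.map_map]
  rfl

/-- all values of the eliminating polynomial -/
theorem elim_value (d : ℕ) (P Q A B : ℤ[X]) (hA0 : A ≠ 0) (hB0 : B ≠ 0) (hA : A.natDegree ≤ d)
    (hB : B.natDegree ≤ d) {z : ℂ} {M : ℝ} (hM : 1 ≤ M) (h : ‖aeval z P‖ + ‖aeval z Q‖ ≤ M) :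
    ‖aeval z (elim d P Q A B)‖ ≤ (M ^ d) ^ d * (sz A * sz B) ^ d := by
  obtain ⟨s, hs⟩ : ∃ s, s = (A.map (Int.castRingHom ℂ)).roots := ⟨_, rfl⟩
  have hcard : s.card ≤ d := by
    rw [hs]
    exact (card_roots' _).trans (natDegree_map_le.trans hA)
  have h1 := one_le_sz hB0
  have hM1 : 1 ≤ M ^ d := one_le_pow₀ hM
  have h2 := prod_le_pow (s := s) (f := fun α => ‖aeval (aeval z P * α + aeval z Q) B‖)
    (g := fun α => sz B * (M * (1 + ‖α‖)) ^ d) (T := 1)
    (fun _ _ => norm_nonneg _) (fun β _ => by positivity) (by linarith)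
    (fun α _ => by rw [one_mul]; exact factor_le d hB hM h)
  rw [one_pow, one_mul, prod_sz] at h2
  have h3 : sz B ^ s.card ≤ sz B ^ d := pow_le_pow_right₀ h1 hcard
  have h4 : (M ^ d) ^ s.card ≤ (M ^ d) ^ d := pow_le_pow_right₀ hM1 hcard
  have h5 := one_le_prod_roots s
  rw [aeval_elim d P Q A B hB, norm_mul, norm_pow, Complex.norm_intCast, ← hs, norm_prod]
  calc |(A.leadingCoeff : ℝ)| ^ d * (s.map (fun α => ‖aeval (aeval z P * α + aeval z Q) B‖)).prod
      ≤ |(A.leadingCoeff : ℝ)| ^ d * (sz B ^ s.card * (M ^ d) ^ s.card *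
          ((s.map (fun α => 1 + ‖α‖)).prod) ^ d) := by gcongr
    _ ≤ |(A.leadingCoeff : ℝ)| ^ d * (sz B ^ d * (M ^ d) ^ d *
          ((s.map (fun α => 1 + ‖α‖)).prod) ^ d) := by gcongr
    _ = (M ^ d) ^ d * (sz A * sz B) ^ d := by
        have hszA : sz A = |(A.leadingCoeff : ℝ)| * (s.map (fun α => 1 + ‖α‖)).prod := by rw [sz, ← hs]
        rw [hszA, mul_pow, mul_pow]
        ring

/-- the value of the eliminating polynomial at a point which is near roots of `A` and `B` -/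
theorem elim_value' (d : ℕ) (P Q A B : ℤ[X]) (hA0 : A ≠ 0) (hB0 : B ≠ 0) (hA : A.natDegree ≤ d)
    (hB : B.natDegree ≤ d) {z : ℂ} {M : ℝ} (hM : 1 ≤ M) (h : ‖aeval z P‖ + ‖aeval z Q‖ ≤ M)
    {α β : ℂ} (hα : α ∈ (A.map (Int.castRingHom ℂ)).roots) (hβ : β ∈ (B.map (Int.castRingHom ℂ)).roots) :
    ‖aeval z (elim d P Q A B)‖ ≤ (M ^ d) ^ d * (sz A * sz B) ^ d * ‖aeval z P * α + aeval z Q - β‖ := by
  obtain ⟨s, hs⟩ : ∃ s, s = (A.map (Int.castRingHom ℂ)).roots.erase α := ⟨_, rfl⟩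
  have hcons : (A.map (Int.castRingHom ℂ)).roots = α ::ₘ s := by rw [hs, Multiset.cons_erase hα]
  have hcard : s.card + 1 ≤ d := by
    have h1 : (A.map (Int.castRingHom ℂ)).roots.card ≤ d := (card_roots' _).trans (natDegree_map_le.trans hA)
    rwa [hcons, Multiset.card_cons] at h1
  have h1 := one_le_sz hB0
  have hM1 : 1 ≤ M ^ d := one_le_pow₀ hM
  have h2 := prod_le_pow (s := s) (f := fun α => ‖aeval (aeval z P * α + aeval z Q) B‖)
    (g := fun α => sz B * (M * (1 + ‖α‖)) ^ d) (T := 1)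
    (fun _ _ => norm_nonneg _) (fun β _ => by positivity) (by linarith)
    (fun α _ => by rw [one_mul]; exact factor_le d hB hM h)
  rw [one_pow, one_mul, prod_sz] at h2
  have h0 := factor_le' d hB (α := α) hM h hβ
  have h3 : sz B ^ (s.card + 1) ≤ sz B ^ d := pow_le_pow_right₀ h1 hcard
  have h4 : (M ^ d) ^ (s.card + 1) ≤ (M ^ d) ^ d := pow_le_pow_right₀ hM1 hcard
  have h5 := one_le_prod_roots s
  have h6 := norm_nonneg α
  have h7 : 0 ≤ (s.map (fun x => ‖aeval (aeval z P * x + aeval z Q) B‖)).prod := by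
    apply Multiset.prod_nonneg
    intro x hx
    obtain ⟨b, -, rfl⟩ := Multiset.mem_map.1 hx
    exact norm_nonneg _
  rw [aeval_elim d P Q A B hB, norm_mul, norm_pow, Complex.norm_intCast, hcons, norm_prod, Multiset.map_cons,
    Multiset.prod_cons]
  calc |(A.leadingCoeff : ℝ)| ^ d * (‖aeval (aeval z P * α + aeval z Q) B‖ *
        (s.map (fun α => ‖aeval (aeval z P * α + aeval z Q) B‖)).prod)
      ≤ |(A.leadingCoeff : ℝ)| ^ d * (sz B * (M * (1 + ‖α‖)) ^ d * ‖aeval z P * α + aeval z Q - β‖ *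
          (sz B ^ s.card * (M ^ d) ^ s.card * ((s.map (fun α => 1 + ‖α‖)).prod) ^ d)) := by
        gcongr
    _ = |(A.leadingCoeff : ℝ)| ^ d * (sz B ^ (s.card + 1) * (M ^ d) ^ (s.card + 1) *
          ((1 + ‖α‖) * (s.map (fun α => 1 + ‖α‖)).prod) ^ d) * ‖aeval z P * α + aeval z Q - β‖ := by
        rw [mul_pow M, mul_pow (1 + ‖α‖), pow_succ (sz B), pow_succ (M ^ d)]
        ring
    _ ≤ |(A.leadingCoeff : ℝ)| ^ d * (sz B ^ d * (M ^ d) ^ d *
          ((1 + ‖α‖) * (s.map (fun α => 1 + ‖α‖)).prod) ^ d) * ‖aeval z P * α + aeval z Q - β‖ := by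
        gcongr
    _ = (M ^ d) ^ d * (sz A * sz B) ^ d * ‖aeval z P * α + aeval z Q - β‖ := by
        have hszA : sz A = |(A.leadingCoeff : ℝ)| * ((1 + ‖α‖) * (s.map (fun α => 1 + ‖α‖)).prod) := by
          rw [sz, hcons, Multiset.map_cons, Multiset.prod_cons]
        rw [hszA]
        generalize (1 + ‖α‖) * (s.map (fun α => 1 + ‖α‖)).prod = R
        rw [mul_pow (|(A.leadingCoeff : ℝ)| * R), mul_pow |(A.leadingCoeff : ℝ)|]
        ring

/-- **Elimination.** -/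
theorem elim_sharp (x : ℝ) (d δ : ℕ) (P Q : ℤ[X]) (hP : P.natDegree ≤ δ) (hQ : Q.natDegree ≤ δ) {κ c : ℝ}
    (hκ : 0 ≤ κ) (hc : 0 < c) (hx : Pool.Agent.W472.AC.MeasP x (δ * d * d) κ c) :
    ∃ c' : ℝ, 0 < c' ∧ ∀ A B : ℤ[X], A ≠ 0 → B ≠ 0 → A.natDegree ≤ d → B.natDegree ≤ d →
      elim d P Q A B ≠ 0 → ∀ H H' : ℝ, 1 ≤ H → 1 ≤ H' →
      (∀ j, |(A.coeff j : ℝ)| ≤ H) → (∀ j, |(B.coeff j : ℝ)| ≤ H') →
      ∀ α β : ℂ, aeval α A = 0 → aeval β B = 0 →
        c' ≤ (H * H') ^ ((d : ℝ) * κ + d) * ‖aeval (x : ℂ) P * α + aeval (x : ℂ) Q - β‖ := by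
  obtain ⟨N, hN⟩ : ∃ N : ℕ, N = δ * d * d := ⟨_, rfl⟩
  rw [← hN] at hx
  obtain ⟨C1, hC1, hcoef⟩ := coeff_le_values N
  obtain ⟨M, hM⟩ : ∃ M : ℝ, M = 1 + (‖aeval (x : ℂ) P‖ + ‖aeval (x : ℂ) Q‖) +
    ∑ k ∈ Finset.range (N + 1), (‖aeval (k : ℂ) P‖ + ‖aeval (k : ℂ) Q‖) := ⟨_, rfl⟩
  have hs0 : 0 ≤ ∑ k ∈ Finset.range (N + 1), (‖aeval (k : ℂ) P‖ + ‖aeval (k : ℂ) Q‖) := by positivity
  have hx0 : 0 ≤ ‖aeval (x : ℂ) P‖ + ‖aeval (x : ℂ) Q‖ := by positivity
  have hM1 : 1 ≤ M := by rw [hM]; linarith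
  have hMx : ‖aeval (x : ℂ) P‖ + ‖aeval (x : ℂ) Q‖ ≤ M := by rw [hM]; linarith
  have hMk : ∀ k ≤ N, ‖aeval (k : ℂ) P‖ + ‖aeval (k : ℂ) Q‖ ≤ M := by
    intro k hk
    have h1 : ‖aeval (k : ℂ) P‖ + ‖aeval (k : ℂ) Q‖ ≤
        ∑ k ∈ Finset.range (N + 1), (‖aeval (k : ℂ) P‖ + ‖aeval (k : ℂ) Q‖) :=
      Finset.single_le_sum (f := fun k : ℕ => ‖aeval (k : ℂ) P‖ + ‖aeval (k : ℂ) Q‖)
        (fun _ _ => by positivity) (Finset.mem_range.2 (by omega))
    rw [hM]
    linarith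
  obtain ⟨K, hK⟩ : ∃ K : ℝ, K = (M ^ d) ^ d * ((2 ^ d * (d + 1)) * (2 ^ d * (d + 1))) ^ d := ⟨_, rfl⟩
  have hK1 : 1 ≤ K := by
    have h1 : (1 : ℝ) ≤ 2 ^ d := one_le_pow₀ (by norm_num)
    have h2 : (1 : ℝ) ≤ (d : ℝ) + 1 := by linarith [Nat.cast_nonneg (α := ℝ) d]
    have h3 : (1 : ℝ) ≤ 2 ^ d * (d + 1) := by nlinarith
    have h4 : (1 : ℝ) ≤ ((2 ^ d * (d + 1)) * (2 ^ d * (d + 1))) ^ d := one_le_pow₀ (by nlinarith)
    have h5 : 1 ≤ (M ^ d) ^ d := one_le_pow₀ (one_le_pow₀ hM1)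
    rw [hK]
    nlinarith
  refine ⟨c / ((C1 * K) ^ κ * K), by positivity,
    fun A B hA0 hB0 hA hB hne H H' hH hH' hAH hBH α β hα hβ => ?_⟩
  have hinj : Function.Injective (Int.castRingHom ℂ) := RingHom.injective_int _
  have hA' : A.map (Int.castRingHom ℂ) ≠ 0 := (Polynomial.map_ne_zero_iff hinj).2 hA0
  have hB' : B.map (Int.castRingHom ℂ) ≠ 0 := (Polynomial.map_ne_zero_iff hinj).2 hB0
  have hαr : α ∈ (A.map (Int.castRingHom ℂ)).roots := by
    rw [mem_roots hA', IsRoot, ← aeval_int]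
    exact hα
  have hβr : β ∈ (B.map (Int.castRingHom ℂ)).roots := by
    rw [mem_roots hB', IsRoot, ← aeval_int]
    exact hβ
  have hszA := sz_le d hA hAH
  have hszB := sz_le d hB hBH
  have hsA := one_le_sz hA0
  have hsB := one_le_sz hB0
  have hH0 : 0 < H := by linarith
  have hH0' : 0 < H' := by linarith
  obtain ⟨G, hG⟩ : ∃ G : ℝ, G = H * H' := ⟨_, rfl⟩
  have hG1 : 1 ≤ G := by rw [hG]; nlinarith
  have hG0 : 0 < G := by linarith
  have hszG : (M ^ d) ^ d * (sz A * sz B) ^ d ≤ K * G ^ d := by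
    have h1 : sz A * sz B ≤ (2 ^ d * (d + 1)) * (2 ^ d * (d + 1)) * G := by
      calc sz A * sz B ≤ (2 ^ d * (d + 1) * H) * (2 ^ d * (d + 1) * H') :=
            mul_le_mul hszA hszB (by linarith) (by positivity)
        _ = _ := by rw [hG]; ring
    calc (M ^ d) ^ d * (sz A * sz B) ^ d ≤ (M ^ d) ^ d * ((2 ^ d * (d + 1)) * (2 ^ d * (d + 1)) * G) ^ d := by
          gcongr
      _ = K * G ^ d := by rw [hK, mul_pow]; ring
  have hGd : 1 ≤ G ^ d := one_le_pow₀ hG1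
  have hKG : 1 ≤ K * G ^ d := by nlinarith
  -- the values at the integers
  have hvals : ∀ k ≤ N, ‖aeval (k : ℂ) (elim d P Q A B)‖ ≤ K * G ^ d := by
    intro k hk
    exact (elim_value d P Q A B hA0 hB0 hA hB hM1 (hMk k hk)).trans hszG
  have hdeg : (elim d P Q A B).natDegree ≤ N := by
    rw [hN]
    exact natDegree_elim_le d δ P Q A B hP hQ hA hB
  have hcf := hcoef (elim d P Q A B) hdeg (K * G ^ d) (by positivity) hvals
  have hm := hx (elim d P Q A B) hne hdeg (C1 * (K * G ^ d)) (by nlinarith) hcf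
  -- the value at `x`
  have hvx := (elim_value' d P Q A B hA0 hB0 hA hB hM1 hMx hαr hβr).trans
    (mul_le_mul_of_nonneg_right hszG (norm_nonneg _))
  have hcast : ‖aeval (x : ℂ) (elim d P Q A B)‖ = |aeval x (elim d P Q A B)| := by
    rw [show aeval (x : ℂ) (elim d P Q A B) = ((aeval x (elim d P Q A B) : ℝ) : ℂ) from
      aeval_algebraMap_apply ℂ x _, Complex.norm_real, Real.norm_eq_abs]
  rw [hcast] at hvx
  obtain ⟨V, hV⟩ : ∃ V : ℝ, V = ‖aeval (x : ℂ) P * α + aeval (x : ℂ) Q - β‖ := ⟨_, rfl⟩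
  rw [← hV] at hvx
  rw [← hV, ← hG]
  have hfin : c ≤ ((C1 * K) ^ κ * K) * (G ^ ((d : ℝ) * κ + d) * V) := by
    calc c ≤ (C1 * (K * G ^ d)) ^ κ * |aeval x (elim d P Q A B)| := hm
      _ ≤ (C1 * (K * G ^ d)) ^ κ * (K * G ^ d * V) := by gcongr
      _ = _ := by
          rw [← mul_assoc C1, Real.mul_rpow (by positivity) (by positivity),
            Real.rpow_add hG0, Real.rpow_natCast, Real.rpow_mul hG0.le, Real.rpow_natCast]
          ring
  rw [div_le_iff₀ (by positivity)]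
  linarith

end Pool.Agent.H595.Alg
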