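import Pool.Agent.H595.Dens.AlgV

/-!
# The numbers `t + ξ`, `t - ξ`, `t ξ`, `t / ξ` are separated
-/

set_option autoImplicit false

namespace Pool.Agent.H595.Alg

open Polynomial MeasureTheory Filter Topology Set Pool.Agent.H595.Dens Pool.Agent.V11210.EP

/-- a transcendence measure with the exponents of almost all numbers -/
def TransM (ξ : ℝ) : Prop := ∀ r : ℕ, ∀ ε : ℝ, 0 < ε → ∃ c : ℝ, 0 < c ∧
  Pool.Agent.W472.AC.MeasP ξ r (r + ε) c

/-- separation of two numbers -/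
def Sep2 (d : ℕ) (E u v : ℝ) : Prop := ∀ ε : ℝ, 0 < ε → ∃ c : ℝ, 0 < c ∧
  ∀ A B : Pol d, ∀ α β : ℂ, aeval α A.1 = 0 → aeval β B.1 = 0 →
    c ≤ ((hgt A.1 : ℝ) * hgt B.1) ^ (E + ε) * (‖(u : ℂ) - α‖ + ‖(v : ℂ) - β‖)

theorem Sep2.symm {d : ℕ} {E u v : ℝ} (h : Sep2 d E u v) : Sep2 d E v u := by
  intro ε hε
  obtain ⟨c, hc, h1⟩ := h ε hε
  refine ⟨c, hc, fun A B α β hα hβ => ?_⟩
  have h2 := h1 B A β α hβ hα
  rwa [mul_comm (hgt B.1 : ℝ), add_comm ‖(u : ℂ) - β‖] at h2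

theorem Sep2.mono {d : ℕ} {E E' u v : ℝ} (h : Sep2 d E u v) (hE : E ≤ E') : Sep2 d E' u v := by
  intro ε hε
  obtain ⟨c, hc, h1⟩ := h ε hε
  refine ⟨c, hc, fun A B α β hα hβ => (h1 A B α β hα hβ).trans ?_⟩
  have hA := hgt_pos A
  have hB := hgt_pos B
  have hAB : (1 : ℝ) ≤ (hgt A.1 : ℝ) * hgt B.1 := by nlinarith
  gcongr

/-- a root which is an integer -/
theorem int_root {d : ℕ} (A : Pol d) {a : ℤ} (ha : aeval (a : ℂ) A.1 = 0) {α : ℂ} (hα : aeval α A.1 = 0) :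
    α = a := by
  have h1 : IsRoot A.1 a := by
    rw [IsRoot]
    have h2 : aeval (a : ℂ) A.1 = ((eval a A.1 : ℤ) : ℂ) := by
      have := aeval_algebraMap_apply ℂ a A.1
      simpa using this
    rw [h2] at ha
    exact_mod_cast ha
  have h2 := dvd_iff_isRoot.2 h1
  have h3 : Associated A.1 (X - C a) :=
    ((A.2.1.dvd_iff.1 h2).resolve_left (by
      intro h
      have h4 := natDegree_eq_zero_of_isUnit h
      rw [natDegree_X_sub_C] at h4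
      omega))
  obtain ⟨u, hu⟩ := h3
  have h4 : aeval α (A.1 * (u : ℤ[X])) = 0 := by rw [map_mul, hα, zero_mul]
  rw [hu] at h4
  have h5 : α - a = 0 := by simpa using h4
  exact sub_eq_zero.1 h5

theorem pair_sep {d δ : ℕ} (hd : 1 ≤ d) {ξ : ℝ} (hξ : TransM ξ) (P Q : ℤ[X]) (hP : P.natDegree ≤ δ)
    (hQ : Q.natDegree ≤ δ) {u v : ℝ} (huv : v = aeval ξ P * u + aeval ξ Q) (a₀ : ℤ)
    (hexc : ∀ α : ℂ, (C α * P.map (Int.castRingHom ℂ) + Q.map (Int.castRingHom ℂ) : ℂ[X]).natDegree = 0 → α = a₀)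
    (hu : u ≠ a₀) : Sep2 d (δ * d ^ 3 + d) u v := by
  intro ε hε
  have hd0 : (1 : ℝ) ≤ d := by exact_mod_cast hd
  have hd1 : (0 : ℝ) < d := by linarith
  obtain ⟨c, hc, hM⟩ := hξ (δ * d * d) (ε / d) (by positivity)
  obtain ⟨c', hc', h⟩ := elim_sharp ξ d δ P Q hP hQ (by positivity) hc hM
  obtain ⟨M, hMdef⟩ : ∃ M : ℝ, M = ‖aeval (ξ : ℂ) P‖ + 1 := ⟨_, rfl⟩
  have hM0 : 0 < M := by rw [hMdef]; positivity
  have hu0 : 0 < ‖(u : ℂ) - a₀‖ := by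
    rw [norm_pos_iff, sub_ne_zero]
    exact_mod_cast hu
  refine ⟨min (c' / M) ‖(u : ℂ) - a₀‖, lt_min (by positivity) hu0, fun A B α β hα hβ => ?_⟩
  have hA := hgt_pos A
  have hB := hgt_pos B
  have hAB : (1 : ℝ) ≤ (hgt A.1 : ℝ) * hgt B.1 := by nlinarith
  have hAB0 : (0 : ℝ) < (hgt A.1 : ℝ) * hgt B.1 := by linarith
  have hinj : Function.Injective (Int.castRingHom ℂ) := RingHom.injective_int _
  by_cases hcase : aeval (a₀ : ℂ) A.1 = 0
  · have h1 := int_root A hcase hα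
    rw [h1]
    have h2 : (1 : ℝ) ≤ ((hgt A.1 : ℝ) * hgt B.1) ^ ((δ : ℝ) * d ^ 3 + d + ε) :=
      Real.one_le_rpow hAB (by positivity)
    have h3 := norm_nonneg ((v : ℂ) - β)
    calc min (c' / M) ‖(u : ℂ) - a₀‖ ≤ ‖(u : ℂ) - a₀‖ := min_le_right _ _
      _ ≤ ‖(u : ℂ) - a₀‖ + ‖(v : ℂ) - β‖ := by linarith
      _ = 1 * (‖(u : ℂ) - a₀‖ + ‖(v : ℂ) - β‖) := by ring
      _ ≤ _ := by gcongr
  · have hne : elim d P Q A.1 B.1 ≠ 0 := by
      apply elim_ne_zero d P Q A.1 B.1 A.2.1.ne_zero B.2.1.ne_zero B.2.2.2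
      intro γ hγ
      by_contra hcon
      have h1 := hexc γ (by omega)
      rw [mem_roots', IsRoot, ← aeval_int] at hγ
      rw [h1] at hγ
      exact hcase hγ.2
    have h1 := h A.1 B.1 A.2.1.ne_zero B.2.1.ne_zero A.2.2.2 B.2.2.2 hne (hgt A.1) (hgt B.1) hA hB
      (coeff_le_hgt _) (coeff_le_hgt _) α β hα hβ
    have e1 : (d : ℝ) * (((δ * d * d : ℕ) : ℝ) + ε / d) + d = (δ : ℝ) * d ^ 3 + d + ε := by
      push_cast
      field_simp
      ring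
    rw [e1] at h1
    have h2 : aeval (ξ : ℂ) P * α + aeval (ξ : ℂ) Q - β =
        ((v : ℂ) - β) - aeval (ξ : ℂ) P * ((u : ℂ) - α) := by
      rw [huv, cast_aeval, cast_aeval]
      push_cast
      ring
    have h3 : ‖aeval (ξ : ℂ) P * α + aeval (ξ : ℂ) Q - β‖ ≤ M * (‖(u : ℂ) - α‖ + ‖(v : ℂ) - β‖) := by
      rw [h2]
      refine (norm_sub_le _ _).trans ?_
      rw [norm_mul, hMdef]
      have h4 := norm_nonneg ((v : ℂ) - β)
      have h5 := norm_nonneg ((u : ℂ) - α)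
      have h6 : 0 ≤ ‖aeval (ξ : ℂ) P‖ * ‖(v : ℂ) - β‖ := by positivity
      linarith
    have h4 := h1.trans (mul_le_mul_of_nonneg_left h3 (by positivity))
    refine (min_le_left _ _).trans ?_
    rw [div_le_iff₀ hM0]
    linarith

theorem exists_int_ne (u : ℝ) : ∃ a : ℤ, u ≠ a := by
  refine ⟨⌊u⌋ - 1, ?_⟩
  have := Int.floor_le u
  push_cast
  intro h
  linarith

/-- the four numbers -/
noncomputable def fourN (ξ t : ℝ) : Fin 4 → ℝ := ![t + ξ, t - ξ, t * ξ, t / ξ]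

/-- the degree in `ξ` of the relation between two of the numbers -/
def dl (j : Fin 4) : ℕ := if j = 2 then 2 else 1

theorem TransM.ne_zero {ξ : ℝ} (hξ : TransM ξ) : ξ ≠ 0 := by
  rintro rfl
  obtain ⟨c, hc, h⟩ := hξ 1 1 one_pos
  have h1 := h X X_ne_zero (by simp) 1 le_rfl (fun j => by
    rw [coeff_X]
    split_ifs <;> simp)
  simp at h1
  linarith

theorem sep01 {d : ℕ} (hd : 1 ≤ d) {ξ : ℝ} (hξ : TransM ξ) (t : ℝ) : Sep2 d (((1 : ℕ) : ℝ) * d ^ 3 + d) (t + ξ) (t - ξ) := by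
  obtain ⟨a, ha⟩ := exists_int_ne (t + ξ)
  refine pair_sep (δ := 1) hd hξ 1 (C (-2) * X) (by simp) ((natDegree_C_mul_le _ _).trans natDegree_X_le)
    (by rw [map_mul, aeval_C, aeval_X, map_one, one_mul, algebraMap_int_eq, eq_intCast]; push_cast; ring)
    a (fun α h => ?_) ha
  exfalso
  have h1 : (C α * (1 : ℤ[X]).map (Int.castRingHom ℂ) + (C (-2) * X : ℤ[X]).map (Int.castRingHom ℂ) : ℂ[X]) =
      C (-2) * X + C α := by
    rw [Polynomial.map_one, Polynomial.map_mul, map_C, map_X, mul_one, add_comm]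
    simp
  rw [h1, natDegree_linear (by norm_num)] at h
  omega

theorem sep02 {d : ℕ} (hd : 1 ≤ d) {ξ : ℝ} (hξ : TransM ξ) (t : ℝ) : Sep2 d (((2 : ℕ) : ℝ) * d ^ 3 + d) (t + ξ) (t * ξ) := by
  obtain ⟨a, ha⟩ := exists_int_ne (t + ξ)
  refine pair_sep (δ := 2) hd hξ X (-X ^ 2) (by simp) (by simp) (by simp; ring) a (fun α h => ?_) ha
  exfalso
  have h1 : (C α * (X : ℤ[X]).map (Int.castRingHom ℂ) + (-X ^ 2 : ℤ[X]).map (Int.castRingHom ℂ) : ℂ[X]) =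
      C (-1) * X ^ 2 + C α * X + C 0 := by
    simp
    ring
  rw [h1, natDegree_quadratic (by norm_num)] at h
  omega

theorem sep12 {d : ℕ} (hd : 1 ≤ d) {ξ : ℝ} (hξ : TransM ξ) (t : ℝ) : Sep2 d (((2 : ℕ) : ℝ) * d ^ 3 + d) (t - ξ) (t * ξ) := by
  obtain ⟨a, ha⟩ := exists_int_ne (t - ξ)
  refine pair_sep (δ := 2) hd hξ X (X ^ 2) (by simp) (by simp) (by simp; ring) a (fun α h => ?_) ha
  exfalso
  have h1 : (C α * (X : ℤ[X]).map (Int.castRingHom ℂ) + (X ^ 2 : ℤ[X]).map (Int.castRingHom ℂ) : ℂ[X]) =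
      C 1 * X ^ 2 + C α * X + C 0 := by
    simp
    ring
  rw [h1, natDegree_quadratic (by norm_num)] at h
  omega

theorem sep30 {d : ℕ} (hd : 1 ≤ d) {ξ : ℝ} (hξ : TransM ξ) {t : ℝ} (ht : t ≠ -ξ) :
    Sep2 d (((1 : ℕ) : ℝ) * d ^ 3 + d) (t / ξ) (t + ξ) := by
  have hξ0 := hξ.ne_zero
  refine pair_sep (δ := 1) hd hξ X X (by simp) (by simp) (by simp; field_simp) (-1) (fun α h => ?_) ?_
  · by_contra hcon
    have h1 : (C α * (X : ℤ[X]).map (Int.castRingHom ℂ) + (X : ℤ[X]).map (Int.castRingHom ℂ) : ℂ[X]) =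
        C (α + 1) * X := by
      simp
      ring
    rw [h1, natDegree_C_mul_X _ (by
      intro h2
      apply hcon
      push_cast
      linear_combination h2)] at h
    omega
  · intro h
    rw [div_eq_iff hξ0] at h
    apply ht
    push_cast at h
    linarith

theorem sep31 {d : ℕ} (hd : 1 ≤ d) {ξ : ℝ} (hξ : TransM ξ) {t : ℝ} (ht : t ≠ ξ) :
    Sep2 d (((1 : ℕ) : ℝ) * d ^ 3 + d) (t / ξ) (t - ξ) := by
  have hξ0 := hξ.ne_zero
  refine pair_sep (δ := 1) hd hξ X (-X) (by simp) (by simp) (by simp; field_simp; ring) 1 (fun α h => ?_) ?_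
  · by_contra hcon
    have h1 : (C α * (X : ℤ[X]).map (Int.castRingHom ℂ) + (-X : ℤ[X]).map (Int.castRingHom ℂ) : ℂ[X]) =
        C (α - 1) * X := by
      simp
      ring
    rw [h1, natDegree_C_mul_X _ (by
      intro h2
      apply hcon
      push_cast
      linear_combination h2)] at h
    omega
  · intro h
    rw [div_eq_iff hξ0] at h
    apply ht
    push_cast at h
    linarith

theorem sep32 {d : ℕ} (hd : 1 ≤ d) {ξ : ℝ} (hξ : TransM ξ) {t : ℝ} (ht : t ≠ 0) :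
    Sep2 d (((2 : ℕ) : ℝ) * d ^ 3 + d) (t / ξ) (t * ξ) := by
  have hξ0 := hξ.ne_zero
  refine pair_sep (δ := 2) hd hξ (X ^ 2) 0 (by simp) (by simp) (by simp; field_simp) 0 (fun α h => ?_) ?_
  · by_contra hcon
    have h1 : (C α * (X ^ 2 : ℤ[X]).map (Int.castRingHom ℂ) + (0 : ℤ[X]).map (Int.castRingHom ℂ) : ℂ[X]) =
        C α * X ^ 2 := by
      simp
    rw [h1, natDegree_C_mul_X_pow 2 α (by
      intro h2
      apply hcon
      push_cast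
      exact h2)] at h
    omega
  · intro h
    rw [div_eq_iff hξ0] at h
    apply ht
    push_cast at h
    linarith

theorem four_sep {d : ℕ} (hd : 1 ≤ d) {ξ : ℝ} (hξ : TransM ξ) {t : ℝ}
    (j k : Fin 4) (ht : j = 3 ∨ k = 3 → t ≠ 0 ∧ t ≠ ξ ∧ t ≠ -ξ)
    (hjk : j ≠ k) (δ : ℕ) (hj : dl j ≤ δ) (hk : dl k ≤ δ) :
    Sep2 d (δ * d ^ 3 + d) (fourN ξ t j) (fourN ξ t k) := by
  have mono1 : ∀ u v : ℝ, Sep2 d (((1 : ℕ) : ℝ) * d ^ 3 + d) u v → 1 ≤ δ → Sep2 d (δ * d ^ 3 + d) u v := by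
    intro u v h hδ
    apply h.mono
    have : ((1 : ℕ) : ℝ) ≤ δ := by exact_mod_cast hδ
    gcongr
  have mono2 : ∀ u v : ℝ, Sep2 d (((2 : ℕ) : ℝ) * d ^ 3 + d) u v → 2 ≤ δ → Sep2 d (δ * d ^ 3 + d) u v := by
    intro u v h hδ
    apply h.mono
    have : ((2 : ℕ) : ℝ) ≤ δ := by exact_mod_cast hδ
    gcongr
  fin_cases j <;> fin_cases k
  · exact absurd rfl hjk
  · exact mono1 _ _ (sep01 hd hξ t) hj
  · exact mono2 _ _ (sep02 hd hξ t) hk
  · exact mono1 _ _ (sep30 hd hξ (ht (Or.inr rfl)).2.2).symm hj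
  · exact mono1 _ _ (sep01 hd hξ t).symm hj
  · exact absurd rfl hjk
  · exact mono2 _ _ (sep12 hd hξ t) hk
  · exact mono1 _ _ (sep31 hd hξ (ht (Or.inr rfl)).2.1).symm hj
  · exact mono2 _ _ (sep02 hd hξ t).symm hj
  · exact mono2 _ _ (sep12 hd hξ t).symm hj
  · exact absurd rfl hjk
  · exact mono2 _ _ (sep32 hd hξ (ht (Or.inr rfl)).1).symm hj
  · exact mono1 _ _ (sep30 hd hξ (ht (Or.inl rfl)).2.2) hj
  · exact mono1 _ _ (sep31 hd hξ (ht (Or.inl rfl)).2.1) hj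
  · exact mono2 _ _ (sep32 hd hξ (ht (Or.inl rfl)).1) hk
  · exact absurd rfl hjk

/-- the numbers of a set `S` -/
noncomputable def sub (ξ t : ℝ) (S : Finset (Fin 4)) : S → ℝ := fun j => fourN ξ t j

/-- the degree of a set -/
def dS (S : Finset (Fin 4)) : ℕ := if 2 ∈ S then 2 else 1

theorem dl_le {S : Finset (Fin 4)} (j : S) : dl j.1 ≤ dS S := by
  rw [dl, dS]
  split_ifs with h1 h2
  · exact le_rfl
  · exact absurd (h1 ▸ j.2) h2
  · norm_num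
  · exact le_rfl

theorem sub_sep {d : ℕ} (hd : 1 ≤ d) {ξ : ℝ} (hξ : TransM ξ) {t : ℝ} (S : Finset (Fin 4))
    (ht : 3 ∈ S → t ≠ 0 ∧ t ≠ ξ ∧ t ≠ -ξ) : AlgSep d (dS S * d ^ 3 + d) (sub ξ t S) := by
  intro j k hjk
  refine four_sep hd hξ j.1 k.1 (fun h => ?_) (fun h => hjk (Subtype.ext h)) (dS S) (dl_le j) (dl_le k)
  rcases h with h | h
  · exact ht (h ▸ j.2)
  · exact ht (h ▸ k.2)

theorem ne_of_notAlg {d : ℕ} (hd : 1 ≤ d) {ξ : ℝ} (hξ : ξ ≠ 0) {t : ℝ} (h : NotAlg d (t / ξ)) :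
    t ≠ 0 ∧ t ≠ ξ ∧ t ≠ -ξ := by
  have key : ∀ a : ℤ, t / ξ ≠ a := by
    intro a ha
    apply h (X - C a) (X_sub_C_ne_zero a) ((natDegree_X_sub_C a).le.trans hd)
    rw [map_sub, aeval_X, ha]
    simp
  refine ⟨?_, ?_, ?_⟩
  · intro h1
    apply key 0
    rw [h1]
    simp
  · intro h1
    apply key 1
    rw [h1, div_self hξ]
    simp
  · intro h1
    apply key (-1)
    rw [h1, neg_div, div_self hξ]
    simp

end Pool.Agent.H595.Alg
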