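import Pool.Agent.H595.Dens.AlgX
import Pool.Graph.R_seed8.TH456.TM.Inst

/-!
# The numbers `t z ^ k`, `k` an integer, for a number `z` with a transcendence measure
-/

set_option autoImplicit false

namespace Pool.Agent.H595.Alg

open Polynomial MeasureTheory Filter Topology Set Pool.Agent.H595.Dens Pool.Agent.V11210.EP

/-- a transcendence measure in each degree -/
def PolyM (z : ℝ) : Prop := ∀ r : ℕ, ∃ κ c : ℝ, 0 ≤ κ ∧ 0 < c ∧ Pool.Agent.W472.AC.MeasP z r κ c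

theorem PolyM.ne_zero {z : ℝ} (hz : PolyM z) : z ≠ 0 := by
  rintro rfl
  obtain ⟨κ, c, -, hc, h⟩ := hz 1
  have h1 := h X X_ne_zero (by simp) 1 le_rfl (fun j => by
    rw [coeff_X]
    split_ifs <;> simp)
  simp at h1
  linarith

theorem polyM_of_measT {z : ℝ} (h : Pool.Agent.TH456.TM.MeasT (z : ℂ)) : PolyM z := by
  intro r
  obtain ⟨κ, c, hκ, hc, h1⟩ := h r
  refine ⟨κ, c, hκ, hc, fun P h0 hd H hH hP => ?_⟩
  have h2 := h1 P h0 hd H hH hP
  rwa [cast_aeval, Complex.norm_real, Real.norm_eq_abs] at h2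

theorem polyM_pi : PolyM Real.pi := polyM_of_measT Pool.Agent.TH456.TM.measT_pi

theorem pair_sepK {d δ : ℕ} {ξ κ c : ℝ} (hκ : 0 ≤ κ) (hc : 0 < c)
    (hM : Pool.Agent.W472.AC.MeasP ξ (δ * d * d) κ c) (P Q : ℤ[X]) (hP : P.natDegree ≤ δ)
    (hQ : Q.natDegree ≤ δ) {u v : ℝ} (huv : v = aeval ξ P * u + aeval ξ Q) (a₀ : ℤ)
    (hexc : ∀ α : ℂ, (C α * P.map (Int.castRingHom ℂ) + Q.map (Int.castRingHom ℂ) : ℂ[X]).natDegree = 0 → α = a₀)
    (hu : u ≠ a₀) : Sep2 d (d * κ + d) u v := by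
  intro ε hε
  obtain ⟨c', hc', h⟩ := elim_sharp ξ d δ P Q hP hQ hκ hc hM
  obtain ⟨M, hMdef⟩ : ∃ M : ℝ, M = ‖aeval (ξ : ℂ) P‖ + 1 := ⟨_, rfl⟩
  have hM0 : 0 < M := by rw [hMdef]; positivity
  have hu0 : 0 < ‖(u : ℂ) - a₀‖ := by
    rw [norm_pos_iff, sub_ne_zero]
    exact_mod_cast hu
  refine ⟨min (c' / M) ‖(u : ℂ) - a₀‖, lt_min (by positivity) hu0, fun A B α β hα hβ => ?_⟩
  have hA := hgt_pos A
  have hB := hgt_pos B
  have hAB : (1 : ℝ) ≤ (hgt A.1 : ℝ) * hgt B.1 := by nlinarith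
  have hAB0 : (0 : ℝ) < (hgt A.1 : ℝ) * hgt B.1 := by linarith
  by_cases hcase : aeval (a₀ : ℂ) A.1 = 0
  · have h1 := int_root A hcase hα
    rw [h1]
    have h2 : (1 : ℝ) ≤ ((hgt A.1 : ℝ) * hgt B.1) ^ ((d : ℝ) * κ + d + ε) :=
      Real.one_le_rpow hAB (by positivity)
    have h3 := norm_nonneg ((v : ℂ) - β)
    calc min (c' / M) ‖(u : ℂ) - a₀‖ ≤ ‖(u : ℂ) - a₀‖ := min_le_right _ _
      _ ≤ ‖(u : ℂ) - a₀‖ + ‖(v : ℂ) - β‖ := by linarith
      _ = 1 * (‖(u : ℂ) - a₀‖ + ‖(v : ℂ) - β‖) := by ring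
      _ ≤ _ := by gcongr
  · have hne : elim d P Q A.1 B.1 ≠ 0 := by
      apply elim_ne_zero d P Q A.1 B.1 A.2.1.ne_zero B.2.1.ne_zero B.2.2.2
      intro γ hγ
      by_contra hcon
      have h1 := hexc γ (by omega)
      rw [mem_roots', IsRoot, ← aeval_int] at hγ
      rw [h1] at hγ
      exact hcase hγ.2
    have h1 := h A.1 B.1 A.2.1.ne_zero B.2.1.ne_zero A.2.2.2 B.2.2.2 hne (hgt A.1) (hgt B.1) hA hB
      (coeff_le_hgt _) (coeff_le_hgt _) α β hα hβ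
    have h1' : c' ≤ ((hgt A.1 : ℝ) * hgt B.1) ^ ((d : ℝ) * κ + d + ε) *
        ‖aeval (ξ : ℂ) P * α + aeval (ξ : ℂ) Q - β‖ := by
      refine h1.trans ?_
      have h9 : ((hgt A.1 : ℝ) * hgt B.1) ^ ((d : ℝ) * κ + d) ≤ ((hgt A.1 : ℝ) * hgt B.1) ^ ((d : ℝ) * κ + d + ε) :=
        Real.rpow_le_rpow_of_exponent_le hAB (by linarith)
      exact mul_le_mul_of_nonneg_right h9 (norm_nonneg _)
    have h2 : aeval (ξ : ℂ) P * α + aeval (ξ : ℂ) Q - β =
        ((v : ℂ) - β) - aeval (ξ : ℂ) P * ((u : ℂ) - α) := by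
      rw [huv, cast_aeval, cast_aeval]
      push_cast
      ring
    have h3 : ‖aeval (ξ : ℂ) P * α + aeval (ξ : ℂ) Q - β‖ ≤ M * (‖(u : ℂ) - α‖ + ‖(v : ℂ) - β‖) := by
      rw [h2]
      refine (norm_sub_le _ _).trans ?_
      rw [norm_mul, hMdef]
      have h4 := norm_nonneg ((v : ℂ) - β)
      have h5 := norm_nonneg ((u : ℂ) - α)
      have h6 : 0 ≤ ‖aeval (ξ : ℂ) P‖ * ‖(v : ℂ) - β‖ := by positivity
      linarith
    have h4 := h1'.trans (mul_le_mul_of_nonneg_left h3 (by positivity))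
    refine (min_le_left _ _).trans ?_
    rw [div_le_iff₀ hM0]
    linarith

/-- the numbers `t z ^ k`, `t z ^ l`, `k < l` -/
theorem sep_pow {z : ℝ} (hz : PolyM z) (d n : ℕ) (hn : 1 ≤ n) : ∃ E : ℝ, 0 ≤ E ∧ ∀ u : ℝ, u ≠ 0 →
    Sep2 d E u (z ^ n * u) := by
  obtain ⟨κ, c, hκ, hc, hM⟩ := hz (n * d * d)
  refine ⟨d * κ + d, by positivity, fun u hu => ?_⟩
  refine pair_sepK (δ := n) hκ hc hM (X ^ n) 0 (by simp) (by simp) (by simp) 0 (fun α h => ?_) (by simpa using hu)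
  by_contra hcon
  have h1 : (C α * (X ^ n : ℤ[X]).map (Int.castRingHom ℂ) + (0 : ℤ[X]).map (Int.castRingHom ℂ) : ℂ[X]) =
      C α * X ^ n := by
    simp
  rw [h1, natDegree_C_mul_X_pow n α (by
    intro h2
    apply hcon
    push_cast
    exact h2)] at h
  omega

theorem sep_zpow {z : ℝ} (hz : PolyM z) (d : ℕ) {k l : ℤ} (hkl : k ≠ l) : ∃ E : ℝ, 0 ≤ E ∧ ∀ t : ℝ, t ≠ 0 →
    Sep2 d E (t * z ^ k) (t * z ^ l) := by
  have hz0 := hz.ne_zero
  have key : ∀ k l : ℤ, k < l → ∃ E : ℝ, 0 ≤ E ∧ ∀ t : ℝ, t ≠ 0 → Sep2 d E (t * z ^ k) (t * z ^ l) := by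
    intro k l hkl
    obtain ⟨n, hn⟩ : ∃ n : ℕ, l = k + n := ⟨(l - k).toNat, by omega⟩
    obtain ⟨E, hE, h⟩ := sep_pow hz d n (by omega)
    refine ⟨E, hE, fun t ht => ?_⟩
    have h1 := h (t * z ^ k) (mul_ne_zero ht (zpow_ne_zero _ hz0))
    have e1 : z ^ n * (t * z ^ k) = t * z ^ l := by
      rw [hn, zpow_add₀ hz0, zpow_natCast]
      ring
    rwa [e1] at h1
  rcases lt_or_gt_of_ne hkl with h | h
  · exact key k l h
  · obtain ⟨E, hE, h1⟩ := key l k h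
    exact ⟨E, hE, fun t ht => (h1 t ht).symm⟩

/-- the numbers -/
noncomputable def pw (z t : ℝ) (K : Finset ℤ) : K → ℝ := fun k => t * z ^ (k : ℤ)

theorem sep_family {z : ℝ} (hz : PolyM z) (d : ℕ) (K : Finset ℤ) : ∃ E₀ : ℝ, 0 ≤ E₀ ∧ ∀ E, E₀ ≤ E → ∀ t : ℝ, t ≠ 0 →
    AlgSep d E (pw z t K) := by
  have h0 : ∀ p : K × K, ∃ E : ℝ, 0 ≤ E ∧ ((p.1 : ℤ) ≠ p.2 → ∀ t : ℝ, t ≠ 0 →
      Sep2 d E (t * z ^ (p.1 : ℤ)) (t * z ^ (p.2 : ℤ))) := by
    intro p
    by_cases h : (p.1 : ℤ) = p.2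
    · exact ⟨0, le_rfl, fun h' => absurd h h'⟩
    · obtain ⟨E, hE, h1⟩ := sep_zpow hz d h
      exact ⟨E, hE, fun _ => h1⟩
  choose E hE h1 using h0
  refine ⟨∑ p, E p, Finset.sum_nonneg fun p _ => hE p, fun E' hE' t ht j k hjk => ?_⟩
  have hne : (j : ℤ) ≠ k := fun h => hjk (Subtype.ext h)
  refine (h1 (j, k) hne t ht).mono (le_trans ?_ hE')
  exact Finset.single_le_sum (f := E) (fun p _ => hE p) (Finset.mem_univ (j, k))

/-- rational approximations of separated numbers -/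
theorem rat_of_sep {D : ℕ} (hD : 1 ≤ D) {E u v : ℝ} (hsep : Sep2 D E u v) {K : ℕ} (hE : 0 ≤ E)
    (hK : E + 1 ≤ K) : ∃ c : ℝ, 0 < c ∧ ∀ (q q' : ℕ) (p p' : ℤ), 1 ≤ q → 1 ≤ q' →
      c ≤ ((q : ℝ) * q') ^ K * (q' * |q * u - p| + q * |q' * v - p'|) := by
  obtain ⟨c, hc, h⟩ := hsep 1 one_pos
  have hu := abs_nonneg u
  have hv := abs_nonneg v
  obtain ⟨G, hG⟩ : ∃ G : ℝ, G = (|u| + 1) * (|v| + 1) := ⟨_, rfl⟩
  have hG1 : 1 ≤ G := by rw [hG]; nlinarith
  refine ⟨min 1 (c / G ^ (E + 1)), lt_min one_pos (by positivity), fun q q' p p' hq hq' => ?_⟩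
  have hqr : (1 : ℝ) ≤ q := by exact_mod_cast hq
  have hqr' : (1 : ℝ) ≤ q' := by exact_mod_cast hq'
  have hqq : (1 : ℝ) ≤ (q : ℝ) * q' := by nlinarith
  have hqK : 1 ≤ ((q : ℝ) * q') ^ K := one_le_pow₀ hqq
  have ha := abs_nonneg (q * u - p)
  have hb := abs_nonneg (q' * v - p')
  have hS : |q * u - p| + |q' * v - p'| ≤ q' * |q * u - p| + q * |q' * v - p'| := by
    have h1 : 1 * |q * u - p| ≤ q' * |q * u - p| := by gcongr
    have h2 : 1 * |q' * v - p'| ≤ q * |q' * v - p'| := by gcongr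
    linarith
  by_cases hcase : |q * u - p| ≤ 1 ∧ |q' * v - p'| ≤ 1
  · obtain ⟨h1, h2⟩ := hcase
    have hqz : (1 : ℤ) ≤ (q : ℤ) := by exact_mod_cast hq
    have hqz' : (1 : ℤ) ≤ (q' : ℤ) := by exact_mod_cast hq'
    obtain ⟨A, hA1, hA2, hA3, hA4⟩ := ratPol p q hqz
    obtain ⟨B, hB1, hB2, hB3, hB4⟩ := ratPol p' q' hqz'
    have h3 := h ⟨A, hA1, by omega, by omega⟩ ⟨B, hB1, by omega, by omega⟩ _ _ hA3 hB3
    have h4 : (hgt A : ℝ) ≤ (|u| + 1) * q := hgt_le (by positivity) (fun i => (hA4 i).trans (by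
      have := hgt_bound (y := u) (p := p) hqz (by rw [Int.cast_natCast]; exact h1)
      rwa [Int.cast_natCast] at this ⊢))
    have h5 : (hgt B : ℝ) ≤ (|v| + 1) * q' := hgt_le (by positivity) (fun i => (hB4 i).trans (by
      have := hgt_bound (y := v) (p := p') hqz' (by rw [Int.cast_natCast]; exact h2)
      rwa [Int.cast_natCast] at this ⊢))
    have h6 := dist_rat (y := u) (p := p) hqz
    have h7 := dist_rat (y := v) (p := p') hqz'
    rw [Int.cast_natCast] at h6 h7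
    have h8 : (hgt A : ℝ) * hgt B ≤ G * (q * q') := by
      rw [hG]
      calc (hgt A : ℝ) * hgt B ≤ ((|u| + 1) * q) * ((|v| + 1) * q') := by gcongr
        _ = _ := by ring
    refine (min_le_right _ _).trans ?_
    rw [div_le_iff₀ (by positivity)]
    rw [Int.cast_natCast, Int.cast_natCast] at h3
    calc c ≤ ((hgt A : ℝ) * hgt B) ^ (E + 1) * (‖(u : ℂ) - (((p : ℝ) / (q : ℝ) : ℝ) : ℂ)‖ +
          ‖(v : ℂ) - (((p' : ℝ) / (q' : ℝ) : ℝ) : ℂ)‖) := h3
      _ ≤ (G * (q * q')) ^ (E + 1) * (|q * u - p| + |q' * v - p'|) := by gcongr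
      _ = (((q : ℝ) * q') ^ (E + 1) * (|q * u - p| + |q' * v - p'|)) * G ^ (E + 1) := by
          rw [Real.mul_rpow (by linarith) (by linarith)]
          ring
      _ ≤ (((q : ℝ) * q') ^ K * (q' * |q * u - p| + q * |q' * v - p'|)) * G ^ (E + 1) := by
          gcongr
          rw [← Real.rpow_natCast]
          exact Real.rpow_le_rpow_of_exponent_le hqq hK
  · have h1 : 1 ≤ |q * u - p| + |q' * v - p'| := by
      by_contra hcon
      apply hcase
      constructor <;> linarith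
    refine (min_le_left _ _).trans ?_
    nlinarith

theorem irr_zpow {z : ℝ} (hz : PolyM z) {m : ℤ} (hm : m ≠ 0) : Irrational (z ^ m) := by
  have hz0 := hz.ne_zero
  have key : ∀ n : ℕ, n ≠ 0 → Irrational (z ^ n) := by
    intro n hn
    rintro ⟨y, hy⟩
    obtain ⟨κ, c, -, hc, h⟩ := hz n
    obtain ⟨H, hH⟩ : ∃ H : ℝ, H = 1 + |(y.den : ℝ)| + |(y.num : ℝ)| := ⟨_, rfl⟩
    have hco : ∀ j, (C (y.den : ℤ) * X ^ n - C y.num : ℤ[X]).coeff j =
        (if j = n then (y.den : ℤ) else 0) - (if j = 0 then y.num else 0) := by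
      intro j
      rw [coeff_sub, coeff_C_mul, coeff_X_pow, coeff_C, mul_ite, mul_one, mul_zero]
    have h1 := h (C (y.den : ℤ) * X ^ n - C y.num) (fun h0 => by
      have h1 := hco n
      rw [h0, coeff_zero, if_pos rfl, if_neg hn, sub_zero] at h1
      have := y.pos
      omega) (by
      refine (natDegree_sub_le _ _).trans ?_
      rw [natDegree_C, max_eq_left (Nat.zero_le _)]
      exact (natDegree_C_mul_le _ _).trans (natDegree_X_pow_le n)) H (by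
        rw [hH]
        linarith [abs_nonneg (y.den : ℝ), abs_nonneg (y.num : ℝ)]) (fun j => by
        rw [hco, hH]
        have g1 := abs_nonneg (y.den : ℝ)
        have g2 := abs_nonneg (y.num : ℝ)
        have g3 := abs_sub (y.den : ℝ) (y.num : ℝ)
        split_ifs with e1 e2 e2
        · push_cast
          linarith
        · rw [sub_zero, Int.cast_natCast]
          linarith
        · push_cast
          rw [zero_sub, abs_neg]
          linarith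
        · push_cast
          rw [abs_zero]
          linarith)
    have h2 : aeval z (C (y.den : ℤ) * X ^ n - C y.num) = 0 := by
      rw [map_sub, map_mul, map_pow, aeval_X, aeval_C, aeval_C]
      simp only [algebraMap_int_eq, eq_intCast, Int.cast_natCast]
      rw [← hy, sub_eq_zero]
      exact_mod_cast y.den_mul_eq_num
    rw [h2, abs_zero, mul_zero] at h1
    linarith
  rcases lt_or_gt_of_ne hm with h | h
  · obtain ⟨n, hn⟩ : ∃ n : ℕ, m = -(n : ℤ) := ⟨(-m).toNat, by omega⟩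
    rw [hn, zpow_neg, zpow_natCast]
    exact (key n (by omega)).inv
  · obtain ⟨n, hn⟩ : ∃ n : ℕ, m = n := ⟨m.toNat, by omega⟩
    rw [hn, zpow_natCast]
    exact key n (by omega)

/-- **Examples.** -/
theorem exists_pow {z : ℝ} (hz : PolyM z) {K : Finset ℤ} (hK : 2 ≤ K.card) {a b : ℝ} (ha : 0 < a) (hab : a < b) :
    ∃ t : ℝ, a < t ∧ t < b ∧ (∀ D, ∀ k : ℤ, NotAlg D (t * z ^ k)) ∧
      ∀ d : ℕ, 1 ≤ d → ∀ w : ℝ, 2 ≤ w → 2 / w ≤ lowerDensity (algScales d (pw z t K) w) := by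
  have hz0 := hz.ne_zero
  obtain ⟨k₁, hk₁, k₂, hk₂, hk⟩ := Finset.one_lt_card.1 (show 1 < K.card by omega)
  obtain ⟨ρ, hρ⟩ : ∃ ρ : Fin 2 → ℝ, ρ = ![z ^ k₁, z ^ k₂] := ⟨_, rfl⟩
  have hρ0 : ρ 0 = z ^ k₁ := by rw [hρ]; rfl
  have hρ1 : ρ 1 = z ^ k₂ := by rw [hρ]; rfl
  obtain ⟨E, hE, hsep⟩ := sep_zpow hz 1 hk
  obtain ⟨N, hN⟩ := exists_nat_ge (E + 1)
  have hne : ∀ j, ρ j ≠ 0 := by
    intro j
    fin_cases j
    · show ρ 0 ≠ 0
      rw [hρ0]
      exact zpow_ne_zero _ hz0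
    · show ρ 1 ≠ 0
      rw [hρ1]
      exact zpow_ne_zero _ hz0
  have hirr : ∀ j k, j ≠ k → Irrational (ρ j / ρ k) := by
    intro j k hjk
    fin_cases j <;> fin_cases k
    · exact absurd rfl hjk
    · show Irrational (ρ 0 / ρ 1)
      rw [hρ0, hρ1, ← zpow_sub₀ hz0]
      exact irr_zpow hz (sub_ne_zero.2 hk)
    · show Irrational (ρ 1 / ρ 0)
      rw [hρ0, hρ1, ← zpow_sub₀ hz0]
      exact irr_zpow hz (sub_ne_zero.2 (Ne.symm hk))
    · exact absurd rfl hjk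
  obtain ⟨M, hM⟩ : ∃ M : ℝ, M = ∑ j, |ρ j| := ⟨_, rfl⟩
  have hρM : ∀ j, |ρ j| ≤ M := fun j => by
    rw [hM]
    exact Finset.single_le_sum (f := fun j => |ρ j|) (fun _ _ => abs_nonneg _) (Finset.mem_univ j)
  have hM0 : 0 < M := lt_of_lt_of_le (abs_pos.2 (hne 0)) (hρM 0)
  obtain ⟨G, hG⟩ : ∃ G : ℝ, G = ∑ jk : Fin 2 × Fin 2, |ρ jk.1 / ρ jk.2| := ⟨_, rfl⟩
  have hρG : ∀ j k, |ρ j / ρ k| ≤ G := fun j k => by
    rw [hG]
    exact Finset.single_le_sum (f := fun jk : Fin 2 × Fin 2 => |ρ jk.1 / ρ jk.2|) (fun _ _ => abs_nonneg _)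
      (Finset.mem_univ (j, k))
  have hG0 : 0 < G := lt_of_lt_of_le (abs_pos.2 (div_ne_zero (hne 0) (hne 0))) (hρG 0 0)
  have hb : 0 < b := ha.trans hab
  obtain ⟨y, hy1, hy2⟩ : ∃ y : ℚ, a < y / ρ 0 ∧ y / ρ 0 < b := by
    rcases lt_or_gt_of_ne (hne 0) with h | h
    · obtain ⟨y, h1, h2⟩ := exists_rat_btwn (show b * ρ 0 < a * ρ 0 from mul_lt_mul_of_neg_right hab h)
      exact ⟨y, by rw [lt_div_iff_of_neg h]; exact h2, by rw [div_lt_iff_of_neg h]; exact h1⟩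
    · obtain ⟨y, h1, h2⟩ := exists_rat_btwn (show a * ρ 0 < b * ρ 0 from mul_lt_mul_of_pos_right hab h)
      exact ⟨y, by rw [lt_div_iff₀ h]; exact h1, by rw [div_lt_iff₀ h]; exact h2⟩
  obtain ⟨t, ht1, ht2, ht3, ht4⟩ := exists_t_famK (Θ := fun (j : Fin 2) t => t * ρ j) (α := a) (β := b) (M := M)
    (C := b * G) (b := 1) (K := N) le_rfl hM0
    (by positivity) (fun j s t => by
      have e1 : s * ρ j - t * ρ j = ρ j * (s - t) := by ring
      rw [e1, abs_mul]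
      exact mul_le_mul_of_nonneg_right (hρM j) (abs_nonneg _))
    (fun j s t h => mul_right_cancel₀ (hne j) h)
    (fun t ht _ j k hjk => by
      have ht0 : t ≠ 0 := by linarith
      fin_cases j <;> fin_cases k
      · exact absurd rfl hjk
      · have h1 := rat_of_sep le_rfl (hsep t ht0) hE hN
        rw [← hρ0, ← hρ1] at h1
        exact h1
      · have h1 := rat_of_sep le_rfl (hsep t ht0).symm hE hN
        rw [← hρ0, ← hρ1] at h1
        exact h1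
      · exact absurd rfl hjk) 0 (y / ρ 0) hy1 hy2 y.den y.num y.pos (by
      have : (y.den : ℝ) * y = y.num := by exact_mod_cast y.den_mul_eq_num
      show (y.den : ℝ) * (y / ρ 0 * ρ 0) = y.num
      rw [← this, div_mul_cancel₀ _ (hne 0)]) (by
      intro j τ q p hτα hτβ hq hp N
      obtain ⟨k, hk⟩ := exists_ne j
      have hirr' := hirr k j hk
      obtain ⟨P, Q, hNQ, hQ1, hPQ⟩ := exists_approx hirr' N
      have hqr : (1 : ℝ) ≤ q := by exact_mod_cast hq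
      have hQr : (1 : ℝ) ≤ Q := by exact_mod_cast hQ1
      have hp' : (q : ℝ) * (τ * ρ j) = p := hp
      have hτ0 : 0 < τ := by linarith
      have hj := hne j
      have hk' := hne k
      obtain ⟨σ, hσ⟩ : ∃ σ : ℝ, σ = ((p * P : ℤ) : ℝ) / (q * Q * ρ k) := ⟨_, rfl⟩
      have hdiff : σ - τ = τ * -((Q : ℝ) * (ρ k / ρ j) - P) * (ρ j / ρ k) / Q := by
        rw [hσ]
        push_cast
        rw [← hp']
        field_simp
        ring
      refine ⟨k, σ, p * P, Q, hNQ, hQ1, ?_, ?_, ?_⟩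
      · show ((1 * q * Q : ℕ) : ℝ) * (σ * ρ k) = _
        rw [hσ]
        push_cast
        field_simp
      · intro h
        rw [h, sub_self, eq_comm, div_eq_zero_iff, mul_eq_zero, mul_eq_zero, neg_eq_zero, sub_eq_zero] at hdiff
        rcases hdiff with ((h1 | h1) | h1) | h1
        · exact hτ0.ne' h1
        · exact (hirr'.natCast_mul (show Q ≠ 0 by omega)).ne_int P h1
        · exact div_ne_zero hj hk' h1
        · linarith
      · rw [hdiff, abs_div, abs_mul, abs_mul, abs_neg, abs_of_pos (by linarith : (0 : ℝ) < Q), abs_of_pos hτ0,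
          div_le_div_iff₀ (by linarith) (by positivity)]
        have h1 : |(Q : ℝ) * (ρ k / ρ j) - P| * Q ≤ 1 := by
          rw [lt_div_iff₀ (by linarith)] at hPQ
          exact hPQ.le
        have h2 := hρG j k
        calc τ * |(Q : ℝ) * (ρ k / ρ j) - P| * |ρ j / ρ k| * (Q : ℝ) ^ 2 =
              (τ * (|(Q : ℝ) * (ρ k / ρ j) - P| * Q)) * |ρ j / ρ k| * Q := by ring
          _ ≤ (b * 1) * G * Q := by gcongr
          _ = b * G * Q := by ring)
  have ht0 : t ≠ 0 := by linarith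
  have hi0 : Irrational (t * z ^ k₁) := by rw [← hρ0]; exact ht3 0
  have hi1 : Irrational (t * z ^ k₂) := by rw [← hρ1]; exact ht3 1
  refine ⟨t, ht1, ht2, ?_, ?_⟩
  · intro D k
    by_contra hcon
    obtain ⟨D', hD', hDD'⟩ : ∃ D' : ℕ, 1 ≤ D' ∧ D ≤ D' := ⟨max 1 D, le_max_left _ _, le_max_right _ _⟩
    have hcon' : ¬ NotAlg D' (t * z ^ k) := fun h => hcon (h.mono hDD')
    obtain ⟨A, hA⟩ := exists_pol hcon'
    have key : ∀ l : ℤ, Irrational (t * z ^ l) → ∃ E c : ℝ, 0 ≤ E ∧ 0 < c ∧ ∀ p q : ℤ, 1 ≤ q →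
        c ≤ (q : ℝ) ^ E * |q * (t * z ^ l) - p| := by
      intro l hl
      by_cases hkl : k = l
      · subst hkl
        exact meas_same hl hcon'
      · obtain ⟨E, hE, h⟩ := sep_zpow hz D' hkl
        exact meas_diff hD' hE (h t ht0) A hA
    obtain ⟨E₀, c₀, hE₀, hc₀, h5⟩ := key k₁ hi0
    obtain ⟨E₁, c₁, hE₁, hc₁, h6⟩ := key k₂ hi1
    rw [← hρ0] at h5
    rw [← hρ1] at h6
    have h7 : ∀ k : Fin 2, ∀ p q : ℤ, 1 ≤ q → min c₀ c₁ ≤ (q : ℝ) ^ (max E₀ E₁) * |q * (t * ρ k) - p| := by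
      intro k p q hq
      have hq' : (1 : ℝ) ≤ q := by exact_mod_cast hq
      fin_cases k
      · calc min c₀ c₁ ≤ c₀ := min_le_left _ _
          _ ≤ (q : ℝ) ^ E₀ * |q * (t * ρ 0) - p| := h5 p q hq
          _ ≤ (q : ℝ) ^ (max E₀ E₁) * |q * (t * ρ 0) - p| := by
              gcongr
              exact le_max_left _ _
          _ = _ := rfl
      · calc min c₀ c₁ ≤ c₁ := min_le_right _ _
          _ ≤ (q : ℝ) ^ E₁ * |q * (t * ρ 1) - p| := h6 p q hq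
          _ ≤ (q : ℝ) ^ (max E₀ E₁) * |q * (t * ρ 1) - p| := by
              gcongr
              exact le_max_right _ _
          _ = _ := rfl
    have hmax : 0 ≤ max E₀ E₁ := hE₀.trans (le_max_left _ _)
    have h8 := bdd_of_measure (w := max E₀ E₁ + 2) hmax (lt_min hc₀ hc₁) h7 (by linarith)
    have h9 := ht4 (max E₀ E₁ + 2) (by linarith)
    have h9' : 2 / (max E₀ E₁ + 2) ≤ lowerDensity (ratScales (fun k => t * ρ k) (max E₀ E₁ + 2)) := h9
    rw [h8] at h9'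
    have h10 : 0 < 2 / (max E₀ E₁ + 2) := by positivity
    linarith
  · intro d hd w hw
    have h5 : ∀ w₁, w < w₁ → 2 / w₁ ≤ lowerDensity (algScales d (pw z t K) w) := by
      intro w₁ hw₁
      refine (ht4 w₁ (by linarith)).trans ?_
      refine rat_le_alg hd (fun k : Fin 2 => if k = 0 then (⟨k₁, hk₁⟩ : K) else ⟨k₂, hk₂⟩)
        (fun k => ?_) (by linarith) hw₁
      fin_cases k
      · show t * ρ 0 = t * z ^ k₁
        rw [hρ0]
      · show t * ρ 1 = t * z ^ k₂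
        rw [hρ1]
    have hc : Tendsto (fun w₁ : ℝ => 2 / w₁) (𝓝[>] w) (𝓝 (2 / w)) := by
      have : ContinuousAt (fun w₁ : ℝ => 2 / w₁) w := by
        apply ContinuousAt.div continuousAt_const continuousAt_id
        show w ≠ 0
        linarith
      exact this.tendsto.mono_left nhdsWithin_le_nhds
    apply le_of_tendsto hc
    filter_upwards [self_mem_nhdsWithin] with w₁ hw₁
    exact h5 w₁ hw₁

end Pool.Agent.H595.Alg
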