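import Pool.Agent.H595.Dens.AlgE
import Pool.Agent.H595.Dens.Seq3
import Pool.Agent.H595.Dens.Fam2

/-!
# Scales at which one of finitely many numbers is near an algebraic number of bounded degree
-/

set_option autoImplicit false

namespace Pool.Agent.H595.Alg

open Polynomial MeasureTheory Filter Topology Set Pool.Agent.H595.Dens Pool.Agent.V11210.EP

/-- irreducible polynomials of positive degree at most `d` -/
def Pol (d : ℕ) : Type := {A : ℤ[X] // Irreducible A ∧ 1 ≤ A.natDegree ∧ A.natDegree ≤ d}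

/-- the height -/
noncomputable def hgt (A : ℤ[X]) : ℕ := A.support.sup fun i => (A.coeff i).natAbs

theorem coeff_le_hgt (A : ℤ[X]) (i : ℕ) : |(A.coeff i : ℝ)| ≤ hgt A := by
  by_cases h : i ∈ A.support
  · have h1 : (A.coeff i).natAbs ≤ hgt A := Finset.le_sup (f := fun i => (A.coeff i).natAbs) h
    have h2 : (((A.coeff i).natAbs : ℕ) : ℝ) = |(A.coeff i : ℝ)| := by
      rw [Nat.cast_natAbs]
      push_cast
      rfl
    rw [← h2]
    exact_mod_cast h1
  · rw [notMem_support_iff.1 h]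
    simp

theorem hgt_le {A : ℤ[X]} {H : ℝ} (hH : 0 ≤ H) (h : ∀ i, |(A.coeff i : ℝ)| ≤ H) : (hgt A : ℝ) ≤ H := by
  rw [← Nat.le_floor_iff hH]
  apply Finset.sup_le
  intro i _
  rw [Nat.le_floor_iff hH, Nat.cast_natAbs]
  push_cast
  exact h i

theorem one_le_hgt {A : ℤ[X]} (h : A ≠ 0) : 1 ≤ hgt A := by
  have h1 := coeff_le_hgt A A.natDegree
  have h2 := one_le_lc h
  rw [leadingCoeff] at h2
  exact_mod_cast h2.trans h1

/-- the distance to the roots -/
noncomputable def rd (y : ℝ) (A : ℤ[X]) : ℝ := Metric.infDist (y : ℂ) {α | aeval α A = 0}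

theorem exists_root {A : ℤ[X]} (h1 : 1 ≤ A.natDegree) (y : ℝ) :
    ∃ α : ℂ, aeval α A = 0 ∧ rd y A = ‖(y : ℂ) - α‖ := by
  have h0 : A ≠ 0 := by
    rintro rfl
    rw [natDegree_zero] at h1
    omega
  have hfin : {α : ℂ | aeval α A = 0}.Finite := by
    refine (A.rootSet_finite ℂ).subset ?_
    intro α hα
    rw [mem_rootSet]
    exact ⟨h0, hα⟩
  have hne : {α : ℂ | aeval α A = 0}.Nonempty := by
    have h2 : (A.map (Int.castRingHom ℂ)).degree ≠ 0 := by
      rw [degree_map_eq_of_injective (RingHom.injective_int _)]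
      intro h3
      have h4 : A.natDegree = 0 := natDegree_eq_of_degree_eq_some (by rw [h3]; rfl)
      omega
    obtain ⟨α, hα⟩ := IsAlgClosed.exists_root _ h2
    refine ⟨α, ?_⟩
    rw [IsRoot, ← aeval_int] at hα
    exact hα
  obtain ⟨α, hα, h2⟩ := hfin.isCompact.exists_infDist_eq_dist hne (y : ℂ)
  exact ⟨α, hα, by rw [rd, h2, dist_eq_norm]⟩

theorem rd_le {A : ℤ[X]} {α : ℂ} (h : aeval α A = 0) (y : ℝ) : rd y A ≤ ‖(y : ℂ) - α‖ := by
  rw [← dist_eq_norm]
  exact Metric.infDist_le_dist_of_mem h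

/-- not algebraic of degree at most `d` -/
def NotAlg (d : ℕ) (y : ℝ) : Prop := ∀ P : ℤ[X], P ≠ 0 → P.natDegree ≤ d → aeval y P ≠ 0

theorem cast_aeval (y : ℝ) (P : ℤ[X]) : aeval (y : ℂ) P = ((aeval y P : ℝ) : ℂ) :=
  aeval_algebraMap_apply ℂ y _

theorem rd_pos {d : ℕ} {y : ℝ} (hy : NotAlg d y) (A : Pol d) : 0 < rd y A.1 := by
  obtain ⟨α, hα, h1⟩ := exists_root A.2.2.1 y
  rw [h1, norm_pos_iff, sub_ne_zero]
  rintro rfl
  rw [cast_aeval, Complex.ofReal_eq_zero] at hα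
  exact hy A.1 A.2.1.ne_zero A.2.2.2 hα

variable {J : Type*}

noncomputable def aX {d : ℕ} (v : J × Pol d) : ℝ := Real.log (hgt v.2.1)

noncomputable def aL {d : ℕ} (θ : J → ℝ) (v : J × Pol d) : ℝ := -Real.log (rd (θ v.1) v.2.1)

theorem hgt_pos {d : ℕ} (A : Pol d) : (1 : ℝ) ≤ hgt A.1 := by exact_mod_cast one_le_hgt A.2.1.ne_zero

theorem exp_aX {d : ℕ} (v : J × Pol d) : Real.exp (aX v) = hgt v.2.1 := by
  rw [aX, Real.exp_log]
  have := hgt_pos v.2
  linarith

theorem exp_aL {d : ℕ} {θ : J → ℝ} (hθ : ∀ j, NotAlg d (θ j)) (v : J × Pol d) :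
    Real.exp (-aL θ v) = rd (θ v.1) v.2.1 := by
  rw [aL, neg_neg, Real.exp_log (rd_pos (hθ _) _)]

theorem aX_nonneg {d : ℕ} (v : J × Pol d) : 0 ≤ aX v := Real.log_nonneg (hgt_pos v.2)

theorem finite_aX [Finite J] {d : ℕ} (B : ℝ) : {v : J × Pol d | aX v ≤ B}.Finite := by
  obtain ⟨N, hN⟩ := exists_nat_ge (Real.exp B)
  have hfin : {A : Pol d | (hgt A.1 : ℝ) ≤ N}.Finite := by
    have h1 : (Set.univ : Set (Fin (d + 1))).Finite := Set.finite_univ
    have h2 : (Set.pi (Set.univ : Set (Fin (d + 1))) fun _ => Set.Icc (-(N : ℤ)) N).Finite :=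
      Set.Finite.pi fun _ => Set.finite_Icc _ _
    refine Set.Finite.of_finite_image (f := fun (A : Pol d) (i : Fin (d + 1)) => A.1.coeff i) (h2.subset ?_) ?_
    · rintro _ ⟨A, hA, rfl⟩ i -
      have h3 : |(A.1.coeff i : ℝ)| ≤ N := (coeff_le_hgt A.1 i).trans hA
      rw [abs_le] at h3
      constructor
      · have := h3.1
        exact_mod_cast this
      · have := h3.2
        exact_mod_cast this
    · intro A _ B _ hAB
      apply Subtype.ext
      ext n
      by_cases hn : n ≤ d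
      · exact congrFun hAB ⟨n, by omega⟩
      · have hA := A.2.2.2
        have hB := B.2.2.2
        rw [coeff_eq_zero_of_natDegree_lt (by omega), coeff_eq_zero_of_natDegree_lt (by omega)]
  refine (Set.finite_univ.prod hfin).subset ?_
  rintro v hv
  refine ⟨Set.mem_univ _, ?_⟩
  have h3 := Real.exp_le_exp.2 (show aX v ≤ B from hv)
  rw [exp_aX] at h3
  exact h3.trans hN

/-- at the scale `X` the number `y` is near an algebraic number of degree at most `d` -/
def NearAlg (d : ℕ) (y w X : ℝ) : Prop := ∃ (α : ℂ) (P : ℤ[X]), Irreducible P ∧ P.natDegree ≤ d ∧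
  (∀ i, |(P.coeff i : ℝ)| ≤ X) ∧ aeval α P = 0 ∧ ‖(y : ℂ) - α‖ ≤ X ^ (-w)

/-- the logarithms of the scales at which one of the numbers `θ j` is near an algebraic number -/
def algScales (d : ℕ) (θ : J → ℝ) (w : ℝ) : Set ℝ := {x | ∃ j, NearAlg d (θ j) w (Real.exp x)}

theorem one_le_natDegree {P : ℤ[X]} {α : ℂ} (hP : P ≠ 0) (hα : aeval α P = 0) : 1 ≤ P.natDegree := by
  by_contra h
  have h0 : P.natDegree = 0 := by omega
  obtain ⟨n, hn⟩ := natDegree_eq_zero.1 h0
  rw [← hn] at hα hP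
  rw [aeval_C] at hα
  apply hP
  have : (n : ℂ) = 0 := by simpa using hα
  rw [Int.cast_eq_zero.1 this, C_0]

theorem algScales_eq {d : ℕ} {θ : J → ℝ} (hθ : ∀ j, NotAlg d (θ j)) (w : ℝ) :
    algScales d θ w = goodScales (aX (d := d)) (aL θ) w := by
  ext x
  constructor
  · rintro ⟨j, α, P, h1, h2, h3, h4, h5⟩
    refine ⟨(j, ⟨P, h1, one_le_natDegree h1.ne_zero h4, h2⟩), ?_, ?_⟩
    · rw [← Real.exp_le_exp, exp_aX]
      exact hgt_le (Real.exp_pos _).le h3
    · rw [← neg_le_neg_iff, ← Real.exp_le_exp, exp_aL hθ]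
      rw [← Real.exp_mul] at h5
      have e1 : x * -w = -(w * x) := by ring
      rw [e1] at h5
      exact (rd_le h4 _).trans h5
  · rintro ⟨⟨j, A⟩, h1, h2⟩
    obtain ⟨α, hα, h3⟩ := exists_root A.2.2.1 (θ j)
    refine ⟨j, α, A.1, A.2.1, A.2.2.2, fun i => ?_, hα, ?_⟩
    · rw [← Real.exp_le_exp, exp_aX] at h1
      exact (coeff_le_hgt A.1 i).trans h1
    · rw [← neg_le_neg_iff, ← Real.exp_le_exp, exp_aL hθ, h3] at h2
      rw [← Real.exp_mul]
      have e1 : -(w * x) = x * -w := by ring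
      rw [e1] at h2
      exact h2

/-- irreducible polynomials of different height have no common root -/
theorem no_common {A B : ℤ[X]} (hA : Irreducible A) (hB : Irreducible B) (hA1 : 1 ≤ A.natDegree)
    (hB1 : 1 ≤ B.natDegree) (h : hgt A ≠ hgt B) {α : ℂ} (hα : aeval α A = 0) : aeval α B ≠ 0 := by
  intro hβ
  apply h
  have pA := hA.isPrimitive (by omega)
  have pB := hB.isPrimitive (by omega)
  have iA := (IsPrimitive.Int.irreducible_iff_irreducible_map_cast pA).1 hA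
  have iB := (IsPrimitive.Int.irreducible_iff_irreducible_map_cast pB).1 hB
  have eA : aeval α (A.map (Int.castRingHom ℚ)) = 0 := by
    rw [← hα]
    exact aeval_map_algebraMap ℚ α A
  have eB : aeval α (B.map (Int.castRingHom ℚ)) = 0 := by
    rw [← hβ]
    exact aeval_map_algebraMap ℚ α B
  have dA := minpoly.dvd ℚ α eA
  have dB := minpoly.dvd ℚ α eB
  have hnu : ¬ IsUnit (minpoly ℚ α) := minpoly.not_isUnit ℚ α
  have aA := (iA.dvd_iff.1 dA).resolve_left hnu
  have aB := (iB.dvd_iff.1 dB).resolve_left hnu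
  have hAB : Associated (A.map (Int.castRingHom ℚ)) (B.map (Int.castRingHom ℚ)) := aA.trans aB.symm
  have hd : A ∣ B := (IsPrimitive.Int.dvd_iff_map_cast_dvd_map_cast A B pA).2 hAB.dvd
  have hass : Associated B A := (hB.dvd_iff.1 hd).resolve_left hA.not_isUnit
  obtain ⟨u, hu⟩ := hass
  obtain ⟨r, hr, hr'⟩ := Polynomial.isUnit_iff.1 u.isUnit
  have hcoef : ∀ i, A.coeff i = B.coeff i * r := by
    intro i
    rw [← hu, ← hr', coeff_mul_C]
  have habs : ∀ i, (A.coeff i).natAbs = (B.coeff i).natAbs := by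
    intro i
    rw [hcoef, Int.natAbs_mul, Int.isUnit_iff_natAbs_eq.1 hr, mul_one]
  apply le_antisymm
  · have h1 : (hgt A : ℝ) ≤ hgt B := hgt_le (Nat.cast_nonneg _) (fun i => by
      have h2 := coeff_le_hgt B i
      have h3 : |(A.coeff i : ℝ)| = |(B.coeff i : ℝ)| := by
        rw [← Int.cast_abs, ← Int.cast_abs, Int.abs_eq_natAbs, Int.abs_eq_natAbs, habs]
      rw [h3]
      exact h2)
    exact_mod_cast h1
  · have h1 : (hgt B : ℝ) ≤ hgt A := hgt_le (Nat.cast_nonneg _) (fun i => by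
      have h2 := coeff_le_hgt A i
      have h3 : |(A.coeff i : ℝ)| = |(B.coeff i : ℝ)| := by
        rw [← Int.cast_abs, ← Int.cast_abs, Int.abs_eq_natAbs, Int.abs_eq_natAbs, habs]
      rw [← h3]
      exact h2)
    exact_mod_cast h1

theorem measP_zero (x : ℝ) (r : ℕ) (hr : r = 0) : Pool.Agent.W472.AC.MeasP x r 0 1 := by
  intro P hP hd H _ _
  rw [hr] at hd
  obtain ⟨n, hn⟩ := natDegree_eq_zero.1 (show P.natDegree = 0 by omega)
  rw [← hn] at hP ⊢
  rw [Real.rpow_zero, one_mul, aeval_C]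
  have hn0 : n ≠ 0 := by
    rintro rfl
    exact hP C_0
  have h1 : (1 : ℝ) ≤ |(n : ℝ)| := by exact_mod_cast Int.one_le_abs hn0
  simpa using h1

theorem elim_ne {d : ℕ} {A B : ℤ[X]} (hA : A ≠ 0) (hBd : B.natDegree ≤ d)
    (h : ∀ α : ℂ, aeval α A = 0 → aeval α B ≠ 0) : elim d 1 0 A B ≠ 0 := by
  intro h0
  have h1 := elim_map d 1 0 A B hBd
  rw [h0, Polynomial.map_zero] at h1
  have h2 := h1.symm
  rw [mul_eq_zero] at h2
  rcases h2 with h2 | h2
  · rw [C_eq_zero] at h2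
    exact pow_ne_zero _ (by exact_mod_cast leadingCoeff_ne_zero.2 hA) h2
  · rw [Multiset.prod_eq_zero_iff, Multiset.mem_map] at h2
    obtain ⟨α, hα, h3⟩ := h2
    rw [mem_roots', IsRoot, ← aeval_int] at hα
    apply h α hα.2
    have h4 := congrArg (eval 0) h3
    rw [eval_comp] at h4
    simp only [Polynomial.map_one, mul_one, add_zero, eval_C, eval_zero] at h4
    rw [aeval_int]
    exact h4

/-- Liouville's inequality for two algebraic numbers which are not conjugate -/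
theorem liouville (d : ℕ) : ∃ c : ℝ, 0 < c ∧ ∀ A B : Pol d, hgt A.1 ≠ hgt B.1 →
    ∀ α β : ℂ, aeval α A.1 = 0 → aeval β B.1 = 0 → c ≤ ((hgt A.1 : ℝ) * hgt B.1) ^ (d : ℝ) * ‖α - β‖ := by
  obtain ⟨c, hc, h⟩ := elim_sharp 0 d 0 1 0 (by simp) (by simp) le_rfl one_pos (measP_zero 0 _ (by ring))
  refine ⟨c, hc, fun A B hne α β hα hβ => ?_⟩
  have h1 := h A.1 B.1 A.2.1.ne_zero B.2.1.ne_zero A.2.2.2 B.2.2.2
    (elim_ne A.2.1.ne_zero B.2.2.2 fun γ hγ => no_common A.2.1 B.2.1 A.2.2.1 B.2.2.1 hne hγ)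
    (hgt A.1) (hgt B.1) (hgt_pos A) (hgt_pos B) (coeff_le_hgt _) (coeff_le_hgt _) α β hα hβ
  simpa using h1

/-- two approximations of the same number -/
theorem same_alg {d : ℕ} {θ : J → ℝ} (hθ : ∀ j, NotAlg d (θ j)) : ∃ C : ℝ, 0 ≤ C ∧ ∀ u v : J × Pol d, u.1 = v.1 →
    aX u < aX v → aL θ u < aL θ v → aL θ u ≤ d * (aX u + aX v) + C := by
  obtain ⟨c, hc, h⟩ := liouville d
  refine ⟨|Real.log 2 - Real.log c|, abs_nonneg _, fun u v huv h1 h2 => ?_⟩
  obtain ⟨j, A⟩ := u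
  obtain ⟨k, B⟩ := v
  simp only at huv
  subst huv
  have hu := rd_pos (hθ j) A
  have hv := rd_pos (hθ j) B
  have hA := hgt_pos A
  have hB := hgt_pos B
  have hne : hgt A.1 ≠ hgt B.1 := by
    intro h3
    rw [aX, aX, h3] at h1
    exact lt_irrefl _ h1
  have hlt : rd (θ j) B.1 < rd (θ j) A.1 := by
    rw [← exp_aL hθ (j, B), ← exp_aL hθ (j, A)]
    exact Real.exp_lt_exp.2 (by linarith)
  obtain ⟨α, hα, h3⟩ := exists_root A.2.2.1 (θ j)
  obtain ⟨β, hβ, h4⟩ := exists_root B.2.2.1 (θ j)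
  have h5 := h A B hne α β hα hβ
  have h6 : ‖α - β‖ ≤ 2 * rd (θ j) A.1 := by
    have h7 : α - β = ((θ j : ℂ) - β) - ((θ j : ℂ) - α) := by ring
    have h8 := norm_sub_le ((θ j : ℂ) - β) ((θ j : ℂ) - α)
    rw [← h7, ← h3, ← h4] at h8
    linarith
  have h7 := h5.trans (mul_le_mul_of_nonneg_left h6 (by positivity))
  have h8 := Real.log_le_log hc h7
  have hA0 : (0 : ℝ) < hgt A.1 := by linarith
  have hB0 : (0 : ℝ) < hgt B.1 := by linarith
  rw [Real.log_mul (by positivity) (by positivity), Real.log_rpow (by positivity),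
    Real.log_mul hA0.ne' hB0.ne', Real.log_mul (by norm_num) hu.ne'] at h8
  have h9 := le_abs_self (Real.log 2 - Real.log c)
  simp only [aL, aX]
  linarith

/-- separated numbers -/
def AlgSep (d : ℕ) (E : ℝ) (θ : J → ℝ) : Prop := ∀ j k, j ≠ k → ∀ ε : ℝ, 0 < ε → ∃ c : ℝ, 0 < c ∧
  ∀ A B : Pol d, ∀ α β : ℂ, aeval α A.1 = 0 → aeval β B.1 = 0 →
    c ≤ ((hgt A.1 : ℝ) * hgt B.1) ^ (E + ε) * (‖(θ j : ℂ) - α‖ + ‖(θ k : ℂ) - β‖)

/-- two approximations of different numbers -/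
theorem diff_alg [Finite J] {d : ℕ} {E : ℝ} {θ : J → ℝ} (hθ : ∀ j, NotAlg d (θ j)) (hsep : AlgSep d E θ)
    (ε : ℝ) (hε : 0 < ε) :
    ∃ C : ℝ, ∀ u v : J × Pol d, u.1 ≠ v.1 → aX u < aX v → aL θ u < aL θ v →
      aL θ u ≤ (E + ε) * (aX u + aX v) + C := by
  have := Fintype.ofFinite J
  have h0 : ∀ jk : J × J, ∃ c : ℝ, 0 < c ∧ (jk.1 ≠ jk.2 → ∀ A B : Pol d, ∀ α β : ℂ, aeval α A.1 = 0 →
      aeval β B.1 = 0 → c ≤ ((hgt A.1 : ℝ) * hgt B.1) ^ (E + ε) * (‖(θ jk.1 : ℂ) - α‖ + ‖(θ jk.2 : ℂ) - β‖)) := by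
    intro jk
    by_cases h : jk.1 = jk.2
    · exact ⟨1, one_pos, fun h' => absurd h h'⟩
    · obtain ⟨c, hc, h1⟩ := hsep jk.1 jk.2 h ε hε
      exact ⟨c, hc, fun _ => h1⟩
  choose c hc h1 using h0
  refine ⟨∑ jk : J × J, |Real.log 2 - Real.log (c jk)|, fun u v huv hX hL => ?_⟩
  obtain ⟨j, A⟩ := u
  obtain ⟨k, B⟩ := v
  simp only at huv
  have hu := rd_pos (hθ j) A
  have hv := rd_pos (hθ k) B
  have hA := hgt_pos A
  have hB := hgt_pos B
  have hlt : rd (θ k) B.1 < rd (θ j) A.1 := by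
    rw [← exp_aL hθ (k, B), ← exp_aL hθ (j, A)]
    exact Real.exp_lt_exp.2 (by linarith)
  obtain ⟨α, hα, h3⟩ := exists_root A.2.2.1 (θ j)
  obtain ⟨β, hβ, h4⟩ := exists_root B.2.2.1 (θ k)
  have h5 := h1 (j, k) huv A B α β hα hβ
  rw [← h3, ← h4] at h5
  have h6 : rd (θ j) A.1 + rd (θ k) B.1 ≤ 2 * rd (θ j) A.1 := by linarith
  have h7 := h5.trans (mul_le_mul_of_nonneg_left h6 (by positivity))
  have h8 := Real.log_le_log (hc (j, k)) h7
  have hA0 : (0 : ℝ) < hgt A.1 := by linarith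
  have hB0 : (0 : ℝ) < hgt B.1 := by linarith
  rw [Real.log_mul (by positivity) (by positivity), Real.log_rpow (by positivity),
    Real.log_mul hA0.ne' hB0.ne', Real.log_mul (by norm_num) hu.ne'] at h8
  have h9 : |Real.log 2 - Real.log (c (j, k))| ≤ ∑ jk : J × J, |Real.log 2 - Real.log (c jk)| :=
    Finset.single_le_sum (f := fun jk => |Real.log 2 - Real.log (c jk)|) (fun _ _ => abs_nonneg _)
      (Finset.mem_univ (j, k))
  have h10 := le_abs_self (Real.log 2 - Real.log (c (j, k)))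
  simp only [aL, aX]
  linarith

theorem bound_alg [Finite J] {d : ℕ} {E : ℝ} (hE : d ≤ E) {θ : J → ℝ} (hθ : ∀ j, NotAlg d (θ j))
    (hsep : AlgSep d E θ) (ε : ℝ) (hε : 0 < ε) :
    ∃ C : ℝ, ∀ u v : J × Pol d, aX u < aX v → aL θ u < aL θ v →
      aL θ u ≤ (E + ε) * aX v + (E + ε) * aX u + C := by
  obtain ⟨C, hC⟩ := diff_alg hθ hsep ε hε
  obtain ⟨C', hC0', hC'⟩ := same_alg hθ
  refine ⟨max C C', fun u v hX hL => ?_⟩
  by_cases h : u.1 = v.1
  · have h1 := hC' u v h hX hL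
    have h2 := aX_nonneg u
    have h3 := aX_nonneg v
    have h4 := le_max_right C C'
    have h5 : (d : ℝ) * (aX u + aX v) ≤ (E + ε) * (aX u + aX v) := by
      gcongr
      linarith
    linarith
  · have h1 := hC u v h hX hL
    have h4 := le_max_left C C'
    linarith

/-- **Large exponents.** -/
theorem alg_high [Finite J] {d : ℕ} {E : ℝ} (hE : d ≤ E) {θ : J → ℝ} (hθ : ∀ j, NotAlg d (θ j))
    (hsep : AlgSep d E θ) {w : ℝ} (hw0 : 0 < w) (hw : 2 * E < w) : lowerDensity (algScales d θ w) ≤ E / w := by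
  have hE0 : 0 ≤ E := (Nat.cast_nonneg d).trans hE
  rw [algScales_eq hθ]
  exact dens_simple (A := E) (B := E) hw0 hE0 (by linarith) finite_aX (fun ε hε => by
    obtain ⟨C, hC⟩ := bound_alg hE hθ hsep ε hε
    exact ⟨C, fun u v h1 h2 _ _ => hC u v h1 h2⟩)

/-- **Small exponents.** For `n + 1` numbers. -/
theorem alg_low [Fintype J] {d n : ℕ} {E : ℝ} (hd : 1 ≤ d) (hE : d ≤ E) (hcard : Fintype.card J = n + 1)
    {θ : J → ℝ} (hθ : ∀ j, NotAlg d (θ j)) (hsep : AlgSep d E θ) {w u : ℝ} (hw : 2 * d < w) (hw2 : w ≤ 2 * E)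
    (hu : 1 < u) (hroot : u ^ n = E / d) :
    lowerDensity (algScales d θ w) ≤ (E + (2 * E - w) / (u - 1)) / w := by
  have hd0 : (1 : ℝ) ≤ d := by exact_mod_cast hd
  have hw0 : 0 < w := by linarith
  have hu1 : 0 < u - 1 := by linarith
  rw [algScales_eq hθ]
  by_cases hunb : ∀ B : ℝ, ∃ x ∈ goodScales (aX (d := d)) (aL θ) w, B ≤ x
  · obtain ⟨s, hs⟩ := exists_goodSeq hw0 finite_aX hunb
    refine lowerDensity_le hs.lim (fun η hη N => ?_)
    obtain ⟨C, hC0, hC⟩ := same_alg hθ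
    have hT : ∀ i, aL θ (s i) ≤ d * aX (s (i + n)) + d * aX (s (i + n + 1)) + C := by
      intro i
      obtain ⟨a, b, hab, h⟩ := Fintype.exists_ne_map_eq_of_card_lt
        (fun k : Fin (n + 2) => (s (i + k)).1) (by rw [Fintype.card_fin]; omega)
      have main : ∀ a b : Fin (n + 2), a < b → (s (i + a)).1 = (s (i + b)).1 →
          aL θ (s i) ≤ d * aX (s (i + n)) + d * aX (s (i + n + 1)) + C := by
        intro a b hab h
        have hab'' : (a : ℕ) < b := hab
        have hab' : i + (a : ℕ) < i + (b : ℕ) := by omega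
        have h1 := hC _ _ h (hs.monoX hab') (hs.monoL hab')
        have h2 : aL θ (s i) ≤ aL θ (s (i + a)) := hs.monoL.monotone (by omega)
        have h3 : aX (s (i + (b : ℕ))) ≤ aX (s (i + n + 1)) := hs.monoX.monotone (by
          have := b.2
          omega)
        have h4 : aX (s (i + (a : ℕ))) ≤ aX (s (i + n)) := hs.monoX.monotone (by
          have := b.2
          omega)
        have h5 : (d : ℝ) * (aX (s (i + (a : ℕ))) + aX (s (i + (b : ℕ)))) ≤
            d * (aX (s (i + n)) + aX (s (i + n + 1))) := by gcongr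
        linarith
      rcases lt_or_gt_of_ne hab with h1 | h1
      · exact main a b h1 h
      · exact main b a h1 h.symm
    have hroot' : (d : ℝ) * u ^ n + d * u ^ (n + 1) = E * u + E := by
      rw [pow_succ, hroot]
      field_simp
      ring
    obtain ⟨i, hn1, hn2⟩ := seq_multi2 (x := fun n => aX (s n)) (ℓ := fun n => aL θ (s n))
      (f := fun n => (volume (goodScales (aX (d := d)) (aL θ) w ∩ Icc 0 (aX (s n)))).toReal) (a := 1 / w)
      (A := E) (B := E) (α := d) (β := d) (u := u) (m := n)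
      (by positivity) (by linarith) (by linarith) (by linarith)
      (by rw [one_div, ← div_eq_inv_mul, div_lt_one hw0]; linarith) hu hroot' hs.lim (fun n => hs.meas hw0 n)
      (fun ε hε => by
        obtain ⟨C, hC⟩ := bound_alg hE hθ hsep ε hε
        exact ⟨C, fun n => hC _ _ (hs.incX n) (hs.incL n)⟩)
      ⟨C, hT⟩ (by rw [one_div, ← div_eq_inv_mul, one_le_div hw0]; linarith) η hη N
    refine ⟨i, hn1, hn2.trans (le_of_eq ?_)⟩
    congr 2
    field_simp
    ring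
  · push Not at hunb
    obtain ⟨B, hB⟩ := hunb
    rw [lowerDensity_of_bdd (fun x hx => (hB x hx).le)]
    have h1 : 0 ≤ 2 * E - w := by linarith
    have h2 : 0 ≤ E := by linarith
    positivity

/-- the law -/
noncomputable def algLaw (E u w : ℝ) : ℝ := max (E / w) ((E + (2 * E - w) / (u - 1)) / w)

theorem alg_law [Fintype J] {d n : ℕ} {E : ℝ} (hd : 1 ≤ d) (hE : d ≤ E) (hcard : Fintype.card J = n + 1)
    {θ : J → ℝ} (hθ : ∀ j, NotAlg d (θ j)) (hsep : AlgSep d E θ) {w u : ℝ} (hw : 2 * d < w)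
    (hu : 1 < u) (hroot : u ^ n = E / d) : lowerDensity (algScales d θ w) ≤ algLaw E u w := by
  have hd0 : (1 : ℝ) ≤ d := by exact_mod_cast hd
  rcases le_or_gt w (2 * E) with h | h
  · exact (alg_low hd hE hcard hθ hsep hw h hu hroot).trans (le_max_right _ _)
  · exact (alg_high hE hθ hsep (by linarith) h).trans (le_max_left _ _)

theorem algLaw_lt_one {E u w : ℝ} (hE : 0 < E) (hu : 1 < u) (hw : E * (1 + 1 / u) < w) : algLaw E u w < 1 := by
  have hu0 : 0 < u := by linarith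
  have h1 : 0 < E * (1 / u) := by positivity
  have hw0 : E < w := by linarith
  have hw1 : 0 < w := by linarith
  have hu1 : 0 < u - 1 := by linarith
  rw [algLaw, max_lt_iff]
  refine ⟨by rw [div_lt_one hw1]; linarith, ?_⟩
  have h2 : (E + (2 * E - w) / (u - 1)) / w = (E * u + E - w) / (w * (u - 1)) := by
    field_simp
    ring
  rw [h2, div_lt_one (by positivity)]
  have h3 : (E * (1 + 1 / u)) * u < w * u := by gcongr
  have h4 : (E * (1 + 1 / u)) * u = E * u + E := by field_simp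
  linarith

theorem algLaw_eq_one {E u : ℝ} (hE : 0 < E) (hu : 1 < u) : algLaw E u (E * (1 + 1 / u)) = 1 := by
  have hu0 : 0 < u := by linarith
  have hu1 : 0 < u - 1 := by linarith
  have hu1' : u - 1 ≠ 0 := by linarith
  have h1 : 0 < 1 / u := by positivity
  have h2 : (E + (2 * E - E * (1 + 1 / u)) / (u - 1)) / (E * (1 + 1 / u)) = 1 := by
    rw [div_eq_one_iff_eq (by positivity)]
    field_simp
    ring
  rw [algLaw, h2, max_eq_right]
  rw [div_le_one (by positivity)]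
  nlinarith

theorem algLaw_high {E u w : ℝ} (hu : 1 < u) (hw0 : 0 < w) (hw : 2 * E ≤ w) : algLaw E u w = E / w := by
  rw [algLaw, max_eq_left]
  gcongr
  have hu1 : 0 < u - 1 := by linarith
  have : (2 * E - w) / (u - 1) ≤ 0 := div_nonpos_of_nonpos_of_nonneg (by linarith) hu1.le
  linarith

/-- an algebraic number -/
theorem density_one_alg {d : ℕ} {θ : J → ℝ} {j : J} (h : ¬ NotAlg d (θ j)) (w : ℝ) :
    lowerDensity (algScales d θ w) = 1 := by
  rw [NotAlg] at h
  push Not at h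
  obtain ⟨P, hP0, hPd, hP⟩ := h
  -- an irreducible factor
  obtain ⟨A, hA, hAd, hAr⟩ : ∃ A : ℤ[X], Irreducible A ∧ A.natDegree ≤ d ∧ aeval (θ j) A = 0 := by
    obtain ⟨s, hs1, u, hs2⟩ := WfDvdMonoid.exists_factors P hP0
    have h1 : aeval (θ j) (s.prod * (u : ℤ[X])) = 0 := by rw [hs2]; exact hP
    rw [map_mul, mul_eq_zero] at h1
    have h2 : aeval (θ j) s.prod = 0 := by
      refine h1.resolve_right (fun h3 => ?_)
      obtain ⟨r, hr, hr'⟩ := Polynomial.isUnit_iff.1 u.isUnit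
      rw [← hr', aeval_C] at h3
      have : (r : ℝ) = 0 := by simpa using h3
      rw [Int.cast_eq_zero] at this
      rw [this] at hr
      exact not_isUnit_zero hr
    rw [map_multiset_prod, Multiset.prod_eq_zero_iff, Multiset.mem_map] at h2
    obtain ⟨A, hA, hA0⟩ := h2
    refine ⟨A, hs1 A hA, ?_, hA0⟩
    have hdvd : A ∣ P := by
      rw [← hs2]
      exact (Multiset.dvd_prod hA).mul_right _
    exact (natDegree_le_of_dvd hdvd hP0).trans hPd
  obtain ⟨B, hB⟩ : ∃ B : ℝ, B = Real.log (hgt A) := ⟨_, rfl⟩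
  have hH1 : (1 : ℝ) ≤ hgt A := by exact_mod_cast one_le_hgt hA.ne_zero
  have hB0 : 0 ≤ B := by rw [hB]; exact Real.log_nonneg hH1
  have hmem : ∀ x, B ≤ x → x ∈ algScales d θ w := by
    intro x hx
    refine ⟨j, θ j, A, hA, hAd, fun i => (coeff_le_hgt A i).trans ?_, ?_, ?_⟩
    · rw [← Real.exp_log (by linarith : (0 : ℝ) < hgt A), ← hB]
      exact Real.exp_le_exp.2 hx
    · rw [cast_aeval, hAr, Complex.ofReal_zero]
    · rw [sub_self, norm_zero]
      positivity
  apply le_antisymm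
  · refine lowerDensity_le (x := fun n : ℕ => (n : ℝ)) tendsto_natCast_atTop_atTop ?_
    intro η hη N
    refine ⟨N, le_rfl, ?_⟩
    refine (vol_le _ (Nat.cast_nonneg N)).trans ?_
    have : (0 : ℝ) ≤ N := Nat.cast_nonneg N
    nlinarith
  · apply le_lowerDensity
    intro η hη
    refine ⟨max B (B / η), fun T hT => ?_⟩
    have h1 : B ≤ T := (le_max_left _ _).trans hT
    have h2 : B / η ≤ T := (le_max_right _ _).trans hT
    rw [div_le_iff₀' hη] at h2
    have h3 := meas_lower (S := algScales d θ w) hB0 h1 (fun y hy => hmem y hy.1)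
    have h4 : 0 ≤ (volume (algScales d θ w ∩ Icc 0 B)).toReal := ENNReal.toReal_nonneg
    linarith

end Pool.Agent.H595.Alg
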