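import Pool.Agent.H595.Dens.Constr2

/-!
# The construction for numbers with any exponent of separation
-/

set_option autoImplicit false

namespace Pool.Agent.H595.Dens

open MeasureTheory Filter Topology Set

/-- **Construction.** The functions `Θ j` are injective and satisfy a Lipschitz condition. If at `τ` the value of
one of them is a rational number with denominator `q` then close to `τ` the value of another one is a rational
number with denominator `b q Q`. -/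
theorem exists_t_famK {J : Type*} [Finite J] (Θ : J → ℝ → ℝ) {α β M C : ℝ} {b K : ℕ} (hb : 1 ≤ b) (hM : 0 < M)
    (hC : 0 < C) (hLip : ∀ j s t, |Θ j s - Θ j t| ≤ M * |s - t|) (hinj : ∀ j, Function.Injective (Θ j))
    (hsep : ∀ t, α < t → t < β → ∀ j k, j ≠ k → ∃ c : ℝ, 0 < c ∧ ∀ (q q' : ℕ) (p p' : ℤ), 1 ≤ q → 1 ≤ q' →
      c ≤ ((q : ℝ) * q') ^ K * (q' * |q * Θ j t - p| + q * |q' * Θ k t - p'|))
    (j₀ : J) (τ₀ : ℝ) (hα : α < τ₀) (hβ : τ₀ < β) (q₀ : ℕ) (p₀ : ℤ) (hq₀ : 1 ≤ q₀) (h₀ : (q₀ : ℝ) * Θ j₀ τ₀ = p₀)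
    (hstep : ∀ (j : J) (τ : ℝ) (q : ℕ) (p : ℤ), α < τ → τ < β → 1 ≤ q → (q : ℝ) * Θ j τ = p → ∀ N : ℕ,
      ∃ (k : J) (σ : ℝ) (r : ℤ) (Q : ℕ), N ≤ Q ∧ 1 ≤ Q ∧ ((b * q * Q : ℕ) : ℝ) * Θ k σ = r ∧ σ ≠ τ ∧
        |σ - τ| ≤ C / (Q : ℝ) ^ 2) :
    ∃ t : ℝ, α < t ∧ t < β ∧ (∀ j, Irrational (Θ j t)) ∧
      ∀ w : ℝ, 2 ≤ w → 2 / w ≤ lowerDensity (ratScales (fun j => Θ j t) w) := by
  -- the sequence
  obtain ⟨δ₀, hδ₀, hδα, hδβ⟩ : ∃ δ : ℝ, 0 < δ ∧ α < τ₀ - 2 * δ ∧ τ₀ + 2 * δ < β := by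
    refine ⟨min (τ₀ - α) (β - τ₀) / 4, ?_, ?_, ?_⟩
    · have : 0 < min (τ₀ - α) (β - τ₀) := lt_min (by linarith) (by linarith)
      linarith
    · have := min_le_left (τ₀ - α) (β - τ₀)
      linarith
    · have := min_le_right (τ₀ - α) (β - τ₀)
      linarith
  obtain ⟨s, hs0, hsP, hsR⟩ := exists_chain (α := St J)
    (fun s => 1 ≤ s.q ∧ (s.q : ℝ) * Θ s.j s.τ = s.p ∧ 0 < s.δ ∧ α < s.τ - 2 * s.δ ∧ s.τ + 2 * s.δ < β)
    (fun n s s' => 0 < |s'.τ - s.τ| ∧ |s'.τ - s.τ| ≤ s.δ ∧ s'.δ = |s'.τ - s.τ| / 4 ∧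
      ∃ Q : ℕ, 1 ≤ Q ∧ s.q ^ n ≤ Q ∧ 2 ^ n ≤ Q ∧ s'.q = b * s.q * Q ∧ |s'.τ - s.τ| ≤ C / (Q : ℝ) ^ 2)
    ⟨j₀, τ₀, q₀, p₀, δ₀⟩ ⟨hq₀, h₀, hδ₀, hδα, hδβ⟩ (by
      rintro n ⟨j, τ, q, p, δ⟩ ⟨h1, h2, h3, h4, h5⟩
      simp only at h1 h2 h3 h4 h5
      obtain ⟨N, hN⟩ := exists_nat_ge (C / δ)
      obtain ⟨k, σ, r, Q, hQN, hQ1, hr, hne, hle⟩ := hstep j τ q p (by linarith) (by linarith) h1 h2
        (max N (max (q ^ n) (2 ^ n)))
      have g1 : 0 < |σ - τ| := abs_pos.2 (sub_ne_zero.2 hne)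
      have g2 : |σ - τ| ≤ δ := by
        refine hle.trans ?_
        have hQr : (1 : ℝ) ≤ Q := by exact_mod_cast hQ1
        rw [div_le_iff₀ (by positivity)]
        have h6 : (N : ℝ) ≤ Q := by exact_mod_cast (le_max_left _ _).trans hQN
        have h7 := hN.trans h6
        rw [div_le_iff₀' h3] at h7
        refine h7.trans ?_
        apply mul_le_mul_of_nonneg_left _ h3.le
        nlinarith
      have g3 := abs_le.1 (le_refl |σ - τ|)
      refine ⟨⟨k, σ, b * q * Q, r, |σ - τ| / 4⟩, ⟨?_, hr, by simp only; linarith, ?_, ?_⟩, g1, g2, rfl, Q, hQ1, ?_, ?_,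
        rfl, hle⟩
      · exact Nat.one_le_iff_ne_zero.2 (Nat.mul_ne_zero (Nat.mul_ne_zero (by omega) (by omega)) (by omega))
      · simp only; linarith [g3.1]
      · simp only; linarith [g3.2]
      · exact ((le_max_left _ _).trans (le_max_right _ _)).trans hQN
      · exact ((le_max_right _ _).trans (le_max_right _ _)).trans hQN)
  obtain ⟨T, hT⟩ : ∃ T : ℕ → ℝ, T = fun n => (s n).τ := ⟨_, rfl⟩
  obtain ⟨t, ht⟩ := exists_limit (T := T) (fun n => by rw [hT]; exact (hsR n).1) (fun n => by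
    rw [hT]
    have h1 := (hsR (n + 1)).2.1
    rw [(hsR n).2.2.1] at h1
    exact h1)
  have hTT : ∀ n, T n = (s n).τ := fun n => by rw [hT]
  -- `t` in the interval
  have htI : α < t ∧ t < β := by
    have h1 := (ht 0).2
    have h2 := (hsR 0).2.1
    rw [hTT, hTT, zero_add] at h1
    rw [zero_add] at h2
    rw [hs0] at h1 h2
    simp only at h1 h2
    have h3 := abs_le.1 (h1.trans (mul_le_mul_of_nonneg_left h2 (by norm_num)))
    constructor
    · linarith [h3.1]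
    · linarith [h3.2]
  choose hs1 hs2 hs3 Q hQ1 hQ2 hQ3 hQ4 hQ5 using hsR
  have hq1 : ∀ n, 1 ≤ (s n).q := fun n => (hsP n).1
  have hq1r : ∀ n, (1 : ℝ) ≤ (s n).q := fun n => by exact_mod_cast hq1 n
  have hQ1r : ∀ n, (1 : ℝ) ≤ Q n := fun n => by exact_mod_cast hQ1 n
  have hval : ∀ n, 0 < |(s n).q * Θ (s n).j t - (s n).p| ∧
      |(s n).q * Θ (s n).j t - (s n).p| ≤ (s n).q * (4 / 3 * M * C) / (Q n : ℝ) ^ 2 := by
    intro n
    have h1 : (s n).q * Θ (s n).j t - (s n).p = (s n).q * (Θ (s n).j t - Θ (s n).j (s n).τ) := by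
      rw [mul_sub, (hsP n).2.1]
    have h0 := hq1r n
    have h2 := (ht n).1
    have h3 := (ht n).2
    rw [hTT] at h2
    rw [hTT, hTT] at h3
    have h4 : Θ (s n).j t ≠ Θ (s n).j (s n).τ := fun h => by
      have := hinj _ h
      rw [this, sub_self, abs_zero] at h2
      exact lt_irrefl _ h2
    rw [h1, abs_mul, abs_of_pos (by linarith : (0 : ℝ) < (s n).q)]
    refine ⟨mul_pos (by linarith) (abs_pos.2 (sub_ne_zero.2 h4)), ?_⟩
    rw [mul_div_assoc]
    apply mul_le_mul_of_nonneg_left _ (by linarith)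
    calc |Θ (s n).j t - Θ (s n).j (s n).τ| ≤ M * |t - (s n).τ| := hLip _ _ _
      _ ≤ M * (4 / 3 * (C / (Q n : ℝ) ^ 2)) := by
          apply mul_le_mul_of_nonneg_left _ hM.le
          exact h3.trans (mul_le_mul_of_nonneg_left (hQ5 n) (by norm_num))
      _ = 4 / 3 * M * C / (Q n : ℝ) ^ 2 := by ring
  obtain ⟨G, hG⟩ : ∃ G : ℝ, G = 4 / 3 * M * C := ⟨_, rfl⟩
  have hG0 : 0 < G := by rw [hG]; positivity
  rw [← hG] at hval
  have hQr : ∀ n, ((s n).q : ℝ) ^ n ≤ Q n := fun n => by exact_mod_cast hQ2 n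
  have hQr2 : ∀ n, (2 : ℝ) ^ n ≤ Q n := fun n => by exact_mod_cast hQ3 n
  refine ⟨t, htI.1, htI.2, fun k => ?_, fun w hw => ?_⟩
  · -- irrationality
    by_contra hk
    rw [Irrational, not_not] at hk
    obtain ⟨z, hz⟩ := hk
    obtain ⟨R, hR⟩ : ∃ R : ℕ, R = z.den := ⟨_, rfl⟩
    have hR1 : 1 ≤ R := by rw [hR]; exact z.pos
    have hRr : (1 : ℝ) ≤ R := by exact_mod_cast hR1
    have hzk : (R : ℝ) * Θ k t = z.num := by
      rw [← hz, hR]
      exact_mod_cast z.den_mul_eq_num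
    obtain ⟨c, hc, hsc⟩ : ∃ c : ℝ, 0 < c ∧ ∀ j, j ≠ k → ∀ (q : ℕ) (p : ℤ), 1 ≤ q →
        c ≤ ((q : ℝ) * R) ^ K * (R * |q * Θ j t - p|) := by
      have h1 : ∀ j, ∃ c : ℝ, 0 < c ∧ (j ≠ k → ∀ (q : ℕ) (p : ℤ), 1 ≤ q →
          c ≤ ((q : ℝ) * R) ^ K * (R * |q * Θ j t - p|)) := by
        intro j
        by_cases hjk : j = k
        · exact ⟨1, one_pos, fun h => absurd hjk h⟩
        · obtain ⟨c, hc, h2⟩ := hsep t htI.1 htI.2 j k hjk
          refine ⟨c, hc, fun _ q p hq => ?_⟩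
          have h3 := h2 q R p z.num hq hR1
          rw [hzk, sub_self, abs_zero, mul_zero, add_zero] at h3
          exact h3
      choose c hc h2 using h1
      have : Nonempty J := ⟨j₀⟩
      obtain ⟨j₁, hj₁⟩ := Finite.exists_min c
      exact ⟨c j₁, hc j₁, fun j hj q p hq => (hj₁ j).trans (h2 j hj q p hq)⟩
    obtain ⟨m, hm⟩ : ∃ m : ℕ, max (R * G) (R ^ (K + 1) * G / c) < 2 ^ m := pow_unbounded_of_one_lt _ (by norm_num)
    obtain ⟨n, hn⟩ : ∃ n : ℕ, n = m + K + 1 := ⟨_, rfl⟩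
    have hnQ : max (R * G) (R ^ (K + 1) * G / c) < Q n := by
      refine hm.trans_le (le_trans ?_ (hQr2 n))
      exact pow_le_pow_right₀ (by norm_num) (by omega)
    have hn1 : R * G < Q n := (le_max_left _ _).trans_lt hnQ
    have hn2 : R ^ (K + 1) * G / c < Q n := (le_max_right _ _).trans_lt hnQ
    obtain ⟨hv0, hv1⟩ := hval n
    obtain ⟨Y, hY⟩ : ∃ Y : ℝ, Y = |(s n).q * Θ (s n).j t - (s n).p| := ⟨_, rfl⟩
    rw [← hY] at hv0 hv1
    have hQn : (0 : ℝ) < Q n := by linarith [hQ1r n]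
    have hqn := hq1r n
    have hq3 : ((s n).q : ℝ) ^ (K + 1) ≤ Q n := (pow_le_pow_right₀ hqn (by omega)).trans (hQr n)
    have h5 : ((s n).q : ℝ) ^ K * Y ≤ G / Q n := by
      calc ((s n).q : ℝ) ^ K * Y ≤ ((s n).q : ℝ) ^ K * ((s n).q * G / (Q n : ℝ) ^ 2) := by gcongr
        _ = ((s n).q : ℝ) ^ (K + 1) * G / (Q n : ℝ) ^ 2 := by ring
        _ ≤ (Q n : ℝ) * G / (Q n : ℝ) ^ 2 := by gcongr
        _ = G / Q n := by field_simp
    by_cases hjk : (s n).j = k
    · have h6 : (R : ℝ) * Y = |(((s n).q * z.num - (s n).p * R : ℤ) : ℝ)| := by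
        have e1 : (((s n).q * z.num - (s n).p * R : ℤ) : ℝ) = R * ((s n).q * Θ (s n).j t - (s n).p) := by
          push_cast
          rw [← hzk, hjk]
          ring
        rw [e1, abs_mul, abs_of_pos (by linarith : (0 : ℝ) < R), hY]
      have h7 : 0 < (R : ℝ) * Y := by positivity
      have h8 : (1 : ℝ) ≤ R * Y := by
        rw [h6] at h7 ⊢
        have h9 : ((s n).q * z.num - (s n).p * R : ℤ) ≠ 0 := by
          intro h0
          rw [h0] at h7
          simp at h7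
        have h10 := Int.one_le_abs h9
        exact_mod_cast h10
      have h11 : Y ≤ ((s n).q : ℝ) ^ K * Y := le_mul_of_one_le_left hv0.le (one_le_pow₀ hqn)
      have h12 : R * Y ≤ R * (G / Q n) := mul_le_mul_of_nonneg_left (h11.trans h5) (by linarith)
      have h13 : (1 : ℝ) ≤ R * G / Q n := by rw [mul_div_assoc]; exact h8.trans h12
      rw [one_le_div hQn] at h13
      linarith
    · have h6 := hsc (s n).j hjk (s n).q (s n).p (hq1 n)
      rw [← hY] at h6
      have h7 : ((s n).q * R : ℝ) ^ K * (R * Y) = R ^ (K + 1) * (((s n).q : ℝ) ^ K * Y) := by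
        rw [mul_pow, pow_succ]
        ring
      rw [h7] at h6
      have h8 : c ≤ R ^ (K + 1) * (G / Q n) := h6.trans (mul_le_mul_of_nonneg_left h5 (by positivity))
      rw [← mul_div_assoc, le_div_iff₀ hQn] at h8
      rw [div_lt_iff₀ hc] at hn2
      linarith
  · -- the density
    have hw0 : 0 < w := by linarith
    obtain ⟨Y, hY⟩ : ∃ Y : ℕ → ℝ, Y = fun n => |(s n).q * Θ (s n).j t - (s n).p| := ⟨_, rfl⟩
    have hY1 : ∀ n, 0 < Y n := fun n => by rw [hY]; exact (hval n).1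
    have hY2 : ∀ n, Y n ≤ (s n).q * G / (Q n : ℝ) ^ 2 := fun n => by rw [hY]; exact (hval n).2
    have hbr : (1 : ℝ) ≤ b := by exact_mod_cast hb
    have hqs : ∀ n, ((s (n + 1)).q : ℝ) = b * (s n).q * Q n := fun n => by
      rw [hQ4 n]; push_cast; ring
    have hlogs : ∀ n, Real.log (s (n + 1)).q = Real.log b + Real.log (s n).q + Real.log (Q n) := by
      intro n
      have g1 := hq1r n
      have g2 := hQ1r n
      rw [hqs, Real.log_mul (by positivity) (by positivity), Real.log_mul (by positivity) (by positivity)]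
    have hlb : 0 ≤ Real.log b := Real.log_nonneg hbr
    have hlQ : ∀ n, 0 ≤ Real.log (Q n) := fun n => Real.log_nonneg (hQ1r n)
    have hlq : ∀ n, 0 ≤ Real.log (s n).q := fun n => Real.log_nonneg (hq1r n)
    have hlQ2 : ∀ n : ℕ, n * Real.log (s n).q ≤ Real.log (Q n) := by
      intro n
      have h1 := Real.log_le_log (by have := hq1r n; positivity) (hQr n)
      rwa [Real.log_pow] at h1
    have hlQ3 : ∀ n : ℕ, n * Real.log 2 ≤ Real.log (Q n) := by
      intro n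
      have h1 := Real.log_le_log (by positivity) (hQr2 n)
      rwa [Real.log_pow] at h1
    refine dens_super (x := fun n => Real.log (s (n + 1)).q) (L := fun n => -Real.log (Y (n + 1)) / w)
      (D := 2 / w) (F := 3 / w) (E := (2 * Real.log b + |Real.log G|) / w) ?_ (by positivity) (by positivity)
      (fun n => hlq _) (fun n => ?_) (fun n => ?_) ?_ (fun n => ?_) ?_
    · rw [div_le_one hw0]; exact hw
    · have := hlogs (n + 1)
      have := hlQ (n + 1)
      linarith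
    · have h1 := hlogs (n + 1)
      have h2 := hlQ2 (n + 1)
      have h3 := hlq (n + 1)
      push_cast at h2
      linarith
    · apply tendsto_atTop_mono (f := fun n : ℕ => (n : ℝ) * Real.log 2)
      · intro n
        have h1 := hlogs n
        have h2 := hlQ3 n
        have h3 := hlq n
        show (n : ℝ) * Real.log 2 ≤ Real.log (s (n + 1)).q
        linarith
      · exact tendsto_natCast_atTop_atTop.atTop_mul_const (Real.log_pos (by norm_num))
    · have g1 := hq1r (n + 1)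
      have g2 := hQ1r (n + 1)
      have h1 := Real.log_le_log (hY1 (n + 1)) (hY2 (n + 1))
      rw [Real.log_div (by positivity) (by positivity), Real.log_mul (by positivity) (by positivity),
        Real.log_pow] at h1
      have h2 := hlogs (n + 1)
      have h3 := le_abs_self (Real.log G)
      show 2 / w * Real.log (s (n + 1 + 1)).q - 3 / w * Real.log (s (n + 1)).q -
        (2 * Real.log b + |Real.log G|) / w ≤ -Real.log (Y (n + 1)) / w
      rw [le_div_iff₀ hw0]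
      have e1 : (2 / w * Real.log (s (n + 1 + 1)).q - 3 / w * Real.log (s (n + 1)).q -
          (2 * Real.log b + |Real.log G|) / w) * w = 2 * Real.log (s (n + 1 + 1)).q -
          3 * Real.log (s (n + 1)).q - (2 * Real.log b + |Real.log G|) := by
        field_simp
      rw [e1]
      push_cast at h1
      linarith
    · intro n y hy1 hy2
      have g1 := hq1r (n + 1)
      refine ⟨(s (n + 1)).j, (s (n + 1)).p, (s (n + 1)).q, by exact_mod_cast hq1 (n + 1), ?_, ?_⟩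
      · rw [Int.cast_natCast, ← Real.exp_log (by linarith : (0 : ℝ) < (s (n + 1)).q)]
        exact Real.exp_le_exp.2 hy1
      · rw [Int.cast_natCast, ← Real.exp_mul]
        have e1 : |(s (n + 1)).q * Θ (s (n + 1)).j t - (s (n + 1)).p| = Y (n + 1) := by rw [hY]
        rw [e1, ← Real.exp_log (hY1 (n + 1))]
        apply Real.exp_le_exp.2
        rw [lt_div_iff₀ hw0] at hy2
        linarith

end Pool.Agent.H595.Dens
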