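import Pool.Agent.H595.Dens.FamE
import Pool.Agent.H595.Dens.Constr3
import Pool.Agent.H595.Dens.Add

/-!
# The numbers `t + ξ` and `t ξ`
-/

set_option autoImplicit false

namespace Pool.Agent.H595.Dens

open MeasureTheory Filter Topology Set

/-- measure for quadratic polynomials -/
def QuadM (ξ : ℝ) : Prop := ∀ ε : ℝ, 0 < ε → ∃ c : ℝ, 0 < c ∧ ∀ (a b d : ℤ) (H : ℝ),
  ¬ (a = 0 ∧ b = 0 ∧ d = 0) → 1 ≤ H → |(a : ℝ)| ≤ H → |(b : ℝ)| ≤ H → |(d : ℝ)| ≤ H →
  c ≤ H ^ (2 + ε) * |a + b * ξ + d * ξ ^ 2|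

theorem quadM_e : QuadM (Real.exp 1) := fun ε hε => Pool.Agent.N538.MR.tri_e ε hε

theorem QuadM.ne {ξ : ℝ} (h : QuadM ξ) {a b d : ℤ} (h0 : ¬ (a = 0 ∧ b = 0 ∧ d = 0)) :
    (a : ℝ) + b * ξ + d * ξ ^ 2 ≠ 0 := by
  intro h1
  obtain ⟨c, hc, h2⟩ := h 1 one_pos
  have h3 := h2 a b d (1 + |(a : ℝ)| + |(b : ℝ)| + |(d : ℝ)|) h0
    (by linarith [abs_nonneg (a : ℝ), abs_nonneg (b : ℝ), abs_nonneg (d : ℝ)])
    (by linarith [abs_nonneg (a : ℝ), abs_nonneg (b : ℝ), abs_nonneg (d : ℝ)])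
    (by linarith [abs_nonneg (a : ℝ), abs_nonneg (b : ℝ), abs_nonneg (d : ℝ)])
    (by linarith [abs_nonneg (a : ℝ), abs_nonneg (b : ℝ), abs_nonneg (d : ℝ)])
  rw [h1, abs_zero, mul_zero] at h3
  linarith

/-- the numbers `t + ξ` and `t ξ` -/
def sp (ξ t : ℝ) : Fin 2 → ℝ := ![t + ξ, t * ξ]

theorem sp_key {ξ : ℝ} (hξ : QuadM ξ) (t ε : ℝ) (hε : 0 < ε) : ∃ c : ℝ, 0 < c ∧ ∀ (q q' : ℕ) (p p' : ℤ),
    1 ≤ q → 1 ≤ q' →
    c ≤ ((q : ℝ) * q') ^ (2 + ε) * (q' * |q * (t + ξ) - p| + q * |q' * (t * ξ) - p'|) := by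
  obtain ⟨c, hc, h⟩ := hξ ε hε
  obtain ⟨K, hK⟩ : ∃ K : ℝ, K = |t + ξ| + |t * ξ| + 1 := ⟨_, rfl⟩
  have hK1 : 1 ≤ K := by rw [hK]; linarith [abs_nonneg (t + ξ), abs_nonneg (t * ξ)]
  obtain ⟨M, hM⟩ : ∃ M : ℝ, M = max |ξ| 1 := ⟨_, rfl⟩
  have hM1 : 1 ≤ M := by rw [hM]; exact le_max_right _ _
  have hMξ : |ξ| ≤ M := by rw [hM]; exact le_max_left _ _
  refine ⟨min 1 (c / (K ^ (2 + ε) * M)), lt_min one_pos (by positivity), fun q q' p p' hq hq' => ?_⟩
  have hqr : (1 : ℝ) ≤ q := by exact_mod_cast hq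
  have hqr' : (1 : ℝ) ≤ q' := by exact_mod_cast hq'
  have hqq : (1 : ℝ) ≤ q * q' := by nlinarith
  obtain ⟨S, hS⟩ : ∃ S : ℝ, S = q' * |q * (t + ξ) - p| + q * |q' * (t * ξ) - p'| := ⟨_, rfl⟩
  rw [← hS]
  have hP1 : (1 : ℝ) ≤ ((q : ℝ) * q') ^ (2 + ε) := Real.one_le_rpow hqq (by linarith)
  rcases le_or_gt 1 S with hS1 | hS1
  · refine (min_le_left _ _).trans ?_
    nlinarith
  have h1 : (q' : ℝ) * |q * (t + ξ) - p| ≤ S := by
    rw [hS]
    have : 0 ≤ (q : ℝ) * |q' * (t * ξ) - p'| := by positivity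
    linarith
  have h2 : (q : ℝ) * |q' * (t * ξ) - p'| ≤ S := by
    rw [hS]
    have : 0 ≤ (q' : ℝ) * |q * (t + ξ) - p| := by positivity
    linarith
  have h3 : |(((p' * q : ℤ)) : ℝ)| ≤ K * (q * q') := by
    have e1 : (((p' * q : ℤ)) : ℝ) = q * q' * (t * ξ) - q * (q' * (t * ξ) - p') := by push_cast; ring
    rw [e1]
    refine (abs_sub _ _).trans ?_
    rw [abs_mul ((q : ℝ) * q') (t * ξ), abs_mul (q : ℝ) (q' * (t * ξ) - p'),
      abs_of_pos (by positivity : (0 : ℝ) < q * q'), abs_of_pos (by positivity : (0 : ℝ) < q)]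
    have h4 : K * (q * q') = q * q' * |t * ξ| + q * q' * |t + ξ| + q * q' := by rw [hK]; ring
    have h5 : 0 ≤ (q : ℝ) * q' * |t + ξ| := by positivity
    linarith
  have h4 : |((-(p * q') : ℤ) : ℝ)| ≤ K * (q * q') := by
    have e1 : ((-(p * q') : ℤ) : ℝ) = q' * (q * (t + ξ) - p) - q * q' * (t + ξ) := by push_cast; ring
    rw [e1]
    refine (abs_sub _ _).trans ?_
    rw [abs_mul (q' : ℝ) (q * (t + ξ) - p), abs_mul ((q : ℝ) * q') (t + ξ),
      abs_of_pos (by positivity : (0 : ℝ) < q * q'), abs_of_pos (by positivity : (0 : ℝ) < q')]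
    have h4 : K * (q * q') = q * q' * |t * ξ| + q * q' * |t + ξ| + q * q' := by rw [hK]; ring
    have h5 : 0 ≤ (q : ℝ) * q' * |t * ξ| := by positivity
    linarith
  have h5 : |(((q * q' : ℤ)) : ℝ)| ≤ K * (q * q') := by
    push_cast
    rw [abs_of_pos (by positivity)]
    nlinarith
  have h6 := h (p' * q) (-(p * q')) (q * q') (K * (q * q')) (by
    rintro ⟨-, -, h0⟩
    rcases mul_eq_zero.1 h0 with h7 | h7
    · omega
    · omega) (by nlinarith) h3 h4 h5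
  have e1 : (((p' * q : ℤ)) : ℝ) + ((-(p * q') : ℤ) : ℝ) * ξ + (((q * q' : ℤ)) : ℝ) * ξ ^ 2 =
      q' * ξ * (q * (t + ξ) - p) - q * (q' * (t * ξ) - p') := by
    push_cast
    ring
  have h7 : |q' * ξ * (q * (t + ξ) - p) - q * (q' * (t * ξ) - p')| ≤ M * S := by
    refine (abs_sub _ _).trans ?_
    rw [abs_mul, abs_mul, abs_mul, abs_of_pos (by positivity : (0 : ℝ) < q), abs_of_pos (by positivity : (0 : ℝ) < q')]
    have h8 : (q' : ℝ) * |ξ| * |q * (t + ξ) - p| ≤ M * (q' * |q * (t + ξ) - p|) := by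
      have : 0 ≤ (q' : ℝ) * |q * (t + ξ) - p| := by positivity
      nlinarith
    have h9 : (q : ℝ) * |q' * (t * ξ) - p'| ≤ M * (q * |q' * (t * ξ) - p'|) := by
      have : 0 ≤ (q : ℝ) * |q' * (t * ξ) - p'| := by positivity
      nlinarith
    rw [hS]
    linarith
  rw [e1] at h6
  have h8 := h6.trans (mul_le_mul_of_nonneg_left h7 (by positivity))
  rw [Real.mul_rpow (by positivity) (by positivity)] at h8
  refine (min_le_right _ _).trans ?_
  rw [div_le_iff₀ (by positivity)]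
  linarith

theorem sep_sp {ξ : ℝ} (hξ : QuadM ξ) (t : ℝ) : SepE 2 (sp ξ t) := by
  intro j k hjk ε hε
  obtain ⟨c, hc, h⟩ := sp_key hξ t ε hε
  refine ⟨c, hc, fun q q' p p' hq hq' => ?_⟩
  fin_cases j <;> fin_cases k
  · exact absurd rfl hjk
  · exact h q q' p p' hq hq'
  · have h1 := h q' q p' p hq' hq
    have e1 : (q' : ℝ) * q = q * q' := mul_comm _ _
    rw [e1] at h1
    show c ≤ ((q : ℝ) * q') ^ (2 + ε) * (q' * |q * (t * ξ) - p| + q * |q' * (t + ξ) - p'|)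
    linarith
  · exact absurd rfl hjk

theorem sp_irr0 {ξ : ℝ} (hξ : QuadM ξ) {τ : ℝ} {q : ℕ} {p : ℤ} (hq : 1 ≤ q) (h : (q : ℝ) * (τ + ξ) = p) :
    Irrational ((q : ℝ) * (τ * ξ)) := by
  have e1 : (q : ℝ) * (τ * ξ) = p * ξ - q * ξ ^ 2 := by rw [← h]; ring
  rw [e1]
  rintro ⟨z, hz⟩
  have h1 : (z.den : ℝ) * z = z.num := by exact_mod_cast z.den_mul_eq_num
  have hd : (z.den : ℤ) ≠ 0 := by exact_mod_cast z.den_nz
  refine hξ.ne (a := -z.num) (b := z.den * p) (d := -(z.den * q)) ?_ ?_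
  · rintro ⟨-, -, h2⟩
    rw [neg_eq_zero] at h2
    rcases mul_eq_zero.1 h2 with h3 | h3
    · exact hd h3
    · omega
  · push_cast
    rw [← h1, hz]
    ring

theorem sp_irr1 {ξ : ℝ} (hξ : QuadM ξ) {τ : ℝ} {q : ℕ} {p : ℤ} (hq : 1 ≤ q) (h : (q : ℝ) * (τ * ξ) = p) :
    Irrational ((q : ℝ) * (τ + ξ)) := by
  rintro ⟨z, hz⟩
  have h1 : (z.den : ℝ) * z = z.num := by exact_mod_cast z.den_mul_eq_num
  have hd : (z.den : ℤ) ≠ 0 := by exact_mod_cast z.den_nz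
  refine hξ.ne (a := z.den * p) (b := -z.num) (d := z.den * q) ?_ ?_
  · rintro ⟨-, -, h2⟩
    rcases mul_eq_zero.1 h2 with h3 | h3
    · exact hd h3
    · omega
  · push_cast
    rw [← h1, hz, ← h]
    ring

/-- **Construction of `t`.** -/
theorem exists_sp {ξ : ℝ} (hξ : QuadM ξ) {α β : ℝ} (hαβ : α < β) :
    ∃ t : ℝ, α < t ∧ t < β ∧ (∀ j, Irrational (sp ξ t j)) ∧
      ∀ w : ℝ, 2 ≤ w → 2 / w ≤ lowerDensity (ratScales (sp ξ t) w) := by
  have hξ0 : ξ ≠ 0 := by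
    rintro rfl
    refine hξ.ne (a := 0) (b := 1) (d := 0) (by omega) (by simp)
  have hξp : 0 < |ξ| := abs_pos.2 hξ0
  obtain ⟨M, hM⟩ : ∃ M : ℝ, M = max |ξ| 1 := ⟨_, rfl⟩
  have hM1 : 1 ≤ M := by rw [hM]; exact le_max_right _ _
  have hMξ : |ξ| ≤ M := by rw [hM]; exact le_max_left _ _
  obtain ⟨C, hC⟩ : ∃ C : ℝ, C = max |ξ|⁻¹ 1 := ⟨_, rfl⟩
  have hC1 : 1 ≤ C := by rw [hC]; exact le_max_right _ _
  have hCξ : |ξ|⁻¹ ≤ C := by rw [hC]; exact le_max_left _ _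
  obtain ⟨y, hy1, hy2⟩ := exists_rat_btwn (show α + ξ < β + ξ by linarith)
  refine exists_t_famK (Θ := fun j t => sp ξ t j) (α := α) (β := β) (M := M) (C := C) (b := 1) (K := 3) le_rfl
    (by linarith) (by linarith) (fun j s t => ?_) (fun j s t h => ?_) (fun t _ _ j k hjk => ?_) 0 (y - ξ)
    (by linarith) (by linarith) y.den y.num y.pos ?_ ?_
  · fin_cases j
    · show |s + ξ - (t + ξ)| ≤ M * |s - t|
      rw [add_sub_add_right_eq_sub]
      nlinarith [abs_nonneg (s - t)]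
    · show |s * ξ - t * ξ| ≤ M * |s - t|
      rw [← sub_mul, abs_mul]
      nlinarith [abs_nonneg (s - t)]
  · fin_cases j
    · have h' : s + ξ = t + ξ := h
      linarith
    · have h' : s * ξ = t * ξ := h
      exact mul_right_cancel₀ hξ0 h'
  · obtain ⟨c, hc, h⟩ := sep_sp hξ t j k hjk 1 one_pos
    refine ⟨c, hc, fun q q' p p' hq hq' => ?_⟩
    have h1 := h q q' p p' hq hq'
    have e1 : ((q : ℝ) * q') ^ ((2 : ℝ) + 1) = ((q : ℝ) * q') ^ 3 := by
      rw [← Real.rpow_natCast]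
      norm_num
    rwa [e1] at h1
  · show (y.den : ℝ) * (y - ξ + ξ) = y.num
    have : (y.den : ℝ) * y = y.num := by exact_mod_cast y.den_mul_eq_num
    rw [← this]
    ring
  · intro j τ q p _ _ hq hp N
    have hqr : (1 : ℝ) ≤ q := by exact_mod_cast hq
    fin_cases j
    · -- from the sum to the product
      have hp' : (q : ℝ) * (τ + ξ) = p := hp
      have hir := sp_irr0 hξ hq hp'
      obtain ⟨P, Q, hNQ, hQ1, hPQ⟩ := exists_approx hir N
      have hQr : (1 : ℝ) ≤ Q := by exact_mod_cast hQ1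
      have hdiff : (P : ℝ) / (q * Q * ξ) - τ = -((Q : ℝ) * (q * (τ * ξ)) - P) / (q * Q * ξ) := by
        field_simp
        ring
      refine ⟨1, P / (q * Q * ξ), P, Q, hNQ, hQ1, ?_, ?_, ?_⟩
      · show ((1 * q * Q : ℕ) : ℝ) * (P / (q * Q * ξ) * ξ) = P
        push_cast
        field_simp
      · intro h
        rw [h, sub_self, eq_comm, div_eq_zero_iff, neg_eq_zero, sub_eq_zero] at hdiff
        rcases hdiff with h1 | h1
        · exact (hir.natCast_mul (show Q ≠ 0 by omega)).ne_int P h1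
        · have : (q : ℝ) * Q * ξ ≠ 0 := by positivity
          exact this h1
      · rw [hdiff, abs_div, abs_neg, abs_mul, abs_of_pos (by positivity : (0 : ℝ) < q * Q),
          div_le_div_iff₀ (by positivity) (by positivity)]
        have h1 : |(Q : ℝ) * (q * (τ * ξ)) - P| * Q ≤ 1 := by
          rw [lt_div_iff₀ (by linarith)] at hPQ
          exact hPQ.le
        have h2 : 1 ≤ C * |ξ| := by
          have := mul_le_mul_of_nonneg_right hCξ hξp.le
          rwa [inv_mul_cancel₀ hξp.ne'] at this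
        calc |(Q : ℝ) * (q * (τ * ξ)) - P| * (Q : ℝ) ^ 2 = (|(Q : ℝ) * (q * (τ * ξ)) - P| * Q) * Q := by ring
          _ ≤ 1 * Q := by gcongr
          _ ≤ (C * |ξ|) * (q * Q) := by
              apply mul_le_mul h2 _ (by positivity) (by positivity)
              nlinarith
          _ = C * (q * Q * |ξ|) := by ring
    · -- from the product to the sum
      have hp' : (q : ℝ) * (τ * ξ) = p := hp
      have hir := sp_irr1 hξ hq hp'
      obtain ⟨P, Q, hNQ, hQ1, hPQ⟩ := exists_approx hir N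
      have hQr : (1 : ℝ) ≤ Q := by exact_mod_cast hQ1
      have hdiff : (P : ℝ) / (q * Q) - ξ - τ = -((Q : ℝ) * (q * (τ + ξ)) - P) / (q * Q) := by
        field_simp
        ring
      refine ⟨0, P / (q * Q) - ξ, P, Q, hNQ, hQ1, ?_, ?_, ?_⟩
      · show ((1 * q * Q : ℕ) : ℝ) * (P / (q * Q) - ξ + ξ) = P
        push_cast
        field_simp
        ring
      · intro h
        rw [h, sub_self, eq_comm, div_eq_zero_iff, neg_eq_zero, sub_eq_zero] at hdiff
        rcases hdiff with h1 | h1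
        · exact (hir.natCast_mul (show Q ≠ 0 by omega)).ne_int P h1
        · have : (q : ℝ) * Q ≠ 0 := by positivity
          exact this h1
      · rw [hdiff, abs_div, abs_neg, abs_of_pos (by positivity : (0 : ℝ) < q * Q),
          div_le_div_iff₀ (by positivity) (by positivity)]
        have h1 : |(Q : ℝ) * (q * (τ + ξ)) - P| * Q ≤ 1 := by
          rw [lt_div_iff₀ (by linarith)] at hPQ
          exact hPQ.le
        calc |(Q : ℝ) * (q * (τ + ξ)) - P| * (Q : ℝ) ^ 2 = (|(Q : ℝ) * (q * (τ + ξ)) - P| * Q) * Q := by ring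
          _ ≤ 1 * Q := by gcongr
          _ ≤ C * (q * Q) := by
              apply mul_le_mul hC1 _ (by positivity) (by positivity)
              nlinarith

end Pool.Agent.H595.Dens
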