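import Pool.Agent.H595.Dens.Fin

/-!
# Multiplication of all numbers by a constant
-/

set_option autoImplicit false

namespace Pool.Agent.H595.Dens

open MeasureTheory Filter Topology Set

theorem lowerDensity_mono {S S' : Set ℝ} {B : ℝ} (h : ∀ x ∈ S, B ≤ x → x ∈ S') :
    lowerDensity S ≤ lowerDensity S' := by
  apply le_lowerDensity
  intro η hη
  obtain ⟨B', hB', hB0⟩ : ∃ B' : ℝ, B ≤ B' ∧ 0 ≤ B' := ⟨max B 0, le_max_left _ _, le_max_right _ _⟩
  have h1 : ∀ᶠ T : ℝ in atTop, lowerDensity S - η / 2 < (volume (S ∩ Icc 0 T)).toReal / T := by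
    apply eventually_lt_of_lt_liminf _ (bdd_below S)
    show lowerDensity S - η / 2 < lowerDensity S
    linarith
  obtain ⟨T₀, hT₀⟩ := eventually_atTop.1 h1
  refine ⟨max (max T₀ 1) (2 * B' / η), fun T hT => ?_⟩
  have hT1 : T₀ ≤ T := ((le_max_left _ _).trans (le_max_left _ _)).trans hT
  have hT2 : 1 ≤ T := ((le_max_right _ _).trans (le_max_left _ _)).trans hT
  have hT3 : 2 * B' / η ≤ T := (le_max_right _ _).trans hT
  rw [div_le_iff₀' hη] at hT3
  have h2 := hT₀ T hT1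
  rw [lt_div_iff₀ (by linarith)] at h2
  have h3 : S ∩ Icc 0 T ⊆ (S' ∩ Icc 0 T) ∪ Icc 0 B' := by
    rintro y ⟨hy, hy0, hyT⟩
    by_cases hyB : B' ≤ y
    · exact Or.inl ⟨h y hy (hB'.trans hyB), hy0, hyT⟩
    · exact Or.inr ⟨hy0, (not_le.1 hyB).le⟩
  have h4 : volume (S ∩ Icc 0 T) ≤ volume (S' ∩ Icc 0 T) + ENNReal.ofReal (B' - 0) := by
    refine (measure_mono h3).trans ((measure_union_le _ _).trans ?_)
    rw [Real.volume_Icc]
  have h5 := ENNReal.toReal_mono (by
    rw [Ne, ENNReal.add_eq_top, not_or]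
    exact ⟨vol_ne_top S' T, ENNReal.ofReal_ne_top⟩) h4
  rw [ENNReal.toReal_add (vol_ne_top S' T) ENNReal.ofReal_ne_top, sub_zero, ENNReal.toReal_ofReal hB0] at h5
  linarith

theorem nearScales_smul {ι : Type*} [Fintype ι] {θ : ι → ℝ} {c w w' : ℝ} (hc : c ≠ 0) (hw : w' < w) :
    ∃ B : ℝ, ∀ x ∈ nearScales (fun i => c * θ i) w, B ≤ x → x ∈ nearScales θ w' := by
  refine ⟨-Real.log |c| / (w - w'), ?_⟩
  rintro x ⟨v, hv, h1, h2⟩ hx
  refine ⟨v, hv, h1, ?_⟩
  have hc' : 0 < |c| := abs_pos.2 hc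
  have e1 : ∑ i, (v i : ℝ) * (c * θ i) = c * ∑ i, (v i : ℝ) * θ i := by
    rw [Finset.mul_sum]
    exact Finset.sum_congr rfl (fun i _ => by ring)
  rw [e1, abs_mul, ← Real.exp_mul, ← le_div_iff₀' hc'] at h2
  refine h2.trans ?_
  rw [← Real.exp_mul, div_le_iff₀' hc']
  rw [div_le_iff₀ (by linarith)] at hx
  calc Real.exp (x * -w) = Real.exp (x * -w) := rfl
    _ ≤ Real.exp (Real.log |c| + x * -w') := by
        apply Real.exp_le_exp.2
        linarith
    _ = |c| * Real.exp (x * -w') := by rw [Real.exp_add, Real.exp_log hc']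

theorem lowerDensity_smul {ι : Type*} [Fintype ι] {θ : ι → ℝ} {c w w' : ℝ} (hc : c ≠ 0) (hw : w' < w) :
    lowerDensity (nearScales (fun i => c * θ i) w) ≤ lowerDensity (nearScales θ w') := by
  obtain ⟨B, hB⟩ := nearScales_smul (θ := θ) hc hw
  exact lowerDensity_mono hB

theorem lowerDensity_smul' {ι : Type*} [Fintype ι] {θ : ι → ℝ} {c w w' : ℝ} (hc : c ≠ 0) (hw : w' < w) :
    lowerDensity (nearScales θ w) ≤ lowerDensity (nearScales (fun i => c * θ i) w') := by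
  have h := lowerDensity_smul (θ := fun i => c * θ i) (c := c⁻¹) (inv_ne_zero hc) hw
  have e1 : (fun i => c⁻¹ * (c * θ i)) = θ := by
    funext i
    rw [← mul_assoc, inv_mul_cancel₀ hc, one_mul]
  rwa [e1] at h

/-- the upper bound after the multiplication -/
theorem smul_upper {ι : Type*} [Fintype ι] {θ : ι → ℝ} {c w₀ w : ℝ} {F : ℝ → ℝ} (hc : c ≠ 0)
    (hF : ContinuousAt F w) (h : ∀ w, w₀ < w → lowerDensity (nearScales θ w) ≤ F w) (hw : w₀ < w) :
    lowerDensity (nearScales (fun i => c * θ i) w) ≤ F w := by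
  apply ge_of_tendsto (hF.tendsto.mono_left (nhdsWithin_le_nhds (s := Set.Iio w)))
  filter_upwards [Ioo_mem_nhdsLT hw] with y hy
  exact (lowerDensity_smul hc hy.2).trans (h y hy.1)

/-- the lower bound after the multiplication -/
theorem smul_lower {ι : Type*} [Fintype ι] {θ : ι → ℝ} {c w₀ w : ℝ} {F : ℝ → ℝ} (hc : c ≠ 0)
    (hF : ContinuousAt F w) (h : ∀ w, w₀ ≤ w → F w ≤ lowerDensity (nearScales θ w)) (hw : w₀ ≤ w) :
    F w ≤ lowerDensity (nearScales (fun i => c * θ i) w) := by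
  apply le_of_tendsto (hF.tendsto.mono_left (nhdsWithin_le_nhds (s := Set.Ioi w)))
  filter_upwards [self_mem_nhdsWithin] with y hy
  exact (h y (hw.trans (le_of_lt hy))).trans (lowerDensity_smul' hc hy)

end Pool.Agent.H595.Dens
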