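import Pool.Agent.H595.Dens.AlgF
import Pool.Agent.H595.Dens.SP
import Pool.Agent.H595.Dens.Scale

/-!
# Rational approximations and algebraic approximations; examples
-/

set_option autoImplicit false

namespace Pool.Agent.H595.Alg

open Polynomial MeasureTheory Filter Topology Set Pool.Agent.H595.Dens Pool.Agent.V11210.EP

theorem lowerDensity_shift {S S' : Set ℝ} {s B : ℝ} (hs : 0 ≤ s) (h : ∀ x ∈ S, B ≤ x → x + s ∈ S') :
    lowerDensity S ≤ lowerDensity S' := by
  apply le_lowerDensity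
  intro η hη
  obtain ⟨B', hB', hB0⟩ : ∃ B' : ℝ, B ≤ B' ∧ 0 ≤ B' := ⟨max B 0, le_max_left _ _, le_max_right _ _⟩
  have h1 : ∀ᶠ T : ℝ in atTop, lowerDensity S - η / 2 < (volume (S ∩ Icc 0 T)).toReal / T := by
    apply eventually_lt_of_lt_liminf _ (bdd_below S)
    show lowerDensity S - η / 2 < lowerDensity S
    linarith
  obtain ⟨T₀, hT₀⟩ := eventually_atTop.1 h1
  refine ⟨max (max T₀ (max 1 s)) (2 * (B' + s) / η), fun T hT => ?_⟩
  have hT1 : T₀ ≤ T := ((le_max_left _ _).trans (le_max_left _ _)).trans hT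
  have hT2 : max 1 s ≤ T := ((le_max_right _ _).trans (le_max_left _ _)).trans hT
  have hT2' : 1 ≤ T := (le_max_left _ _).trans hT2
  have hT3 : 2 * (B' + s) / η ≤ T := (le_max_right _ _).trans hT
  rw [div_le_iff₀' hη] at hT3
  have h2 := hT₀ T hT1
  rw [lt_div_iff₀ (by linarith)] at h2
  have h3 : S ∩ Icc 0 T ⊆ ((fun y => y + s) ⁻¹' (S' ∩ Icc 0 T)) ∪ (Icc 0 B' ∪ Icc (T - s) T) := by
    rintro y ⟨hy, hy0, hyT⟩
    by_cases hyB : B' ≤ y
    · by_cases hyT' : y + s ≤ T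
      · exact Or.inl ⟨h y hy (hB'.trans hyB), by
          show 0 ≤ y + s
          linarith, hyT'⟩
      · exact Or.inr (Or.inr ⟨by linarith [not_le.1 hyT'], hyT⟩)
    · exact Or.inr (Or.inl ⟨hy0, (not_le.1 hyB).le⟩)
  have h4 : volume (S ∩ Icc 0 T) ≤ volume (S' ∩ Icc 0 T) + ENNReal.ofReal (B' + s) := by
    refine (measure_mono h3).trans ((measure_union_le _ _).trans ?_)
    rw [measure_preimage_add_right]
    gcongr
    refine (measure_union_le _ _).trans ?_
    rw [Real.volume_Icc, Real.volume_Icc, ← ENNReal.ofReal_add (by linarith) (by linarith)]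
    apply ENNReal.ofReal_le_ofReal
    linarith
  have h5 := ENNReal.toReal_mono (by
    rw [Ne, ENNReal.add_eq_top, not_or]
    exact ⟨vol_ne_top S' T, ENNReal.ofReal_ne_top⟩) h4
  rw [ENNReal.toReal_add (vol_ne_top S' T) ENNReal.ofReal_ne_top, ENNReal.toReal_ofReal (by linarith)] at h5
  linarith

/-- the polynomial of a rational number -/
theorem ratPol (p q : ℤ) (hq : 1 ≤ q) : ∃ B : ℤ[X], Irreducible B ∧ B.natDegree = 1 ∧
    aeval (((p : ℝ) / q : ℝ) : ℂ) B = 0 ∧ ∀ i, |(B.coeff i : ℝ)| ≤ max |(p : ℝ)| q := by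
  obtain ⟨g, hg⟩ : ∃ g : ℤ, g = Int.gcd p q := ⟨_, rfl⟩
  have hg0 : 0 < g := by
    rw [hg]
    exact_mod_cast Int.gcd_pos_of_ne_zero_right p (by omega)
  obtain ⟨p₁, hp₁⟩ : g ∣ p := by rw [hg]; exact Int.gcd_dvd_left ..
  obtain ⟨q₁, hq₁⟩ : g ∣ q := by rw [hg]; exact Int.gcd_dvd_right ..
  have hq₁0 : 0 < q₁ := by
    by_contra h
    have : g * q₁ ≤ 0 := mul_nonpos_of_nonneg_of_nonpos hg0.le (not_lt.1 h)
    omega
  have hcop : IsCoprime p₁ q₁ := by
    rw [Int.isCoprime_iff_gcd_eq_one]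
    have h1 : Int.gcd p q = g.natAbs * Int.gcd p₁ q₁ := by
      conv_lhs => rw [hp₁, hq₁]
      exact Int.gcd_mul_left ..
    have h2 : g.natAbs = Int.gcd p q := by rw [hg]; rfl
    rw [← h2] at h1
    have h3 : 0 < g.natAbs := by omega
    have h4 : g.natAbs * Int.gcd p₁ q₁ = g.natAbs * 1 := by omega
    exact Nat.eq_of_mul_eq_mul_left h3 h4
  refine ⟨C q₁ * X + C (-p₁), irreducible_C_mul_X_add_C hq₁0.ne' ?_, natDegree_linear hq₁0.ne', ?_, fun i => ?_⟩
  · exact (hcop.symm.neg_right).isRelPrime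
  · have hq₁' : (q₁ : ℂ) ≠ 0 := by exact_mod_cast hq₁0.ne'
    have hg' : (g : ℂ) ≠ 0 := by exact_mod_cast hg0.ne'
    rw [map_add, map_mul, aeval_C, aeval_X, aeval_C, hp₁, hq₁]
    push_cast
    simp only [algebraMap_int_eq, eq_intCast]
    push_cast
    field_simp
    ring
  · have hgR : (1 : ℝ) ≤ g := by exact_mod_cast hg0
    have hqR : (0 : ℝ) < q₁ := by exact_mod_cast hq₁0
    rw [coeff_add, coeff_C_mul_X, coeff_C]
    rcases Nat.lt_or_ge i 1 with h | h
    · have : i = 0 := by omega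
      subst this
      have e1 : |(((if 0 = 1 then q₁ else 0) + (if 0 = 0 then -p₁ else 0) : ℤ) : ℝ)| = |(p₁ : ℝ)| := by simp
      rw [e1]
      refine le_trans ?_ (le_max_left _ _)
      rw [hp₁]
      push_cast
      rw [abs_mul, abs_of_pos (by linarith : (0 : ℝ) < g)]
      have := abs_nonneg (p₁ : ℝ)
      nlinarith
    · rcases Nat.lt_or_ge i 2 with h' | h'
      · have : i = 1 := by omega
        subst this
        have e1 : |(((if 1 = 1 then q₁ else 0) + (if 1 = 0 then -p₁ else 0) : ℤ) : ℝ)| = (q₁ : ℝ) := by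
          simp [abs_of_pos hqR]
        rw [e1]
        refine le_trans ?_ (le_max_right _ _)
        rw [hq₁]
        push_cast
        nlinarith
      · rw [if_neg (by omega), if_neg (by omega)]
        simp only [add_zero, Int.cast_zero, abs_zero]
        exact (abs_nonneg _).trans (le_max_left _ _)

theorem hgt_bound {y : ℝ} {p q : ℤ} (hq : 1 ≤ q) (h : |q * y - p| ≤ 1) :
    max |(p : ℝ)| q ≤ (|y| + 1) * q := by
  have hq' : (1 : ℝ) ≤ q := by exact_mod_cast hq
  apply max_le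
  · have h1 : (p : ℝ) = q * y - (q * y - p) := by ring
    have h2 := abs_sub (q * y) (q * y - p)
    rw [← h1, abs_mul, abs_of_pos (by linarith : (0 : ℝ) < q)] at h2
    linarith
  · have := abs_nonneg y
    nlinarith

theorem dist_rat {y : ℝ} {p q : ℤ} (hq : 1 ≤ q) : ‖(y : ℂ) - (((p : ℝ) / q : ℝ) : ℂ)‖ ≤ |q * y - p| := by
  have hq' : (1 : ℝ) ≤ q := by exact_mod_cast hq
  rw [← Complex.ofReal_sub, Complex.norm_real, Real.norm_eq_abs]
  have h1 : q * y - p = q * (y - p / q) := by field_simp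
  rw [h1, abs_mul, abs_of_pos (by linarith : (0 : ℝ) < q)]
  have := abs_nonneg (y - (p : ℝ) / q)
  nlinarith

/-- rational approximations are algebraic approximations -/
theorem near_rat {d : ℕ} (hd : 1 ≤ d) (y : ℝ) {w w' : ℝ} (hw' : 0 ≤ w') (hw : w' < w) :
    ∃ B : ℝ, ∀ x, B ≤ x → ∀ p q : ℤ, 1 ≤ q → (q : ℝ) ≤ Real.exp x → |q * y - p| ≤ Real.exp x ^ (-w) →
      ∀ s, Real.log (|y| + 1) ≤ s → w' * s ≤ (w - w') * x → NearAlg d y w' (Real.exp (x + s)) := by
  refine ⟨0, fun x hx p q hq h1 h2 s hs hs' => ?_⟩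
  have hq' : (1 : ℝ) ≤ q := by exact_mod_cast hq
  have hy := abs_nonneg y
  rw [← Real.exp_mul] at h2
  have h3 : |q * y - p| ≤ 1 := by
    refine h2.trans ?_
    rw [← Real.exp_zero]
    apply Real.exp_le_exp.2
    have : 0 ≤ x * w := mul_nonneg hx (by linarith)
    linarith
  obtain ⟨B, hB1, hB2, hB3, hB4⟩ := ratPol p q hq
  refine ⟨_, B, hB1, by omega, fun i => (hB4 i).trans ((hgt_bound hq h3).trans ?_), hB3, ?_⟩
  · rw [Real.exp_add, mul_comm]
    gcongr
    rw [← Real.exp_log (by linarith : (0 : ℝ) < |y| + 1)]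
    exact Real.exp_le_exp.2 hs
  · refine (dist_rat hq).trans (h2.trans ?_)
    rw [← Real.exp_mul]
    apply Real.exp_le_exp.2
    linarith

theorem rat_le_alg {K J : Type*} [Fintype K] {d : ℕ} (hd : 1 ≤ d) {θ' : K → ℝ} {θ : J → ℝ} (f : K → J)
    (hf : ∀ k, θ' k = θ (f k)) {w w' : ℝ} (hw' : 0 ≤ w') (hw : w' < w) :
    lowerDensity (ratScales θ' w) ≤ lowerDensity (algScales d θ w') := by
  obtain ⟨s, hs⟩ : ∃ s : ℝ, s = ∑ k, Real.log (|θ' k| + 1) := ⟨_, rfl⟩
  have hlog : ∀ k, 0 ≤ Real.log (|θ' k| + 1) := fun k => Real.log_nonneg (by linarith [abs_nonneg (θ' k)])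
  have hs0 : 0 ≤ s := by rw [hs]; exact Finset.sum_nonneg fun k _ => hlog k
  have hww : 0 < w - w' := by linarith
  refine lowerDensity_shift (s := s) (B := max 0 (w' * s / (w - w'))) hs0 ?_
  rintro x ⟨k, p, q, hq, h1, h2⟩ hx
  refine ⟨f k, ?_⟩
  rw [← hf]
  obtain ⟨B, hB⟩ := near_rat hd (θ' k) hw' hw
  have hx2 : w' * s / (w - w') ≤ x := (le_max_right _ _).trans hx
  rw [div_le_iff₀' hww] at hx2
  have hx0 : 0 ≤ x := (le_max_left _ _).trans hx
  have hq' : (1 : ℝ) ≤ q := by exact_mod_cast hq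
  have hy := abs_nonneg (θ' k)
  have hsk : Real.log (|θ' k| + 1) ≤ s := by
    rw [hs]
    exact Finset.single_le_sum (f := fun k => Real.log (|θ' k| + 1)) (fun k _ => hlog k) (Finset.mem_univ k)
  rw [← Real.exp_mul] at h2
  have h3 : |q * θ' k - p| ≤ 1 := by
    refine h2.trans ?_
    rw [← Real.exp_zero]
    apply Real.exp_le_exp.2
    have : 0 ≤ x * w := mul_nonneg hx0 (by linarith)
    linarith
  obtain ⟨B, hB1, hB2, hB3, hB4⟩ := ratPol p q hq
  refine ⟨_, B, hB1, by omega, fun i => (hB4 i).trans ((hgt_bound hq h3).trans ?_), hB3, ?_⟩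
  · rw [Real.exp_add, mul_comm]
    gcongr
    rw [← Real.exp_log (by linarith : (0 : ℝ) < |θ' k| + 1)]
    exact Real.exp_le_exp.2 hsk
  · refine (dist_rat hq).trans (h2.trans ?_)
    rw [← Real.exp_mul]
    apply Real.exp_le_exp.2
    linarith

/-- numbers with a measure of irrationality -/
theorem bdd_of_measure {K : Type*} {θ : K → ℝ} {E c w : ℝ} (hE : 0 ≤ E) (hc : 0 < c)
    (h : ∀ k, ∀ p q : ℤ, 1 ≤ q → c ≤ (q : ℝ) ^ E * |q * θ k - p|) (hw : E < w) :
    lowerDensity (ratScales θ w) = 0 := by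
  apply lowerDensity_of_bdd (B := -Real.log c / (w - E))
  rintro x ⟨k, p, q, hq, h1, h2⟩
  have hq' : (1 : ℝ) ≤ q := by exact_mod_cast hq
  have h3 := h k p q hq
  rw [le_div_iff₀ (by linarith)]
  have h4 : c ≤ Real.exp x ^ E * Real.exp x ^ (-w) := by
    refine h3.trans ?_
    gcongr
  rw [← Real.exp_mul, ← Real.exp_mul, ← Real.exp_add] at h4
  have h5 := Real.log_le_log hc h4
  rw [Real.log_exp] at h5
  linarith

/-- an irrational algebraic number has a measure of irrationality -/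
theorem meas_same {D : ℕ} {y : ℝ} (hy : Irrational y) (h : ¬ NotAlg D y) :
    ∃ E c : ℝ, 0 ≤ E ∧ 0 < c ∧ ∀ p q : ℤ, 1 ≤ q → c ≤ (q : ℝ) ^ E * |q * y - p| := by
  rw [NotAlg] at h
  push Not at h
  obtain ⟨P, hP0, -, hP⟩ := h
  obtain ⟨A, hA, h1⟩ := Liouville.exists_pos_real_of_irrational_root hy hP0 (by
    rw [eval_map_algebraMap]
    exact hP)
  refine ⟨P.natDegree, 1 / A, Nat.cast_nonneg _, by positivity, fun p q hq => ?_⟩
  obtain ⟨n, hn⟩ : ∃ n : ℕ, q = ((n + 1 : ℕ) : ℤ) := ⟨(q - 1).toNat, by omega⟩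
  have h2 := h1 p n
  have hq' : (1 : ℝ) ≤ q := by exact_mod_cast hq
  have hqn : (q : ℝ) = n + 1 := by rw [hn]; push_cast; ring
  rw [Real.rpow_natCast, div_le_iff₀ hA]
  have h3 : |y - p / q| ≤ |q * y - p| := by
    have h1 : q * y - p = q * (y - p / q) := by field_simp
    rw [h1, abs_mul, abs_of_pos (by linarith : (0 : ℝ) < q)]
    have := abs_nonneg (y - (p : ℝ) / q)
    nlinarith
  rw [← hqn] at h2
  calc (1 : ℝ) ≤ (q : ℝ) ^ P.natDegree * (|y - p / q| * A) := h2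
    _ ≤ (q : ℝ) ^ P.natDegree * (|q * y - p| * A) := by gcongr
    _ = _ := by ring

/-- a number which is separated from an algebraic number has a measure of irrationality -/
theorem meas_diff {D : ℕ} (hD : 1 ≤ D) {E u v : ℝ} (hE : 0 ≤ E) (hsep : Sep2 D E u v) (A : Pol D)
    (hA : aeval u A.1 = 0) :
    ∃ E' c : ℝ, 0 ≤ E' ∧ 0 < c ∧ ∀ p q : ℤ, 1 ≤ q → c ≤ (q : ℝ) ^ E' * |q * v - p| := by
  obtain ⟨c, hc, h⟩ := hsep 1 one_pos
  have hA1 := hgt_pos A
  have hv := abs_nonneg v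
  obtain ⟨G, hG⟩ : ∃ G : ℝ, G = (hgt A.1 : ℝ) * (|v| + 1) := ⟨_, rfl⟩
  have hG1 : 1 ≤ G := by rw [hG]; nlinarith
  refine ⟨E + 1, min 1 (c / G ^ (E + 1)), by linarith, lt_min one_pos (by positivity), fun p q hq => ?_⟩
  have hq' : (1 : ℝ) ≤ q := by exact_mod_cast hq
  have hqE : 1 ≤ (q : ℝ) ^ (E + 1) := Real.one_le_rpow hq' (by linarith)
  rcases le_or_gt |q * v - p| 1 with h1 | h1
  · obtain ⟨B, hB1, hB2, hB3, hB4⟩ := ratPol p q hq
    have h2 := h A ⟨B, hB1, by omega, by omega⟩ u _ (by rw [cast_aeval, hA, Complex.ofReal_zero]) hB3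
    rw [sub_self, norm_zero, zero_add] at h2
    have h3 : (hgt B : ℝ) ≤ (|v| + 1) * q := hgt_le (by positivity) (fun i => (hB4 i).trans (hgt_bound hq h1))
    have h4 : (hgt A.1 : ℝ) * hgt B ≤ G * q := by
      rw [hG]
      calc (hgt A.1 : ℝ) * hgt B ≤ (hgt A.1 : ℝ) * ((|v| + 1) * q) := by gcongr
        _ = _ := by ring
    refine (min_le_right _ _).trans ?_
    rw [div_le_iff₀ (by positivity)]
    calc c ≤ ((hgt A.1 : ℝ) * hgt B) ^ (E + 1) * ‖(v : ℂ) - (((p : ℝ) / q : ℝ) : ℂ)‖ := h2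
      _ ≤ (G * q) ^ (E + 1) * |q * v - p| := by
          gcongr
          exact dist_rat hq
      _ = _ := by
          rw [Real.mul_rpow (by linarith) (by linarith)]
          ring
  · refine (min_le_left _ _).trans ?_
    nlinarith

/-- an irreducible polynomial of an algebraic number -/
theorem exists_pol {D : ℕ} {y : ℝ} (h : ¬ NotAlg D y) : ∃ A : Pol D, aeval y A.1 = 0 := by
  rw [NotAlg] at h
  push Not at h
  obtain ⟨P, hP0, hPd, hP⟩ := h
  obtain ⟨s, hs1, u, hs2⟩ := WfDvdMonoid.exists_factors P hP0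
  have h1 : aeval y (s.prod * (u : ℤ[X])) = 0 := by rw [hs2]; exact hP
  rw [map_mul, mul_eq_zero] at h1
  have h2 : aeval y s.prod = 0 := by
    refine h1.resolve_right (fun h3 => ?_)
    obtain ⟨r, hr, hr'⟩ := Polynomial.isUnit_iff.1 u.isUnit
    rw [← hr', aeval_C] at h3
    have : (r : ℝ) = 0 := by simpa using h3
    rw [Int.cast_eq_zero] at this
    rw [this] at hr
    exact not_isUnit_zero hr
  rw [map_multiset_prod, Multiset.prod_eq_zero_iff, Multiset.mem_map] at h2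
  obtain ⟨A, hA, hA0⟩ := h2
  have hdvd : A ∣ P := by
    rw [← hs2]
    exact (Multiset.dvd_prod hA).mul_right _
  refine ⟨⟨A, hs1 A hA, ?_, (natDegree_le_of_dvd hdvd hP0).trans hPd⟩, hA0⟩
  exact one_le_natDegree (hs1 A hA).ne_zero (α := (y : ℂ)) (by rw [cast_aeval, hA0, Complex.ofReal_zero])

theorem NotAlg.mono {d D : ℕ} (h : d ≤ D) {y : ℝ} (hy : NotAlg D y) : NotAlg d y :=
  fun P h0 hd => hy P h0 (hd.trans h)

theorem TransM.quad {ξ : ℝ} (hξ : TransM ξ) : QuadM ξ := by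
  intro ε hε
  obtain ⟨c, hc, h⟩ := hξ 2 ε hε
  refine ⟨c, hc, fun a b d H h0 hH ha hb hd => ?_⟩
  have hco : ∀ i, (C d * X ^ 2 + C b * X + C a : ℤ[X]).coeff i =
      if i = 0 then a else if i = 1 then b else if i = 2 then d else 0 := by
    intro i
    rw [coeff_add, coeff_add, coeff_C_mul, coeff_X_pow, coeff_C_mul, coeff_X, coeff_C]
    rcases i with _ | _ | _ | i
    · norm_num
    · norm_num
    · norm_num
    · rw [if_neg (by omega), if_neg (by omega), if_neg (by omega), if_neg (by omega), if_neg (by omega),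
        if_neg (by omega)]
      ring
  have h1 := h (C d * X ^ 2 + C b * X + C a) (fun h2 => h0 (by
      refine ⟨?_, ?_, ?_⟩
      · have := hco 0
        rw [h2] at this
        simpa using this.symm
      · have := hco 1
        rw [h2] at this
        simpa using this.symm
      · have := hco 2
        rw [h2] at this
        simpa using this.symm)) natDegree_quadratic_le H hH (fun j => by
      rw [hco]
      split_ifs
      · exact ha
      · exact hb
      · exact hd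
      · simp only [Int.cast_zero, abs_zero]
        linarith)
  have e1 : aeval ξ (C d * X ^ 2 + C b * X + C a : ℤ[X]) = a + b * ξ + d * ξ ^ 2 := by
    simp
    ring
  rw [e1] at h1
  have e2 : ((2 : ℕ) : ℝ) + ε = 2 + ε := by norm_num
  rwa [e2] at h1

/-- **Examples.** -/
theorem exists_four {ξ : ℝ} (hξ : TransM ξ) {a b : ℝ} (hab : a < b) :
    ∃ t : ℝ, a < t ∧ t < b ∧ (∀ D j, NotAlg D (fourN ξ t j)) ∧
      ∀ d : ℕ, 1 ≤ d → ∀ w : ℝ, 2 ≤ w → 2 / w ≤ lowerDensity (algScales d (sub ξ t Finset.univ) w) := by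
  have hξ0 := hξ.ne_zero
  obtain ⟨a', b', h1, h2, h3, h4⟩ : ∃ a' b' : ℝ, a' < b' ∧ a ≤ a' ∧ b' ≤ b ∧ (ξ ≤ a' ∨ b' ≤ ξ) := by
    by_cases h : ξ < b
    · exact ⟨max a ξ, b, max_lt hab h, le_max_left _ _, le_rfl, Or.inl (le_max_right _ _)⟩
    · exact ⟨a, b, hab, le_rfl, le_rfl, Or.inr (not_lt.1 h)⟩
  obtain ⟨t, ht1, ht2, hirr, hlow⟩ := exists_sp hξ.quad h1
  have htξ : t ≠ ξ := by
    rintro rfl
    rcases h4 with h | h <;> linarith
  have hirr0 : Irrational (t + ξ) := hirr 0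
  have hirr1 : Irrational (t * ξ) := hirr 1
  have ht0 : t ≠ 0 := by
    rintro rfl
    rw [zero_mul] at hirr1
    exact hirr1 ⟨0, by simp⟩
  have htξ' : t ≠ -ξ := by
    rintro rfl
    rw [neg_add_cancel] at hirr0
    exact hirr0 ⟨0, by simp⟩
  refine ⟨t, by linarith, by linarith, ?_, ?_⟩
  · intro D j
    by_contra hcon
    obtain ⟨D', hD', hDD'⟩ : ∃ D' : ℕ, 1 ≤ D' ∧ D ≤ D' := ⟨max 1 D, le_max_left _ _, le_max_right _ _⟩
    have hcon' : ¬ NotAlg D' (fourN ξ t j) := fun h => hcon (h.mono hDD')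
    obtain ⟨A, hA⟩ := exists_pol hcon'
    have key : ∀ k : Fin 4, (k = 0 ∨ k = 2) → ∃ E c : ℝ, 0 ≤ E ∧ 0 < c ∧ ∀ p q : ℤ, 1 ≤ q →
        c ≤ (q : ℝ) ^ E * |q * fourN ξ t k - p| := by
      intro k hk
      by_cases hjk : j = k
      · subst hjk
        have hirrj : Irrational (fourN ξ t j) := by
          rcases hk with h | h
          · rw [h]
            exact hirr0
          · rw [h]
            exact hirr1
        exact meas_same hirrj hcon'
      · exact meas_diff hD' (by positivity) (four_sep hD' hξ j k (fun _ => ⟨ht0, htξ, htξ'⟩) hjk 2 (by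
          rw [dl]; split_ifs <;> norm_num) (by rw [dl]; split_ifs <;> norm_num)) A hA
    obtain ⟨E₀, c₀, hE₀, hc₀, h5⟩ := key 0 (Or.inl rfl)
    obtain ⟨E₁, c₁, hE₁, hc₁, h6⟩ := key 2 (Or.inr rfl)
    have h7 : ∀ k : Fin 2, ∀ p q : ℤ, 1 ≤ q → min c₀ c₁ ≤ (q : ℝ) ^ (max E₀ E₁) * |q * sp ξ t k - p| := by
      intro k p q hq
      have hq' : (1 : ℝ) ≤ q := by exact_mod_cast hq
      fin_cases k
      · calc min c₀ c₁ ≤ c₀ := min_le_left _ _
          _ ≤ (q : ℝ) ^ E₀ * |q * fourN ξ t 0 - p| := h5 p q hq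
          _ ≤ (q : ℝ) ^ (max E₀ E₁) * |q * fourN ξ t 0 - p| := by
              gcongr
              exact le_max_left _ _
          _ = _ := rfl
      · calc min c₀ c₁ ≤ c₁ := min_le_right _ _
          _ ≤ (q : ℝ) ^ E₁ * |q * fourN ξ t 2 - p| := h6 p q hq
          _ ≤ (q : ℝ) ^ (max E₀ E₁) * |q * fourN ξ t 2 - p| := by
              gcongr
              exact le_max_right _ _
          _ = _ := rfl
    have hmax : 0 ≤ max E₀ E₁ := hE₀.trans (le_max_left _ _)
    have h8 := bdd_of_measure (w := max E₀ E₁ + 2) hmax (lt_min hc₀ hc₁) h7 (by linarith)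
    have h9 := hlow (max E₀ E₁ + 2) (by linarith)
    rw [h8] at h9
    have h10 : 0 < 2 / (max E₀ E₁ + 2) := by positivity
    linarith
  · intro d hd w hw
    have h5 : ∀ w₁, w < w₁ → 2 / w₁ ≤ lowerDensity (algScales d (sub ξ t Finset.univ) w) := by
      intro w₁ hw₁
      refine (hlow w₁ (by linarith)).trans ?_
      refine rat_le_alg hd (fun k : Fin 2 => if k = 0 then ⟨0, Finset.mem_univ _⟩ else ⟨2, Finset.mem_univ _⟩)
        (fun k => ?_) (by linarith) hw₁
      fin_cases k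
      · rfl
      · rfl
    have hc : Tendsto (fun w₁ : ℝ => 2 / w₁) (𝓝[>] w) (𝓝 (2 / w)) := by
      have : ContinuousAt (fun w₁ : ℝ => 2 / w₁) w := by
        apply ContinuousAt.div continuousAt_const continuousAt_id
        show w ≠ 0
        linarith
      exact this.tendsto.mono_left nhdsWithin_le_nhds
    apply le_of_tendsto hc
    filter_upwards [self_mem_nhdsWithin] with w₁ hw₁
    exact h5 w₁ hw₁

end Pool.Agent.H595.Alg
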