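import Pool.Agent.H595.Dens.Good
import Pool.Agent.H595.Dens.LowD

/-!
# Scales at which one of finitely many numbers is near a rational number
-/

set_option autoImplicit false

namespace Pool.Agent.H595.Dens

open MeasureTheory Filter Topology Set

variable {J : Type*}

/-- the scales `x` at which one of the numbers `θ j` is near a rational number of denominator at most `exp x` -/
def ratScales (θ : J → ℝ) (w : ℝ) : Set ℝ :=
  {x | ∃ (j : J) (p q : ℤ), 1 ≤ q ∧ (q : ℝ) ≤ Real.exp x ∧ |q * θ j - p| ≤ Real.exp x ^ (-w)}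

/-- the values -/
noncomputable def rval (θ : J → ℝ) (v : J × ℕ) : ℝ := |((v.2 + 1 : ℕ) : ℝ) * θ v.1 -
  round (((v.2 + 1 : ℕ) : ℝ) * θ v.1)|

noncomputable def rX (v : J × ℕ) : ℝ := Real.log ((v.2 + 1 : ℕ) : ℝ)

noncomputable def rL (θ : J → ℝ) (v : J × ℕ) : ℝ := -Real.log (rval θ v)

theorem rval_pos {θ : J → ℝ} (hθ : ∀ j, Irrational (θ j)) (v : J × ℕ) : 0 < rval θ v := by
  rw [rval, abs_pos, sub_ne_zero]
  have h1 : Irrational (((v.2 + 1 : ℕ) : ℝ) * θ v.1) := (hθ v.1).natCast_mul (by omega)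
  exact h1.ne_int _

theorem exp_rX (v : J × ℕ) : Real.exp (rX v) = ((v.2 + 1 : ℕ) : ℝ) :=
  Real.exp_log (by positivity)

theorem exp_rL {θ : J → ℝ} (hθ : ∀ j, Irrational (θ j)) (v : J × ℕ) : Real.exp (-rL θ v) = rval θ v := by
  rw [rL, neg_neg, Real.exp_log (rval_pos hθ v)]

theorem rX_nonneg (v : J × ℕ) : 0 ≤ rX v := Real.log_nonneg (by push_cast; linarith [v.2.cast_nonneg (α := ℝ)])

theorem finite_rX [Finite J] (B : ℝ) : {v : J × ℕ | rX v ≤ B}.Finite := by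
  have h1 : {v : J × ℕ | rX v ≤ B} ⊆ (Set.univ : Set J) ×ˢ Set.Iic ⌊Real.exp B⌋₊ := by
    rintro v hv
    refine ⟨Set.mem_univ _, ?_⟩
    rw [Set.mem_Iic, Nat.le_floor_iff (Real.exp_pos B).le]
    have h2 : Real.exp (rX v) ≤ Real.exp B := Real.exp_le_exp.2 hv
    rw [exp_rX] at h2
    push_cast at h2
    linarith
  exact (Set.finite_univ.prod (Set.finite_Iic _)).subset h1

theorem ratScales_eq {θ : J → ℝ} (hθ : ∀ j, Irrational (θ j)) (w : ℝ) :
    ratScales θ w = goodScales rX (rL θ) w := by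
  ext x
  constructor
  · rintro ⟨j, p, q, hq, h1, h2⟩
    obtain ⟨n, hn⟩ : ∃ n : ℕ, q = ((n + 1 : ℕ) : ℤ) := ⟨(q - 1).toNat, by omega⟩
    subst hn
    rw [Int.cast_natCast] at h1 h2
    refine ⟨(j, n), ?_, ?_⟩
    · rw [← Real.exp_le_exp, exp_rX]
      exact h1
    · rw [← neg_le_neg_iff, ← Real.exp_le_exp, exp_rL hθ]
      rw [← Real.exp_mul] at h2
      have e1 : x * -w = -(w * x) := by ring
      rw [e1] at h2
      exact (round_le _ p).trans h2
  · rintro ⟨⟨j, n⟩, h1, h2⟩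
    refine ⟨j, round (((n + 1 : ℕ) : ℝ) * θ j), ((n + 1 : ℕ) : ℤ), by omega, ?_, ?_⟩
    · rw [← Real.exp_le_exp, exp_rX] at h1
      rw [Int.cast_natCast]
      exact h1
    · rw [← neg_le_neg_iff, ← Real.exp_le_exp, exp_rL hθ] at h2
      rw [← Real.exp_mul, Int.cast_natCast]
      have e1 : -(w * x) = x * -w := by ring
      rw [e1] at h2
      exact h2

/-- separated numbers -/
def Sep (θ : J → ℝ) : Prop := ∀ j k, j ≠ k → ∀ ε : ℝ, 0 < ε → ∃ c : ℝ, 0 < c ∧ ∀ (q q' : ℕ) (p p' : ℤ),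
  1 ≤ q → 1 ≤ q' → c ≤ ((q : ℝ) * q') ^ (1 + ε) * (q' * |q * θ j - p| + q * |q' * θ k - p'|)

/-- two approximations of the same number -/
theorem same_bound {θ : J → ℝ} (hθ : ∀ j, Irrational (θ j)) {u v : J × ℕ} (huv : u.1 = v.1)
    (h1 : rX u < rX v) (h2 : rL θ u < rL θ v) : rL θ u ≤ rX v + Real.log 2 := by
  obtain ⟨j, n⟩ := u
  obtain ⟨k, m⟩ := v
  simp only at huv
  subst huv
  have hu := rval_pos hθ (j, n)
  have hv := rval_pos hθ (j, m)
  obtain ⟨a, ha⟩ : ∃ a : ℝ, a = ((n + 1 : ℕ) : ℝ) := ⟨_, rfl⟩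
  obtain ⟨b, hb⟩ : ∃ b : ℝ, b = ((m + 1 : ℕ) : ℝ) := ⟨_, rfl⟩
  have ha0 : 0 < a := by rw [ha]; positivity
  have hb0 : 0 < b := by rw [hb]; positivity
  have hlt : a < b := by
    rw [ha, hb]
    have := Real.exp_lt_exp.2 h1
    rwa [exp_rX, exp_rX] at this
  have hlt2 : rval θ (j, m) < rval θ (j, n) := by
    rw [← exp_rL hθ, ← exp_rL hθ]
    exact Real.exp_lt_exp.2 (by linarith)
  obtain ⟨P, hP⟩ : ∃ P : ℤ, P = round (((n + 1 : ℕ) : ℝ) * θ j) := ⟨_, rfl⟩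
  obtain ⟨P', hP'⟩ : ∃ P' : ℤ, P' = round (((m + 1 : ℕ) : ℝ) * θ j) := ⟨_, rfl⟩
  have eu : rval θ (j, n) = |a * θ j - P| := by rw [rval, hP, ha]
  have ev : rval θ (j, m) = |b * θ j - P'| := by rw [rval, hP', hb]
  have hne : ((n + 1 : ℕ) : ℤ) * P' - ((m + 1 : ℕ) : ℤ) * P ≠ 0 := by
    intro h0
    have h0' : a * P' = b * P := by
      have : (((n + 1 : ℕ) : ℤ) : ℝ) * P' - (((m + 1 : ℕ) : ℤ) : ℝ) * P = 0 := by exact_mod_cast h0
      rw [Int.cast_natCast, Int.cast_natCast, ← ha, ← hb] at this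
      linarith
    have h3 : a * rval θ (j, m) = b * rval θ (j, n) := by
      have e1 : a * (b * θ j - P') = b * (a * θ j - P) := by linear_combination -h0'
      rw [eu, ev, ← abs_of_pos ha0, ← abs_mul, abs_of_pos ha0, e1, abs_mul, abs_of_pos hb0]
    have h4 : a * rval θ (j, m) < b * rval θ (j, n) := by
      calc a * rval θ (j, m) < a * rval θ (j, n) := by gcongr
        _ < b * rval θ (j, n) := by gcongr
    linarith
  have h5 : (1 : ℝ) ≤ |a * P' - b * P| := by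
    have : (1 : ℤ) ≤ |((n + 1 : ℕ) : ℤ) * P' - ((m + 1 : ℕ) : ℤ) * P| := Int.one_le_abs hne
    have h6 : ((1 : ℤ) : ℝ) ≤ ((|((n + 1 : ℕ) : ℤ) * P' - ((m + 1 : ℕ) : ℤ) * P| : ℤ) : ℝ) := by
      exact_mod_cast this
    rw [ha, hb]
    push_cast at h6 ⊢
    exact h6
  have h6 : a * P' - b * P = b * (a * θ j - P) - a * (b * θ j - P') := by ring
  have h7 : 1 ≤ 2 * (b * rval θ (j, n)) := by
    rw [h6] at h5
    have h8 := abs_sub (b * (a * θ j - P)) (a * (b * θ j - P'))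
    rw [abs_mul, abs_mul, abs_of_pos ha0, abs_of_pos hb0, ← eu, ← ev] at h8
    have h9 : a * rval θ (j, m) ≤ b * rval θ (j, n) := by gcongr
    linarith
  have h8 := Real.log_le_log one_pos h7
  rw [Real.log_one, Real.log_mul (by norm_num) (by positivity), Real.log_mul hb0.ne' hu.ne'] at h8
  have h9 : rX (j, m) = Real.log b := by rw [rX, hb]
  rw [rL, h9]
  linarith

/-- two approximations of different numbers -/
theorem diff_bound [Finite J] {θ : J → ℝ} (hθ : ∀ j, Irrational (θ j)) (hsep : Sep θ) (ε : ℝ) (hε : 0 < ε) :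
    ∃ C : ℝ, ∀ u v : J × ℕ, u.1 ≠ v.1 → rX u < rX v → rL θ u < rL θ v →
      rL θ u ≤ (2 + ε) * rX v + (1 + ε) * rX u + C := by
  have := Fintype.ofFinite J
  have h0 : ∀ jk : J × J, ∃ c : ℝ, 0 < c ∧ (jk.1 ≠ jk.2 → ∀ (q q' : ℕ) (p p' : ℤ),
      1 ≤ q → 1 ≤ q' → c ≤ ((q : ℝ) * q') ^ (1 + ε) * (q' * |q * θ jk.1 - p| + q * |q' * θ jk.2 - p'|)) := by
    intro jk
    by_cases h : jk.1 = jk.2
    · exact ⟨1, one_pos, fun h' => absurd h h'⟩
    · obtain ⟨c, hc, h1⟩ := hsep jk.1 jk.2 h ε hε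
      exact ⟨c, hc, fun _ => h1⟩
  choose c hc h1 using h0
  refine ⟨∑ jk : J × J, |Real.log 2 - Real.log (c jk)|, fun u v huv hX hL => ?_⟩
  obtain ⟨j, n⟩ := u
  obtain ⟨k, m⟩ := v
  simp only at huv
  have hu := rval_pos hθ (j, n)
  have hv := rval_pos hθ (k, m)
  obtain ⟨a, ha⟩ : ∃ a : ℝ, a = ((n + 1 : ℕ) : ℝ) := ⟨_, rfl⟩
  obtain ⟨b, hb⟩ : ∃ b : ℝ, b = ((m + 1 : ℕ) : ℝ) := ⟨_, rfl⟩
  have ha0 : 0 < a := by rw [ha]; positivity
  have hb0 : 0 < b := by rw [hb]; positivity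
  have hlt : a < b := by
    rw [ha, hb]
    have := Real.exp_lt_exp.2 hX
    rwa [exp_rX, exp_rX] at this
  have hlt2 : rval θ (k, m) < rval θ (j, n) := by
    rw [← exp_rL hθ, ← exp_rL hθ]
    exact Real.exp_lt_exp.2 (by linarith)
  have h2 := h1 (j, k) huv (n + 1) (m + 1) (round (((n + 1 : ℕ) : ℝ) * θ j))
    (round (((m + 1 : ℕ) : ℝ) * θ k)) (by omega) (by omega)
  have h3 : c (j, k) ≤ (a * b) ^ (1 + ε) * (b * rval θ (j, n) + a * rval θ (k, m)) := by
    rw [rval, rval, ha, hb]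
    exact h2
  have h4 : b * rval θ (j, n) + a * rval θ (k, m) ≤ 2 * (b * rval θ (j, n)) := by
    have h9 : a * rval θ (k, m) ≤ b * rval θ (j, n) := by gcongr
    linarith
  have h5 := h3.trans (mul_le_mul_of_nonneg_left h4 (by positivity))
  have h6 := Real.log_le_log (hc (j, k)) h5
  rw [Real.log_mul (by positivity) (by positivity), Real.log_rpow (by positivity), Real.log_mul ha0.ne' hb0.ne',
    Real.log_mul (by norm_num) (by positivity), Real.log_mul hb0.ne' hu.ne'] at h6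
  have h7 : rX (k, m) = Real.log b := by rw [rX, hb]
  have h8 : rX (j, n) = Real.log a := by rw [rX, ha]
  have h9 : |Real.log 2 - Real.log (c (j, k))| ≤ ∑ jk : J × J, |Real.log 2 - Real.log (c jk)| :=
    Finset.single_le_sum (f := fun jk => |Real.log 2 - Real.log (c jk)|) (fun _ _ => abs_nonneg _)
      (Finset.mem_univ (j, k))
  have h10 := le_abs_self (Real.log 2 - Real.log (c (j, k)))
  rw [rL, h7, h8]
  linarith

theorem fam_bound [Finite J] {θ : J → ℝ} (hθ : ∀ j, Irrational (θ j)) (hsep : Sep θ) (ε : ℝ) (hε : 0 < ε) :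
    ∃ C : ℝ, ∀ u v : J × ℕ, rX u < rX v → rL θ u < rL θ v →
      rL θ u ≤ (2 + ε) * rX v + (1 + ε) * rX u + C := by
  obtain ⟨C, hC⟩ := diff_bound hθ hsep ε hε
  refine ⟨max C (Real.log 2), fun u v hX hL => ?_⟩
  by_cases h : u.1 = v.1
  · have h1 := same_bound hθ h hX hL
    have h2 := rX_nonneg u
    have h3 := rX_nonneg v
    have h4 := le_max_right C (Real.log 2)
    have h5 : 0 ≤ (1 + ε) * rX u := by positivity
    have h6 : 0 ≤ (1 + ε) * rX v := by positivity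
    linarith
  · have h1 := hC u v h hX hL
    have h4 := le_max_left C (Real.log 2)
    linarith

/-- **Exponents above three.** -/
theorem fam_high [Finite J] {θ : J → ℝ} (hθ : ∀ j, Irrational (θ j)) (hsep : Sep θ) {w : ℝ} (hw : 3 < w) :
    lowerDensity (ratScales θ w) ≤ 2 / w := by
  rw [ratScales_eq hθ]
  apply dens_simple (A := 2) (B := 1) (by linarith) (by norm_num) (by linarith) finite_rX
  intro ε hε
  obtain ⟨C, hC⟩ := fam_bound hθ hsep ε hε
  exact ⟨C, fun u v h1 h2 _ _ => hC u v h1 h2⟩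

end Pool.Agent.H595.Dens
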