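import Pool.Agent.H595.Dens.Fam2

/-!
# The law for numbers which are separated with an exponent `τ`
-/

set_option autoImplicit false

namespace Pool.Agent.H595.Dens

open MeasureTheory Filter Topology Set

variable {J : Type*}

/-- separated numbers, with exponent `τ` -/
def SepE (τ : ℝ) (θ : J → ℝ) : Prop := ∀ j k, j ≠ k → ∀ ε : ℝ, 0 < ε → ∃ c : ℝ, 0 < c ∧ ∀ (q q' : ℕ) (p p' : ℤ),
  1 ≤ q → 1 ≤ q' → c ≤ ((q : ℝ) * q') ^ (τ + ε) * (q' * |q * θ j - p| + q * |q' * θ k - p'|)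

/-- two approximations of different numbers -/
theorem diff_boundE [Finite J] {τ : ℝ} {θ : J → ℝ} (hθ : ∀ j, Irrational (θ j)) (hsep : SepE τ θ)
    (ε : ℝ) (hε : 0 < ε) :
    ∃ C : ℝ, ∀ u v : J × ℕ, u.1 ≠ v.1 → rX u < rX v → rL θ u < rL θ v →
      rL θ u ≤ (τ + 1 + ε) * rX v + (τ + ε) * rX u + C := by
  have := Fintype.ofFinite J
  have h0 : ∀ jk : J × J, ∃ c : ℝ, 0 < c ∧ (jk.1 ≠ jk.2 → ∀ (q q' : ℕ) (p p' : ℤ),
      1 ≤ q → 1 ≤ q' → c ≤ ((q : ℝ) * q') ^ (τ + ε) * (q' * |q * θ jk.1 - p| + q * |q' * θ jk.2 - p'|)) := by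
    intro jk
    by_cases h : jk.1 = jk.2
    · exact ⟨1, one_pos, fun h' => absurd h h'⟩
    · obtain ⟨c, hc, h1⟩ := hsep jk.1 jk.2 h ε hε
      exact ⟨c, hc, fun _ => h1⟩
  choose c hc h1 using h0
  refine ⟨∑ jk : J × J, |Real.log 2 - Real.log (c jk)|, fun u v huv hX hL => ?_⟩
  obtain ⟨j, n⟩ := u
  obtain ⟨k, m⟩ := v
  simp only at huv
  have hu := rval_pos hθ (j, n)
  have hv := rval_pos hθ (k, m)
  obtain ⟨a, ha⟩ : ∃ a : ℝ, a = ((n + 1 : ℕ) : ℝ) := ⟨_, rfl⟩
  obtain ⟨b, hb⟩ : ∃ b : ℝ, b = ((m + 1 : ℕ) : ℝ) := ⟨_, rfl⟩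
  have ha0 : 0 < a := by rw [ha]; positivity
  have hb0 : 0 < b := by rw [hb]; positivity
  have hlt : a < b := by
    rw [ha, hb]
    have := Real.exp_lt_exp.2 hX
    rwa [exp_rX, exp_rX] at this
  have hlt2 : rval θ (k, m) < rval θ (j, n) := by
    rw [← exp_rL hθ, ← exp_rL hθ]
    exact Real.exp_lt_exp.2 (by linarith)
  have h2 := h1 (j, k) huv (n + 1) (m + 1) (round (((n + 1 : ℕ) : ℝ) * θ j))
    (round (((m + 1 : ℕ) : ℝ) * θ k)) (by omega) (by omega)
  have h3 : c (j, k) ≤ (a * b) ^ (τ + ε) * (b * rval θ (j, n) + a * rval θ (k, m)) := by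
    rw [rval, rval, ha, hb]
    exact h2
  have h4 : b * rval θ (j, n) + a * rval θ (k, m) ≤ 2 * (b * rval θ (j, n)) := by
    have h9 : a * rval θ (k, m) ≤ b * rval θ (j, n) := by gcongr
    linarith
  have h5 := h3.trans (mul_le_mul_of_nonneg_left h4 (by positivity))
  have h6 := Real.log_le_log (hc (j, k)) h5
  rw [Real.log_mul (by positivity) (by positivity), Real.log_rpow (by positivity), Real.log_mul ha0.ne' hb0.ne',
    Real.log_mul (by norm_num) (by positivity), Real.log_mul hb0.ne' hu.ne'] at h6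
  have h7 : rX (k, m) = Real.log b := by rw [rX, hb]
  have h8 : rX (j, n) = Real.log a := by rw [rX, ha]
  have h9 : |Real.log 2 - Real.log (c (j, k))| ≤ ∑ jk : J × J, |Real.log 2 - Real.log (c jk)| :=
    Finset.single_le_sum (f := fun jk => |Real.log 2 - Real.log (c jk)|) (fun _ _ => abs_nonneg _)
      (Finset.mem_univ (j, k))
  have h10 := le_abs_self (Real.log 2 - Real.log (c (j, k)))
  rw [rL, h7, h8]
  linarith

theorem fam_boundE [Finite J] {τ : ℝ} (hτ : 0 ≤ τ) {θ : J → ℝ} (hθ : ∀ j, Irrational (θ j)) (hsep : SepE τ θ)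
    (ε : ℝ) (hε : 0 < ε) :
    ∃ C : ℝ, ∀ u v : J × ℕ, rX u < rX v → rL θ u < rL θ v →
      rL θ u ≤ (τ + 1 + ε) * rX v + (τ + ε) * rX u + C := by
  obtain ⟨C, hC⟩ := diff_boundE hθ hsep ε hε
  refine ⟨max C (Real.log 2), fun u v hX hL => ?_⟩
  by_cases h : u.1 = v.1
  · have h1 := same_bound hθ h hX hL
    have h2 := rX_nonneg u
    have h3 := rX_nonneg v
    have h4 := le_max_right C (Real.log 2)
    have h5 : 0 ≤ (τ + ε) * rX u := by positivity
    have h6 : 0 ≤ (τ + ε) * rX v := by positivity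
    linarith
  · have h1 := hC u v h hX hL
    have h4 := le_max_left C (Real.log 2)
    linarith

/-- **Large exponents.** -/
theorem fam_highE [Finite J] {τ : ℝ} (hτ : 0 ≤ τ) {θ : J → ℝ} (hθ : ∀ j, Irrational (θ j)) (hsep : SepE τ θ)
    {w : ℝ} (hw : 2 * τ + 1 < w) : lowerDensity (ratScales θ w) ≤ (τ + 1) / w := by
  rw [ratScales_eq hθ]
  apply dens_simple (A := τ + 1) (B := τ) (by linarith) (by linarith) (by linarith) finite_rX
  intro ε hε
  obtain ⟨C, hC⟩ := fam_boundE hτ hθ hsep ε hε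
  exact ⟨C, fun u v h1 h2 _ _ => hC u v h1 h2⟩

/-- **Small exponents.** -/
theorem fam_lowE [Fintype J] {τ : ℝ} (hτ : 0 ≤ τ) {θ : J → ℝ} (hθ : ∀ j, Irrational (θ j)) (hsep : SepE τ θ)
    {w u : ℝ} (hw : 1 < w) (hw3 : w ≤ 2 * τ + 1) (hu : 1 < u) (hroot : u ^ Fintype.card J = (τ + 1) * u + τ) :
    lowerDensity (ratScales θ w) ≤ (τ + 1) / w + ((2 * τ + 1) / w - 1) / (u - 1) := by
  have hw0 : 0 < w := by linarith
  rw [ratScales_eq hθ]
  by_cases hunb : ∀ B : ℝ, ∃ x ∈ goodScales rX (rL θ) w, B ≤ x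
  · obtain ⟨s, hs⟩ := exists_goodSeq hw0 finite_rX hunb
    refine lowerDensity_le hs.lim (fun η hη N => ?_)
    have hT : ∀ n, rL θ (s n) ≤ rX (s (n + Fintype.card J)) + Real.log 2 := by
      intro n
      obtain ⟨a, b, hab, h⟩ := Fintype.exists_ne_map_eq_of_card_lt
        (fun k : Fin (Fintype.card J + 1) => (s (n + k)).1) (by rw [Fintype.card_fin]; omega)
      have main : ∀ a b : Fin (Fintype.card J + 1), a < b → (s (n + a)).1 = (s (n + b)).1 →
          rL θ (s n) ≤ rX (s (n + Fintype.card J)) + Real.log 2 := by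
        intro a b hab h
        have hab' : n + (a : ℕ) < n + (b : ℕ) := by have : (a : ℕ) < b := hab; omega
        have h1 := same_bound hθ h (hs.monoX hab') (hs.monoL hab')
        have h2 : rL θ (s n) ≤ rL θ (s (n + a)) := hs.monoL.monotone (by omega)
        have h3 : rX (s (n + (b : ℕ))) ≤ rX (s (n + Fintype.card J)) := hs.monoX.monotone (by
          have := b.2
          omega)
        linarith
      rcases lt_or_gt_of_ne hab with h1 | h1
      · exact main a b h1 h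
      · exact main b a h1 h.symm
    obtain ⟨n, hn1, hn2⟩ := seq_multi (x := fun n => rX (s n)) (ℓ := fun n => rL θ (s n))
      (f := fun n => (volume (goodScales rX (rL θ) w ∩ Icc 0 (rX (s n)))).toReal) (a := 1 / w) (A := τ + 1) (B := τ)
      (u := u) (m := Fintype.card J)
      (by positivity) (by rw [div_lt_one hw0]; exact hw) (by linarith) hu hroot hs.lim (fun n => hs.meas hw0 n)
      (fun ε hε => by
        obtain ⟨C, hC⟩ := fam_boundE hτ hθ hsep ε hε
        exact ⟨C, fun n => hC _ _ (hs.incX n) (hs.incL n)⟩)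
      ⟨_, hT⟩ (by rw [one_div, ← div_eq_inv_mul, one_le_div hw0]; linarith) η hη N
    refine ⟨n, hn1, hn2.trans (le_of_eq ?_)⟩
    congr 2
    rw [one_div]
    ring
  · push Not at hunb
    obtain ⟨B, hB⟩ := hunb
    rw [lowerDensity_of_bdd (fun x hx => (hB x hx).le)]
    have h1 : 0 ≤ (2 * τ + 1) / w - 1 := by rw [sub_nonneg, one_le_div hw0]; exact hw3
    have h2 : 0 < u - 1 := by linarith
    positivity

/-- the law for `n` numbers, with a root `u` of `u ^ n = (τ + 1) u + τ` -/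
noncomputable def famLawE (τ u w : ℝ) : ℝ := max ((τ + 1) / w) ((τ + 1) / w + ((2 * τ + 1) / w - 1) / (u - 1))

theorem fam_lawE [Fintype J] {τ : ℝ} (hτ : 0 ≤ τ) {θ : J → ℝ} (hθ : ∀ j, Irrational (θ j)) (hsep : SepE τ θ)
    {w u : ℝ} (hw : 1 < w) (hu : 1 < u) (hroot : u ^ Fintype.card J = (τ + 1) * u + τ) :
    lowerDensity (ratScales θ w) ≤ famLawE τ u w := by
  rcases le_or_gt w (2 * τ + 1) with h | h
  · exact (fam_lowE hτ hθ hsep hw h hu hroot).trans (le_max_right _ _)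
  · exact (fam_highE hτ hθ hsep h).trans (le_max_left _ _)

theorem famLawE_lt_one {τ u w : ℝ} (hτ : 0 < τ) (hu : 1 < u) (hw : τ + 1 + τ / u < w) : famLawE τ u w < 1 := by
  have hu0 : 0 < u := by linarith
  have h1 : 0 < τ / u := by positivity
  have hw0 : 0 < w := by linarith
  have hu1 : 0 < u - 1 := by linarith
  rw [famLawE, max_lt_iff]
  refine ⟨by rw [div_lt_one hw0]; linarith, ?_⟩
  have h2 : (τ + 1) / w + ((2 * τ + 1) / w - 1) / (u - 1) = ((τ + 1) * u + τ - w) / (w * (u - 1)) := by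
    field_simp
    ring
  rw [h2, div_lt_one (by positivity)]
  have h3 : (τ + 1 + τ / u) * u < w * u := by gcongr
  have h4 : (τ + 1 + τ / u) * u = (τ + 1) * u + τ := by field_simp
  linarith

end Pool.Agent.H595.Dens
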