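import Pool.Agent.H595.Dens.Three
import Pool.Agent.H595.Dens.LowD

/-!
# The Fibonacci continued fraction

The continued fraction whose partial quotients are the letters of the Fibonacci word on `1` and `2`, and its square
(D. Roy's extremal numbers).
-/

set_option autoImplicit false

namespace Pool.Agent.H595.Dens.Fib

open MeasureTheory Filter Topology Set Matrix

/-- the letters -/
def L (c : Bool) : ℤ := if c then 2 else 1

/-- the matrix of a letter -/
def C (c : Bool) : Matrix (Fin 2) (Fin 2) ℤ := !![L c, 1; 1, 0]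

/-- the matrix of a word -/
def P : List Bool → Matrix (Fin 2) (Fin 2) ℤ
  | [] => 1
  | c :: l => C c * P l

theorem P_append (l u : List Bool) : P (l ++ u) = P l * P u := by
  induction l with
  | nil => simp [P]
  | cons c l ih => rw [List.cons_append, P, P, ih, Matrix.mul_assoc]

theorem L_pos (c : Bool) : 1 ≤ L c ∧ L c ≤ 2 := by
  cases c <;> simp [L]

/-- the inequalities between the entries -/
structure Ineq (M : Matrix (Fin 2) (Fin 2) ℤ) : Prop where
  p00 : 1 ≤ M 0 0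
  p01 : 0 ≤ M 0 1
  p10 : 0 ≤ M 1 0
  p11 : 0 ≤ M 1 1
  h1 : M 0 1 ≤ M 0 0
  h2 : M 1 0 ≤ M 0 0
  h3 : M 0 1 + M 1 1 ≤ M 0 0 + M 1 0
  det : M 0 0 * M 1 1 - M 0 1 * M 1 0 = 1 ∨ M 0 0 * M 1 1 - M 0 1 * M 1 0 = -1

theorem P_cons_00 (c : Bool) (l : List Bool) : P (c :: l) 0 0 = L c * P l 0 0 + P l 1 0 := by
  simp [P, C, Matrix.mul_apply, Fin.sum_univ_two]
theorem P_cons_01 (c : Bool) (l : List Bool) : P (c :: l) 0 1 = L c * P l 0 1 + P l 1 1 := by
  simp [P, C, Matrix.mul_apply, Fin.sum_univ_two]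
theorem P_cons_10 (c : Bool) (l : List Bool) : P (c :: l) 1 0 = P l 0 0 := by
  simp [P, C, Matrix.mul_apply, Fin.sum_univ_two]
theorem P_cons_11 (c : Bool) (l : List Bool) : P (c :: l) 1 1 = P l 0 1 := by
  simp [P, C, Matrix.mul_apply, Fin.sum_univ_two]

theorem ineq (l : List Bool) : Ineq (P l) := by
  induction l with
  | nil => constructor <;> simp [P]
  | cons c l ih =>
    obtain ⟨hc1, hc2⟩ := L_pos c
    obtain ⟨a, b, c', d, e, f, g, h⟩ := ih
    constructor
    · rw [P_cons_00]; nlinarith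
    · rw [P_cons_01]; nlinarith
    · rw [P_cons_10]; linarith
    · rw [P_cons_11]; linarith
    · rw [P_cons_00, P_cons_01]; nlinarith
    · rw [P_cons_00, P_cons_10]; nlinarith
    · rw [P_cons_00, P_cons_01, P_cons_10, P_cons_11]; nlinarith
    · rw [P_cons_00, P_cons_01, P_cons_10, P_cons_11]
      rcases h with h | h
      · right; linear_combination -h
      · left; linear_combination -h

/-- the convergents of an extension -/
theorem conv_le (l u : List Bool) :
    |((P (l ++ u) 1 0 : ℤ) : ℝ) / (P (l ++ u) 0 0 : ℤ) - (P l 1 0 : ℤ) / (P l 0 0 : ℤ)| ≤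
      1 / ((P l 0 0 : ℤ) : ℝ) ^ 2 := by
  have h1 := ineq l
  have h2 := ineq u
  have h3 := ineq (l ++ u)
  have e00 : P (l ++ u) 0 0 = P l 0 0 * P u 0 0 + P l 0 1 * P u 1 0 := by
    rw [P_append]; simp [Matrix.mul_apply, Fin.sum_univ_two]
  have e10 : P (l ++ u) 1 0 = P l 1 0 * P u 0 0 + P l 1 1 * P u 1 0 := by
    rw [P_append]; simp [Matrix.mul_apply, Fin.sum_univ_two]
  have hq : (0 : ℝ) < (P l 0 0 : ℤ) := by have := h1.p00; exact_mod_cast this
  have hq' : (0 : ℝ) < (P (l ++ u) 0 0 : ℤ) := by have := h3.p00; exact_mod_cast this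
  have hge : P l 0 0 * P u 1 0 ≤ P (l ++ u) 0 0 := by
    rw [e00]
    have := mul_nonneg h1.p01 h2.p10
    have := mul_le_mul_of_nonneg_left h2.h2 (by have := h1.p00; omega : 0 ≤ P l 0 0)
    linarith
  have hnum : |(P (l ++ u) 1 0 * P l 0 0 - P (l ++ u) 0 0 * P l 1 0 : ℤ)| = P u 1 0 := by
    have : P (l ++ u) 1 0 * P l 0 0 - P (l ++ u) 0 0 * P l 1 0 =
        (P l 0 0 * P l 1 1 - P l 0 1 * P l 1 0) * P u 1 0 := by rw [e00, e10]; ring
    rw [this, abs_mul]
    rcases h1.det with h | h <;> rw [h] <;> simp [abs_of_nonneg h2.p10]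
  have hnum' : |((P (l ++ u) 1 0 : ℤ) : ℝ) * (P l 0 0 : ℤ) - (P (l ++ u) 0 0 : ℤ) * (P l 1 0 : ℤ)| =
      (P u 1 0 : ℤ) := by exact_mod_cast hnum
  rw [div_sub_div _ _ hq'.ne' hq.ne', abs_div, hnum', abs_of_pos (mul_pos hq' hq),
    div_le_div_iff₀ (mul_pos hq' hq) (by positivity)]
  have hge' : ((P l 0 0 : ℤ) : ℝ) * (P u 1 0 : ℤ) ≤ (P (l ++ u) 0 0 : ℤ) := by exact_mod_cast hge
  nlinarith

/-- the two connecting words -/
def s (k : ℕ) : List Bool := if k % 2 = 0 then [true, false] else [false, true]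

/-- the palindromic prefixes of the Fibonacci word (`false` is the letter `1`, `true` the letter `2`) -/
def m : ℕ → List Bool
  | 0 => []
  | 1 => [false]
  | k + 2 => m (k + 1) ++ (s k ++ m k)

theorem m_succ (k : ℕ) : ∃ u, m (k + 1) = m k ++ u := by
  cases k with
  | zero => exact ⟨[false], rfl⟩
  | succ k => exact ⟨s k ++ m k, rfl⟩

theorem m_add (k j : ℕ) : ∃ u, m (k + j) = m k ++ u := by
  induction j with
  | zero => exact ⟨[], by simp⟩
  | succ j ih =>
    obtain ⟨u, hu⟩ := ih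
    obtain ⟨u', hu'⟩ := m_succ (k + j)
    exact ⟨u ++ u', by rw [← add_assoc, hu', hu, List.append_assoc]⟩

/-- the denominators -/
def q (k : ℕ) : ℤ := P (m k) 0 0
def p (k : ℕ) : ℤ := P (m k) 1 0
def r (k : ℕ) : ℤ := P (m k) 1 1

theorem s_mat (k : ℕ) : P (s k) = if k % 2 = 0 then !![3, 2; 1, 1] else !![3, 1; 2, 1] := by
  rw [s]
  split_ifs <;> ext i j <;> fin_cases i <;> fin_cases j <;>
    simp [P, C, L, Matrix.mul_apply, Fin.sum_univ_two]

theorem s_tr (k : ℕ) : (P (s k))ᵀ = P (s (k + 1)) := by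
  rw [s_mat, s_mat]
  rcases Nat.mod_two_eq_zero_or_one k with h | h
  · have : (k + 1) % 2 = 1 := by omega
    rw [h, this]
    ext i j
    fin_cases i <;> fin_cases j <;> simp
  · have : (k + 1) % 2 = 0 := by omega
    rw [h, this]
    ext i j
    fin_cases i <;> fin_cases j <;> simp

theorem mat_succ (k : ℕ) : P (m (k + 2)) = P (m (k + 1)) * (P (s k) * P (m k)) := by
  rw [m, P_append, P_append]

/-- the matrices are symmetric -/
theorem symm_aux (k : ℕ) : (P (m k))ᵀ = P (m k) ∧ (P (m (k + 1)))ᵀ = P (m (k + 1)) ∧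
    (P (m (k + 2)))ᵀ = P (m (k + 2)) := by
  induction k with
  | zero =>
    have e0 : (P (m 0))ᵀ = P (m 0) := by simp [m, P]
    have e1 : (P (m 1))ᵀ = P (m 1) := by
      ext i j
      fin_cases i <;> fin_cases j <;> simp [m, P, C]
    refine ⟨e0, e1, ?_⟩
    ext i j
    fin_cases i <;> fin_cases j <;> simp [m, P, C, s, L, Matrix.mul_apply, Fin.sum_univ_two]
  | succ k ih =>
    obtain ⟨h0, h1, h2⟩ := ih
    refine ⟨h1, h2, ?_⟩
    have e2 : P (m (k + 2)) = P (m k) * (P (s (k + 1)) * P (m (k + 1))) := by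
      conv_lhs => rw [← h2, mat_succ]
      rw [Matrix.transpose_mul, Matrix.transpose_mul, s_tr, h0, h1, Matrix.mul_assoc]
    rw [mat_succ (k + 1), Matrix.transpose_mul, Matrix.transpose_mul, s_tr, h1, h2]
    have hs : P (s (k + 1 + 1)) = P (s k) := by
      rw [s_mat, s_mat]
      have : (k + 1 + 1) % 2 = k % 2 := by omega
      rw [this]
    rw [hs]
    conv_lhs => rw [e2]
    conv_rhs => rw [mat_succ k]
    simp only [Matrix.mul_assoc]

theorem symm (k : ℕ) : P (m k) 0 1 = p k := by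
  have := congrFun (congrFun (symm_aux k).1 0) 1
  rw [Matrix.transpose_apply] at this
  exact this.symm

theorem ineqm (k : ℕ) : Ineq (P (m k)) := ineq (m k)

theorem q_pos (k : ℕ) : 1 ≤ q k := (ineqm k).p00
theorem p_nonneg (k : ℕ) : 0 ≤ p k := (ineqm k).p10
theorem r_nonneg (k : ℕ) : 0 ≤ r k := (ineqm k).p11
theorem p_le (k : ℕ) : p k ≤ q k := (ineqm k).h2
theorem r_le (k : ℕ) : r k ≤ q k := by
  have h := (ineqm k).h3
  rw [symm] at h
  have : P (m k) 1 0 = p k := rfl
  rw [this] at h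
  have h1 : P (m k) 1 1 = r k := rfl
  have h2 : P (m k) 0 0 = q k := rfl
  omega

theorem det_eq (k : ℕ) : q k * r k - p k * p k = 1 ∨ q k * r k - p k * p k = -1 := by
  have h := (ineqm k).det
  rw [symm] at h
  exact h

/-- the entries of the connecting matrix -/
def n00 : ℤ := 3
def n01 (k : ℕ) : ℤ := if k % 2 = 0 then 2 else 1
def n10 (k : ℕ) : ℤ := if k % 2 = 0 then 1 else 2

theorem s_mat' (k : ℕ) : P (s k) = !![3, n01 k; n10 k, 1] := by
  rw [s_mat, n01, n10]
  split_ifs <;> rfl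

theorem n_bounds (k : ℕ) : 1 ≤ n01 k ∧ n01 k ≤ 2 ∧ 1 ≤ n10 k ∧ n10 k ≤ 2 ∧ |n10 k - n01 k| = 1 := by
  rw [n01, n10]
  split_ifs <;> norm_num

def M00 (k : ℕ) : ℤ := 3 * q k + n01 k * p k
def M01 (k : ℕ) : ℤ := 3 * p k + n01 k * r k
def M10 (k : ℕ) : ℤ := n10 k * q k + p k
def M11 (k : ℕ) : ℤ := n10 k * p k + r k

theorem rec_q (k : ℕ) : q (k + 2) = q (k + 1) * M00 k + p (k + 1) * M10 k := by
  rw [q, mat_succ, s_mat', Matrix.mul_apply, Fin.sum_univ_two, symm, M00, M10]
  simp [Matrix.mul_apply, Fin.sum_univ_two, q, p]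

theorem rec_p (k : ℕ) : p (k + 2) = p (k + 1) * M00 k + r (k + 1) * M10 k := by
  rw [p, mat_succ, s_mat', Matrix.mul_apply, Fin.sum_univ_two, M00, M10]
  simp [Matrix.mul_apply, Fin.sum_univ_two, q, p, r]

theorem rec_p' (k : ℕ) : p (k + 2) = q (k + 1) * M01 k + p (k + 1) * M11 k := by
  rw [← symm, mat_succ, s_mat', Matrix.mul_apply, Fin.sum_univ_two, symm, M01, M11]
  simp [Matrix.mul_apply, Fin.sum_univ_two, q, p, r, symm]

theorem rec_r (k : ℕ) : r (k + 2) = p (k + 1) * M01 k + r (k + 1) * M11 k := by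
  rw [r, mat_succ, s_mat', Matrix.mul_apply, Fin.sum_univ_two, M01, M11]
  simp [Matrix.mul_apply, Fin.sum_univ_two, p, r, symm]

/-- growth -/
theorem q_lower (k : ℕ) : 3 * (q (k + 1) * q k) ≤ q (k + 2) := by
  rw [rec_q, M00, M10]
  have h1 := q_pos k
  have h2 := q_pos (k + 1)
  have h3 := p_nonneg k
  have h4 := p_nonneg (k + 1)
  obtain ⟨a, b, c, d, -⟩ := n_bounds k
  have e1 : 0 ≤ q (k + 1) * (n01 k * p k) := by positivity
  have e2 : 0 ≤ p (k + 1) * (n10 k * q k + p k) := by positivity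
  linarith

theorem q_upper (k : ℕ) : q (k + 2) ≤ 10 * (q (k + 1) * q k) := by
  rw [rec_q, M00, M10]
  have h1 := q_pos k
  have h2 := q_pos (k + 1)
  have h3 := p_nonneg k
  have h4 := p_nonneg (k + 1)
  have h5 := p_le k
  have h6 := p_le (k + 1)
  obtain ⟨a, b, c, d, -⟩ := n_bounds k
  have e1 : q (k + 1) * (3 * q k + n01 k * p k) ≤ q (k + 1) * (3 * q k + 2 * q k) := by gcongr
  have e2 : p (k + 1) * (n10 k * q k + p k) ≤ q (k + 1) * (2 * q k + q k) := by gcongr
  have e3 : 0 ≤ q (k + 1) * q k := by positivity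
  linarith

/-- the vectors -/
def x (k : ℕ) : Fin 3 → ℤ := ![q k, p k, r k]

/-- the relations -/
def z (k : ℕ) : Fin 3 → ℤ := cr (x (k + 1)) (x (k + 2))

theorem z0 (k : ℕ) : z k 0 = -(q (k + 1) * r (k + 1) - p (k + 1) * p (k + 1)) * M01 k := by
  simp only [z, cr_0, x]
  show p (k + 1) * r (k + 2) - r (k + 1) * p (k + 2) = _
  rw [rec_r, rec_p']
  ring

theorem z2 (k : ℕ) : z k 2 = (q (k + 1) * r (k + 1) - p (k + 1) * p (k + 1)) * M10 k := by
  simp only [z, cr_2, x]
  show q (k + 1) * p (k + 2) - p (k + 1) * q (k + 2) = _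
  rw [rec_q, rec_p]
  ring

theorem z1 (k : ℕ) : z k 1 = (q (k + 1) * r (k + 1) - p (k + 1) * p (k + 1)) * (M00 k - M11 k) := by
  simp only [z, cr_1, x]
  show r (k + 1) * q (k + 2) - q (k + 1) * r (k + 2) = _
  have h1 := rec_p k
  have h2 := rec_p' k
  rw [rec_q, rec_r]
  linear_combination p (k + 1) * (h2 - h1)

theorem z_bound (k : ℕ) (i : Fin 3) : |z k i| ≤ 5 * q k := by
  have hd : |q (k + 1) * r (k + 1) - p (k + 1) * p (k + 1)| = 1 := by
    rcases det_eq (k + 1) with h | h <;> rw [h] <;> norm_num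
  have h1 := q_pos k
  have h3 := p_nonneg k
  have h4 := r_nonneg k
  have h5 := p_le k
  have h6 := r_le k
  obtain ⟨a, b, c, d, -⟩ := n_bounds k
  have g00 : 0 ≤ M00 k ∧ M00 k ≤ 5 * q k := by
    rw [M00]
    have : n01 k * p k ≤ 2 * q k := by gcongr
    constructor
    · positivity
    · linarith
  have g01 : 0 ≤ M01 k ∧ M01 k ≤ 5 * q k := by
    rw [M01]
    have : n01 k * r k ≤ 2 * q k := by gcongr
    constructor
    · positivity
    · linarith
  have g10 : 0 ≤ M10 k ∧ M10 k ≤ 5 * q k := by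
    rw [M10]
    have : n10 k * q k ≤ 2 * q k := by gcongr
    constructor
    · positivity
    · linarith
  have g11 : 0 ≤ M11 k ∧ M11 k ≤ 5 * q k := by
    rw [M11]
    have : n10 k * p k ≤ 2 * q k := by gcongr
    constructor
    · positivity
    · linarith
  fin_cases i
  · show |z k 0| ≤ _
    rw [z0, abs_mul, abs_neg, hd, one_mul, abs_of_nonneg g01.1]
    exact g01.2
  · show |z k 1| ≤ _
    rw [z1, abs_mul, hd, one_mul, abs_le]
    constructor <;> linarith
  · show |z k 2| ≤ _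
    rw [z2, abs_mul, hd, one_mul, abs_of_nonneg g10.1]
    exact g10.2

theorem z_ne (k : ℕ) : z k ≠ 0 := by
  intro h
  have h2 := congrFun h 2
  rw [z2, Pi.zero_apply] at h2
  have h1 := q_pos k
  have h3 := p_nonneg k
  obtain ⟨a, b, c, d, -⟩ := n_bounds k
  have h4 : 0 < M10 k := by
    rw [M10]
    positivity
  rcases mul_eq_zero.1 h2 with h5 | h5
  · rcases det_eq (k + 1) with h6 | h6 <;> rw [h6] at h5 <;> norm_num at h5
  · omega

/-- three consecutive vectors are independent -/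
theorem det_x (k : ℕ) : dt (z k) (x k) ≠ 0 := by
  have h : dt (z k) (x k) = (q (k + 1) * r (k + 1) - p (k + 1) * p (k + 1)) *
      ((q k * r k - p k * p k) * (n10 k - n01 k)) := by
    rw [dt, z0, z1, z2]
    simp only [x]
    show _ * q k + _ * p k + _ * r k = _
    rw [M00, M01, M10, M11]
    ring
  have hn : n10 k - n01 k ≠ 0 := by
    obtain ⟨-, -, -, -, h⟩ := n_bounds k
    intro h0
    rw [h0] at h
    norm_num at h
  rw [h]
  refine mul_ne_zero ?_ (mul_ne_zero ?_ hn)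
  · rcases det_eq (k + 1) with h6 | h6 <;> rw [h6] <;> norm_num
  · rcases det_eq k with h6 | h6 <;> rw [h6] <;> norm_num

end Pool.Agent.H595.Dens.Fib
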