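import Pool.Agent.H595.Dens.Fib

/-!
# The limit of the convergents
-/

set_option autoImplicit false

namespace Pool.Agent.H595.Dens.Fib

open MeasureTheory Filter Topology Set Matrix

theorem q_succ_lower (k : ℕ) : 3 ^ k ≤ q (k + 1) := by
  induction k with
  | zero => exact q_pos 1
  | succ k ih =>
    have h1 := q_lower k
    have h2 := q_pos k
    have h3 := q_pos (k + 1)
    rw [pow_succ]
    nlinarith

/-- the convergents -/
noncomputable def c (k : ℕ) : ℝ := (p k : ℝ) / q k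

theorem c_diff (k j : ℕ) : |c (k + j) - c k| ≤ 1 / (q k : ℝ) ^ 2 := by
  obtain ⟨u, hu⟩ := m_add k j
  have := conv_le (m k) u
  rw [← hu] at this
  exact this

theorem q_tendsto : Tendsto (fun k => (q k : ℝ)) atTop atTop := by
  rw [← tendsto_add_atTop_iff_nat 1]
  apply tendsto_atTop_mono (f := fun k : ℕ => (3 : ℝ) ^ k)
  · intro k
    have := q_succ_lower k
    exact_mod_cast this
  · exact tendsto_pow_atTop_atTop_of_one_lt (by norm_num)

theorem b_tendsto : Tendsto (fun k => 2 / (q k : ℝ) ^ 2) atTop (𝓝 0) := by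
  apply Tendsto.div_atTop tendsto_const_nhds
  exact (tendsto_pow_atTop (by norm_num : (2 : ℕ) ≠ 0)).comp q_tendsto

theorem exists_lim : ∃ ξ : ℝ, Tendsto c atTop (𝓝 ξ) := by
  apply cauchySeq_tendsto_of_complete
  apply cauchySeq_of_le_tendsto_0 (fun k => 2 / (q k : ℝ) ^ 2) _ b_tendsto
  intro n m' N hn hm
  obtain ⟨a, rfl⟩ := Nat.exists_eq_add_of_le hn
  obtain ⟨b, rfl⟩ := Nat.exists_eq_add_of_le hm
  rw [Real.dist_eq]
  have h1 := c_diff N a
  have h2 := c_diff N b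
  have h3 := abs_sub_le (c (N + a)) (c N) (c (N + b))
  rw [abs_sub_comm (c N)] at h3
  have : 2 / (q N : ℝ) ^ 2 = 1 / (q N : ℝ) ^ 2 + 1 / (q N : ℝ) ^ 2 := by ring
  rw [this]
  linarith

/-- the Fibonacci continued fraction -/
noncomputable def ξ : ℝ := exists_lim.choose

theorem c_lim : Tendsto c atTop (𝓝 ξ) := exists_lim.choose_spec

/-- prefixes -/
theorem approx {l : List Bool} {k : ℕ} (h : ∃ u, m k = l ++ u) :
    |ξ - ((P l 1 0 : ℤ) : ℝ) / (P l 0 0 : ℤ)| ≤ 1 / ((P l 0 0 : ℤ) : ℝ) ^ 2 := by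
  obtain ⟨u, hu⟩ := h
  have h1 : Tendsto (fun j => |c (k + j) - ((P l 1 0 : ℤ) : ℝ) / (P l 0 0 : ℤ)|) atTop
      (𝓝 |ξ - ((P l 1 0 : ℤ) : ℝ) / (P l 0 0 : ℤ)|) := by
    have h2 : Tendsto (fun j => c (k + j)) atTop (𝓝 ξ) := by
      have := c_lim.comp (tendsto_add_atTop_nat k)
      refine this.congr (fun j => ?_)
      rw [Function.comp, add_comm]
    exact (h2.sub tendsto_const_nhds).abs
  refine le_of_tendsto' h1 (fun j => ?_)
  obtain ⟨u', hu'⟩ := m_add k j
  have h3 := conv_le l (u ++ u')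
  rw [← List.append_assoc, ← hu, ← hu'] at h3
  exact h3

theorem approx_x (k : ℕ) : |ξ - (p k : ℝ) / q k| ≤ 1 / (q k : ℝ) ^ 2 :=
  approx (l := m k) (k := k) ⟨[], by simp⟩

theorem xi_bounds : 0 ≤ ξ ∧ ξ ≤ 1 := by
  constructor
  · refine ge_of_tendsto' c_lim (fun k => ?_)
    have h1 := q_pos k
    have h2 := p_nonneg k
    rw [c]
    have : (0 : ℝ) ≤ q k := by exact_mod_cast (by omega : 0 ≤ q k)
    have : (0 : ℝ) ≤ p k := by exact_mod_cast h2
    positivity
  · refine le_of_tendsto' c_lim (fun k => ?_)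
    have h1 := q_pos k
    have h2 := p_le k
    rw [c, div_le_one (by exact_mod_cast (by omega : 0 < q k))]
    exact_mod_cast h2

theorem qr (k : ℕ) : (1 : ℝ) ≤ q k := by exact_mod_cast q_pos k

/-- first coordinate -/
theorem app1 (k : ℕ) : |(q k : ℝ) * ξ - p k| ≤ 1 / q k := by
  have h := approx_x k
  have hq := qr k
  have hq0 : (0 : ℝ) < q k := by linarith
  have e : (q k : ℝ) * ξ - p k = q k * (ξ - p k / q k) := by field_simp
  rw [e, abs_mul, abs_of_pos hq0]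
  calc (q k : ℝ) * |ξ - p k / q k| ≤ q k * (1 / (q k : ℝ) ^ 2) := mul_le_mul_of_nonneg_left h hq0.le
    _ = 1 / q k := by field_simp

/-- second coordinate -/
theorem app2 (k : ℕ) : |(q k : ℝ) * ξ ^ 2 - r k| ≤ 3 / q k := by
  have hq := qr k
  have hq0 : (0 : ℝ) < q k := by linarith
  have h1 := app1 k
  have hd : |(q k : ℝ) * r k - p k * p k| = 1 := by
    have : |q k * r k - p k * p k| = 1 := by
      rcases det_eq k with h | h <;> rw [h] <;> norm_num
    exact_mod_cast this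
  have hp0 : (0 : ℝ) ≤ p k := by exact_mod_cast p_nonneg k
  have hpq : (p k : ℝ) ≤ q k := by exact_mod_cast p_le k
  obtain ⟨hξ0, hξ1⟩ := xi_bounds
  have e : (q k : ℝ) * ξ ^ 2 - r k = (ξ + p k / q k) * (q k * ξ - p k) - (q k * r k - p k * p k) / q k := by
    field_simp
    ring
  rw [e]
  refine (abs_sub _ _).trans ?_
  rw [abs_mul, abs_div, hd, abs_of_pos hq0]
  have h2 : |ξ + p k / q k| ≤ 2 := by
    have : (p k : ℝ) / q k ≤ 1 := by rw [div_le_one hq0]; exact hpq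
    have : 0 ≤ (p k : ℝ) / q k := by positivity
    rw [abs_of_nonneg (by linarith)]
    linarith
  calc |ξ + p k / q k| * |(q k : ℝ) * ξ - p k| + 1 / q k ≤ 2 * (1 / q k) + 1 / q k := by gcongr
    _ = 3 / q k := by ring

/-- the values of the relations -/
theorem z_val (k : ℕ) : valu (th ξ (ξ ^ 2)) (z k) ≤ 6 / (q (k + 1) * q (k + 2)) := by
  rw [valu, sum_th]
  have e : (z k 0 : ℝ) + z k 1 * ξ + z k 2 * ξ ^ 2 =
      (q (k + 1) * ξ - p (k + 1)) * (q (k + 2) * ξ ^ 2 - r (k + 2)) -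
      (q (k + 1) * ξ ^ 2 - r (k + 1)) * (q (k + 2) * ξ - p (k + 2)) := by
    simp only [z, cr_0, cr_1, cr_2]
    show ((p (k + 1) * r (k + 2) - r (k + 1) * p (k + 2) : ℤ) : ℝ) +
      ((r (k + 1) * q (k + 2) - q (k + 1) * r (k + 2) : ℤ) : ℝ) * ξ +
      ((q (k + 1) * p (k + 2) - p (k + 1) * q (k + 2) : ℤ) : ℝ) * ξ ^ 2 = _
    push_cast
    ring
  rw [e]
  refine (abs_sub _ _).trans ?_
  rw [abs_mul, abs_mul]
  have h1 := app1 (k + 1)
  have h2 := app2 (k + 1)
  have h3 := app1 (k + 2)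
  have h4 := app2 (k + 2)
  have hq1 := qr (k + 1)
  have hq2 := qr (k + 2)
  calc _ ≤ 1 / (q (k + 1) : ℝ) * (3 / q (k + 2)) + 3 / q (k + 1) * (1 / q (k + 2)) := by gcongr
    _ = _ := by
      have : (0 : ℝ) < q (k + 1) := by linarith
      have : (0 : ℝ) < q (k + 2) := by linarith
      field_simp
      ring

/-- linear independence -/
theorem indep (v : Fin 3 → ℤ) (hv : v ≠ 0) : ∑ i, (v i : ℝ) * th ξ (ξ ^ 2) i ≠ 0 := by
  intro h
  rw [sum_th] at h
  -- `v` is orthogonal to almost all `x k`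
  have horth : ∃ k₀, ∀ k, k₀ ≤ k → dt v (x k) = 0 := by
    obtain ⟨k₀, hk₀⟩ := eventually_atTop.1 (q_tendsto.eventually (eventually_gt_atTop
      (|(v 1 : ℝ)| + 3 * |(v 2 : ℝ)|)))
    refine ⟨k₀, fun k hk => ?_⟩
    have hq := qr k
    have hq0 : (0 : ℝ) < q k := by linarith
    have h1 : ((dt v (x k) : ℤ) : ℝ) = -(v 1 * (q k * ξ - p k)) - v 2 * (q k * ξ ^ 2 - r k) := by
      rw [dt]
      show ((v 0 * q k + v 1 * p k + v 2 * r k : ℤ) : ℝ) = _
      push_cast
      linear_combination (q k : ℝ) * h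
    have h2 : |((dt v (x k) : ℤ) : ℝ)| < 1 := by
      rw [h1]
      refine (abs_sub _ _).trans_lt ?_
      rw [abs_neg, abs_mul, abs_mul]
      calc |(v 1 : ℝ)| * |(q k : ℝ) * ξ - p k| + |(v 2 : ℝ)| * |(q k : ℝ) * ξ ^ 2 - r k|
          ≤ |(v 1 : ℝ)| * (1 / q k) + |(v 2 : ℝ)| * (3 / q k) := by
            gcongr
            · exact app1 k
            · exact app2 k
        _ = (|(v 1 : ℝ)| + 3 * |(v 2 : ℝ)|) / q k := by ring
        _ < 1 := by
            rw [div_lt_one hq0]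
            exact hk₀ k hk
    have h3 : |dt v (x k)| < 1 := by exact_mod_cast h2
    exact Int.abs_lt_one_iff.1 h3
  obtain ⟨k, hk⟩ := horth
  have h0 := hk k le_rfl
  have h1 := hk (k + 1) (by omega)
  have h2 := hk (k + 2) (by omega)
  have hpar : Par v (z k) := par_of_perp h1 h2
  have hpar' : Par (z k) v := fun a b => by
    have := hpar b a
    linarith
  exact det_x k (perp_of_par hv hpar' h0)

end Pool.Agent.H595.Dens.Fib
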