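import Pool.Agent.H595.Dens.Fib2

/-!
# The Fibonacci continued fraction is badly approximable; the density of the scales
-/

set_option autoImplicit false

namespace Pool.Agent.H595.Dens.Fib

open MeasureTheory Filter Topology Set Matrix

/-- one more letter -/
theorem P_snoc (l : List Bool) (b : Bool) : P (l ++ [b]) 0 0 ≤ 3 * P l 0 0 := by
  have h := ineq l
  have e : P (l ++ [b]) 0 0 = P l 0 0 * L b + P l 0 1 := by
    rw [P_append]
    simp [P, C, Matrix.mul_apply, Fin.sum_univ_two]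
  rw [e]
  obtain ⟨h1, h2⟩ := L_pos b
  have := h.p00
  have := h.h1
  nlinarith

/-- a prefix of suitable size -/
theorem exists_prefix (H : ℝ) (hH : 1 ≤ H) : ∃ (k : ℕ) (l : List Bool), (∃ u, m k = l ++ u) ∧
    4 * H < ((P l 0 0 : ℤ) : ℝ) ∧ ((P l 0 0 : ℤ) : ℝ) ≤ 12 * H := by
  obtain ⟨k, hk⟩ := (q_tendsto.eventually (eventually_gt_atTop (4 * H))).exists
  have hex : ∃ j, 4 * H < ((P ((m k).take j) 0 0 : ℤ) : ℝ) := ⟨(m k).length, by
    rw [List.take_length]; exact hk⟩
  classical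
  have h1 := Nat.find_spec hex
  generalize hj : Nat.find hex = j at h1
  have hj0 : j ≠ 0 := by
    rintro rfl
    rw [List.take_zero] at h1
    have : ((P [] 0 0 : ℤ) : ℝ) = 1 := by simp [P]
    rw [this] at h1
    linarith
  obtain ⟨i, rfl⟩ := Nat.exists_eq_succ_of_ne_zero hj0
  have h2 : ¬ 4 * H < ((P ((m k).take i) 0 0 : ℤ) : ℝ) := Nat.find_min hex (by omega)
  refine ⟨k, (m k).take (i + 1), ⟨(m k).drop (i + 1), (List.take_append_drop _ _).symm⟩, h1, ?_⟩
  by_cases hi : i < (m k).length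
  · have h3 : (m k).take (i + 1) = (m k).take i ++ [(m k)[i]] := by
      rw [List.take_append_getElem hi]
    have h4 := P_snoc ((m k).take i) (m k)[i]
    rw [← h3] at h4
    have h5 : ((P ((m k).take (i + 1)) 0 0 : ℤ) : ℝ) ≤ 3 * ((P ((m k).take i) 0 0 : ℤ) : ℝ) := by
      exact_mod_cast h4
    linarith
  · exfalso
    rw [List.take_of_length_le (by omega)] at h1 h2
    exact h2 h1

/-- `ξ` is badly approximable -/
theorem bad (a b : ℤ) (H : ℝ) (hab : ¬ (a = 0 ∧ b = 0)) (hH : 1 ≤ H) (hb : |(b : ℝ)| ≤ H) :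
    1 / (16 * H) ≤ |b * ξ - a| := by
  by_cases hb0 : b = 0
  · have ha : a ≠ 0 := fun h => hab ⟨h, hb0⟩
    rw [hb0, Int.cast_zero, zero_mul, zero_sub, abs_neg]
    have h1 : (1 : ℝ) ≤ |(a : ℝ)| := by exact_mod_cast Int.one_le_abs ha
    refine le_trans ?_ h1
    rw [div_le_one (by linarith)]
    linarith
  · obtain ⟨k, l, hl, h1, h2⟩ := exists_prefix H hH
    have h3 := approx hl
    have hi := ineq l
    generalize hQ : P l 0 0 = Q at *
    generalize hA : P l 1 0 = A at *
    have hQ0 : (0 : ℝ) < Q := by linarith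
    have hne : b * A - a * Q ≠ 0 := by
      intro h
      -- `Q` divides `b`
      have hdvd : Q ∣ b := by
        have hd := hi.det
        rw [hQ, hA] at hd
        have h4 : b * (P l 0 1 * A) = a * Q * P l 0 1 := by linear_combination (P l 0 1) * h
        rcases hd with h5 | h5
        · refine ⟨b * P l 1 1 - a * P l 0 1, ?_⟩
          linear_combination (-b) * h5 - h4
        · refine ⟨-(b * P l 1 1 - a * P l 0 1), ?_⟩
          linear_combination b * h5 + h4
      have h4 : |Q| ≤ |b| := Int.le_of_dvd (abs_pos.2 hb0) ((abs_dvd_abs Q b).2 hdvd)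
      have h5 : |(Q : ℝ)| ≤ |(b : ℝ)| := by exact_mod_cast h4
      rw [abs_of_pos hQ0] at h5
      linarith
    have h4 : (1 : ℝ) ≤ |(b * A - a * Q : ℝ)| := by exact_mod_cast Int.one_le_abs hne
    have h5 : (b * A - a * Q : ℝ) = Q * (b * ξ - a) - b * (Q * (ξ - A / Q)) := by
      field_simp
      ring
    have h6 : |(b : ℝ) * (Q * (ξ - A / Q))| ≤ 1 / 4 := by
      rw [abs_mul, abs_mul, abs_of_pos hQ0]
      calc |(b : ℝ)| * (Q * |ξ - A / Q|) ≤ H * (Q * (1 / (Q : ℝ) ^ 2)) := by gcongr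
        _ = H / Q := by field_simp
        _ ≤ 1 / 4 := by
          rw [div_le_div_iff₀ hQ0 (by norm_num)]
          linarith
    have h7 : 3 / 4 ≤ Q * |b * ξ - a| := by
      rw [h5] at h4
      have h8 := abs_sub (Q * (b * ξ - a)) ((b : ℝ) * (Q * (ξ - A / Q)))
      rw [abs_mul (Q : ℝ) (b * ξ - a), abs_of_pos hQ0] at h8
      linarith
    have h8 : Q * |b * ξ - a| ≤ 12 * H * |b * ξ - a| := mul_le_mul_of_nonneg_right h2 (abs_nonneg _)
    rw [div_le_iff₀ (by linarith)]
    linarith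

theorem linB : LinB ξ := by
  intro ε hε
  refine ⟨1 / 16, by norm_num, fun a b H hab hH ha hb => ?_⟩
  have h1 := bad a b H hab hH hb
  have h2 : H ≤ H ^ (1 + ε) := by
    conv_lhs => rw [← Real.rpow_one H]
    exact Real.rpow_le_rpow_of_exponent_le hH (by linarith)
  rw [div_le_iff₀ (by linarith)] at h1
  have h3 : H * |b * ξ - a| ≤ H ^ (1 + ε) * |b * ξ - a| := mul_le_mul_of_nonneg_right h2 (abs_nonneg _)
  linarith

end Pool.Agent.H595.Dens.Fib
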