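import Pool.Agent.H595.Dens.Lin

/-!
# One further number `t`

`ξ` is a family of real numbers with `ξ i₀ = 0`, in which the entry at the place `i₀` is replaced by `t`.
-/

set_option autoImplicit false

namespace Pool.Agent.H595.Dens

open MeasureTheory Filter Topology Set

variable {ι : Type*} [Fintype ι] [DecidableEq ι]

/-- lower bound for the linear forms in the `ξ i` -/
def LinM (ξ : ι → ℝ) (i₀ : ι) (m : ℝ) : Prop := ∀ ε : ℝ, 0 < ε → ∃ c : ℝ, 0 < c ∧ ∀ (v : ι → ℤ) (H : ℝ),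
  v ≠ 0 → v i₀ = 0 → 1 ≤ H → (∀ i, |(v i : ℝ)| ≤ H) → c ≤ H ^ (m + ε) * |∑ i, (v i : ℝ) * ξ i|

theorem sum_update {ξ : ι → ℝ} {i₀ : ι} (h0 : ξ i₀ = 0) (t : ℝ) (v : ι → ℤ) :
    ∑ i, (v i : ℝ) * Function.update ξ i₀ t i = ∑ i, (v i : ℝ) * ξ i + v i₀ * t := by
  have : ∀ i, (v i : ℝ) * Function.update ξ i₀ t i = (v i : ℝ) * ξ i + if i = i₀ then v i₀ * t else 0 := by
    intro i
    by_cases hi : i = i₀
    · subst hi
      simp [h0]
    · simp [hi]
  rw [Finset.sum_congr rfl (fun i _ => this i), Finset.sum_add_distrib]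
  simp

/-- elimination of `t` -/
theorem elim_bound {ξ : ι → ℝ} {i₀ : ι} (h0 : ξ i₀ = 0) {m : ℝ} (hξ : LinM ξ i₀ m) (t : ℝ)
    (ε : ℝ) (hε : 0 < ε) :
    ∃ c : ℝ, 0 < c ∧ ∀ u v : ι → ℤ, u ≠ 0 → v ≠ 0 →
      (∃ p q : ℤ, ¬ (p = 0 ∧ q = 0) ∧ ∀ i, p * v i = q * u i) ∨
      c ≤ (2 * (ht u * ht v) : ℝ) ^ (m + ε) * (ht v * valu (Function.update ξ i₀ t) u +
        ht u * valu (Function.update ξ i₀ t) v) := by
  obtain ⟨c, hc, h⟩ := hξ ε hε
  refine ⟨c, hc, fun u v hu hv => ?_⟩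
  have hu1 := one_le_ht hu
  have hv1 := one_le_ht hv
  set W : ι → ℤ := fun i => v i₀ * u i - u i₀ * v i with hW
  have hWle : ∀ i, |(W i : ℝ)| ≤ 2 * (ht u * ht v) := by
    intro i
    rw [hW]
    push_cast
    refine (abs_sub _ _).trans ?_
    rw [abs_mul, abs_mul]
    have h1 := mul_le_mul (abs_le_ht v i₀) (abs_le_ht u i) (abs_nonneg _) (Nat.cast_nonneg _)
    have h2 := mul_le_mul (abs_le_ht u i₀) (abs_le_ht v i) (abs_nonneg _) (Nat.cast_nonneg _)
    linarith
  by_cases hW0 : W = 0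
  · by_cases hcase : v i₀ = 0 ∧ u i₀ = 0
    · -- both relations are relations between the `ξ i`
      right
      have h1 := h u (2 * (ht u * ht v)) hu hcase.2 (by nlinarith) (fun i => by
        have := abs_le_ht u i
        nlinarith)
      refine h1.trans (mul_le_mul_of_nonneg_left ?_ (by positivity))
      have h2 : valu (Function.update ξ i₀ t) u = |∑ i, (u i : ℝ) * ξ i| := by
        rw [valu, sum_update h0, hcase.2]
        simp
      have h3 : 0 ≤ valu (Function.update ξ i₀ t) v := abs_nonneg _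
      rw [← h2]
      have h4 : 0 ≤ valu (Function.update ξ i₀ t) u := abs_nonneg _
      have h5 : valu (Function.update ξ i₀ t) u ≤ ht v * valu (Function.update ξ i₀ t) u :=
        le_mul_of_one_le_left h4 hv1
      have h6 : 0 ≤ ht u * valu (Function.update ξ i₀ t) v := by positivity
      linarith
    · left
      refine ⟨u i₀, v i₀, fun hcon => hcase ⟨hcon.2, hcon.1⟩, fun i => ?_⟩
      have := congrFun hW0 i
      simp only [hW, Pi.zero_apply] at this
      linarith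
  · right
    have h1 := h W (2 * (ht u * ht v)) hW0 (by rw [hW]; ring) (by nlinarith) hWle
    refine h1.trans (mul_le_mul_of_nonneg_left ?_ (by positivity))
    have h2 : ∑ i, (W i : ℝ) * ξ i = v i₀ * (∑ i, (u i : ℝ) * Function.update ξ i₀ t i) -
        u i₀ * (∑ i, (v i : ℝ) * Function.update ξ i₀ t i) := by
      rw [sum_update h0, sum_update h0]
      have : ∑ i, (W i : ℝ) * ξ i = v i₀ * (∑ i, (u i : ℝ) * ξ i) - u i₀ * (∑ i, (v i : ℝ) * ξ i) := by
        rw [Finset.mul_sum, Finset.mul_sum, ← Finset.sum_sub_distrib]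
        apply Finset.sum_congr rfl
        intro i _
        rw [hW]
        push_cast
        ring
      rw [this]
      ring
    rw [h2]
    refine (abs_sub _ _).trans ?_
    rw [abs_mul, abs_mul, valu, valu]
    gcongr
    · exact abs_le_ht v i₀
    · exact abs_le_ht u i₀

/-- **Upper bound** for the lower density. -/
theorem dens_gen {ξ : ι → ℝ} {i₀ : ι} (h0 : ξ i₀ = 0) {m : ℝ} (hm : 0 ≤ m) (hξ : LinM ξ i₀ m) {t w : ℝ}
    (hind : ∀ v : ι → ℤ, v ≠ 0 → ∑ i, (v i : ℝ) * Function.update ξ i₀ t i ≠ 0) (hw : 2 * m + 1 < w) :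
    lowerDensity (nearScales (Function.update ξ i₀ t) w) ≤ (m + 1) / w := by
  rw [nearScales_eq hind]
  apply dens_simple (A := m + 1) (B := m) (by linarith) (by linarith) (by linarith) finite_lh
  intro ε hε
  obtain ⟨c, hc, hc'⟩ := elim_bound h0 hξ t ε hε
  refine ⟨(m + ε + 1) * Real.log 2 - Real.log c, fun u v h1 h2 _ _ => ?_⟩
  have hp : 0 < valu (Function.update ξ i₀ t) u.1 := abs_pos.2 (hind u.1 u.2)
  have hp' : 0 < valu (Function.update ξ i₀ t) v.1 := abs_pos.2 (hind v.1 v.2)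
  have hu := one_le_ht u.2
  have hv := one_le_ht v.2
  rcases hc' u.1 v.1 u.2 v.2 with ⟨p, q, hpq, hpq'⟩ | h3
  · exact absurd (not_parallel h1 h2 hp hp' p q hpq') hpq
  have h5 : valu (Function.update ξ i₀ t) v.1 ≤ valu (Function.update ξ i₀ t) u.1 := by
    rw [← exp_lv hp, ← exp_lv hp']
    exact Real.exp_le_exp.2 (by linarith)
  have h6 : (ht u.1 : ℝ) ≤ ht v.1 := by
    rw [← exp_lh, ← exp_lh]
    exact Real.exp_le_exp.2 h1.le
  have h7 : (ht v.1 : ℝ) * valu (Function.update ξ i₀ t) u.1 + ht u.1 * valu (Function.update ξ i₀ t) v.1 ≤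
      2 * ((ht v.1 : ℝ) * valu (Function.update ξ i₀ t) u.1) := by
    have := mul_le_mul h6 h5 hp'.le (by positivity)
    linarith
  have h8 := h3.trans (mul_le_mul_of_nonneg_left h7 (by positivity))
  have hz : (0 : ℝ) < ht u.1 := by linarith
  have hz' : (0 : ℝ) < ht v.1 := by linarith
  have h9 := Real.log_le_log hc h8
  rw [Real.log_mul (by positivity) (by positivity), Real.log_rpow (by positivity),
    Real.log_mul (by positivity) (by positivity), Real.log_mul hz.ne' hz'.ne',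
    Real.log_mul (by norm_num) (by positivity), Real.log_mul hz'.ne' hp.ne'] at h9
  simp only [lv, lh]
  linarith

/-- Dirichlet's theorem, by the pigeonhole principle -/
theorem dirichlet (ξ : ι → ℝ) (i₀ : ι) (m : ℕ) (hm : Fintype.card ι = m + 2) :
    ∃ C : ℝ, 0 < C ∧ ∀ Q : ℕ, 1 ≤ Q → ∃ P : ι → ℤ, P ≠ 0 ∧ P i₀ = 0 ∧ (∀ i, |(P i : ℝ)| ≤ Q) ∧
      |∑ i, (P i : ℝ) * ξ i| ≤ C / Q ^ m := by
  obtain ⟨A, hA⟩ : ∃ A : ℝ, A = 1 + ∑ i, |ξ i| := ⟨_, rfl⟩
  have hA1 : 1 ≤ A := by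
    rw [hA]
    have : 0 ≤ ∑ i, |ξ i| := Finset.sum_nonneg fun _ _ => abs_nonneg _
    linarith
  refine ⟨4 * A, by linarith, fun Q hQ => ?_⟩
  have hQ0 : (0 : ℝ) < Q := by exact_mod_cast hQ
  -- the box
  set box : Finset (ι → ℤ) := Fintype.piFinset fun i => if i = i₀ then {0} else Finset.Icc (0 : ℤ) Q with hbox
  have hcard : box.card = (Q + 1) ^ (m + 1) := by
    rw [hbox, Fintype.card_piFinset, ← Finset.mul_prod_erase Finset.univ _ (Finset.mem_univ i₀)]
    rw [Finset.prod_congr rfl (g := fun _ => Q + 1)]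
    · rw [Finset.prod_const, Finset.card_erase_of_mem (Finset.mem_univ _), Finset.card_univ, hm]
      simp
    · intro i hi
      have : i ≠ i₀ := Finset.ne_of_mem_erase hi
      simp [this]
  -- the pigeons
  have hmem : ∀ v ∈ box, v i₀ = 0 ∧ ∀ i, 0 ≤ v i ∧ v i ≤ Q := by
    intro v hv
    rw [hbox, Fintype.mem_piFinset] at hv
    have h1 : v i₀ = 0 := by simpa using hv i₀
    refine ⟨h1, fun i => ?_⟩
    by_cases hi : i = i₀
    · rw [hi, h1]
      exact ⟨le_rfl, by positivity⟩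
    · have := hv i
      rw [if_neg hi, Finset.mem_Icc] at this
      exact this
  have hval : ∀ v ∈ box, |∑ i, (v i : ℝ) * ξ i| ≤ Q * A := by
    intro v hv
    obtain ⟨-, h2⟩ := hmem v hv
    calc |∑ i, (v i : ℝ) * ξ i| ≤ ∑ i, |(v i : ℝ) * ξ i| := Finset.abs_sum_le_sum_abs _ _
      _ ≤ ∑ i, Q * |ξ i| := by
          apply Finset.sum_le_sum
          intro i _
          rw [abs_mul]
          gcongr
          rw [abs_of_nonneg (by exact_mod_cast (h2 i).1)]
          exact_mod_cast (h2 i).2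
      _ = Q * ∑ i, |ξ i| := by rw [Finset.mul_sum]
      _ ≤ Q * A := by
          gcongr
          rw [hA]
          linarith
  -- the holes
  obtain ⟨δ, hδ⟩ : ∃ δ : ℝ, δ = 4 * A / Q ^ m := ⟨_, rfl⟩
  have hδ0 : 0 < δ := by rw [hδ]; positivity
  set F : (ι → ℤ) → ℤ := fun v => ⌊(∑ i, (v i : ℝ) * ξ i + Q * A) / δ⌋ with hF
  set holes : Finset ℤ := Finset.Icc 0 ((Q : ℤ) ^ (m + 1) / 2) with hholes
  have hcard2 : holes.card < box.card := by
    rw [hcard, hholes, Int.card_Icc]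
    have h1 : ((Q : ℤ) ^ (m + 1) / 2 + 1 - 0).toNat = Q ^ (m + 1) / 2 + 1 := by
      have : ((Q : ℤ) ^ (m + 1) / 2 + 1 - 0) = ((Q ^ (m + 1) / 2 + 1 : ℕ) : ℤ) := by push_cast; ring
      rw [this, Int.toNat_natCast]
    rw [h1]
    have h2 : Q ^ (m + 1) < (Q + 1) ^ (m + 1) := Nat.pow_lt_pow_left (by omega) (by omega)
    have h3 : 1 ≤ Q ^ (m + 1) := Nat.one_le_pow _ _ hQ
    omega
  have hmaps : ∀ v ∈ box, F v ∈ holes := by
    intro v hv
    have h1 := abs_le.1 (hval v hv)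
    rw [hholes, Finset.mem_Icc]
    constructor
    · apply Int.floor_nonneg.2
      apply div_nonneg _ hδ0.le
      linarith
    · have h2 : (∑ i, (v i : ℝ) * ξ i + Q * A) / δ ≤ (((Q : ℤ) ^ (m + 1) : ℤ) : ℝ) / ((2 : ℕ) : ℝ) := by
        rw [div_le_iff₀ hδ0, hδ]
        have : (((Q : ℤ) ^ (m + 1) : ℤ) : ℝ) / ((2 : ℕ) : ℝ) * (4 * A / Q ^ m) = 2 * (Q * A) := by
          push_cast
          field_simp
          ring
        rw [this]
        linarith
      have h3 := Int.floor_le_floor h2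
      rw [hF]
      refine h3.trans (le_of_eq ?_)
      rw [Int.floor_div_natCast, Int.floor_intCast]
      rfl
  obtain ⟨v, hv, v', hv', hne, heq⟩ := Finset.exists_ne_map_eq_of_card_lt_of_maps_to hcard2 hmaps
  obtain ⟨a1, a2⟩ := hmem v hv
  obtain ⟨b1, b2⟩ := hmem v' hv'
  refine ⟨v - v', sub_ne_zero.2 hne, by simp [a1, b1], fun i => ?_, ?_⟩
  · have h1 : |(v - v') i| ≤ (Q : ℤ) := by
      rw [Pi.sub_apply, abs_le]
      have := a2 i
      have := b2 i
      constructor <;> linarith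
    exact_mod_cast h1
  · have h1 : |(∑ i, (v i : ℝ) * ξ i + Q * A) / δ - (∑ i, (v' i : ℝ) * ξ i + Q * A) / δ| < 1 :=
      Int.abs_sub_lt_one_of_floor_eq_floor heq
    rw [← sub_div, abs_div, abs_of_pos hδ0, div_lt_one hδ0] at h1
    have h2 : ∑ i, ((v - v') i : ℝ) * ξ i =
        (∑ i, (v i : ℝ) * ξ i + Q * A) - (∑ i, (v' i : ℝ) * ξ i + Q * A) := by
      rw [add_sub_add_right_eq_sub, ← Finset.sum_sub_distrib]
      apply Finset.sum_congr rfl
      intro i _
      rw [Pi.sub_apply]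
      push_cast
      ring
    rw [h2, ← hδ]
    exact h1.le

end Pool.Agent.H595.Dens
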