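import Pool.Agent.H595.Dens.Seq

/-!
# Lower densities, and the sequence of the good relations

A relation `v` has a size `exp (X v)` and a value `exp (- ℓ v)`. It is good at the scale `exp x` if `X v ≤ x` and
`w x ≤ ℓ v`.
-/

set_option autoImplicit false

namespace Pool.Agent.H595.Dens

open MeasureTheory Filter Topology Set

/-- the lower density of a set of positive real numbers -/
noncomputable def lowerDensity (S : Set ℝ) : ℝ :=
  liminf (fun T : ℝ => (volume (S ∩ Icc 0 T)).toReal / T) atTop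

theorem vol_ne_top (S : Set ℝ) (T : ℝ) : volume (S ∩ Icc 0 T) ≠ ⊤ :=
  ((measure_mono inter_subset_right).trans_lt measure_Icc_lt_top).ne

theorem vol_le (S : Set ℝ) {T : ℝ} (hT : 0 ≤ T) : (volume (S ∩ Icc 0 T)).toReal ≤ T := by
  have h1 : volume (S ∩ Icc 0 T) ≤ ENNReal.ofReal (T - 0) := by
    rw [← Real.volume_Icc]
    exact measure_mono inter_subset_right
  have h2 := ENNReal.toReal_mono ENNReal.ofReal_ne_top h1
  rwa [ENNReal.toReal_ofReal (by linarith), sub_zero] at h2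

theorem bdd_below (S : Set ℝ) :
    IsBoundedUnder (· ≥ ·) atTop (fun T : ℝ => (volume (S ∩ Icc 0 T)).toReal / T) :=
  ⟨0, by
    rw [eventually_map]
    filter_upwards [eventually_ge_atTop 0] with T hT
    positivity⟩

theorem bdd_above (S : Set ℝ) :
    IsBoundedUnder (· ≤ ·) atTop (fun T : ℝ => (volume (S ∩ Icc 0 T)).toReal / T) :=
  ⟨1, by
    rw [eventually_map]
    filter_upwards [eventually_gt_atTop 0] with T hT
    rw [div_le_one hT]
    exact vol_le S hT.le⟩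

theorem lowerDensity_nonneg (S : Set ℝ) : 0 ≤ lowerDensity S := by
  apply le_liminf_of_le (bdd_above S).isCoboundedUnder_ge
  filter_upwards [eventually_ge_atTop 0] with T hT
  positivity

/-- the density is at most `D` if it is so along a sequence -/
theorem lowerDensity_le {S : Set ℝ} {D : ℝ} {x : ℕ → ℝ} (hlim : Tendsto x atTop atTop)
    (h : ∀ η : ℝ, 0 < η → ∀ N : ℕ, ∃ n, N ≤ n ∧ (volume (S ∩ Icc 0 (x n))).toReal ≤ (D + η) * x n) :
    lowerDensity S ≤ D := by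
  apply le_of_forall_pos_le_add
  intro η hη
  apply liminf_le_of_frequently_le _ (bdd_below S)
  rw [frequently_atTop]
  intro B
  obtain ⟨N, hN⟩ := eventually_atTop.1 (hlim.eventually (eventually_ge_atTop (max B 1)))
  obtain ⟨n, hn, h1⟩ := h η hη N
  have h2 := hN n hn
  have h3 : 0 < x n := lt_of_lt_of_le one_pos ((le_max_right _ _).trans h2)
  refine ⟨x n, (le_max_left _ _).trans h2, ?_⟩
  rwa [div_le_iff₀ h3]

/-- the density is at least `D` -/
theorem le_lowerDensity {S : Set ℝ} {D : ℝ}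
    (h : ∀ η : ℝ, 0 < η → ∃ T₀ : ℝ, ∀ T : ℝ, T₀ ≤ T → (D - η) * T ≤ (volume (S ∩ Icc 0 T)).toReal) :
    D ≤ lowerDensity S := by
  apply le_of_forall_pos_le_add
  intro η hη
  obtain ⟨T₀, hT₀⟩ := h η hη
  have h1 : D - η ≤ lowerDensity S := by
    apply le_liminf_of_le (bdd_above S).isCoboundedUnder_ge
    filter_upwards [eventually_ge_atTop T₀, eventually_gt_atTop 0] with T h1 h2
    rw [le_div_iff₀ h2]
    exact hT₀ T h1
  linarith

theorem lowerDensity_of_bdd {S : Set ℝ} {B : ℝ} (h : ∀ x ∈ S, x ≤ B) : lowerDensity S = 0 := by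
  refine le_antisymm ?_ (lowerDensity_nonneg S)
  refine lowerDensity_le (x := fun n : ℕ => (n : ℝ)) tendsto_natCast_atTop_atTop ?_
  intro η hη N
  obtain ⟨M, hM⟩ := exists_nat_ge (max (N : ℝ) (max B 0 / η))
  have hMN : N ≤ M := by
    have := (le_max_left _ _).trans hM
    exact_mod_cast this
  refine ⟨M, hMN, ?_⟩
  have h1 : volume (S ∩ Icc 0 (M : ℝ)) ≤ ENNReal.ofReal (max B 0 - 0) := by
    rw [← Real.volume_Icc]
    apply measure_mono
    intro y hy
    exact ⟨hy.2.1, (h y hy.1).trans (le_max_left _ _)⟩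
  have h2 := ENNReal.toReal_mono ENNReal.ofReal_ne_top h1
  rw [ENNReal.toReal_ofReal (by simp), sub_zero] at h2
  have h3 := (le_max_right _ _).trans hM
  rw [div_le_iff₀ hη] at h3
  linarith

/-- one step -/
theorem meas_step {S : Set ℝ} {s t μ : ℝ} (hsμ : s ≤ μ)
    (h : ∀ y ∈ S, s ≤ y → y < t → y ≤ μ) :
    (volume (S ∩ Icc 0 t)).toReal ≤ (volume (S ∩ Icc 0 s)).toReal + (μ - s) := by
  have h1 : S ∩ Icc 0 t ⊆ (S ∩ Icc 0 s) ∪ (Icc s μ ∪ {t}) := by
    rintro y ⟨hyS, hy0, hyt⟩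
    by_cases hys : y ≤ s
    · exact Or.inl ⟨hyS, hy0, hys⟩
    · rcases hyt.lt_or_eq with h2 | h2
      · exact Or.inr (Or.inl ⟨(not_le.1 hys).le, h y hyS (not_le.1 hys).le h2⟩)
      · exact Or.inr (Or.inr h2)
  have h2 : volume (S ∩ Icc 0 t) ≤ volume (S ∩ Icc 0 s) + ENNReal.ofReal (μ - s) := by
    refine (measure_mono h1).trans ((measure_union_le _ _).trans ?_)
    gcongr
    refine (measure_union_le _ _).trans ?_
    rw [Real.volume_singleton, add_zero, Real.volume_Icc]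
  have h3 := ENNReal.toReal_mono (by
    rw [Ne, ENNReal.add_eq_top, not_or]
    exact ⟨vol_ne_top S s, ENNReal.ofReal_ne_top⟩) h2
  rwa [ENNReal.toReal_add (vol_ne_top S s) ENNReal.ofReal_ne_top,
    ENNReal.toReal_ofReal (by linarith)] at h3

/-- the scales at which there is a good relation -/
def goodScales {V : Type*} (X ℓ : V → ℝ) (w : ℝ) : Set ℝ := {x | ∃ v, X v ≤ x ∧ w * x ≤ ℓ v}

/-- the sequence of the good relations -/
structure GoodSeq {V : Type*} (X ℓ : V → ℝ) (w : ℝ) (s : ℕ → V) : Prop where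
  incX : ∀ n, X (s n) < X (s (n + 1))
  incL : ∀ n, ℓ (s n) < ℓ (s (n + 1))
  good : ∀ n, w * X (s n) ≤ ℓ (s n)
  minimal : ∀ n u, X u ≤ X (s n) → ℓ u ≤ ℓ (s n)
  cover : ∀ n, ∀ x ∈ goodScales X ℓ w, X (s n) ≤ x → x < X (s (n + 1)) → w * x ≤ ℓ (s n)
  lim : Tendsto (fun n => X (s n)) atTop atTop

/-- the next good relation -/
theorem exists_next {V : Type*} {X ℓ : V → ℝ} {w : ℝ} (hw : 0 < w)
    (hfin : ∀ B : ℝ, {v | X v ≤ B}.Finite) (hunb : ∀ B : ℝ, ∃ x ∈ goodScales X ℓ w, B ≤ x) (v : V) :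
    ∃ u, (ℓ v < ℓ u ∧ w * X u ≤ ℓ u) ∧ (∀ t, ℓ v < ℓ t → w * X t ≤ ℓ t → X u ≤ X t) ∧
      (∀ t, ℓ v < ℓ t → w * X t ≤ ℓ t → X t = X u → ℓ t ≤ ℓ u) := by
  set G : Set V := {u | ℓ v < ℓ u ∧ w * X u ≤ ℓ u} with hG
  obtain ⟨x, ⟨u₀, hu₀, hu₀'⟩, hx⟩ := hunb ((ℓ v + 1) / w)
  rw [div_le_iff₀' hw] at hx
  have hu₀G : u₀ ∈ G := by
    refine ⟨by linarith, ?_⟩
    have := mul_le_mul_of_nonneg_left hu₀ hw.le
    linarith
  have hGfin : (G ∩ {u | X u ≤ X u₀}).Finite := (hfin _).subset inter_subset_right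
  obtain ⟨u₁, hu₁, hu₁'⟩ := exists_min_image (G ∩ {u | X u ≤ X u₀}) X hGfin ⟨u₀, hu₀G, le_refl (X u₀)⟩
  have hG1fin : (G ∩ {u | X u = X u₁}).Finite :=
    (hfin (X u₁)).subset (fun u hu => le_of_eq hu.2)
  obtain ⟨u₂, hu₂, hu₂'⟩ := exists_max_image (G ∩ {u | X u = X u₁}) ℓ hG1fin ⟨u₁, hu₁.1, rfl⟩
  refine ⟨u₂, hu₂.1, fun t ht1 ht2 => ?_, fun t ht1 ht2 ht3 => ?_⟩
  · have e : X u₂ = X u₁ := hu₂.2
    rw [e]
    by_cases h : X t ≤ X u₀
    · exact hu₁' t ⟨⟨ht1, ht2⟩, h⟩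
    · exact (show X u₁ ≤ X u₀ from hu₁.2).trans (not_le.1 h).le
  · have e : X u₂ = X u₁ := hu₂.2
    exact hu₂' t ⟨⟨ht1, ht2⟩, ht3.trans e⟩

theorem exists_goodSeq {V : Type*} {X ℓ : V → ℝ} {w : ℝ} (hw : 0 < w)
    (hfin : ∀ B : ℝ, {v | X v ≤ B}.Finite) (hunb : ∀ B : ℝ, ∃ x ∈ goodScales X ℓ w, B ≤ x) :
    ∃ s : ℕ → V, GoodSeq X ℓ w s := by
  choose next hn1 hn2 hn3 using exists_next hw hfin hunb
  obtain ⟨x, ⟨v₀, -, -⟩, -⟩ := hunb 0
  -- the sequence
  let r : ℕ → V := fun n => next^[n] v₀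
  have hr : ∀ n, r (n + 1) = next (r n) := fun n => Function.iterate_succ_apply' next n v₀
  have hincL : ∀ n, ℓ (r n) < ℓ (r (n + 1)) := fun n => by rw [hr]; exact (hn1 _).1
  have hgood : ∀ n, w * X (r (n + 1)) ≤ ℓ (r (n + 1)) := fun n => by rw [hr]; exact (hn1 _).2
  have hincX : ∀ n, X (r (n + 1)) < X (r (n + 2)) := by
    intro n
    have h1 : ℓ (r n) < ℓ (r (n + 2)) := (hincL n).trans (hincL (n + 1))
    have h2 : X (r (n + 1)) ≤ X (r (n + 2)) := by
      conv_lhs => rw [hr]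
      exact hn2 _ _ h1 (hgood (n + 1))
    refine lt_of_le_of_ne h2 (fun h3 => ?_)
    have h4 := hn3 (r n) (r (n + 2)) h1 (hgood (n + 1)) (by rw [← hr]; exact h3.symm)
    rw [← hr] at h4
    exact absurd (hincL (n + 1)) (not_lt.2 h4)
  have hmin : ∀ n u, X u ≤ X (r (n + 1)) → ℓ u ≤ ℓ (r (n + 1)) := by
    intro n u hu
    by_contra hcon
    rw [not_le] at hcon
    have h1 : ℓ (r n) < ℓ u := (hincL n).trans hcon
    have h2 : w * X u ≤ ℓ u := by
      have := mul_le_mul_of_nonneg_left hu hw.le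
      have := hgood n
      linarith
    have h3 : X (r (n + 1)) ≤ X u := by
      conv_lhs => rw [hr]
      exact hn2 _ _ h1 h2
    have h4 := hn3 (r n) u h1 h2 (by rw [← hr]; exact le_antisymm hu h3)
    rw [← hr] at h4
    linarith
  have hmonoL : StrictMono (fun n => ℓ (r n)) := strictMono_nat_of_lt_succ hincL
  refine ⟨fun n => r (n + 1), ⟨hincX, fun n => hincL (n + 1), hgood, hmin, ?_, ?_⟩⟩
  · rintro n x ⟨u, hu1, hu2⟩ h1 h2
    by_contra hcon
    rw [not_le] at hcon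
    have h3 : ℓ (r (n + 1)) < ℓ u := hcon.trans_le hu2
    have h4 : w * X u ≤ ℓ u := by
      have := mul_le_mul_of_nonneg_left hu1 hw.le
      linarith
    have h5 := hn2 (r (n + 1)) u h3 h4
    rw [← hr] at h5
    linarith
  · rw [tendsto_atTop]
    intro B
    have hinj : Function.Injective (fun n => r (n + 1)) := by
      intro m n hmn
      have := hmonoL.injective (a₁ := m + 1) (a₂ := n + 1) (congrArg ℓ hmn)
      omega
    have hfin' : {n : ℕ | X (r (n + 1)) ≤ B}.Finite :=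
      ((hfin B).preimage hinj.injOn)
    obtain ⟨N, hN⟩ := hfin'.bddAbove
    filter_upwards [eventually_gt_atTop N] with n hn
    by_contra hcon
    exact absurd (hN (show n ∈ {n : ℕ | X (r (n + 1)) ≤ B} from (not_le.1 hcon).le)) (by omega)

/-- the recursion for the measure -/
theorem GoodSeq.meas {V : Type*} {X ℓ : V → ℝ} {w : ℝ} {s : ℕ → V} (hw : 0 < w) (h : GoodSeq X ℓ w s)
    (n : ℕ) :
    (volume (goodScales X ℓ w ∩ Icc 0 (X (s (n + 1))))).toReal ≤
      (volume (goodScales X ℓ w ∩ Icc 0 (X (s n)))).toReal + 1 / w * ℓ (s n) - X (s n) := by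
  have h1 : X (s n) ≤ 1 / w * ℓ (s n) := by
    rw [one_div, ← div_eq_inv_mul, le_div_iff₀' hw]
    exact h.good n
  have h2 := meas_step (S := goodScales X ℓ w) (s := X (s n)) (t := X (s (n + 1))) h1 (by
    intro y hy hy1 hy2
    rw [one_div, ← div_eq_inv_mul, le_div_iff₀' hw]
    exact h.cover n y hy hy1 hy2)
  linarith

theorem GoodSeq.monoX {V : Type*} {X ℓ : V → ℝ} {w : ℝ} {s : ℕ → V} (h : GoodSeq X ℓ w s) :
    StrictMono (fun n => X (s n)) := strictMono_nat_of_lt_succ h.incX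

theorem GoodSeq.monoL {V : Type*} {X ℓ : V → ℝ} {w : ℝ} {s : ℕ → V} (h : GoodSeq X ℓ w s) :
    StrictMono (fun n => ℓ (s n)) := strictMono_nat_of_lt_succ h.incL

/-- the recursion for the measure between two indices -/
theorem GoodSeq.meas' {V : Type*} {X ℓ : V → ℝ} {w : ℝ} {s : ℕ → V} (hw : 0 < w) (h : GoodSeq X ℓ w s)
    (i j : ℕ) (hij : i ≤ j) :
    (volume (goodScales X ℓ w ∩ Icc 0 (X (s (j + 1))))).toReal ≤
      (volume (goodScales X ℓ w ∩ Icc 0 (X (s i)))).toReal + 1 / w * ℓ (s j) - X (s i) := by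
  have h0 : X (s j) ≤ 1 / w * ℓ (s j) := by
    rw [one_div, ← div_eq_inv_mul, le_div_iff₀' hw]
    exact h.good j
  have h1 : X (s i) ≤ 1 / w * ℓ (s j) := (h.monoX.monotone hij).trans h0
  have h2 := meas_step (S := goodScales X ℓ w) (s := X (s i)) (t := X (s (j + 1))) h1 (by
    intro y hy hy1 hy2
    by_cases hyj : X (s j) ≤ y
    · rw [one_div, ← div_eq_inv_mul, le_div_iff₀' hw]
      exact h.cover j y hy hyj hy2
    · exact (not_le.1 hyj).le.trans h0)
  linarith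

/-- **Simple bound for the lower density.** -/
theorem dens_simple {V : Type*} {X ℓ : V → ℝ} {w A B : ℝ} (hw : 0 < w) (hA : 0 ≤ A) (hAB : A + B < w)
    (hfin : ∀ B : ℝ, {v | X v ≤ B}.Finite)
    (hP : ∀ ε : ℝ, 0 < ε → ∃ C : ℝ, ∀ u v, X u < X v → ℓ u < ℓ v →
      (∀ t, X t ≤ X v → ℓ t ≤ ℓ v) → (∀ t, X t ≤ X u → ℓ t ≤ ℓ u) →
      ℓ u ≤ (A + ε) * X v + (B + ε) * X u + C) :
    lowerDensity (goodScales X ℓ w) ≤ A / w := by
  by_cases hunb : ∀ B : ℝ, ∃ x ∈ goodScales X ℓ w, B ≤ x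
  · obtain ⟨s, hs⟩ := exists_goodSeq hw hfin hunb
    refine lowerDensity_le hs.lim (fun η hη N => ?_)
    obtain ⟨N', hN'⟩ := seq_simple (x := fun n => X (s n)) (ℓ := fun n => ℓ (s n))
      (f := fun n => (volume (goodScales X ℓ w ∩ Icc 0 (X (s n)))).toReal) (a := 1 / w) (A := A) (B := B)
      (by positivity) hs.lim (fun n => hs.meas hw n) (fun ε hε => by
        obtain ⟨C, hC⟩ := hP ε hε
        exact ⟨C, fun n => hC _ _ (hs.incX n) (hs.incL n) (hs.minimal (n + 1)) (hs.minimal n)⟩)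
      (by rw [one_div, ← div_eq_inv_mul, div_lt_one hw]; exact hAB) η hη
    refine ⟨max N N', le_max_left _ _, ?_⟩
    have := hN' _ (le_max_right N N')
    rwa [one_div, ← div_eq_inv_mul] at this
  · push Not at hunb
    obtain ⟨B, hB⟩ := hunb
    rw [lowerDensity_of_bdd (fun x hx => (hB x hx).le)]
    positivity

end Pool.Agent.H595.Dens
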