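import Pool.Agent.H595.Dens.Good

/-!
# Near relations between real numbers
-/

set_option autoImplicit false

namespace Pool.Agent.H595.Dens

open MeasureTheory Filter Topology Set

variable {ι : Type*} [Fintype ι]

/-- the scales `x` at which there is an integer relation of height at most `exp x` and value at most
`exp x ^ (- w)` -/
def nearScales (θ : ι → ℝ) (w : ℝ) : Set ℝ :=
  {x | ∃ v : ι → ℤ, v ≠ 0 ∧ (∀ i, |(v i : ℝ)| ≤ Real.exp x) ∧ |∑ i, (v i : ℝ) * θ i| ≤ Real.exp x ^ (-w)}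

/-- the height -/
def ht (v : ι → ℤ) : ℕ := Finset.univ.sup fun i => (v i).natAbs

theorem abs_le_ht (v : ι → ℤ) (i : ι) : |(v i : ℝ)| ≤ ht v := by
  have h1 : (v i).natAbs ≤ ht v := Finset.le_sup (f := fun i => (v i).natAbs) (Finset.mem_univ i)
  have h2 : (((v i).natAbs : ℕ) : ℝ) ≤ ht v := by exact_mod_cast h1
  rwa [Nat.cast_natAbs, Int.cast_abs] at h2

theorem ht_le {v : ι → ℤ} {B : ℝ} (hB : 0 ≤ B) : (ht v : ℝ) ≤ B ↔ ∀ i, |(v i : ℝ)| ≤ B := by
  constructor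
  · intro h i
    exact (abs_le_ht v i).trans h
  · intro h
    have h1 : ht v ≤ ⌊B⌋₊ := by
      apply Finset.sup_le
      intro i _
      rw [Nat.le_floor_iff hB, Nat.cast_natAbs, Int.cast_abs]
      exact h i
    exact (Nat.cast_le.2 h1).trans (Nat.floor_le hB)

theorem one_le_ht {v : ι → ℤ} (hv : v ≠ 0) : (1 : ℝ) ≤ ht v := by
  obtain ⟨i, hi⟩ := Function.ne_iff.1 hv
  refine le_trans ?_ (abs_le_ht v i)
  have : 1 ≤ |v i| := Int.one_le_abs hi
  exact_mod_cast this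

theorem exists_abs_eq_ht {v : ι → ℤ} (hv : v ≠ 0) : ∃ i, |(v i : ℝ)| = ht v := by
  obtain ⟨j, -⟩ := Function.ne_iff.1 hv
  obtain ⟨i, -, hi⟩ := Finset.exists_mem_eq_sup Finset.univ ⟨j, Finset.mem_univ j⟩ (fun i => (v i).natAbs)
  refine ⟨i, ?_⟩
  rw [ht, hi, Nat.cast_natAbs, Int.cast_abs]

theorem finite_ht (n : ℝ) : {v : ι → ℤ | (ht v : ℝ) ≤ n}.Finite := by
  classical
  rcases lt_or_ge n 0 with hn | hn
  · convert Set.finite_empty
    ext v
    simp only [mem_ofPred_eq, mem_empty_iff_false, iff_false, not_le]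
    exact hn.trans_le (Nat.cast_nonneg _)
  · refine (Finset.finite_toSet (Fintype.piFinset fun _ : ι => Finset.Icc (-(⌊n⌋₊ : ℤ)) ⌊n⌋₊)).subset ?_
    intro v hv
    rw [Finset.mem_coe, Fintype.mem_piFinset]
    intro i
    have h1 := (ht_le hn).1 hv i
    rw [Finset.mem_Icc]
    have h2 : (v i).natAbs ≤ ⌊n⌋₊ := by
      rw [Nat.le_floor_iff hn, Nat.cast_natAbs, Int.cast_abs]
      exact h1
    omega

/-- the relations -/
abbrev Rel (ι : Type*) := {v : ι → ℤ // v ≠ 0}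

/-- the logarithm of the height -/
noncomputable def lh (v : Rel ι) : ℝ := Real.log (ht v.1)

/-- the value -/
def valu (θ : ι → ℝ) (v : ι → ℤ) : ℝ := |∑ i, (v i : ℝ) * θ i|

/-- minus the logarithm of the value -/
noncomputable def lv (θ : ι → ℝ) (v : Rel ι) : ℝ := -Real.log (valu θ v.1)

theorem lh_nonneg (v : Rel ι) : 0 ≤ lh v := Real.log_nonneg (one_le_ht v.2)

theorem exp_lh (v : Rel ι) : Real.exp (lh v) = ht v.1 :=
  Real.exp_log (lt_of_lt_of_le one_pos (one_le_ht v.2))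

theorem exp_lv {θ : ι → ℝ} {v : Rel ι} (h : 0 < valu θ v.1) : Real.exp (-lv θ v) = valu θ v.1 := by
  rw [lv, neg_neg, Real.exp_log h]

theorem finite_lh (B : ℝ) : {v : Rel ι | lh v ≤ B}.Finite := by
  have h1 : {v : Rel ι | lh v ≤ B} ⊆ Subtype.val ⁻¹' {v : ι → ℤ | (ht v : ℝ) ≤ Real.exp B} := by
    intro v hv
    show (ht v.1 : ℝ) ≤ Real.exp B
    rw [← exp_lh]
    exact Real.exp_le_exp.2 hv
  exact ((finite_ht _).preimage Subtype.val_injective.injOn).subset h1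

theorem nearScales_eq {θ : ι → ℝ} (hθ : ∀ v : ι → ℤ, v ≠ 0 → ∑ i, (v i : ℝ) * θ i ≠ 0) (w : ℝ) :
    nearScales θ w = goodScales (lh (ι := ι)) (lv θ) w := by
  ext x
  constructor
  · rintro ⟨v, hv, h1, h2⟩
    refine ⟨⟨v, hv⟩, ?_, ?_⟩
    · rw [← Real.exp_le_exp, exp_lh]
      exact (ht_le (Real.exp_pos x).le).2 h1
    · have h3 : 0 < valu θ v := abs_pos.2 (hθ v hv)
      rw [← neg_le_neg_iff, ← Real.exp_le_exp, exp_lv (v := ⟨v, hv⟩) h3]
      rw [← Real.exp_mul] at h2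
      rw [valu]
      convert h2 using 2
      ring
  · rintro ⟨⟨v, hv⟩, h1, h2⟩
    refine ⟨v, hv, ?_, ?_⟩
    · rw [← Real.exp_le_exp, exp_lh] at h1
      exact (ht_le (Real.exp_pos x).le).1 h1
    · have h3 : 0 < valu θ v := abs_pos.2 (hθ v hv)
      rw [← neg_le_neg_iff, ← Real.exp_le_exp, exp_lv (v := ⟨v, hv⟩) h3] at h2
      rw [← Real.exp_mul]
      rw [valu] at h2
      convert h2 using 2
      ring

/-- parallel vectors -/
theorem not_parallel {θ : ι → ℝ} {u v : Rel ι} (h1 : lh u < lh v)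
    (h2 : lv θ u < lv θ v) (hu : 0 < valu θ u.1) (hv : 0 < valu θ v.1) (p q : ℤ)
    (hpq : ∀ i, p * v.1 i = q * u.1 i) : p = 0 ∧ q = 0 := by
  by_contra hcon
  have hu1 := one_le_ht u.2
  have hv1 := one_le_ht v.2
  have hlt : (ht u.1 : ℝ) < ht v.1 := by
    rw [← exp_lh, ← exp_lh]
    exact Real.exp_lt_exp.2 h1
  have hlt2 : valu θ v.1 < valu θ u.1 := by
    rw [← exp_lv hu, ← exp_lv hv]
    exact Real.exp_lt_exp.2 (by linarith)
  have e1 : |(p : ℝ)| * ht v.1 = |(q : ℝ)| * ht u.1 := by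
    apply le_antisymm
    · obtain ⟨i, hi⟩ := exists_abs_eq_ht v.2
      rw [← hi, ← abs_mul]
      have : (p : ℝ) * v.1 i = q * u.1 i := by exact_mod_cast hpq i
      rw [this, abs_mul]
      exact mul_le_mul_of_nonneg_left (abs_le_ht _ _) (abs_nonneg _)
    · obtain ⟨i, hi⟩ := exists_abs_eq_ht u.2
      rw [← hi, ← abs_mul]
      have : (p : ℝ) * v.1 i = q * u.1 i := by exact_mod_cast hpq i
      rw [← this, abs_mul]
      exact mul_le_mul_of_nonneg_left (abs_le_ht _ _) (abs_nonneg _)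
  have e2 : |(p : ℝ)| * valu θ v.1 = |(q : ℝ)| * valu θ u.1 := by
    rw [valu, valu, ← abs_mul, ← abs_mul, Finset.mul_sum, Finset.mul_sum]
    congr 1
    apply Finset.sum_congr rfl
    intro i _
    have : (p : ℝ) * v.1 i = q * u.1 i := by exact_mod_cast hpq i
    rw [← mul_assoc, this, mul_assoc]
  have hp0 : 0 ≤ |(p : ℝ)| := abs_nonneg _
  have hq0 : 0 ≤ |(q : ℝ)| := abs_nonneg _
  rcases hp0.eq_or_lt with hp | hp
  · rw [← hp, zero_mul] at e1
    rcases mul_eq_zero.1 e1.symm with h3 | h3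
    · apply hcon
      rw [eq_comm, abs_eq_zero, Int.cast_eq_zero] at hp
      rw [abs_eq_zero, Int.cast_eq_zero] at h3
      exact ⟨hp, h3⟩
    · linarith
  · have h3 : |(p : ℝ)| < |(q : ℝ)| := by
      by_contra h4
      rw [not_lt] at h4
      have : |(q : ℝ)| * ht u.1 < |(p : ℝ)| * ht v.1 := by
        calc |(q : ℝ)| * ht u.1 ≤ |(p : ℝ)| * ht u.1 := by gcongr
          _ < |(p : ℝ)| * ht v.1 := by gcongr
      linarith
    have hq' : 0 < |(q : ℝ)| := hp.trans h3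
    have : |(p : ℝ)| * valu θ v.1 < |(q : ℝ)| * valu θ u.1 := by
      calc |(p : ℝ)| * valu θ v.1 ≤ |(q : ℝ)| * valu θ v.1 := by gcongr
        _ < |(q : ℝ)| * valu θ u.1 := by gcongr
    linarith

end Pool.Agent.H595.Dens
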