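import Mathlib

/-!
# Two lemmas on real sequences

`x n` is the logarithm of the size of the `n`-th relation, `f n` the measure of the set of scales below `x n`
at which there is a good relation.
-/

set_option autoImplicit false

namespace Pool.Agent.H595.Dens

open Filter Topology

/-- If `Ψ (n + 1) ≥ Ψ n` from `n₀` on, then `Ψ n ≥ Ψ n₀`. -/
theorem mono_from {Ψ : ℕ → ℝ} {n₀ : ℕ} (h : ∀ n, n₀ ≤ n → Ψ n ≤ Ψ (n + 1)) :
    ∀ n, n₀ ≤ n → Ψ n₀ ≤ Ψ n := by
  intro n hn
  induction n, hn using Nat.le_induction with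
  | base => exact le_rfl
  | succ n hn ih => exact ih.trans (h n hn)

/-- **First lemma.** Only the bound `ℓ n ≤ A x (n + 1) + B x n` is used, with `a (A + B) < 1`. -/
theorem seq_simple {x ℓ f : ℕ → ℝ} {a A B : ℝ} (ha : 0 < a)
    (hlim : Tendsto x atTop atTop)
    (hf : ∀ n, f (n + 1) ≤ f n + a * ℓ n - x n)
    (hP : ∀ ε : ℝ, 0 < ε → ∃ C : ℝ, ∀ n, ℓ n ≤ (A + ε) * x (n + 1) + (B + ε) * x n + C)
    (hAB : a * (A + B) < 1) (η : ℝ) (hη : 0 < η) :
    ∃ N : ℕ, ∀ n, N ≤ n → f n ≤ (a * A + η) * x n := by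
  obtain ⟨ε, hε, hε1, hε2⟩ : ∃ ε : ℝ, 0 < ε ∧ a * ε ≤ η / 2 ∧ 4 * (a * ε) ≤ 1 - a * (A + B) := by
    refine ⟨min (η / (2 * a)) ((1 - a * (A + B)) / (4 * a)), ?_, ?_, ?_⟩
    · exact lt_min (by positivity) (by have : 0 < 1 - a * (A + B) := by linarith
                                       positivity)
    · calc a * min (η / (2 * a)) ((1 - a * (A + B)) / (4 * a)) ≤ a * (η / (2 * a)) :=
            mul_le_mul_of_nonneg_left (min_le_left _ _) ha.le
        _ = η / 2 := by field_simp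
    · calc 4 * (a * min (η / (2 * a)) ((1 - a * (A + B)) / (4 * a))) ≤
            4 * (a * ((1 - a * (A + B)) / (4 * a))) := by
            gcongr
            exact min_le_right _ _
        _ = 1 - a * (A + B) := by field_simp
  obtain ⟨C, hC⟩ := hP ε hε
  have hδ : 0 < (1 - a * (A + B)) / 2 := by linarith
  obtain ⟨n₀, hn₀⟩ := eventually_atTop.1 (hlim.eventually (eventually_ge_atTop
    (max 1 (a * C / ((1 - a * (A + B)) / 2)))))
  -- the potential
  have key : ∀ n, n₀ ≤ n → (fun n => a * (A + ε) * x n - f n) n ≤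
      (fun n => a * (A + ε) * x n - f n) (n + 1) := by
    intro n hn
    have h1 := hf n
    have h2 := mul_le_mul_of_nonneg_left (hC n) ha.le
    have h3 := hn₀ n hn
    have h4 : 1 ≤ x n := (le_max_left _ _).trans h3
    have h5 : a * C ≤ (1 - a * (A + B)) / 2 * x n := by
      have := (le_max_right _ _).trans h3
      rwa [div_le_iff₀' hδ] at this
    have h6 : 4 * (a * ε) * x n ≤ (1 - a * (A + B)) * x n :=
      mul_le_mul_of_nonneg_right hε2 (by linarith)
    show a * (A + ε) * x n - f n ≤ a * (A + ε) * x (n + 1) - f (n + 1)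
    linarith
  have hm := mono_from key
  obtain ⟨n₁, hn₁⟩ := eventually_atTop.1 (hlim.eventually (eventually_ge_atTop
    ((f n₀ - a * (A + ε) * x n₀) / (η / 2))))
  obtain ⟨n₂, hn₂⟩ := eventually_atTop.1 (hlim.eventually (eventually_ge_atTop (0 : ℝ)))
  refine ⟨max n₀ (max n₁ n₂), fun n hn => ?_⟩
  have h1 : a * (A + ε) * x n₀ - f n₀ ≤ a * (A + ε) * x n - f n := hm n (by omega)
  have h2 := hn₁ n (by omega)
  rw [div_le_iff₀' (by linarith)] at h2
  have h3 := hn₂ n (by omega)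
  have h4 : a * ε * x n ≤ η / 2 * x n := mul_le_mul_of_nonneg_right hε1 h3
  linarith

/-- **Second lemma.** The bounds `ℓ n ≤ A x (n + 1) + B x n` and `ℓ n ≤ α x (n + 1) + β x (n + 2)` are used;
`u > 1` is the growth rate for which they agree. -/
theorem seq_double {x ℓ f : ℕ → ℝ} {a A B α β u : ℝ} (ha : 0 < a) (hB : 0 ≤ B) (hβ : 0 < β) (hu : 1 < u)
    (hroot : A * u + B = α * u + β * u ^ 2)
    (hlim : Tendsto x atTop atTop)
    (hf : ∀ n, f (n + 1) ≤ f n + a * ℓ n - x n)
    (hP : ∀ ε : ℝ, 0 < ε → ∃ C : ℝ, ∀ n, ℓ n ≤ (A + ε) * x (n + 1) + (B + ε) * x n + C)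
    (hT : ∃ C : ℝ, ∀ n, ℓ n ≤ α * x (n + 1) + β * x (n + 2) + C)
    (h1 : a * (α + β) < 1) (h2 : 1 ≤ a * (A + B)) (η : ℝ) (hη : 0 < η) (N : ℕ) :
    ∃ n, N ≤ n ∧ f n ≤ (a * A + (a * (A + B) - 1) / (u - 1) + η) * x n := by
  obtain ⟨D, hD⟩ : ∃ D : ℝ, D = a * A + (a * (A + B) - 1) / (u - 1) := ⟨_, rfl⟩
  rw [← hD]
  have hu1 : 0 < u - 1 := by linarith
  have hDu : (1 - D) * (u - 1) = u * (1 - a * A) - a * B := by
    rw [hD]
    field_simp
    ring
  by_cases hcase : ∃ᶠ n in atTop, x (n + 1) ≤ u * x n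
  · -- first case
    have hS : 0 < (A + B) - (α + β) := by
      by_contra hcon
      have : a * (A + B) ≤ a * (α + β) := mul_le_mul_of_nonneg_left (by linarith) ha.le
      linarith
    -- the weight `p₀`
    obtain ⟨p₀, hp₀⟩ : ∃ p₀ : ℝ, p₀ = (1 / a - (α + β)) / ((A + B) - (α + β)) := ⟨_, rfl⟩
    have hp₀1 : p₀ ≤ 1 := by
      rw [hp₀, div_le_one hS]
      have : 1 / a ≤ A + B := by rw [div_le_iff₀' ha]; exact h2
      linarith
    have hp₀0 : 0 < p₀ := by
      rw [hp₀]
      apply div_pos _ hS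
      have : α + β < 1 / a := by rw [lt_div_iff₀' ha]; exact h1
      linarith
    have hp₀e : a * (p₀ * (A + B) + (1 - p₀) * (α + β)) = 1 := by
      have : p₀ * ((A + B) - (α + β)) = 1 / a - (α + β) := by
        rw [hp₀]; field_simp
      have h3 : p₀ * (A + B) + (1 - p₀) * (α + β) = 1 / a := by linarith
      rw [h3]; field_simp
    have hβu : β * u * (u - 1) = (A - α - β) * u + B := by nlinarith
    -- `1 - D` in terms of `p₀`
    have hDp : a * p₀ * B - a * (1 - p₀) * β * u = 1 - D := by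
      have h3 : (a * p₀ * B - a * (1 - p₀) * β * u) * (u - 1) = (1 - D) * (u - 1) := by
        rw [hDu]
        have h4 : a * (1 - p₀) * (β * u * (u - 1)) = a * (1 - p₀) * ((A - α - β) * u + B) := by rw [hβu]
        linear_combination -h4 + u * hp₀e
      exact mul_right_cancel₀ hu1.ne' h3
    obtain ⟨τ, hτ, hτ1, hτ2⟩ : ∃ τ : ℝ, 0 < τ ∧ τ ≤ p₀ ∧ a * τ * (B + β * u) ≤ η / 2 := by
      have hβu0 : 0 < B + β * u := by positivity
      refine ⟨min p₀ (η / (2 * (a * (B + β * u)))), lt_min hp₀0 (by positivity), min_le_left _ _, ?_⟩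
      calc a * min p₀ (η / (2 * (a * (B + β * u)))) * (B + β * u) ≤
            a * (η / (2 * (a * (B + β * u)))) * (B + β * u) := by
            gcongr
            exact min_le_right _ _
        _ = η / 2 := by field_simp
    obtain ⟨p, hp⟩ : ∃ p : ℝ, p = p₀ - τ := ⟨_, rfl⟩
    have hp0 : 0 ≤ p := by linarith
    have hp1 : p ≤ 1 := by linarith
    -- `ε` and `δ`
    obtain ⟨σ, hσ⟩ : ∃ σ : ℝ, σ = a * τ * ((A + B) - (α + β)) := ⟨_, rfl⟩
    have hσ0 : 0 < σ := by rw [hσ]; positivity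
    obtain ⟨ε, hε⟩ : ∃ ε : ℝ, ε = σ / (4 * a) := ⟨_, rfl⟩
    have hε0 : 0 < ε := by rw [hε]; positivity
    have hεa : a * ε = σ / 4 := by rw [hε]; field_simp
    obtain ⟨C₁, hC₁⟩ := hP ε hε0
    obtain ⟨C₂, hC₂⟩ := hT
    obtain ⟨C, hC⟩ : ∃ C : ℝ, C = max C₁ C₂ := ⟨_, rfl⟩
    obtain ⟨c₁, hc₁⟩ : ∃ c₁ : ℝ, c₁ = a * p * (B + ε) + σ / 2 := ⟨_, rfl⟩
    obtain ⟨c₂, hc₂⟩ : ∃ c₂ : ℝ, c₂ = a * (1 - p) * β := ⟨_, rfl⟩
    have hc₂0 : 0 ≤ c₂ := by
      have : 0 ≤ 1 - p := by linarith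
      rw [hc₂]
      positivity
    obtain ⟨n₀, hn₀⟩ := eventually_atTop.1 (hlim.eventually (eventually_ge_atTop
      (max 1 (a * C / (σ / 2)))))
    have hcoef : 1 - a * (p * (A + ε) + (1 - p) * α) - c₁ - c₂ ≥ 0 := by
      have h3 : a * (p * (A + B) + (1 - p) * (α + β)) = 1 - σ := by
        rw [hσ, hp]
        linear_combination hp₀e
      have h4 : a * ε * p ≤ σ / 4 := by
        rw [hεa]
        nlinarith
      rw [hc₁, hc₂]
      nlinarith
    have key : ∀ n, n₀ ≤ n → (fun n => (x n - f n) - c₁ * x n + c₂ * x (n + 1)) n ≤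
        (fun n => (x n - f n) - c₁ * x n + c₂ * x (n + 1)) (n + 1) := by
      intro n hn
      have g1 := hf n
      have g2 : ℓ n ≤ (A + ε) * x (n + 1) + (B + ε) * x n + C := (hC₁ n).trans (by
        have := le_max_left C₁ C₂; rw [← hC] at this; linarith)
      have g3 : ℓ n ≤ α * x (n + 1) + β * x (n + 2) + C := (hC₂ n).trans (by
        have := le_max_right C₁ C₂; rw [← hC] at this; linarith)
      have g4 : ℓ n ≤ p * ((A + ε) * x (n + 1) + (B + ε) * x n + C) +
          (1 - p) * (α * x (n + 1) + β * x (n + 2) + C) := by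
        have e1 := mul_le_mul_of_nonneg_left g2 hp0
        have e2 := mul_le_mul_of_nonneg_left g3 (by linarith : (0 : ℝ) ≤ 1 - p)
        linarith
      have g5 := mul_le_mul_of_nonneg_left g4 ha.le
      have g6 := hn₀ n hn
      have g8 : a * C ≤ σ / 2 * x n := by
        have := (le_max_right _ _).trans g6
        rwa [div_le_iff₀' (by positivity)] at this
      have g9 := hn₀ (n + 1) (by omega)
      have g10 : 1 ≤ x (n + 1) := (le_max_left _ _).trans g9
      have g11 := mul_nonneg hcoef.le (by linarith : (0 : ℝ) ≤ x (n + 1))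
      have g12 : c₂ * x (n + 2) = a * (1 - p) * β * x (n + 2) := by rw [hc₂]
      have g13 : c₁ * x n = a * p * (B + ε) * x n + σ / 2 * x n := by rw [hc₁]; ring
      show (x n - f n) - c₁ * x n + c₂ * x (n + 1) ≤
        (x (n + 1) - f (n + 1)) - c₁ * x (n + 1) + c₂ * x (n + 2)
      linarith
    have hm := mono_from key
    -- conclusion
    obtain ⟨n₁, hn₁⟩ := eventually_atTop.1 (hlim.eventually (eventually_ge_atTop
      ((-((x n₀ - f n₀) - c₁ * x n₀ + c₂ * x (n₀ + 1))) / (η / 2))))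
    obtain ⟨n, hn, hxu⟩ := (frequently_atTop.1 hcase) (max N (max n₀ n₁))
    refine ⟨n, by omega, ?_⟩
    have g1 : (x n₀ - f n₀) - c₁ * x n₀ + c₂ * x (n₀ + 1) ≤
        (x n - f n) - c₁ * x n + c₂ * x (n + 1) := hm n (by omega)
    have g2 := hn₁ n (by omega)
    rw [div_le_iff₀' (by linarith)] at g2
    have g3 : 1 ≤ x n := (le_max_left _ _).trans (hn₀ n (by omega))
    have g4 : c₂ * x (n + 1) ≤ c₂ * (u * x n) := mul_le_mul_of_nonneg_left hxu hc₂0
    have g5 : c₂ * u - c₁ ≤ D - 1 + η / 2 := by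
      have e1 : a * p * B - a * (1 - p) * β * u = 1 - D - a * τ * (B + β * u) := by
        rw [← hDp, hp]; ring
      have e2 : 0 ≤ a * p * ε := by positivity
      rw [hc₁, hc₂]
      linarith
    have g6 := mul_le_mul_of_nonneg_right g5 (by linarith : (0 : ℝ) ≤ x n)
    linarith
  · -- second case
    rw [not_frequently] at hcase
    obtain ⟨ε, hε, hε1, hε2⟩ : ∃ ε : ℝ, 0 < ε ∧ a * ε ≤ η / 4 ∧ a * ε * (1 + u) ≤ η / 4 * (u - 1) := by
      refine ⟨min (η / (4 * a)) (η * (u - 1) / (4 * (a * (1 + u)))), ?_, ?_, ?_⟩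
      · have : 0 < η * (u - 1) := by positivity
        exact lt_min (by positivity) (by positivity)
      · calc a * min (η / (4 * a)) (η * (u - 1) / (4 * (a * (1 + u)))) ≤ a * (η / (4 * a)) :=
              mul_le_mul_of_nonneg_left (min_le_left _ _) ha.le
          _ = η / 4 := by field_simp
      · calc a * min (η / (4 * a)) (η * (u - 1) / (4 * (a * (1 + u)))) * (1 + u) ≤
              a * (η * (u - 1) / (4 * (a * (1 + u)))) * (1 + u) := by
              gcongr
              exact min_le_right _ _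
          _ = η / 4 * (u - 1) := by field_simp
    obtain ⟨C, hC⟩ := hP ε hε
    obtain ⟨c, hc⟩ : ∃ c : ℝ, c = (1 - D) - η / 2 := ⟨_, rfl⟩
    have hδ : 0 < η / 4 * (u - 1) := by positivity
    obtain ⟨n₀, hn₀⟩ := eventually_atTop.1 ((hlim.eventually (eventually_ge_atTop
      (max 1 (a * C / (η / 4 * (u - 1)))))).and hcase)
    have hc1 : 0 ≤ 1 - a * (A + ε) - c := by
      have e1 : 0 ≤ (a * (A + B) - 1) / (u - 1) := div_nonneg (by linarith) hu1.le
      rw [hc, hD]
      linarith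
    have key : ∀ n, n₀ ≤ n → (fun n => (x n - f n) - c * x n) n ≤
        (fun n => (x n - f n) - c * x n) (n + 1) := by
      intro n hn
      obtain ⟨g3, g4⟩ := hn₀ n hn
      have g1 := hf n
      have g2 := mul_le_mul_of_nonneg_left (hC n) ha.le
      have g5 : 1 ≤ x n := (le_max_left _ _).trans g3
      have g6 : a * C ≤ η / 4 * (u - 1) * x n := by
        have := (le_max_right _ _).trans g3
        rwa [div_le_iff₀' hδ] at this
      have g7 : (1 - a * (A + ε) - c) * (u * x n) ≤ (1 - a * (A + ε) - c) * x (n + 1) :=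
        mul_le_mul_of_nonneg_left (not_le.1 g4).le hc1
      have g8 : u * (1 - a * A - c) - a * B + c - a * ε * (1 + u) ≥ η / 4 * (u - 1) := by
        have : u * (1 - a * A - c) - a * B + c = η / 2 * (u - 1) := by
          rw [hc]
          linear_combination -hDu
        linarith
      have g9 := mul_le_mul_of_nonneg_right g8.le (by linarith : (0 : ℝ) ≤ x n)
      show (x n - f n) - c * x n ≤ (x (n + 1) - f (n + 1)) - c * x (n + 1)
      linarith
    have hm := mono_from key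
    obtain ⟨n₁, hn₁⟩ := eventually_atTop.1 (hlim.eventually (eventually_ge_atTop
      ((-((x n₀ - f n₀) - c * x n₀)) / (η / 2))))
    refine ⟨max N (max n₀ n₁), by omega, ?_⟩
    generalize hn : max N (max n₀ n₁) = n
    have g1 : (x n₀ - f n₀) - c * x n₀ ≤ (x n - f n) - c * x n := hm n (by omega)
    have g2 := hn₁ n (by omega)
    rw [div_le_iff₀' (by linarith)] at g2
    have g3 : c * x n = (1 - D) * x n - η / 2 * x n := by rw [hc]; ring
    linarith

end Pool.Agent.H595.Dens
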