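import Pool.Agent.H595.Dens.Lin

/-!
# Relations between three numbers `1`, `ξ`, `t`
-/

set_option autoImplicit false

namespace Pool.Agent.H595.Dens

open MeasureTheory Filter Topology Set

/-- lower bound for the linear forms in `1` and `ξ` -/
def LinB (ξ : ℝ) : Prop := ∀ ε : ℝ, 0 < ε → ∃ c : ℝ, 0 < c ∧ ∀ (p q : ℤ) (H : ℝ),
  ¬ (p = 0 ∧ q = 0) → 1 ≤ H → |(p : ℝ)| ≤ H → |(q : ℝ)| ≤ H → c ≤ H ^ (1 + ε) * |q * ξ - p|

/-- the cross product -/
def cr (u v : Fin 3 → ℤ) : Fin 3 → ℤ :=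
  ![u 1 * v 2 - u 2 * v 1, u 2 * v 0 - u 0 * v 2, u 0 * v 1 - u 1 * v 0]

/-- the scalar product -/
def dt (u v : Fin 3 → ℤ) : ℤ := u 0 * v 0 + u 1 * v 1 + u 2 * v 2

@[simp] theorem cr_0 (u v : Fin 3 → ℤ) : cr u v 0 = u 1 * v 2 - u 2 * v 1 := rfl
@[simp] theorem cr_1 (u v : Fin 3 → ℤ) : cr u v 1 = u 2 * v 0 - u 0 * v 2 := rfl
@[simp] theorem cr_2 (u v : Fin 3 → ℤ) : cr u v 2 = u 0 * v 1 - u 1 * v 0 := rfl

theorem dt_cr_left (u v : Fin 3 → ℤ) : dt (cr u v) u = 0 := by simp [dt]; ring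
theorem dt_cr_right (u v : Fin 3 → ℤ) : dt (cr u v) v = 0 := by simp [dt]; ring

/-- parallel -/
def Par (z y : Fin 3 → ℤ) : Prop := ∀ a b, z a * y b = z b * y a

theorem par_of_perp {z u v : Fin 3 → ℤ} (h1 : dt z u = 0) (h2 : dt z v = 0) : Par z (cr u v) := by
  rw [dt] at h1 h2
  intro a b
  fin_cases a <;> fin_cases b <;> simp
  · linear_combination (u 2) * h2 - (v 2) * h1
  · linear_combination (-u 1) * h2 + (v 1) * h1
  · linear_combination (-u 2) * h2 + (v 2) * h1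
  · linear_combination (u 0) * h2 - (v 0) * h1
  · linear_combination (u 1) * h2 - (v 1) * h1
  · linear_combination (-u 0) * h2 + (v 0) * h1

theorem perp_of_par {z y w : Fin 3 → ℤ} (hy : y ≠ 0) (h : Par z y) (hw : dt y w = 0) : dt z w = 0 := by
  obtain ⟨a, ha⟩ := Function.ne_iff.1 hy
  rw [Pi.zero_apply] at ha
  have h1 : y a * dt z w = z a * dt y w := by
    rw [dt, dt]
    have e0 := h 0 a
    have e1 := h 1 a
    have e2 := h 2 a
    linear_combination (w 0) * e0 + (w 1) * e1 + (w 2) * e2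
  rw [hw, mul_zero] at h1
  exact (mul_eq_zero.1 h1).resolve_left ha

theorem cr_ne_zero_of {u v : Fin 3 → ℤ} (hu : u ≠ 0)
    (h : ∀ p q : ℤ, (∀ i, p * v i = q * u i) → p = 0 ∧ q = 0) : cr u v ≠ 0 := by
  intro h0
  obtain ⟨a, ha⟩ := Function.ne_iff.1 hu
  rw [Pi.zero_apply] at ha
  apply ha
  refine (h (u a) (v a) ?_).1
  have e0 := congrFun h0 0
  have e1 := congrFun h0 1
  have e2 := congrFun h0 2
  simp at e0 e1 e2
  intro i
  fin_cases a <;> fin_cases i <;> simp <;> linarith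

/-- the vector of the numbers `1`, `ξ`, `t` -/
def th (ξ t : ℝ) : Fin 3 → ℝ := ![1, ξ, t]

theorem sum_th (ξ t : ℝ) (v : Fin 3 → ℤ) : ∑ i, (v i : ℝ) * th ξ t i = v 0 + v 1 * ξ + v 2 * t := by
  rw [Fin.sum_univ_three]
  simp [th]

/-- lower bound for the distance of a primitive direction -/
theorem cross_lower {ξ : ℝ} (hξ : LinB ξ) (t ε : ℝ) (hε : 0 < ε) :
    ∃ c : ℝ, 0 < c ∧ ∀ (z y : Fin 3 → ℤ) (H : ℝ), z ≠ 0 → y ≠ 0 → Par z y → 1 ≤ H →
      (∀ i, |(z i : ℝ)| ≤ H) → c ≤ H ^ (1 + ε) * max |(y 0 : ℝ) * ξ - y 1| |(y 2 : ℝ) - y 0 * t| := by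
  obtain ⟨c, hc, h⟩ := hξ ε hε
  refine ⟨min c 1, lt_min hc one_pos, fun z y H hz hy hzy hH hzH => ?_⟩
  have hH1 : 1 ≤ H ^ (1 + ε) := Real.one_le_rpow hH (by linarith)
  by_cases h01 : z 0 = 0 ∧ z 1 = 0
  · -- the plane through `1` and `ξ`
    obtain ⟨h0, h1⟩ := h01
    have hz2 : z 2 ≠ 0 := by
      intro h2
      apply hz
      funext i
      fin_cases i <;> simp [h0, h1, h2]
    have hy0 : y 0 = 0 := by
      have := hzy 0 2
      rw [h0, zero_mul] at this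
      exact (mul_eq_zero.1 this.symm).resolve_left hz2
    have hy1 : y 1 = 0 := by
      have := hzy 1 2
      rw [h1, zero_mul] at this
      exact (mul_eq_zero.1 this.symm).resolve_left hz2
    have hy2 : y 2 ≠ 0 := by
      intro h2
      apply hy
      funext i
      fin_cases i <;> simp [hy0, hy1, h2]
    have h3 : (1 : ℝ) ≤ |(y 2 : ℝ) - y 0 * t| := by
      rw [hy0, Int.cast_zero, zero_mul, sub_zero]
      exact_mod_cast Int.one_le_abs hy2
    calc min c 1 ≤ 1 * 1 := by rw [mul_one]; exact min_le_right _ _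
      _ ≤ _ := mul_le_mul hH1 (h3.trans (le_max_right _ _)) (by norm_num) (by positivity)
  · -- coprime direction
    have hg : 0 < Int.gcd (z 0) (z 1) := by
      rw [Int.gcd_pos_iff]
      by_contra hcon
      push Not at hcon
      exact h01 hcon
    obtain ⟨g, α, β, hg0, hαβ, h0, h1⟩ := Int.exists_gcd_one' hg
    have hg1 : (1 : ℝ) ≤ g := by exact_mod_cast hg0
    have hg2 : (g : ℤ) ≠ 0 := by
      have := hg0.ne'
      exact_mod_cast this
    -- `y` is an integer multiple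
    have e1 : y 0 * β = y 1 * α := by
      have := hzy 0 1
      rw [h0, h1] at this
      apply mul_left_cancel₀ hg2
      linarith
    have hcop : IsCoprime α β := Int.isCoprime_iff_gcd_eq_one.2 hαβ
    obtain ⟨r, s, hrs⟩ := hcop
    have e2 : y 0 = (r * y 0 + s * y 1) * α := by
      linear_combination (-y 0) * hrs + s * e1
    have e3 : y 1 = (r * y 0 + s * y 1) * β := by
      linear_combination (-y 1) * hrs - r * e1
    generalize hk : r * y 0 + s * y 1 = k at e2 e3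
    have hαβ0 : ¬ (α = 0 ∧ β = 0) := by
      rintro ⟨rfl, rfl⟩
      simp at hrs
    have hk0 : k ≠ 0 := by
      intro hk0
      rw [hk0, zero_mul] at e2 e3
      apply hy
      have hz01 : z 0 ≠ 0 ∨ z 1 ≠ 0 := by
        by_contra hcon
        push Not at hcon
        exact h01 hcon
      have hy2 : y 2 = 0 := by
        rcases hz01 with h4 | h4
        · have := hzy 0 2
          rw [e2, mul_zero] at this
          exact (mul_eq_zero.1 this).resolve_left h4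
        · have := hzy 1 2
          rw [e3, mul_zero] at this
          exact (mul_eq_zero.1 this).resolve_left h4
      funext i
      fin_cases i
      · exact e2
      · exact e3
      · exact hy2
    have hk1 : (1 : ℝ) ≤ |(k : ℝ)| := by exact_mod_cast Int.one_le_abs hk0
    have hα : |(α : ℝ)| ≤ H := by
      have h4 := hzH 0
      rw [h0, Int.cast_mul, Int.cast_natCast, abs_mul, Nat.abs_cast] at h4
      nlinarith [abs_nonneg (α : ℝ)]
    have hβ : |(β : ℝ)| ≤ H := by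
      have h4 := hzH 1
      rw [h1, Int.cast_mul, Int.cast_natCast, abs_mul, Nat.abs_cast] at h4
      nlinarith [abs_nonneg (β : ℝ)]
    have h5 := h β α H (fun hcon => hαβ0 ⟨hcon.2, hcon.1⟩) hH hβ hα
    have h6 : |(α : ℝ) * ξ - β| ≤ |(y 0 : ℝ) * ξ - y 1| := by
      have : (y 0 : ℝ) * ξ - y 1 = k * (α * ξ - β) := by
        have g0 : (y 0 : ℝ) = k * α := by exact_mod_cast e2
        have g1 : (y 1 : ℝ) = k * β := by exact_mod_cast e3
        rw [g0, g1]
        ring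
      rw [this, abs_mul]
      exact le_mul_of_one_le_left (abs_nonneg _) hk1
    calc min c 1 ≤ c := min_le_left _ _
      _ ≤ _ := h5
      _ ≤ _ := by
        apply mul_le_mul_of_nonneg_left (h6.trans (le_max_left _ _))
        positivity

/-- the value of the three-dimensional relation -/
theorem cross_val (ξ t : ℝ) (u v : Fin 3 → ℤ) :
    max |(cr u v 0 : ℝ) * ξ - cr u v 1| |(cr u v 2 : ℝ) - cr u v 0 * t| ≤
      ht v * valu (th ξ t) u + ht u * valu (th ξ t) v := by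
  rw [valu, valu, sum_th, sum_th]
  have e1 : (cr u v 0 : ℝ) * ξ - cr u v 1 =
      (v 2 : ℝ) * (u 0 + u 1 * ξ + u 2 * t) - (u 2 : ℝ) * (v 0 + v 1 * ξ + v 2 * t) := by
    simp only [cr_0, cr_1]
    push_cast
    ring
  have e2 : (cr u v 2 : ℝ) - cr u v 0 * t =
      (v 1 : ℝ) * (u 0 + u 1 * ξ + u 2 * t) - (u 1 : ℝ) * (v 0 + v 1 * ξ + v 2 * t) := by
    simp only [cr_0, cr_2]
    push_cast
    ring
  apply max_le
  · rw [e1]
    refine (abs_sub _ _).trans ?_
    rw [abs_mul, abs_mul]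
    gcongr
    · exact abs_le_ht v 2
    · exact abs_le_ht u 2
  · rw [e2]
    refine (abs_sub _ _).trans ?_
    rw [abs_mul, abs_mul]
    gcongr
    · exact abs_le_ht v 1
    · exact abs_le_ht u 1

theorem abs_cr_le (u v : Fin 3 → ℤ) (i : Fin 3) : |(cr u v i : ℝ)| ≤ 2 * ht u * ht v := by
  have h : ∀ a b c d : Fin 3, |((u a * v b - u c * v d : ℤ) : ℝ)| ≤ 2 * ht u * ht v := by
    intro a b c d
    push_cast
    refine (abs_sub _ _).trans ?_
    rw [abs_mul, abs_mul]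
    have h1 := mul_le_mul (abs_le_ht u a) (abs_le_ht v b) (abs_nonneg _) (Nat.cast_nonneg _)
    have h2 := mul_le_mul (abs_le_ht u c) (abs_le_ht v d) (abs_nonneg _) (Nat.cast_nonneg _)
    linarith
  fin_cases i
  · exact h 1 2 2 1
  · exact h 2 0 0 2
  · exact h 0 1 1 0

/-- three independent relations -/
theorem det_bound (ξ t : ℝ) (u v w : Fin 3 → ℤ) (h : dt (cr u v) w ≠ 0) :
    1 ≤ 2 * (valu (th ξ t) u * (ht v * ht w) + valu (th ξ t) v * (ht u * ht w) +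
      valu (th ξ t) w * (ht u * ht v)) := by
  have h1 : (1 : ℝ) ≤ |((dt (cr u v) w : ℤ) : ℝ)| := by exact_mod_cast Int.one_le_abs h
  refine h1.trans ?_
  rw [valu, valu, valu, sum_th, sum_th, sum_th]
  have e1 : ((dt (cr u v) w : ℤ) : ℝ) =
      (u 0 + u 1 * ξ + u 2 * t) * (v 1 * w 2 - v 2 * w 1) -
      (v 0 + v 1 * ξ + v 2 * t) * (u 1 * w 2 - u 2 * w 1) +
      (w 0 + w 1 * ξ + w 2 * t) * (u 1 * v 2 - u 2 * v 1) := by
    simp only [dt, cr_0, cr_1, cr_2]
    push_cast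
    ring
  have h : ∀ (a b : Fin 3 → ℤ), |((a 1 : ℝ) * b 2 - a 2 * b 1)| ≤ 2 * (ht a * ht b) := by
    intro a b
    have := abs_cr_le a b 0
    rw [cr_0] at this
    push_cast at this
    linarith
  rw [e1]
  refine (abs_add_le _ _).trans ?_
  have g1 := abs_sub ((u 0 + u 1 * ξ + u 2 * t) * ((v 1 : ℝ) * w 2 - v 2 * w 1))
    ((v 0 + v 1 * ξ + v 2 * t) * ((u 1 : ℝ) * w 2 - u 2 * w 1))
  rw [abs_mul, abs_mul] at g1
  rw [abs_mul]
  have g2 := mul_le_mul_of_nonneg_left (h v w) (abs_nonneg ((u 0 : ℝ) + u 1 * ξ + u 2 * t))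
  have g3 := mul_le_mul_of_nonneg_left (h u w) (abs_nonneg ((v 0 : ℝ) + v 1 * ξ + v 2 * t))
  have g4 := mul_le_mul_of_nonneg_left (h u v) (abs_nonneg ((w 0 : ℝ) + w 1 * ξ + w 2 * t))
  linarith

section seq

variable {ξ t w : ℝ} {s : ℕ → Rel (Fin 3)}

theorem valu_pos (hind : ∀ v : Fin 3 → ℤ, v ≠ 0 → ∑ i, (v i : ℝ) * th ξ t i ≠ 0) (v : Rel (Fin 3)) :
    0 < valu (th ξ t) v.1 := abs_pos.2 (hind v.1 v.2)

theorem cr_ne (hind : ∀ v : Fin 3 → ℤ, v ≠ 0 → ∑ i, (v i : ℝ) * th ξ t i ≠ 0)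
    (hs : GoodSeq lh (lv (th ξ t)) w s) {i j : ℕ} (hij : i < j) : cr (s i).1 (s j).1 ≠ 0 :=
  cr_ne_zero_of (s i).2 (fun p q hpq => not_parallel (hs.monoX hij) (hs.monoL hij)
    (valu_pos hind _) (valu_pos hind _) p q hpq)

/-- a chain of relations in one plane -/
theorem chain (hind : ∀ v : Fin 3 → ℤ, v ≠ 0 → ∑ i, (v i : ℝ) * th ξ t i ≠ 0)
    (hs : GoodSeq lh (lv (th ξ t)) w s) {i j : ℕ} (hij : i ≤ j)
    (h : ∀ k, i ≤ k → k < j → dt (cr (s k).1 (s (k + 1)).1) (s (k + 2)).1 = 0) :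
    dt (cr (s i).1 (s (i + 1)).1) (s j).1 = 0 ∧ dt (cr (s i).1 (s (i + 1)).1) (s (j + 1)).1 = 0 := by
  induction j, hij using Nat.le_induction with
  | base => exact ⟨dt_cr_left _ _, dt_cr_right _ _⟩
  | succ j hj ih =>
    obtain ⟨h1, h2⟩ := ih (fun k hk1 hk2 => h k hk1 (by omega))
    refine ⟨h2, ?_⟩
    exact perp_of_par (cr_ne hind hs (Nat.lt_succ_self j)) (par_of_perp h1 h2) (h j hj (Nat.lt_succ_self j))

theorem chain_bound (hξ : LinB ξ) (hind : ∀ v : Fin 3 → ℤ, v ≠ 0 → ∑ i, (v i : ℝ) * th ξ t i ≠ 0)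
    (hs : GoodSeq lh (lv (th ξ t)) w s) (ε : ℝ) (hε : 0 < ε) :
    ∃ C : ℝ, ∀ i j, i ≤ j →
      (∀ k, i ≤ k → k < j → dt (cr (s k).1 (s (k + 1)).1) (s (k + 2)).1 = 0) →
      lv (th ξ t) (s j) ≤ lh (s (j + 1)) + (1 + ε) * (lh (s i) + lh (s (i + 1))) + C := by
  obtain ⟨c, hc, hc'⟩ := cross_lower hξ t ε hε
  refine ⟨(2 + ε) * Real.log 2 - Real.log c, fun i j hij h => ?_⟩
  obtain ⟨h1, h2⟩ := chain hind hs hij h
  have hu := one_le_ht (s i).2
  have hu' := one_le_ht (s (i + 1)).2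
  have hv := one_le_ht (s j).2
  have hv' := one_le_ht (s (j + 1)).2
  have hH : (1 : ℝ) ≤ 2 * ht (s i).1 * ht (s (i + 1)).1 := by nlinarith
  have h3 := hc' _ _ _ (cr_ne hind hs (Nat.lt_succ_self i)) (cr_ne hind hs (Nat.lt_succ_self j))
    (par_of_perp h1 h2) hH (abs_cr_le _ _)
  have h4 := cross_val ξ t (s j).1 (s (j + 1)).1
  have hp := valu_pos hind (s j)
  have hp' := valu_pos hind (s (j + 1))
  have h5 : valu (th ξ t) (s (j + 1)).1 ≤ valu (th ξ t) (s j).1 := by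
    rw [← exp_lv hp, ← exp_lv hp']
    exact Real.exp_le_exp.2 (by have := hs.incL j; linarith)
  have h6 : (ht (s j).1 : ℝ) ≤ ht (s (j + 1)).1 := by
    rw [← exp_lh, ← exp_lh]
    exact Real.exp_le_exp.2 (hs.incX j).le
  have h7 : (ht (s (j + 1)).1 : ℝ) * valu (th ξ t) (s j).1 + ht (s j).1 * valu (th ξ t) (s (j + 1)).1 ≤
      2 * ((ht (s (j + 1)).1 : ℝ) * valu (th ξ t) (s j).1) := by
    have := mul_le_mul h6 h5 hp'.le (by positivity)
    linarith
  have h8 : c ≤ (2 * ht (s i).1 * ht (s (i + 1)).1 : ℝ) ^ (1 + ε) *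
      (2 * ((ht (s (j + 1)).1 : ℝ) * valu (th ξ t) (s j).1)) := by
    refine h3.trans (mul_le_mul_of_nonneg_left (h4.trans h7) (by positivity))
  have hz : (0 : ℝ) < ht (s i).1 := by linarith
  have hz' : (0 : ℝ) < ht (s (i + 1)).1 := by linarith
  have hy' : (0 : ℝ) < ht (s (j + 1)).1 := by linarith
  have h9 := Real.log_le_log hc h8
  rw [Real.log_mul (by positivity) (by positivity), Real.log_rpow (by positivity),
    Real.log_mul (by positivity) hz'.ne', Real.log_mul (by norm_num) hz.ne',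
    Real.log_mul (by norm_num) (by positivity), Real.log_mul hy'.ne' hp.ne'] at h9
  simp only [lv, lh]
  linarith

theorem triple_bound (hind : ∀ v : Fin 3 → ℤ, v ≠ 0 → ∑ i, (v i : ℝ) * th ξ t i ≠ 0)
    (hs : GoodSeq lh (lv (th ξ t)) w s) (j : ℕ)
    (h : dt (cr (s j).1 (s (j + 1)).1) (s (j + 2)).1 ≠ 0) :
    lv (th ξ t) (s j) ≤ lh (s (j + 1)) + lh (s (j + 2)) + Real.log 6 := by
  have h1 := det_bound ξ t _ _ _ h
  have hv := one_le_ht (s j).2
  have hv1 := one_le_ht (s (j + 1)).2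
  have hv2 := one_le_ht (s (j + 2)).2
  have hp := valu_pos hind (s j)
  have hp1 := valu_pos hind (s (j + 1))
  have hp2 := valu_pos hind (s (j + 2))
  have m1 : valu (th ξ t) (s (j + 1)).1 ≤ valu (th ξ t) (s j).1 := by
    rw [← exp_lv hp, ← exp_lv hp1]
    exact Real.exp_le_exp.2 (by have := hs.incL j; linarith)
  have m2 : valu (th ξ t) (s (j + 2)).1 ≤ valu (th ξ t) (s j).1 := by
    rw [← exp_lv hp, ← exp_lv hp2]
    exact Real.exp_le_exp.2 (by have := hs.incL j; have := hs.incL (j + 1); linarith)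
  have n1 : (ht (s j).1 : ℝ) ≤ ht (s (j + 1)).1 := by
    rw [← exp_lh, ← exp_lh]
    exact Real.exp_le_exp.2 (hs.incX j).le
  have n2 : (ht (s (j + 1)).1 : ℝ) ≤ ht (s (j + 2)).1 := by
    rw [← exp_lh, ← exp_lh]
    exact Real.exp_le_exp.2 (hs.incX (j + 1)).le
  have z0 : (0 : ℝ) ≤ ht (s j).1 := by positivity
  have k1 : valu (th ξ t) (s (j + 1)).1 * ((ht (s j).1 : ℝ) * ht (s (j + 2)).1) ≤
      valu (th ξ t) (s j).1 * (ht (s (j + 1)).1 * ht (s (j + 2)).1) := by gcongr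
  have k2 : valu (th ξ t) (s (j + 2)).1 * ((ht (s j).1 : ℝ) * ht (s (j + 1)).1) ≤
      valu (th ξ t) (s j).1 * (ht (s (j + 1)).1 * ht (s (j + 2)).1) := by
    apply mul_le_mul m2 _ (by positivity) hp.le
    rw [mul_comm ((ht (s (j + 1)).1 : ℝ))]
    apply mul_le_mul (n1.trans n2) le_rfl (by positivity) (by positivity)
  have h2 : 1 ≤ 6 * (valu (th ξ t) (s j).1 * (ht (s (j + 1)).1 * ht (s (j + 2)).1)) := by linarith
  have y1 : (0 : ℝ) < ht (s (j + 1)).1 := by linarith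
  have y2 : (0 : ℝ) < ht (s (j + 2)).1 := by linarith
  have h3 := Real.log_le_log one_pos h2
  rw [Real.log_one, Real.log_mul (by norm_num) (by positivity), Real.log_mul hp.ne' (by positivity),
    Real.log_mul y1.ne' y2.ne'] at h3
  simp only [lv, lh]
  linarith

end seq

end Pool.Agent.H595.Dens
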