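import Pool.Agent.H595.Dens.Three

/-!
# The lower density for three numbers
-/

set_option autoImplicit false

namespace Pool.Agent.H595.Dens

open MeasureTheory Filter Topology Set

variable {ξ t w : ℝ}

theorem pair_bound (hξ : LinB ξ) (hind : ∀ v : Fin 3 → ℤ, v ≠ 0 → ∑ i, (v i : ℝ) * th ξ t i ≠ 0)
    (ε : ℝ) (hε : 0 < ε) :
    ∃ C : ℝ, ∀ u v : Rel (Fin 3), lh u < lh v → lv (th ξ t) u < lv (th ξ t) v →
      lv (th ξ t) u ≤ (2 + ε) * lh v + (1 + ε) * lh u + C := by
  obtain ⟨c, hc, hc'⟩ := cross_lower hξ t ε hε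
  refine ⟨(2 + ε) * Real.log 2 - Real.log c, fun u v h1 h2 => ?_⟩
  have hcr : cr u.1 v.1 ≠ 0 := cr_ne_zero_of u.2 (fun p q hpq => not_parallel h1 h2
    (valu_pos hind _) (valu_pos hind _) p q hpq)
  have hu := one_le_ht u.2
  have hv := one_le_ht v.2
  have hH : (1 : ℝ) ≤ 2 * ht u.1 * ht v.1 := by nlinarith
  have h3 := hc' _ _ _ hcr hcr (fun a b => mul_comm _ _) hH (abs_cr_le _ _)
  have h4 := cross_val ξ t u.1 v.1
  have hp := valu_pos hind u
  have hp' := valu_pos hind v
  have h5 : valu (th ξ t) v.1 ≤ valu (th ξ t) u.1 := by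
    rw [← exp_lv hp, ← exp_lv hp']
    exact Real.exp_le_exp.2 (by linarith)
  have h6 : (ht u.1 : ℝ) ≤ ht v.1 := by
    rw [← exp_lh, ← exp_lh]
    exact Real.exp_le_exp.2 h1.le
  have h7 : (ht v.1 : ℝ) * valu (th ξ t) u.1 + ht u.1 * valu (th ξ t) v.1 ≤
      2 * ((ht v.1 : ℝ) * valu (th ξ t) u.1) := by
    have := mul_le_mul h6 h5 hp'.le (by positivity)
    linarith
  have h8 : c ≤ (2 * ht u.1 * ht v.1 : ℝ) ^ (1 + ε) *
      (2 * ((ht v.1 : ℝ) * valu (th ξ t) u.1)) := by
    refine h3.trans (mul_le_mul_of_nonneg_left (h4.trans h7) (by positivity))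
  have hz : (0 : ℝ) < ht u.1 := by linarith
  have hz' : (0 : ℝ) < ht v.1 := by linarith
  have h9 := Real.log_le_log hc h8
  rw [Real.log_mul (by positivity) (by positivity), Real.log_rpow (by positivity),
    Real.log_mul (by positivity) hz'.ne', Real.log_mul (by norm_num) hz.ne',
    Real.log_mul (by norm_num) (by positivity), Real.log_mul hz'.ne' hp.ne'] at h9
  simp only [lv, lh]
  linarith

/-- exponents above three -/
theorem dens_three_high (hξ : LinB ξ)
    (hind : ∀ v : Fin 3 → ℤ, v ≠ 0 → ∑ i, (v i : ℝ) * th ξ t i ≠ 0) (hw : 3 < w) :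
    lowerDensity (nearScales (th ξ t) w) ≤ 2 / w := by
  rw [nearScales_eq hind]
  apply dens_simple (A := 2) (B := 1) (by linarith) (by norm_num) (by linarith) finite_lh
  intro ε hε
  obtain ⟨C, hC⟩ := pair_bound hξ hind ε hε
  exact ⟨C, fun u v h1 h2 _ _ => hC u v h1 h2⟩

/-- exponents between two and three -/
theorem dens_three_low (hξ : LinB ξ)
    (hind : ∀ v : Fin 3 → ℤ, v ≠ 0 → ∑ i, (v i : ℝ) * th ξ t i ≠ 0) (hw : 2 < w) (hw3 : w ≤ 3) :
    lowerDensity (nearScales (th ξ t) w) ≤ Real.goldenRatio ^ 4 / w - Real.goldenRatio := by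
  have hw0 : 0 < w := by linarith
  have hφ1 := Real.one_lt_goldenRatio
  have hφ2 := Real.goldenRatio_sq
  have hinv : 1 / (Real.goldenRatio - 1) = Real.goldenRatio := by
    rw [div_eq_iff (by linarith)]
    nlinarith
  have hφ4 : Real.goldenRatio ^ 4 = 3 * Real.goldenRatio + 2 := by
    have : Real.goldenRatio ^ 4 = (Real.goldenRatio ^ 2) ^ 2 := by ring
    rw [this, hφ2]
    nlinarith
  have hD : 1 / w * 2 + (1 / w * (2 + 1) - 1) / (Real.goldenRatio - 1) =
      Real.goldenRatio ^ 4 / w - Real.goldenRatio := by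
    rw [div_eq_mul_one_div _ (Real.goldenRatio - 1), hinv, hφ4]
    field_simp
    ring
  rw [nearScales_eq hind]
  by_cases hunb : ∀ B : ℝ, ∃ x ∈ goodScales (lh (ι := Fin 3)) (lv (th ξ t)) w, B ≤ x
  swap
  · push Not at hunb
    obtain ⟨B, hB⟩ := hunb
    rw [lowerDensity_of_bdd (fun x hx => (hB x hx).le), ← hD]
    have h1 : 0 ≤ 1 / w * (2 + 1) - 1 := by
      rw [sub_nonneg, one_div, ← div_eq_inv_mul, one_le_div hw0]
      linarith
    have h2 : 0 ≤ (1 / w * (2 + 1) - 1) / (Real.goldenRatio - 1) := div_nonneg h1 (by linarith)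
    positivity
  obtain ⟨s, hs⟩ := exists_goodSeq hw0 finite_lh hunb
  set P : ℕ → Prop := fun k => dt (cr (s k).1 (s (k + 1)).1) (s (k + 2)).1 ≠ 0 with hPdef
  by_cases hinf : {k | P k}.Infinite
  · -- the subsequence
    obtain ⟨b, hb⟩ : ∃ b : ℕ → ℕ, b = Nat.nth P := ⟨_, rfl⟩
    have hbm : StrictMono b := by rw [hb]; exact Nat.nth_strictMono hinf
    have hbs : ∀ n, b n < b (n + 1) := fun n => hbm (Nat.lt_succ_self n)
    have hbP : ∀ n, P (b n) := fun n => by rw [hb]; exact Nat.nth_mem_of_infinite hinf n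
    have hbn : ∀ n k, b n < k → k < b (n + 1) → ¬ P k := by
      intro n k h1 h2 hk
      classical
      have h3 : Nat.nth P (Nat.count P k) = k := Nat.nth_count hk
      rw [hb, ← h3] at h1
      rw [← h3, hb] at h2
      have h4 := (Nat.nth_strictMono hinf).lt_iff_lt.1 h1
      have h5 := (Nat.nth_strictMono hinf).lt_iff_lt.1 h2
      omega
    -- `a n = b n + 1` are the indices of the shared vectors
    have hlim : Tendsto (fun n => lh (s (b n + 1))) atTop atTop :=
      hs.lim.comp ((tendsto_add_atTop_nat 1).comp hbm.tendsto_atTop)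
    refine lowerDensity_le hlim (fun η hη N => ?_)
    have hphi1 : (1 : ℝ) < Real.goldenRatio := hφ1
    obtain ⟨n, hn, h⟩ := seq_double (x := fun n => lh (s (b n + 1))) (ℓ := fun n => lv (th ξ t) (s (b (n + 1))))
      (f := fun n => (volume (goodScales (lh (ι := Fin 3)) (lv (th ξ t)) w ∩ Icc 0 (lh (s (b n + 1))))).toReal)
      (a := 1 / w) (A := 2) (B := 1) (α := 1) (β := 1) (u := Real.goldenRatio)
      (by positivity) (by norm_num) one_pos hφ1 (by rw [hφ2]; ring) hlim
      (fun n => hs.meas' hw0 (b n + 1) (b (n + 1)) (by have := hbs n; omega))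
      (fun ε hε => by
        obtain ⟨C, hC⟩ := chain_bound hξ hind hs ε hε
        refine ⟨C, fun n => ?_⟩
        have hlt := hbs n
        have h1 := hC (b n + 1) (b (n + 1)) (by omega) (fun k hk1 hk2 => by
          have := hbn n k (by omega) hk2
          rw [hPdef] at this
          push Not at this
          exact this)
        have h2 : lh (s (b n + 1 + 1)) ≤ lh (s (b (n + 1) + 1)) := hs.monoX.monotone (by omega)
        have h3 := mul_le_mul_of_nonneg_left h2 (by linarith : (0 : ℝ) ≤ 1 + ε)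
        linarith)
      ⟨Real.log 6, fun n => by
        have h1 := triple_bound hind hs (b (n + 1)) (hbP (n + 1))
        have h2 : lh (s (b (n + 1) + 2)) ≤ lh (s (b (n + 2) + 1)) :=
          hs.monoX.monotone (by have : b (n + 1) < b (n + 2) := hbs (n + 1); omega)
        linarith⟩
      (by rw [one_div, ← div_eq_inv_mul, div_lt_one hw0]; linarith)
      (by rw [one_div, ← div_eq_inv_mul, one_le_div hw0]; linarith) η hη N
    rw [hD] at h
    exact ⟨n, hn, h⟩
  · -- finally in one plane
    rw [Set.not_infinite] at hinf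
    obtain ⟨M, hM⟩ := hinf.bddAbove
    have hM' : ∀ k, M < k → dt (cr (s k).1 (s (k + 1)).1) (s (k + 2)).1 = 0 := by
      intro k hk
      by_contra hcon
      exact absurd (hM (show k ∈ {k | P k} from hcon)) (by omega)
    have hlim : Tendsto (fun n => lh (s (n + (M + 1)))) atTop atTop :=
      hs.lim.comp (tendsto_add_atTop_nat (M + 1))
    have h1w : lowerDensity (goodScales (lh (ι := Fin 3)) (lv (th ξ t)) w) ≤ 1 / w := by
      refine lowerDensity_le hlim (fun η hη N => ?_)
      obtain ⟨N', hN'⟩ := seq_simple (x := fun n => lh (s (n + (M + 1))))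
        (ℓ := fun n => lv (th ξ t) (s (n + (M + 1))))
        (f := fun n => (volume (goodScales (lh (ι := Fin 3)) (lv (th ξ t)) w ∩
          Icc 0 (lh (s (n + (M + 1)))))).toReal) (a := 1 / w) (A := 1) (B := 0)
        (by positivity) hlim (fun n => by
          have := hs.meas hw0 (n + (M + 1))
          rwa [show n + (M + 1) + 1 = n + 1 + (M + 1) by ring] at this)
        (fun ε hε => by
          obtain ⟨C, hC⟩ := chain_bound hξ hind hs 1 one_pos
          refine ⟨(1 + 1) * (lh (s (M + 1)) + lh (s (M + 1 + 1))) + C, fun n => ?_⟩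
          have h1 := hC (M + 1) (n + (M + 1)) (by omega) (fun k hk1 _ => hM' k (by omega))
          rw [show n + (M + 1) + 1 = n + 1 + (M + 1) by ring] at h1
          have h2 := mul_nonneg hε.le (lh_nonneg (s (n + 1 + (M + 1))))
          have h3 := mul_nonneg hε.le (lh_nonneg (s (n + (M + 1))))
          linarith)
        (by rw [one_div, ← div_eq_inv_mul, div_lt_one hw0]; linarith) η hη
      refine ⟨max N N', le_max_left _ _, ?_⟩
      have := hN' _ (le_max_right N N')
      rwa [mul_one] at this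
    refine h1w.trans ?_
    rw [← hD]
    have h1 : 0 ≤ 1 / w * (2 + 1) - 1 := by
      rw [sub_nonneg, one_div, ← div_eq_inv_mul, one_le_div hw0]
      linarith
    have h2 : 0 ≤ (1 / w * (2 + 1) - 1) / (Real.goldenRatio - 1) := div_nonneg h1 (by linarith)
    have h3 : 0 ≤ 1 / w := by positivity
    linarith

end Pool.Agent.H595.Dens
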