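import Pool.Agent.H595.Dens.Constr
import Pool.Agent.H595.Dens.Constr2

/-!
# Numbers `t` with many near relations, for families with any exponent
-/

set_option autoImplicit false

namespace Pool.Agent.H595.Dens

open MeasureTheory Filter Topology Set

variable {ι : Type*} [Fintype ι] [DecidableEq ι]

omit [DecidableEq ι] in
theorem stepW {ξ : ι → ℝ} {i₀ : ι} {K W : ℝ} (hξ : LinM ξ i₀ K) (hW : 0 ≤ W)
    (hdir : ∀ ε : ℝ, 0 < ε → ∀ N : ℕ, ∃ Q : ℕ, N ≤ Q ∧ 1 ≤ Q ∧ ∃ P : ι → ℤ, P ≠ 0 ∧ P i₀ = 0 ∧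
      (∀ i, |(P i : ℝ)| ≤ Q) ∧ |∑ i, (P i : ℝ) * ξ i| ≤ (Q : ℝ) ^ (-(W - ε))) (n : ℕ) (v : ι → ℤ) (hv : 0 < v i₀)
    (δ : ℝ) (hδ : 0 < δ) (ε : ℝ) (hε : 0 < ε) (hε2 : ε ≤ 1 / 2) :
    ∃ (Q : ℕ) (v' : ι → ℤ), 1 ≤ Q ∧ ht v ^ n ≤ Q ∧ 2 ^ n ≤ Q ∧ 0 < v' i₀ ∧ Q ≤ ht v' ∧ ht v' ≤ 2 * Q * ht v ∧
      0 < |tv ξ i₀ v' - tv ξ i₀ v| ∧ |tv ξ i₀ v' - tv ξ i₀ v| ≤ δ ∧
      v i₀ * |tv ξ i₀ v' - tv ξ i₀ v| ≤ (Q : ℝ) ^ (-(W + 1 - ε)) := by
  obtain ⟨N, hN⟩ := exists_nat_ge (1 / δ ^ 2)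
  obtain ⟨Q, hQN, hQ1, P, hP, hP0, hPQ, hPξ⟩ := hdir ε hε (1 + ht v ^ n + 2 ^ n + N)
  have hQ2 : ht v ^ n ≤ Q := by
    generalize ht v ^ n = a at *
    generalize 2 ^ n = b at *
    omega
  have hQ3 : 2 ^ n ≤ Q := by
    generalize ht v ^ n = a at *
    generalize 2 ^ n = b at *
    omega
  have hQ4 : N ≤ Q := by
    generalize ht v ^ n = a at *
    generalize 2 ^ n = b at *
    omega
  have hQr : (1 : ℝ) ≤ Q := by exact_mod_cast hQ1
  have hQr0 : (0 : ℝ) < Q := by linarith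
  have hvr : (1 : ℝ) ≤ v i₀ := by exact_mod_cast hv
  have hv0 : v ≠ 0 := by
    intro h
    rw [h] at hv
    simp at hv
  refine ⟨Q, fun i => Q * v i + P i, hQ1, hQ2, hQ3, ?_, ?_, ?_, ?_, ?_, ?_⟩
  · simp only [hP0, add_zero]
    positivity
  · have h1 := abs_le_ht (fun i => (Q : ℤ) * v i + P i) i₀
    have h2 : (Q : ℝ) ≤ ht (fun i => (Q : ℤ) * v i + P i) := by
      refine le_trans ?_ h1
      simp only [hP0, add_zero]
      push_cast
      rw [abs_of_nonneg (by positivity)]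
      exact le_mul_of_one_le_right (by linarith) hvr
    exact_mod_cast h2
  · have h1 : (ht (fun i => (Q : ℤ) * v i + P i) : ℝ) ≤ 2 * Q * ht v := by
      apply (ht_le (by positivity)).2
      intro i
      push_cast
      refine (abs_add_le _ _).trans ?_
      rw [abs_mul, abs_of_nonneg (by linarith : (0 : ℝ) ≤ Q)]
      have h2 := mul_le_mul_of_nonneg_left (abs_le_ht v i) (by linarith : (0 : ℝ) ≤ Q)
      have h3 := hPQ i
      have h4 := le_mul_of_one_le_right (by linarith : (0 : ℝ) ≤ Q) (one_le_ht hv0)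
      linarith
    exact_mod_cast h1
  all_goals
    have hdiff : tv ξ i₀ (fun i => (Q : ℤ) * v i + P i) - tv ξ i₀ v = -(∑ i, (P i : ℝ) * ξ i) / (Q * v i₀) := by
      rw [tv, tv]
      simp only [hP0, add_zero]
      have : ∑ i, (((Q : ℤ) * v i + P i : ℤ) : ℝ) * ξ i = Q * (∑ i, (v i : ℝ) * ξ i) + ∑ i, (P i : ℝ) * ξ i := by
        rw [Finset.mul_sum, ← Finset.sum_add_distrib]
        apply Finset.sum_congr rfl
        intro i _
        push_cast
        ring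
      rw [this]
      push_cast
      field_simp
      ring
    have habs : |tv ξ i₀ (fun i => (Q : ℤ) * v i + P i) - tv ξ i₀ v| = |∑ i, (P i : ℝ) * ξ i| / (Q * v i₀) := by
      rw [hdiff, abs_div, abs_neg, abs_of_pos (by positivity : (0 : ℝ) < Q * v i₀)]
    have hpos := form_ne hξ hP hP0
  · rw [habs]
    positivity
  · -- smaller than `δ`
    have e1 : (Q : ℝ) ^ (-(W - ε)) ≤ (Q : ℝ) ^ (1 / 2 : ℝ) := by
      apply Real.rpow_le_rpow_of_exponent_le hQr
      linarith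
    have e2 : (Q : ℝ) ^ (1 / 2 : ℝ) ≤ δ * Q := by
      have h3 : (N : ℝ) ≤ Q := by exact_mod_cast hQ4
      have h4 := hN.trans h3
      rw [div_le_iff₀ (by positivity)] at h4
      rw [← Real.sqrt_eq_rpow]
      apply Real.sqrt_le_iff.2
      refine ⟨by positivity, ?_⟩
      have h5 := mul_le_mul_of_nonneg_left h4 hQr0.le
      calc (Q : ℝ) = Q * 1 := (mul_one _).symm
        _ ≤ Q * (Q * δ ^ 2) := h5
        _ = (δ * Q) ^ 2 := by ring
    rw [habs, div_le_iff₀ (by positivity)]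
    have h5 : δ * Q ≤ δ * (Q * v i₀) := by
      apply mul_le_mul_of_nonneg_left _ hδ.le
      exact le_mul_of_one_le_right (by linarith) hvr
    linarith
  · rw [habs]
    have h1 : (v i₀ : ℝ) * (|∑ i, (P i : ℝ) * ξ i| / (Q * v i₀)) = |∑ i, (P i : ℝ) * ξ i| / Q := by
      field_simp
    have h2 : (Q : ℝ) ^ (-(W + 1 - ε)) = (Q : ℝ) ^ (-(W - ε)) / Q := by
      rw [show -(W + 1 - ε) = -(W - ε) - 1 by ring, Real.rpow_sub_one hQr0.ne']
    rw [h1, h2]
    gcongr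

/-- **Construction of `t`**, for a family with approximations of exponent `W`. -/
theorem exists_tW {ξ : ι → ℝ} {i₀ : ι} {K : ℕ} {W : ℝ} (h0 : ξ i₀ = 0) (hξ : LinM ξ i₀ K) (hW : 1 ≤ W)
    (hdir : ∀ ε : ℝ, 0 < ε → ∀ N : ℕ, ∃ Q : ℕ, N ≤ Q ∧ 1 ≤ Q ∧ ∃ P : ι → ℤ, P ≠ 0 ∧ P i₀ = 0 ∧
      (∀ i, |(P i : ℝ)| ≤ Q) ∧ |∑ i, (P i : ℝ) * ξ i| ≤ (Q : ℝ) ^ (-(W - ε)))
    (v₀ : ι → ℤ) (hv₀ : 0 < v₀ i₀) (δ : ℝ) (hδ : 0 < δ) :
    ∃ t : ℝ, |t - tv ξ i₀ v₀| ≤ δ ∧
      (∀ v : ι → ℤ, v ≠ 0 → ∑ i, (v i : ℝ) * Function.update ξ i₀ t i ≠ 0) ∧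
      ∀ w : ℝ, W + 1 ≤ w → (W + 1) / w ≤ lowerDensity (nearScales (Function.update ξ i₀ t) w) := by
  obtain ⟨s, hs0, hsP, hsR⟩ := exists_chain (α := (ι → ℤ) × ℝ)
    (fun s => 0 < s.1 i₀ ∧ 0 < s.2)
    (fun n s s' => 0 < |tv ξ i₀ s'.1 - tv ξ i₀ s.1| ∧ |tv ξ i₀ s'.1 - tv ξ i₀ s.1| ≤ s.2 ∧
      s'.2 = |tv ξ i₀ s'.1 - tv ξ i₀ s.1| / 4 ∧
      ∃ Q : ℕ, 1 ≤ Q ∧ ht s.1 ^ n ≤ Q ∧ 2 ^ n ≤ Q ∧ Q ≤ ht s'.1 ∧ ht s'.1 ≤ 2 * Q * ht s.1 ∧
        s.1 i₀ * |tv ξ i₀ s'.1 - tv ξ i₀ s.1| ≤ (Q : ℝ) ^ (-(W + 1 - 1 / ((n : ℝ) + 2))))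
    (v₀, δ / 2) ⟨hv₀, by simp only; linarith⟩ (by
      rintro n ⟨v, δ'⟩ ⟨h1, h2⟩
      simp only at h1 h2
      have hn : (0 : ℝ) < (n : ℝ) + 2 := by positivity
      obtain ⟨Q, v', g1, g2, g3, g4, g5, g6, g7, g8, g9⟩ := stepW hξ (by linarith) hdir n v h1 δ' h2
        (1 / ((n : ℝ) + 2)) (by positivity) (by
          rw [div_le_div_iff₀ hn (by norm_num)]
          have : (0 : ℝ) ≤ n := Nat.cast_nonneg n
          linarith)
      exact ⟨(v', |tv ξ i₀ v' - tv ξ i₀ v| / 4), ⟨g4, by simp only; linarith⟩, g7, g8, rfl, Q, g1, g2, g3, g5, g6, g9⟩)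
  choose hs1 hs2 hs3 Q hQ1 hQ2 hQ3 hQ4 hQ5 hQ6 using hsR
  obtain ⟨v, hv⟩ : ∃ v : ℕ → ι → ℤ, v = fun n => (s n).1 := ⟨_, rfl⟩
  have hvs : ∀ n, (s n).1 = v n := fun n => by rw [hv]
  obtain ⟨T, hT⟩ : ∃ T : ℕ → ℝ, T = fun n => tv ξ i₀ (v n) := ⟨_, rfl⟩
  have hTs : ∀ n, tv ξ i₀ (v n) = T n := fun n => by rw [hT]
  simp only [hvs, hTs] at hs1 hs2 hs3 hQ2 hQ4 hQ5 hQ6
  have hvpos : ∀ n, 0 < v n i₀ := fun n => by rw [← hvs]; exact (hsP n).1
  obtain ⟨t, ht'⟩ := exists_limit (T := T) hs1 (fun n => by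
    have h1 := hs2 (n + 1)
    rw [hs3 n] at h1
    exact h1)
  obtain ⟨θ, hθ⟩ : ∃ θ : ι → ℝ, θ = Function.update ξ i₀ t := ⟨_, rfl⟩
  have hval : ∀ n, valu θ (v n) = v n i₀ * |t - T n| := fun n => by
    rw [hθ, hT, valu_eq h0 t (hvpos n)]
  have hvalpos : ∀ n, 0 < valu θ (v n) := fun n => by
    rw [hval]
    have : (0 : ℝ) < v n i₀ := by exact_mod_cast hvpos n
    exact mul_pos this (ht' n).1
  have hvalle : ∀ n, valu θ (v n) ≤ 4 / 3 * (Q n : ℝ) ^ (-(W + 1 - 1 / ((n : ℝ) + 2))) := fun n => by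
    have h2 : (0 : ℝ) < v n i₀ := by exact_mod_cast hvpos n
    rw [hval]
    calc (v n i₀ : ℝ) * |t - T n| ≤ v n i₀ * (4 / 3 * |T (n + 1) - T n|) :=
          mul_le_mul_of_nonneg_left (ht' n).2 h2.le
      _ = 4 / 3 * (v n i₀ * |T (n + 1) - T n|) := by ring
      _ ≤ _ := mul_le_mul_of_nonneg_left (hQ6 n) (by norm_num)
  have hQ1r : ∀ n, (1 : ℝ) ≤ Q n := fun n => by exact_mod_cast hQ1 n
  have hQ2r : ∀ n, (ht (v n) : ℝ) ^ n ≤ Q n := fun n => by exact_mod_cast hQ2 n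
  have hQ3r : ∀ n, (2 : ℝ) ^ n ≤ Q n := fun n => by exact_mod_cast hQ3 n
  have hQ4r : ∀ n, (Q n : ℝ) ≤ ht (v (n + 1)) := fun n => by exact_mod_cast hQ4 n
  have hQ5r : ∀ n, (ht (v (n + 1)) : ℝ) ≤ 2 * Q n * ht (v n) := fun n => by exact_mod_cast hQ5 n
  have hvne : ∀ n, v n ≠ 0 := fun n h => by
    have := hvpos n
    rw [h] at this
    simp at this
  have hht : ∀ n, (1 : ℝ) ≤ ht (v n) := fun n => one_le_ht (hvne n)
  have hep : ∀ n : ℕ, 0 < 1 / ((n : ℝ) + 2) ∧ 1 / ((n : ℝ) + 2) ≤ 1 := fun n => by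
    have hn : (0 : ℝ) < (n : ℝ) + 2 := by positivity
    refine ⟨by positivity, ?_⟩
    rw [div_le_one hn]
    have : (0 : ℝ) ≤ n := Nat.cast_nonneg n
    linarith
  refine ⟨t, ?_, ?_, ?_⟩
  · have h1 := (ht' 0).2
    have h2 := hs2 0
    rw [hs0] at h2
    simp only at h2
    have h3 : T 0 = tv ξ i₀ v₀ := by rw [← hTs, ← hvs, hs0]
    rw [← h3]
    rw [zero_add] at h1 h2
    linarith
  · -- independence
    intro r hr hr0
    rw [← hθ] at hr0
    obtain ⟨c, hc, hel⟩ := elim_bound h0 hξ t 1 one_pos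
    obtain ⟨R, hR⟩ : ∃ R : ℝ, R = ht r := ⟨_, rfl⟩
    have hR1 : 1 ≤ R := by rw [hR]; exact one_le_ht hr
    obtain ⟨G, hG⟩ : ∃ G : ℝ, G = (2 * R) ^ (K + 1) * (R * (4 / 3)) := ⟨_, rfl⟩
    have hG0 : 0 < G := by rw [hG]; positivity
    obtain ⟨n, hn⟩ : ∃ n : ℕ, G / c < 2 ^ n := pow_unbounded_of_one_lt _ (by norm_num)
    obtain ⟨N, hN⟩ : ∃ N : ℕ, N = n + (K + 1) + 1 := ⟨_, rfl⟩
    have hr0' : valu θ r = 0 := by rw [valu, hr0, abs_zero]
    rcases hel r (v (N + 1)) hr (hvne (N + 1)) with ⟨p, q, hpq, hpq'⟩ | h1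
    · apply hpq
      have e2 : |(p : ℝ)| * valu θ (v (N + 1)) = |(q : ℝ)| * valu θ r := by
        rw [valu, valu, ← abs_mul, ← abs_mul, Finset.mul_sum, Finset.mul_sum]
        congr 1
        apply Finset.sum_congr rfl
        intro i _
        have : (p : ℝ) * v (N + 1) i = q * r i := by exact_mod_cast hpq' i
        rw [← mul_assoc, this, mul_assoc]
      rw [hr0', mul_zero] at e2
      have hp : p = 0 := by
        rcases mul_eq_zero.1 e2 with h | h
        · rw [abs_eq_zero, Int.cast_eq_zero] at h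
          exact h
        · exact absurd h (hvalpos (N + 1)).ne'
      refine ⟨hp, ?_⟩
      by_contra hq
      apply hr
      funext i
      have := hpq' i
      rw [hp, zero_mul] at this
      exact (mul_eq_zero.1 this.symm).resolve_left hq
    · rw [← hθ, hr0', mul_zero, zero_add, ← hR] at h1
      have hcast : ((K : ℝ) + 1) = ((K + 1 : ℕ) : ℝ) := by push_cast; ring
      rw [hcast, Real.rpow_natCast] at h1
      obtain ⟨Y, hY⟩ : ∃ Y : ℝ, Y = ht (v (N + 1)) := ⟨_, rfl⟩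
      have hY1 : 1 ≤ Y := by rw [hY]; exact hht _
      have hYQ : Y ^ (K + 2) ≤ Q (N + 1) := by
        rw [hY]
        exact (pow_le_pow_right₀ (hht _) (by omega)).trans (hQ2r (N + 1))
      have hY2 : (2 : ℝ) ^ n ≤ Y := by
        rw [hY]
        refine le_trans ?_ ((hQ3r N).trans (hQ4r N))
        exact pow_le_pow_right₀ (by norm_num) (by omega)
      have hQp : (0 : ℝ) < Q (N + 1) := by linarith [hQ1r (N + 1)]
      have h3 : valu θ (v (N + 1)) ≤ 4 / 3 * (Q (N + 1) : ℝ)⁻¹ := by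
        refine (hvalle (N + 1)).trans (mul_le_mul_of_nonneg_left ?_ (by norm_num))
        rw [← Real.rpow_neg_one]
        apply Real.rpow_le_rpow_of_exponent_le (hQ1r _)
        have := (hep (N + 1)).2
        linarith
      rw [← hY] at h1
      have h4 : c ≤ (2 * (R * Y)) ^ (K + 1) * (R * (4 / 3 * (Y ^ (K + 2))⁻¹)) := by
        refine h1.trans ?_
        apply mul_le_mul_of_nonneg_left _ (by positivity)
        apply mul_le_mul_of_nonneg_left _ (by linarith)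
        refine h3.trans (mul_le_mul_of_nonneg_left ?_ (by norm_num))
        gcongr
      have h5 : (2 * (R * Y)) ^ (K + 1) * (R * (4 / 3 * (Y ^ (K + 2))⁻¹)) = G / Y := by
        have hY0 : Y ≠ 0 := by linarith
        rw [hG, show 2 * (R * Y) = 2 * R * Y by ring, mul_pow (2 * R) Y, pow_succ Y (K + 1)]
        field_simp
      rw [h5, le_div_iff₀ (by linarith)] at h4
      rw [div_lt_iff₀ hc] at hn
      have h6 := mul_le_mul_of_nonneg_left hY2 hc.le
      linarith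
  · -- the density
    intro w hw
    have hw0 : 0 < w := by linarith
    rw [← hθ]
    obtain ⟨x, hx⟩ : ∃ x : ℕ → ℝ, x = fun n => Real.log (ht (v (n + 1))) := ⟨_, rfl⟩
    have hx0 : ∀ n, 0 ≤ x n := fun n => by rw [hx]; exact Real.log_nonneg (hht _)
    have hlogQ : ∀ n, (n + 1) * x n ≤ Real.log (Q (n + 1)) := by
      intro n
      have h1 := Real.log_le_log (by have := hht (n + 1); positivity) (hQ2r (n + 1))
      rw [Real.log_pow] at h1
      rw [hx]
      push_cast at h1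
      exact h1
    have hlogQ' : ∀ n, Real.log (Q (n + 1)) ≤ x (n + 1) := by
      intro n
      rw [hx]
      exact Real.log_le_log (by linarith [hQ1r (n + 1)]) (hQ4r (n + 1))
    have hxs : ∀ n, x (n + 1) ≤ Real.log 2 + Real.log (Q (n + 1)) + x n := by
      intro n
      have h1 := Real.log_le_log (by linarith [hht (n + 1 + 1)]) (hQ5r (n + 1))
      have g1 : (0 : ℝ) < Q (n + 1) := by linarith [hQ1r (n + 1)]
      have g2 : (0 : ℝ) < ht (v (n + 1)) := by linarith [hht (n + 1)]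
      rw [Real.log_mul (by positivity) g2.ne', Real.log_mul (by norm_num) g1.ne'] at h1
      rw [hx]
      exact h1
    have hmono : ∀ n, x n ≤ x (n + 1) := by
      intro n
      have h1 := hlogQ n
      have h2 := hlogQ' n
      have h3 : 0 ≤ n * x n := mul_nonneg (Nat.cast_nonneg n) (hx0 n)
      linarith
    have hgr : ∀ n, (n + 1) * x n ≤ x (n + 1) := fun n => (hlogQ n).trans (hlogQ' n)
    have hlim : Tendsto x atTop atTop := by
      rw [← tendsto_add_atTop_iff_nat 1]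
      apply tendsto_atTop_mono (f := fun n : ℕ => (n : ℝ) * Real.log 2)
      · intro n
        refine le_trans ?_ (hlogQ' n)
        have h1 := Real.log_le_log (by positivity) (hQ3r (n + 1))
        rw [Real.log_pow] at h1
        push_cast at h1
        have := Real.log_nonneg (show (1 : ℝ) ≤ 2 by norm_num)
        linarith
      · exact tendsto_natCast_atTop_atTop.atTop_mul_const (Real.log_pos (by norm_num))
    have hl2 : 0 ≤ Real.log 2 := Real.log_nonneg (by norm_num)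
    have hl43 : 0 ≤ Real.log (4 / 3) := Real.log_nonneg (by norm_num)
    -- for each `ε`
    have key : ∀ ε : ℝ, 0 < ε → ε ≤ 1 → (W + 1 - ε) / w ≤ lowerDensity (nearScales θ w) := by
      intro ε hε hε1
      obtain ⟨n₀, hn₀⟩ := exists_nat_ge (1 / ε)
      have hsmall : ∀ n, n₀ ≤ n → 1 / ((n : ℝ) + 2) ≤ ε := by
        intro n hn
        have h1 : (n₀ : ℝ) ≤ n := by exact_mod_cast hn
        rw [div_le_iff₀ (by positivity)]
        rw [div_le_iff₀ hε] at hn₀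
        nlinarith
      refine dens_super (x := fun n => x (n + n₀)) (L := fun n => -Real.log (valu θ (v (n + n₀ + 1))) / w)
        (D := (W + 1 - ε) / w) (F := (W + 1 - ε) / w) (E := ((W + 1 - ε) * Real.log 2 + Real.log (4 / 3)) / w)
        ?_ ?_ ?_ (fun n => hx0 _) (fun n => ?_) (fun n => ?_) ?_ (fun n => ?_) ?_
      · rw [div_le_one hw0]; linarith
      · exact div_nonneg (by linarith) hw0.le
      · apply div_nonneg _ hw0.le
        have : 0 ≤ (W + 1 - ε) * Real.log 2 := mul_nonneg (by linarith) hl2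
        linarith
      · rw [show n + 1 + n₀ = n + n₀ + 1 by ring]
        exact hmono _
      · rw [show n + 1 + n₀ = n + n₀ + 1 by ring]
        refine le_trans ?_ (hgr _)
        push_cast
        have : 0 ≤ (n₀ : ℝ) * x (n + n₀) := mul_nonneg (Nat.cast_nonneg _) (hx0 _)
        linarith
      · exact hlim.comp (tendsto_add_atTop_nat n₀)
      · have h1 := Real.log_le_log (hvalpos (n + n₀ + 1)) (hvalle (n + n₀ + 1))
        have g1 : (1 : ℝ) ≤ Q (n + n₀ + 1) := hQ1r _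
        rw [Real.log_mul (by norm_num) (by positivity), Real.log_rpow (by linarith)] at h1
        have h2 := hxs (n + n₀)
        have h3 := hsmall (n + n₀ + 1) (by omega)
        have h4 : 0 ≤ Real.log (Q (n + n₀ + 1)) := Real.log_nonneg g1
        have h5 := mul_le_mul_of_nonneg_right h3 h4
        have h6 := mul_le_mul_of_nonneg_left h2 (by linarith : 0 ≤ W + 1 - ε)
        rw [show n + 1 + n₀ = n + n₀ + 1 by ring]
        rw [le_div_iff₀ hw0]
        have e1 : ((W + 1 - ε) / w * x (n + n₀ + 1) - (W + 1 - ε) / w * x (n + n₀) -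
            ((W + 1 - ε) * Real.log 2 + Real.log (4 / 3)) / w) * w =
            (W + 1 - ε) * x (n + n₀ + 1) - (W + 1 - ε) * x (n + n₀) -
            ((W + 1 - ε) * Real.log 2 + Real.log (4 / 3)) := by
          field_simp
        rw [e1]
        linarith
      · intro n y hy1 hy2
        refine ⟨v (n + n₀ + 1), hvne _, ?_, ?_⟩
        · apply (ht_le (Real.exp_pos y).le).1
          have h2 : Real.exp (x (n + n₀)) = ht (v (n + n₀ + 1)) := by
            rw [hx]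
            exact Real.exp_log (by linarith [hht (n + n₀ + 1)])
          rw [← h2]
          exact Real.exp_le_exp.2 hy1
        · rw [lt_div_iff₀ hw0] at hy2
          rw [← Real.exp_mul]
          show valu θ (v (n + n₀ + 1)) ≤ _
          rw [← Real.exp_log (hvalpos (n + n₀ + 1))]
          apply Real.exp_le_exp.2
          linarith
    by_contra hcon
    rw [not_le] at hcon
    obtain ⟨ε, hε, hε1, hε2⟩ : ∃ ε : ℝ, 0 < ε ∧ ε ≤ 1 ∧
        ε ≤ ((W + 1) / w - lowerDensity (nearScales θ w)) * w / 2 := by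
      refine ⟨min 1 (((W + 1) / w - lowerDensity (nearScales θ w)) * w / 2), ?_, min_le_left _ _, min_le_right _ _⟩
      apply lt_min one_pos
      have := mul_pos (sub_pos.2 hcon) hw0
      linarith
    have h1 := key ε hε hε1
    rw [div_le_iff₀ hw0] at h1
    have h2 : ((W + 1) / w - lowerDensity (nearScales θ w)) * w = W + 1 - lowerDensity (nearScales θ w) * w := by
      field_simp
    have h3 := mul_pos (sub_pos.2 hcon) hw0
    rw [h2] at hε2 h3
    linarith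

end Pool.Agent.H595.Dens
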