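import Pool.Agent.H595.Dens.Three2

/-!
# Relations between three numbers `1`, `ξ`, `t`, where `ξ` has any irrationality exponent
-/

set_option autoImplicit false

namespace Pool.Agent.H595.Dens

open MeasureTheory Filter Topology Set

/-- lower bound for the linear forms in `1` and `ξ` -/
def LinW (ξ W : ℝ) : Prop := ∀ ε : ℝ, 0 < ε → ∃ c : ℝ, 0 < c ∧ ∀ (p q : ℤ) (H : ℝ),
  ¬ (p = 0 ∧ q = 0) → 1 ≤ H → |(p : ℝ)| ≤ H → |(q : ℝ)| ≤ H → c ≤ H ^ (W + ε) * |q * ξ - p|

/-- lower bound for the distance of a primitive direction -/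
theorem cross_lowerW {ξ W : ℝ} (hW : 0 ≤ W) (hξ : LinW ξ W) (t ε : ℝ) (hε : 0 < ε) :
    ∃ c : ℝ, 0 < c ∧ ∀ (z y : Fin 3 → ℤ) (H : ℝ), z ≠ 0 → y ≠ 0 → Par z y → 1 ≤ H →
      (∀ i, |(z i : ℝ)| ≤ H) → c ≤ H ^ (W + ε) * max |(y 0 : ℝ) * ξ - y 1| |(y 2 : ℝ) - y 0 * t| := by
  obtain ⟨c, hc, h⟩ := hξ ε hε
  refine ⟨min c 1, lt_min hc one_pos, fun z y H hz hy hzy hH hzH => ?_⟩
  have hH1 : 1 ≤ H ^ (W + ε) := Real.one_le_rpow hH (by linarith)
  by_cases h01 : z 0 = 0 ∧ z 1 = 0
  · -- the plane through `1` and `ξ`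
    obtain ⟨h0, h1⟩ := h01
    have hz2 : z 2 ≠ 0 := by
      intro h2
      apply hz
      funext i
      fin_cases i <;> simp [h0, h1, h2]
    have hy0 : y 0 = 0 := by
      have := hzy 0 2
      rw [h0, zero_mul] at this
      exact (mul_eq_zero.1 this.symm).resolve_left hz2
    have hy1 : y 1 = 0 := by
      have := hzy 1 2
      rw [h1, zero_mul] at this
      exact (mul_eq_zero.1 this.symm).resolve_left hz2
    have hy2 : y 2 ≠ 0 := by
      intro h2
      apply hy
      funext i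
      fin_cases i <;> simp [hy0, hy1, h2]
    have h3 : (1 : ℝ) ≤ |(y 2 : ℝ) - y 0 * t| := by
      rw [hy0, Int.cast_zero, zero_mul, sub_zero]
      exact_mod_cast Int.one_le_abs hy2
    calc min c 1 ≤ 1 * 1 := by rw [mul_one]; exact min_le_right _ _
      _ ≤ _ := mul_le_mul hH1 (h3.trans (le_max_right _ _)) (by norm_num) (by positivity)
  · -- coprime direction
    have hg : 0 < Int.gcd (z 0) (z 1) := by
      rw [Int.gcd_pos_iff]
      by_contra hcon
      push Not at hcon
      exact h01 hcon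
    obtain ⟨g, α, β, hg0, hαβ, h0, h1⟩ := Int.exists_gcd_one' hg
    have hg1 : (1 : ℝ) ≤ g := by exact_mod_cast hg0
    have hg2 : (g : ℤ) ≠ 0 := by
      have := hg0.ne'
      exact_mod_cast this
    -- `y` is an integer multiple
    have e1 : y 0 * β = y 1 * α := by
      have := hzy 0 1
      rw [h0, h1] at this
      apply mul_left_cancel₀ hg2
      linarith
    have hcop : IsCoprime α β := Int.isCoprime_iff_gcd_eq_one.2 hαβ
    obtain ⟨r, s, hrs⟩ := hcop
    have e2 : y 0 = (r * y 0 + s * y 1) * α := by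
      linear_combination (-y 0) * hrs + s * e1
    have e3 : y 1 = (r * y 0 + s * y 1) * β := by
      linear_combination (-y 1) * hrs - r * e1
    generalize hk : r * y 0 + s * y 1 = k at e2 e3
    have hαβ0 : ¬ (α = 0 ∧ β = 0) := by
      rintro ⟨rfl, rfl⟩
      simp at hrs
    have hk0 : k ≠ 0 := by
      intro hk0
      rw [hk0, zero_mul] at e2 e3
      apply hy
      have hz01 : z 0 ≠ 0 ∨ z 1 ≠ 0 := by
        by_contra hcon
        push Not at hcon
        exact h01 hcon
      have hy2 : y 2 = 0 := by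
        rcases hz01 with h4 | h4
        · have := hzy 0 2
          rw [e2, mul_zero] at this
          exact (mul_eq_zero.1 this).resolve_left h4
        · have := hzy 1 2
          rw [e3, mul_zero] at this
          exact (mul_eq_zero.1 this).resolve_left h4
      funext i
      fin_cases i
      · exact e2
      · exact e3
      · exact hy2
    have hk1 : (1 : ℝ) ≤ |(k : ℝ)| := by exact_mod_cast Int.one_le_abs hk0
    have hα : |(α : ℝ)| ≤ H := by
      have h4 := hzH 0
      rw [h0, Int.cast_mul, Int.cast_natCast, abs_mul, Nat.abs_cast] at h4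
      nlinarith [abs_nonneg (α : ℝ)]
    have hβ : |(β : ℝ)| ≤ H := by
      have h4 := hzH 1
      rw [h1, Int.cast_mul, Int.cast_natCast, abs_mul, Nat.abs_cast] at h4
      nlinarith [abs_nonneg (β : ℝ)]
    have h5 := h β α H (fun hcon => hαβ0 ⟨hcon.2, hcon.1⟩) hH hβ hα
    have h6 : |(α : ℝ) * ξ - β| ≤ |(y 0 : ℝ) * ξ - y 1| := by
      have : (y 0 : ℝ) * ξ - y 1 = k * (α * ξ - β) := by
        have g0 : (y 0 : ℝ) = k * α := by exact_mod_cast e2
        have g1 : (y 1 : ℝ) = k * β := by exact_mod_cast e3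
        rw [g0, g1]
        ring
      rw [this, abs_mul]
      exact le_mul_of_one_le_left (abs_nonneg _) hk1
    calc min c 1 ≤ c := min_le_left _ _
      _ ≤ _ := h5
      _ ≤ _ := by
        apply mul_le_mul_of_nonneg_left (h6.trans (le_max_left _ _))
        positivity

section seq

variable {ξ t w : ℝ} {s : ℕ → Rel (Fin 3)}

theorem chain_boundW {W : ℝ} (hW : 0 ≤ W) (hξ : LinW ξ W) (hind : ∀ v : Fin 3 → ℤ, v ≠ 0 → ∑ i, (v i : ℝ) * th ξ t i ≠ 0)
    (hs : GoodSeq lh (lv (th ξ t)) w s) (ε : ℝ) (hε : 0 < ε) :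
    ∃ C : ℝ, ∀ i j, i ≤ j →
      (∀ k, i ≤ k → k < j → dt (cr (s k).1 (s (k + 1)).1) (s (k + 2)).1 = 0) →
      lv (th ξ t) (s j) ≤ lh (s (j + 1)) + (W + ε) * (lh (s i) + lh (s (i + 1))) + C := by
  obtain ⟨c, hc, hc'⟩ := cross_lowerW hW hξ t ε hε
  refine ⟨(W + 1 + ε) * Real.log 2 - Real.log c, fun i j hij h => ?_⟩
  obtain ⟨h1, h2⟩ := chain hind hs hij h
  have hu := one_le_ht (s i).2
  have hu' := one_le_ht (s (i + 1)).2
  have hv := one_le_ht (s j).2
  have hv' := one_le_ht (s (j + 1)).2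
  have hH : (1 : ℝ) ≤ 2 * ht (s i).1 * ht (s (i + 1)).1 := by nlinarith
  have h3 := hc' _ _ _ (cr_ne hind hs (Nat.lt_succ_self i)) (cr_ne hind hs (Nat.lt_succ_self j))
    (par_of_perp h1 h2) hH (abs_cr_le _ _)
  have h4 := cross_val ξ t (s j).1 (s (j + 1)).1
  have hp := valu_pos hind (s j)
  have hp' := valu_pos hind (s (j + 1))
  have h5 : valu (th ξ t) (s (j + 1)).1 ≤ valu (th ξ t) (s j).1 := by
    rw [← exp_lv hp, ← exp_lv hp']
    exact Real.exp_le_exp.2 (by have := hs.incL j; linarith)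
  have h6 : (ht (s j).1 : ℝ) ≤ ht (s (j + 1)).1 := by
    rw [← exp_lh, ← exp_lh]
    exact Real.exp_le_exp.2 (hs.incX j).le
  have h7 : (ht (s (j + 1)).1 : ℝ) * valu (th ξ t) (s j).1 + ht (s j).1 * valu (th ξ t) (s (j + 1)).1 ≤
      2 * ((ht (s (j + 1)).1 : ℝ) * valu (th ξ t) (s j).1) := by
    have := mul_le_mul h6 h5 hp'.le (by positivity)
    linarith
  have h8 : c ≤ (2 * ht (s i).1 * ht (s (i + 1)).1 : ℝ) ^ (W + ε) *
      (2 * ((ht (s (j + 1)).1 : ℝ) * valu (th ξ t) (s j).1)) := by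
    refine h3.trans (mul_le_mul_of_nonneg_left (h4.trans h7) (by positivity))
  have hz : (0 : ℝ) < ht (s i).1 := by linarith
  have hz' : (0 : ℝ) < ht (s (i + 1)).1 := by linarith
  have hy' : (0 : ℝ) < ht (s (j + 1)).1 := by linarith
  have h9 := Real.log_le_log hc h8
  rw [Real.log_mul (by positivity) (by positivity), Real.log_rpow (by positivity),
    Real.log_mul (by positivity) hz'.ne', Real.log_mul (by norm_num) hz.ne',
    Real.log_mul (by norm_num) (by positivity), Real.log_mul hy'.ne' hp.ne'] at h9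
  simp only [lv, lh]
  linarith

end seq

variable {ξ t w : ℝ}

theorem pair_boundW {W : ℝ} (hW : 0 ≤ W) (hξ : LinW ξ W) (hind : ∀ v : Fin 3 → ℤ, v ≠ 0 → ∑ i, (v i : ℝ) * th ξ t i ≠ 0)
    (ε : ℝ) (hε : 0 < ε) :
    ∃ C : ℝ, ∀ u v : Rel (Fin 3), lh u < lh v → lv (th ξ t) u < lv (th ξ t) v →
      lv (th ξ t) u ≤ (W + 1 + ε) * lh v + (W + ε) * lh u + C := by
  obtain ⟨c, hc, hc'⟩ := cross_lowerW hW hξ t ε hε
  refine ⟨(W + 1 + ε) * Real.log 2 - Real.log c, fun u v h1 h2 => ?_⟩
  have hcr : cr u.1 v.1 ≠ 0 := cr_ne_zero_of u.2 (fun p q hpq => not_parallel h1 h2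
    (valu_pos hind _) (valu_pos hind _) p q hpq)
  have hu := one_le_ht u.2
  have hv := one_le_ht v.2
  have hH : (1 : ℝ) ≤ 2 * ht u.1 * ht v.1 := by nlinarith
  have h3 := hc' _ _ _ hcr hcr (fun a b => mul_comm _ _) hH (abs_cr_le _ _)
  have h4 := cross_val ξ t u.1 v.1
  have hp := valu_pos hind u
  have hp' := valu_pos hind v
  have h5 : valu (th ξ t) v.1 ≤ valu (th ξ t) u.1 := by
    rw [← exp_lv hp, ← exp_lv hp']
    exact Real.exp_le_exp.2 (by linarith)
  have h6 : (ht u.1 : ℝ) ≤ ht v.1 := by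
    rw [← exp_lh, ← exp_lh]
    exact Real.exp_le_exp.2 h1.le
  have h7 : (ht v.1 : ℝ) * valu (th ξ t) u.1 + ht u.1 * valu (th ξ t) v.1 ≤
      2 * ((ht v.1 : ℝ) * valu (th ξ t) u.1) := by
    have := mul_le_mul h6 h5 hp'.le (by positivity)
    linarith
  have h8 : c ≤ (2 * ht u.1 * ht v.1 : ℝ) ^ (W + ε) *
      (2 * ((ht v.1 : ℝ) * valu (th ξ t) u.1)) := by
    refine h3.trans (mul_le_mul_of_nonneg_left (h4.trans h7) (by positivity))
  have hz : (0 : ℝ) < ht u.1 := by linarith
  have hz' : (0 : ℝ) < ht v.1 := by linarith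
  have h9 := Real.log_le_log hc h8
  rw [Real.log_mul (by positivity) (by positivity), Real.log_rpow (by positivity),
    Real.log_mul (by positivity) hz'.ne', Real.log_mul (by norm_num) hz.ne',
    Real.log_mul (by norm_num) (by positivity), Real.log_mul hz'.ne' hp.ne'] at h9
  simp only [lv, lh]
  linarith

/-- exponents above `2 W + 1` -/
theorem dens_highW {W : ℝ} (hW : 0 ≤ W) (hξ : LinW ξ W)
    (hind : ∀ v : Fin 3 → ℤ, v ≠ 0 → ∑ i, (v i : ℝ) * th ξ t i ≠ 0) (hw : 2 * W + 1 < w) :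
    lowerDensity (nearScales (th ξ t) w) ≤ (W + 1) / w := by
  rw [nearScales_eq hind]
  apply dens_simple (A := W + 1) (B := W) (by linarith) (by linarith) (by linarith) finite_lh
  intro ε hε
  obtain ⟨C, hC⟩ := pair_boundW hW hξ hind ε hε
  exact ⟨C, fun u v h1 h2 _ _ => hC u v h1 h2⟩

/-- exponents between two and `2 W + 1` -/
theorem dens_lowW {W u : ℝ} (hW : 0 ≤ W) (hξ : LinW ξ W)
    (hind : ∀ v : Fin 3 → ℤ, v ≠ 0 → ∑ i, (v i : ℝ) * th ξ t i ≠ 0) (hu : 1 < u) (hroot : u ^ 2 = W * u + W)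
    (hw : 2 < w) (hw3 : w ≤ 2 * W + 1) :
    lowerDensity (nearScales (th ξ t) w) ≤ 1 / w * (W + 1) + (1 / w * (W + 1 + W) - 1) / (u - 1) := by
  have hw0 : 0 < w := by linarith
  have hnn : 0 ≤ (1 / w * (W + 1 + W) - 1) / (u - 1) := by
    apply div_nonneg _ (by linarith)
    rw [sub_nonneg, one_div, ← div_eq_inv_mul, one_le_div hw0]
    linarith
  have hmul : 0 ≤ 1 / w * W := by positivity
  have h1w0 : 0 ≤ 1 / w := by positivity
  rw [nearScales_eq hind]
  by_cases hunb : ∀ B : ℝ, ∃ x ∈ goodScales (lh (ι := Fin 3)) (lv (th ξ t)) w, B ≤ x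
  swap
  · push Not at hunb
    obtain ⟨B, hB⟩ := hunb
    rw [lowerDensity_of_bdd (fun x hx => (hB x hx).le)]
    linarith
  obtain ⟨s, hs⟩ := exists_goodSeq hw0 finite_lh hunb
  set P : ℕ → Prop := fun k => dt (cr (s k).1 (s (k + 1)).1) (s (k + 2)).1 ≠ 0 with hPdef
  by_cases hinf : {k | P k}.Infinite
  · -- the subsequence
    obtain ⟨b, hb⟩ : ∃ b : ℕ → ℕ, b = Nat.nth P := ⟨_, rfl⟩
    have hbm : StrictMono b := by rw [hb]; exact Nat.nth_strictMono hinf
    have hbs : ∀ n, b n < b (n + 1) := fun n => hbm (Nat.lt_succ_self n)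
    have hbP : ∀ n, P (b n) := fun n => by rw [hb]; exact Nat.nth_mem_of_infinite hinf n
    have hbn : ∀ n k, b n < k → k < b (n + 1) → ¬ P k := by
      intro n k h1 h2 hk
      classical
      have h3 : Nat.nth P (Nat.count P k) = k := Nat.nth_count hk
      rw [hb, ← h3] at h1
      rw [← h3, hb] at h2
      have h4 := (Nat.nth_strictMono hinf).lt_iff_lt.1 h1
      have h5 := (Nat.nth_strictMono hinf).lt_iff_lt.1 h2
      omega
    -- `a n = b n + 1` are the indices of the shared vectors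
    have hlim : Tendsto (fun n => lh (s (b n + 1))) atTop atTop :=
      hs.lim.comp ((tendsto_add_atTop_nat 1).comp hbm.tendsto_atTop)
    refine lowerDensity_le hlim (fun η hη N => ?_)
    exact seq_double (x := fun n => lh (s (b n + 1))) (ℓ := fun n => lv (th ξ t) (s (b (n + 1))))
      (f := fun n => (volume (goodScales (lh (ι := Fin 3)) (lv (th ξ t)) w ∩ Icc 0 (lh (s (b n + 1))))).toReal)
      (a := 1 / w) (A := W + 1) (B := W) (α := 1) (β := 1) (u := u)
      (by positivity) hW one_pos hu (by rw [hroot]; ring) hlim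
      (fun n => hs.meas' hw0 (b n + 1) (b (n + 1)) (by have := hbs n; omega))
      (fun ε hε => by
        obtain ⟨C, hC⟩ := chain_boundW hW hξ hind hs ε hε
        refine ⟨C, fun n => ?_⟩
        have hlt := hbs n
        have h1 := hC (b n + 1) (b (n + 1)) (by omega) (fun k hk1 hk2 => by
          have := hbn n k (by omega) hk2
          rw [hPdef] at this
          push Not at this
          exact this)
        have h2 : lh (s (b n + 1 + 1)) ≤ lh (s (b (n + 1) + 1)) := hs.monoX.monotone (by omega)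
        have h3 := mul_le_mul_of_nonneg_left h2 (by linarith : (0 : ℝ) ≤ W + ε)
        linarith)
      ⟨Real.log 6, fun n => by
        have h1 := triple_bound hind hs (b (n + 1)) (hbP (n + 1))
        have h2 : lh (s (b (n + 1) + 2)) ≤ lh (s (b (n + 2) + 1)) :=
          hs.monoX.monotone (by have : b (n + 1) < b (n + 2) := hbs (n + 1); omega)
        linarith⟩
      (by rw [one_div, ← div_eq_inv_mul, div_lt_one hw0]; linarith)
      (by rw [one_div, ← div_eq_inv_mul, one_le_div hw0]; linarith) η hη N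
  · -- finally in one plane
    rw [Set.not_infinite] at hinf
    obtain ⟨M, hM⟩ := hinf.bddAbove
    have hM' : ∀ k, M < k → dt (cr (s k).1 (s (k + 1)).1) (s (k + 2)).1 = 0 := by
      intro k hk
      by_contra hcon
      exact absurd (hM (show k ∈ {k | P k} from hcon)) (by omega)
    have hlim : Tendsto (fun n => lh (s (n + (M + 1)))) atTop atTop :=
      hs.lim.comp (tendsto_add_atTop_nat (M + 1))
    have h1w : lowerDensity (goodScales (lh (ι := Fin 3)) (lv (th ξ t)) w) ≤ 1 / w := by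
      refine lowerDensity_le hlim (fun η hη N => ?_)
      obtain ⟨N', hN'⟩ := seq_simple (x := fun n => lh (s (n + (M + 1))))
        (ℓ := fun n => lv (th ξ t) (s (n + (M + 1))))
        (f := fun n => (volume (goodScales (lh (ι := Fin 3)) (lv (th ξ t)) w ∩
          Icc 0 (lh (s (n + (M + 1)))))).toReal) (a := 1 / w) (A := 1) (B := 0)
        (by positivity) hlim (fun n => by
          have := hs.meas hw0 (n + (M + 1))
          rwa [show n + (M + 1) + 1 = n + 1 + (M + 1) by ring] at this)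
        (fun ε hε => by
          obtain ⟨C, hC⟩ := chain_boundW hW hξ hind hs 1 one_pos
          refine ⟨(W + 1) * (lh (s (M + 1)) + lh (s (M + 1 + 1))) + C, fun n => ?_⟩
          have h1 := hC (M + 1) (n + (M + 1)) (by omega) (fun k hk1 _ => hM' k (by omega))
          rw [show n + (M + 1) + 1 = n + 1 + (M + 1) by ring] at h1
          have h2 := mul_nonneg hε.le (lh_nonneg (s (n + 1 + (M + 1))))
          have h3 := mul_nonneg hε.le (lh_nonneg (s (n + (M + 1))))
          linarith)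
        (by rw [one_div, ← div_eq_inv_mul, div_lt_one hw0]; linarith) η hη
      refine ⟨max N N', le_max_left _ _, ?_⟩
      have := hN' _ (le_max_right N N')
      rwa [mul_one] at this
    linarith

end Pool.Agent.H595.Dens
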