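import Pool.Agent.H595.Dens.Fin
import Pool.Agent.H595.Dens.WThree
import Pool.Agent.H595.Dens.WConstr

/-!
# The irrationality exponent
-/

set_option autoImplicit false

namespace Pool.Agent.H595.Dens

open MeasureTheory Filter Topology Set Real

/-- a measure of irrationality with the exponent `μ` -/
def Meas (ξ μ : ℝ) : Prop := ∃ c : ℝ, 0 < c ∧ ∀ p q : ℤ, 1 ≤ q → c / (q : ℝ) ^ μ ≤ |ξ - p / q|

theorem Meas.mono {ξ μ μ' : ℝ} (h : Meas ξ μ) (hμ : μ ≤ μ') : Meas ξ μ' := by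
  obtain ⟨c, hc, h⟩ := h
  refine ⟨c, hc, fun p q hq => le_trans ?_ (h p q hq)⟩
  have hq1 : (1 : ℝ) ≤ q := by exact_mod_cast hq
  have : 0 < (q : ℝ) ^ μ := Real.rpow_pos_of_pos (by linarith) _
  gcongr

theorem mul_sub_eq {ξ : ℝ} {p q : ℤ} (hq : 1 ≤ q) : |(q : ℝ) * ξ - p| = q * |ξ - p / q| := by
  have hq0 : (0 : ℝ) < q := by exact_mod_cast hq
  rw [← abs_of_pos hq0, ← abs_mul, abs_of_pos hq0]
  congr 1
  field_simp

theorem Meas.two_le {ξ μ : ℝ} (h : Meas ξ μ) : 2 ≤ μ := by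
  by_contra hcon
  rw [not_le] at hcon
  obtain ⟨ν, hν1, hν2, hν3⟩ : ∃ ν : ℝ, 1 ≤ ν ∧ ν < 2 ∧ μ ≤ ν :=
    ⟨max μ 1, le_max_right _ _, max_lt hcon (by norm_num), le_max_left _ _⟩
  obtain ⟨c, hc, h⟩ := h.mono hν3
  obtain ⟨n, hn⟩ : ∃ n : ℕ, 1 / c < (n : ℝ) ^ (2 - ν) ∧ 1 ≤ n := by
    have h1 := (tendsto_rpow_atTop (show 0 < 2 - ν by linarith)).comp tendsto_natCast_atTop_atTop
    obtain ⟨n, hn, hn'⟩ := ((h1.eventually (eventually_gt_atTop (1 / c))).and (eventually_ge_atTop 1)).exists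
    exact ⟨n, hn, hn'⟩
  obtain ⟨hn1, hn2⟩ := hn
  obtain ⟨j, k, hk0, hkn, hjk⟩ := Real.exists_int_int_abs_mul_sub_le ξ (show 0 < n by omega)
  have h1 := h j k (by omega)
  have hk1 : (1 : ℝ) ≤ k := by exact_mod_cast (show (1 : ℤ) ≤ k by omega)
  have hn3 : (1 : ℝ) ≤ n := by exact_mod_cast hn2
  have hkn' : (k : ℝ) ≤ n := by exact_mod_cast hkn
  rw [mul_sub_eq (by omega)] at hjk
  have h2 : c * (n : ℝ) ^ (1 - ν) ≤ k * |ξ - j / k| := by
    calc c * (n : ℝ) ^ (1 - ν) ≤ c * (k : ℝ) ^ (1 - ν) := by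
          apply mul_le_mul_of_nonneg_left _ hc.le
          apply Real.rpow_le_rpow_of_nonpos (by linarith) hkn' (by linarith)
      _ = k * (c / (k : ℝ) ^ ν) := by
          rw [Real.rpow_sub (by linarith), Real.rpow_one]
          ring
      _ ≤ _ := mul_le_mul_of_nonneg_left h1 (by linarith)
  have h3 : c * (n : ℝ) ^ (1 - ν) ≤ 1 / n := by
    refine h2.trans (hjk.trans ?_)
    apply one_div_le_one_div_of_le (by linarith)
    linarith
  rw [le_div_iff₀ (by linarith), mul_assoc] at h3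
  have h4 : (n : ℝ) ^ (1 - ν) * n = (n : ℝ) ^ (2 - ν) := by
    rw [show (2 - ν) = (1 - ν) + 1 by ring, Real.rpow_add (by linarith), Real.rpow_one]
  rw [h4] at h3
  rw [div_lt_iff₀' hc] at hn1
  linarith

theorem Meas.ne {ξ μ : ℝ} (h : Meas ξ μ) (p q : ℤ) (hq : 1 ≤ q) : 0 < |(q : ℝ) * ξ - p| := by
  obtain ⟨c, hc, h⟩ := h
  have hq0 : (0 : ℝ) < q := by exact_mod_cast hq
  have := h p q hq
  rw [mul_sub_eq hq]
  have : 0 < c / (q : ℝ) ^ μ := div_pos hc (Real.rpow_pos_of_pos hq0 _)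
  exact mul_pos hq0 (by linarith)

theorem Meas.irrational {ξ μ : ℝ} (h : Meas ξ μ) : Irrational ξ := by
  intro hcon
  obtain ⟨r, hr⟩ := hcon
  have h1 := h.ne r.num r.den (by exact_mod_cast r.pos)
  rw [← hr] at h1
  have h2 : ((r.den : ℤ) : ℝ) * (r : ℝ) - r.num = 0 := by
    have : ((r.den : ℚ)) * r = r.num := r.den_mul_eq_num
    have h3 : ((r.den : ℝ)) * (r : ℝ) = r.num := by exact_mod_cast this
    rw [Int.cast_natCast, h3, sub_self]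
  rw [h2, abs_zero] at h1
  exact lt_irrefl _ h1

theorem linW_of_meas {ξ W : ℝ} (hW : 0 ≤ W) (h : ∀ ε : ℝ, 0 < ε → Meas ξ (W + 1 + ε)) : LinW ξ W := by
  intro ε hε
  obtain ⟨c, hc, h1⟩ := h ε hε
  have key : ∀ (p q : ℤ) (H : ℝ), 1 ≤ q → |(q : ℝ)| ≤ H → c ≤ H ^ (W + ε) * |q * ξ - p| := by
    intro p q H hq hqH
    have hq0 : (0 : ℝ) < q := by exact_mod_cast hq
    have h2 := h1 p q hq
    rw [div_le_iff₀ (Real.rpow_pos_of_pos hq0 _)] at h2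
    rw [abs_of_pos hq0] at hqH
    calc c ≤ |ξ - p / q| * (q : ℝ) ^ (W + 1 + ε) := h2
      _ = (q : ℝ) ^ (W + ε) * |q * ξ - p| := by
          rw [mul_sub_eq hq, show W + 1 + ε = (W + ε) + 1 by ring, Real.rpow_add hq0, Real.rpow_one]
          ring
      _ ≤ H ^ (W + ε) * |q * ξ - p| := by gcongr
  refine ⟨min c 1, lt_min hc one_pos, fun p q H hpq hH hp hq => ?_⟩
  rcases lt_trichotomy q 0 with h2 | h2 | h2
  · have := key (-p) (-q) H (by omega) (by rw [Int.cast_neg, abs_neg]; exact hq)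
    refine (min_le_left _ _).trans (this.trans (le_of_eq ?_))
    congr 1
    rw [← abs_neg]
    congr 1
    push_cast
    ring
  · have hp0 : p ≠ 0 := fun h => hpq ⟨h, h2⟩
    have h3 : (1 : ℝ) ≤ |(p : ℝ)| := by exact_mod_cast Int.one_le_abs hp0
    have h4 : 1 ≤ H ^ (W + ε) := Real.one_le_rpow hH (by linarith)
    rw [h2, Int.cast_zero, zero_mul, zero_sub, abs_neg]
    refine (min_le_right _ _).trans ?_
    nlinarith
  · exact (min_le_left _ _).trans (key p q H (by omega) hq)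

theorem LinW.mono {ξ W W' : ℝ} (h : LinW ξ W) (hW : W ≤ W') : LinW ξ W' := by
  intro ε hε
  obtain ⟨c, hc, h⟩ := h ε hε
  refine ⟨c, hc, fun p q H h1 h2 h3 h4 => (h p q H h1 h2 h3 h4).trans ?_⟩
  gcongr

/-- `1` and `ξ` in three dimensions -/
theorem linM_of_linW {ξ W : ℝ} (h : LinW ξ W) : LinM (![1, ξ, 0] : Fin 3 → ℝ) 2 W := by
  intro ε hε
  obtain ⟨c, hc, h1⟩ := h ε hε
  refine ⟨c, hc, fun v H hv hv2 hH hvH => ?_⟩
  have h2 := h1 (-(v 0)) (v 1) H (by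
    rintro ⟨h3, h4⟩
    apply hv
    funext i
    fin_cases i
    · show v 0 = 0
      omega
    · exact h4
    · exact hv2) hH (by rw [Int.cast_neg, abs_neg]; exact hvH 0) (hvH 1)
  have h3 : ∑ i, (v i : ℝ) * (![1, ξ, 0] : Fin 3 → ℝ) i = v 1 * ξ - ((-(v 0) : ℤ) : ℝ) := by
    rw [Fin.sum_univ_three]
    simp
    ring
  rw [h3]
  exact h2

theorem gap {ξ : ℝ} (hξ : ∀ p q : ℤ, 1 ≤ q → 0 < |(q : ℝ) * ξ - p|) (N : ℕ) :
    ∃ δ : ℝ, 0 < δ ∧ ∀ p q : ℤ, 1 ≤ q → q ≤ N → δ ≤ |(q : ℝ) * ξ - p| := by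
  induction N with
  | zero => exact ⟨1, one_pos, fun p q h1 h2 => by omega⟩
  | succ N ih =>
    obtain ⟨δ, hδ, h⟩ := ih
    refine ⟨min δ |(((N : ℤ) + 1 : ℤ) : ℝ) * ξ - round ((((N : ℤ) + 1 : ℤ) : ℝ) * ξ)|,
      lt_min hδ (hξ _ _ (by omega)), fun p q h1 h2 => ?_⟩
    by_cases h3 : q ≤ N
    · exact (min_le_left _ _).trans (h p q h1 h3)
    · have h4 : q = (N : ℤ) + 1 := by push_cast at h2; omega
      rw [h4]
      exact (min_le_right _ _).trans (round_le _ p)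

/-- good approximations -/
theorem approx {ξ W : ℝ} (hW : 1 ≤ W) (hξ : ∀ p q : ℤ, 1 ≤ q → 0 < |(q : ℝ) * ξ - p|)
    (h : ∀ ε : ℝ, 0 < ε → ¬ Meas ξ (W + 1 - ε)) (ε : ℝ) (hε : 0 < ε) (N : ℕ) :
    ∃ Q : ℕ, N ≤ Q ∧ 1 ≤ Q ∧ ∃ P : Fin 3 → ℤ, P ≠ 0 ∧ P 2 = 0 ∧
      (∀ i, |(P i : ℝ)| ≤ Q) ∧ |∑ i, (P i : ℝ) * (![1, ξ, 0] : Fin 3 → ℝ) i| ≤ (Q : ℝ) ^ (-(W - ε)) := by
  obtain ⟨ε', hε', h1ε, h2ε⟩ : ∃ ε' : ℝ, 0 < ε' ∧ ε' ≤ 1 ∧ ε' ≤ ε :=
    ⟨min ε 1, lt_min hε one_pos, min_le_right _ _, min_le_left _ _⟩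
  obtain ⟨A, hA⟩ := exists_nat_ge (|ξ| + 1)
  have hA0 : (0 : ℝ) < A := by have := abs_nonneg ξ; linarith
  have hA1 : (1 : ℝ) ≤ A := by have := abs_nonneg ξ; linarith
  have hAn : 1 ≤ A := by exact_mod_cast hA1
  obtain ⟨δ, hδ, hgap⟩ := gap hξ N
  obtain ⟨c, hc⟩ : ∃ c : ℝ, c = min (min 1 (δ / 2)) ((A : ℝ) ^ (-(W - ε'))) := ⟨_, rfl⟩
  have hc0 : 0 < c := by
    rw [hc]
    exact lt_min (lt_min one_pos (by linarith)) (Real.rpow_pos_of_pos hA0 _)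
  have hc1 : c ≤ 1 := by rw [hc]; exact (min_le_left _ _).trans (min_le_left _ _)
  have hc2 : c ≤ δ / 2 := by rw [hc]; exact (min_le_left _ _).trans (min_le_right _ _)
  have hc3 : c ≤ (A : ℝ) ^ (-(W - ε')) := by rw [hc]; exact min_le_right _ _
  have h1 := h ε' hε'
  rw [Meas] at h1
  push Not at h1
  obtain ⟨p, q, hq, hpq⟩ := h1 c hc0
  have hq1 : (1 : ℝ) ≤ q := by exact_mod_cast hq
  have hq0 : (0 : ℝ) < q := by linarith
  have h2 : |(q : ℝ) * ξ - p| ≤ c * (q : ℝ) ^ (-(W - ε')) := by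
    rw [mul_sub_eq hq]
    have h3 := mul_le_mul_of_nonneg_left hpq.le hq0.le
    refine h3.trans (le_of_eq ?_)
    rw [show -(W - ε') = 1 - (W + 1 - ε') by ring, Real.rpow_sub hq0 1 (W + 1 - ε'), Real.rpow_one]
    ring
  have h3 : (q : ℝ) ^ (-(W - ε')) ≤ 1 := Real.rpow_le_one_of_one_le_of_nonpos hq1 (by linarith)
  have h4 : |(q : ℝ) * ξ - p| ≤ c := h2.trans (by
    have := mul_le_mul_of_nonneg_left h3 hc0.le
    linarith)
  -- `q` is large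
  have h5 : (N : ℤ) < q := by
    by_contra hcon
    have := hgap p q hq (not_lt.1 hcon)
    linarith
  obtain ⟨m, hm⟩ : ∃ m : ℕ, (m : ℤ) = q := ⟨q.toNat, Int.toNat_of_nonneg (by omega)⟩
  have hmr : (m : ℝ) = q := by exact_mod_cast hm
  refine ⟨A * m, ?_, ?_, ![-p, q, 0], ?_, rfl, ?_, ?_⟩
  · have h6 : N ≤ m := by omega
    calc N ≤ m := h6
      _ = 1 * m := (one_mul m).symm
      _ ≤ A * m := Nat.mul_le_mul_right m hAn
  · have h6 : 1 ≤ m := by omega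
    calc 1 = 1 * 1 := rfl
      _ ≤ A * m := Nat.mul_le_mul hAn h6
  · intro h6
    have := congrFun h6 1
    simp at this
    omega
  · have hp : |(p : ℝ)| ≤ A * q := by
      have h7 : |(p : ℝ)| ≤ |(q : ℝ) * ξ - p| + |(q : ℝ) * ξ| := by
        have := abs_sub_abs_le_abs_sub (p : ℝ) (q * ξ)
        rw [abs_sub_comm] at this
        linarith
      rw [abs_mul, abs_of_pos hq0] at h7
      have h8 := mul_le_mul_of_nonneg_right hA hq0.le
      linarith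
    intro i
    push_cast
    rw [hmr]
    fin_cases i
    · show |((-p : ℤ) : ℝ)| ≤ _
      rw [Int.cast_neg, abs_neg]
      exact hp
    · show |((q : ℤ) : ℝ)| ≤ _
      rw [abs_of_pos hq0]
      nlinarith
    · show |((0 : ℤ) : ℝ)| ≤ _
      rw [Int.cast_zero, abs_zero]
      positivity
  · have e1 : ∑ i, ((![-p, q, 0] : Fin 3 → ℤ) i : ℝ) * (![1, ξ, 0] : Fin 3 → ℝ) i = q * ξ - p := by
      rw [Fin.sum_univ_three]
      simp
      ring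
    rw [e1]
    push_cast
    rw [hmr]
    have h6 : |(q : ℝ) * ξ - p| ≤ ((A : ℝ) * q) ^ (-(W - ε')) := by
      refine h2.trans ?_
      rw [Real.mul_rpow hA0.le hq0.le]
      exact mul_le_mul_of_nonneg_right hc3 (Real.rpow_pos_of_pos hq0 _).le
    refine h6.trans ?_
    apply Real.rpow_le_rpow_of_exponent_le
    · nlinarith
    · linarith

/-- `t` with many near relations between `1`, `ξ`, `t` -/
theorem exists_t_threeW {ξ W : ℝ} (hW : 1 ≤ W) (h1 : ∀ ε : ℝ, 0 < ε → Meas ξ (W + 1 + ε))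
    (h2 : ∀ ε : ℝ, 0 < ε → ¬ Meas ξ (W + 1 - ε)) {a b : ℝ} (hab : a < b) :
    ∃ t : ℝ, a < t ∧ t < b ∧ (∀ v : Fin 3 → ℤ, v ≠ 0 → ∑ i, (v i : ℝ) * th ξ t i ≠ 0) ∧
      ∀ w : ℝ, W + 1 ≤ w → (W + 1) / w ≤ lowerDensity (nearScales (th ξ t) w) := by
  obtain ⟨r, hr1, hr2⟩ := exists_rat_btwn hab
  obtain ⟨δ, hδ⟩ : ∃ δ : ℝ, δ = min (r - a) (b - r) / 2 := ⟨_, rfl⟩
  have hm : 0 < min ((r : ℝ) - a) (b - r) := lt_min (by linarith) (by linarith)
  have hδ0 : 0 < δ := by rw [hδ]; linarith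
  obtain ⟨K, hK⟩ := exists_nat_ge W
  have hne := (h1 1 one_pos).ne
  obtain ⟨t, ht1, ht2, ht3⟩ := exists_tW (ξ := (![1, ξ, 0] : Fin 3 → ℝ)) (i₀ := 2) (K := K) (W := W) (by simp)
    (linM_of_linW ((linW_of_meas (by linarith) h1).mono hK)) hW (approx hW hne h2) ![-r.num, 0, r.den] (by
      show (0 : ℤ) < (r.den : ℤ)
      exact_mod_cast r.pos) δ hδ0
  have htv : tv (![1, ξ, 0] : Fin 3 → ℝ) 2 ![-r.num, 0, r.den] = r := by
    rw [tv, Fin.sum_univ_three]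
    simp only [Matrix.cons_val_zero, Matrix.cons_val_one, Matrix.cons_val]
    push_cast
    have h1 : (r : ℝ) = (r.num : ℝ) / (r.den : ℝ) := by exact_mod_cast (Rat.num_div_den r).symm
    rw [h1]
    congr 1
    ring
  rw [htv] at ht1
  rw [update_th] at ht2
  have h1 := abs_le.1 ht1
  have h2 : δ < r - a := by
    have := min_le_left ((r : ℝ) - a) (b - r)
    rw [hδ]
    linarith
  have h3 : δ < b - r := by
    have := min_le_right ((r : ℝ) - a) (b - r)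
    rw [hδ]
    linarith
  refine ⟨t, by linarith, by linarith, ht2, fun w hw => ?_⟩
  have h4 := ht3 w hw
  rwa [update_th] at h4

/-- the irrationality exponent -/
noncomputable def irrExp (x : ℝ) : ℝ := sInf {μ : ℝ | Meas x μ}

theorem irrExp_spec {x : ℝ} (h : ∃ μ, Meas x μ) : 2 ≤ irrExp x ∧ (∀ μ, Meas x μ → irrExp x ≤ μ) ∧
    (∀ ε : ℝ, 0 < ε → Meas x (irrExp x - 1 + 1 + ε)) ∧ (∀ ε : ℝ, 0 < ε → ¬ Meas x (irrExp x - 1 + 1 - ε)) := by
  have hne : {μ : ℝ | Meas x μ}.Nonempty := h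
  have hb : BddBelow {μ : ℝ | Meas x μ} := ⟨2, fun μ hμ => Meas.two_le hμ⟩
  refine ⟨le_csInf hne fun μ hμ => Meas.two_le hμ, fun μ hμ => csInf_le hb hμ, fun ε hε => ?_, fun ε hε h1 => ?_⟩
  · obtain ⟨μ, hμ, hlt⟩ := exists_lt_of_csInf_lt hne (show sInf {μ : ℝ | Meas x μ} < irrExp x + ε by
      rw [irrExp]; linarith)
    exact Meas.mono hμ (by linarith)
  · have := csInf_le hb (show irrExp x - 1 + 1 - ε ∈ {μ : ℝ | Meas x μ} from h1)
    rw [← irrExp] at this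
    linarith

end Pool.Agent.H595.Dens
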